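import Mathlib

/-!
# Topological minimizers of the Mumford-Shah energy (closed sets with labels): definitions

Objects are triples `(u, l, K)` in an open set `Ω`: `K ⊆ Ω` is relatively closed with locally
finite length, `u` is a function of class `C¹` off `K`, and `l` is a label which is locally constant
off `K`.  Competitors may not merge regions with different labels.
-/

set_option autoImplicit false

namespace Pool.Agent.MP099f24

open MeasureTheory Filter Topology Set Metric
open scoped ENNReal ContDiff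

/-- the gradient of `w` at `x`, as a complex number -/
noncomputable def cgr (w : ℂ → ℝ) (x : ℂ) : ℂ :=
  (fderiv ℝ w x 1 : ℂ) + (fderiv ℝ w x Complex.I : ℂ) * Complex.I

/-- the energy of the pair `(w, K)` in the set `A` -/
noncomputable def cen (w : ℂ → ℝ) (K A : Set ℂ) : ℝ≥0∞ :=
  (∫⁻ x in A \ K, ‖cgr w x‖ₑ ^ 2) + (μH[1] : Measure ℂ) (K ∩ A)

/-- An admissible triple `(w, l, K)` in `Ω`. -/
structure TConf (Ω : Set ℂ) (w : ℂ → ℝ) (l : ℂ → Set ℂ) (K : Set ℂ) : Prop where
  isOpen : IsOpen Ω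
  sub : K ⊆ Ω
  isOpen_off : IsOpen (Ω \ K)
  smooth : ContDiffOn ℝ 1 w (Ω \ K)
  lab : ∀ x ∈ Ω \ K, ∀ᶠ y in 𝓝 x, l y = l x
  fin : ∀ C, IsCompact C → C ⊆ Ω → cen w K C < ⊤

/-- A topological minimizer `(u, l, K)` in `Ω`. -/
structure TMin (Ω : Set ℂ) (u : ℂ → ℝ) (l : ℂ → Set ℂ) (K : Set ℂ) : Prop
    extends TConf Ω u l K where
  /-- `u` is harmonic off `K` (its gradient is the conjugate of a holomorphic function) -/
  hol : DifferentiableOn ℂ (fun x => (starRingEnd ℂ) (cgr u x)) (Ω \ K)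
  /-- the sharp lower density bound -/
  dens : ∀ x ∈ K, ∀ r : ℝ, 0 < r → closedBall x r ⊆ Ω → ENNReal.ofReal (2 * r) ≤ cen u K (ball x r)
  /-- minimality among the triples which agree with `(u, l, K)` off a compact set `F` -/
  min : ∀ (w : ℂ → ℝ) (l' : ℂ → Set ℂ) (K' F : Set ℂ), TConf Ω w l' K' → IsCompact F → F ⊆ Ω →
    (∀ x ∈ Ω \ F, (x ∈ K' ↔ x ∈ K)) → (∀ x ∈ Ω \ F, x ∉ K → w x = u x ∧ l' x = l x) →
    cen u K F ≤ cen w K' F

/-- The label given by the connected components of the complement of `K` (the weakest minimality).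
-/
def clab (K : Set ℂ) (x : ℂ) : Set ℂ := connectedComponentIn Kᶜ x

/-- A global element: a topological minimizer in the plane with the labels given by the components
of the complement of `K`. -/
def TGlob (u : ℂ → ℝ) (K : Set ℂ) : Prop := TMin univ u (clab K) K

/-- `K` has no nonempty compact relatively open subset. -/
def NoPiece (K : Set ℂ) : Prop :=
  ∀ C : Set ℂ, IsCompact C → C.Nonempty → C ⊆ K → ¬ IsClosed (K \ C)

/-- Convergence of `(u_n, K_n)` to `(u, K)` in the plane: local convergence of the sets, locally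
uniform convergence of the gradients off `K`, and convergence of the energies. -/
structure TConv (un : ℕ → ℂ → ℝ) (Kn : ℕ → Set ℂ) (u : ℂ → ℝ) (K : Set ℂ) : Prop where
  near : ∀ x ∈ K, ∀ ε : ℝ, 0 < ε → ∀ᶠ n in atTop, (Kn n ∩ ball x ε).Nonempty
  far : ∀ C, IsCompact C → Disjoint C K → ∀ᶠ n in atTop, Disjoint C (Kn n)
  grad : ∀ C, IsCompact C → Disjoint C K → ∀ ε : ℝ, 0 < ε →
    ∀ᶠ n in atTop, ∀ x ∈ C, ‖cgr (un n) x - cgr u x‖ ≤ ε
  lsc : ∀ A, IsOpen A → cen u K A ≤ liminf (fun n => cen (un n) (Kn n) A) atTop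
  usc : ∀ (a : ℂ) (r : ℝ), limsup (fun n => cen (un n) (Kn n) (closedBall a r)) atTop ≤
    cen u K (closedBall a r)

end Pool.Agent.MP099f24
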