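import Mathlib
import Pool.Agent.Lib.MP_099f24_an.TM.Defs
import Pool.Agent.Lib.MP_099f24_an.SD.Count

/-!
# Topological minimizers: basic calculus of the gradient and of the energy
-/

set_option autoImplicit false

namespace Pool.Agent.MP099f24

open MeasureTheory Filter Topology Set Metric
open scoped ENNReal ContDiff

variable {Ω : Set ℂ} {u w : ℂ → ℝ} {l : ℂ → Set ℂ} {K : Set ℂ}

theorem cgr_inner (w : ℂ → ℝ) (x v : ℂ) : inner ℝ (cgr w x) v = fderiv ℝ w x v := by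
  have h1 : v = v.re • (1 : ℂ) + v.im • Complex.I := by
    rw [Complex.real_smul, Complex.real_smul, mul_one, Complex.re_add_im]
  have h2 : fderiv ℝ w x v = v.re * fderiv ℝ w x 1 + v.im * fderiv ℝ w x Complex.I := by
    conv_lhs => rw [h1]
    rw [map_add, map_smul, map_smul, smul_eq_mul, smul_eq_mul]
  rw [h2, Complex.inner, cgr]
  simp

theorem cgr_norm (w : ℂ → ℝ) (x : ℂ) : ‖cgr w x‖ = ‖fderiv ℝ w x‖ := by
  refine le_antisymm ?_ ?_
  · rcases eq_or_ne (cgr w x) 0 with h | h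
    · rw [h, norm_zero]; exact norm_nonneg _
    have h1 : ‖cgr w x‖ * ‖cgr w x‖ ≤ ‖fderiv ℝ w x‖ * ‖cgr w x‖ := by
      rw [← real_inner_self_eq_norm_mul_norm, cgr_inner]
      exact (le_abs_self _).trans ((fderiv ℝ w x).le_opNorm _)
    exact le_of_mul_le_mul_right h1 (norm_pos_iff.2 h)
  · refine ContinuousLinearMap.opNorm_le_bound _ (norm_nonneg _) fun v => ?_
    rw [← cgr_inner]
    exact norm_inner_le_norm (𝕜 := ℝ) _ _

/-- the gradient depends linearly on the derivative -/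
noncomputable def cgrL (L : ℂ →L[ℝ] ℝ) : ℂ := (L 1 : ℂ) + (L Complex.I : ℂ) * Complex.I

theorem cgr_eq_cgrL (w : ℂ → ℝ) (x : ℂ) : cgr w x = cgrL (fderiv ℝ w x) := rfl

theorem cgr_of {w : ℂ → ℝ} {x : ℂ} {L : ℂ →L[ℝ] ℝ} (h : HasFDerivAt w L x) :
    cgr w x = cgrL L := by
  rw [cgr_eq_cgrL, h.fderiv]

theorem cgrL_continuous : Continuous cgrL := by
  unfold cgrL
  fun_prop

theorem cgr_congr {w w' : ℂ → ℝ} {x : ℂ} (h : w =ᶠ[𝓝 x] w') : cgr w x = cgr w' x := by
  rw [cgr, cgr, h.fderiv_eq]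

theorem cgr_const (c : ℝ) (x : ℂ) : cgr (fun _ => c) x = 0 := by
  rw [cgr]
  simp

theorem cgr_add {w w' : ℂ → ℝ} {x : ℂ} (h : DifferentiableAt ℝ w x)
    (h' : DifferentiableAt ℝ w' x) : cgr (fun y => w y + w' y) x = cgr w x + cgr w' x := by
  rw [cgr_of (w := fun y => w y + w' y) (h.hasFDerivAt.add h'.hasFDerivAt),
    cgr_eq_cgrL, cgr_eq_cgrL]
  simp only [cgrL, add_apply, Complex.ofReal_add]
  ring

theorem cgr_neg (w : ℂ → ℝ) (x : ℂ) : cgr (fun y => - w y) x = - cgr w x := by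
  rw [cgr, cgr, show (fun y => - w y) = - w from rfl, fderiv_neg]
  simp only [neg_apply, Complex.ofReal_neg]
  ring

theorem cgr_sub {w w' : ℂ → ℝ} {x : ℂ} (h : DifferentiableAt ℝ w x)
    (h' : DifferentiableAt ℝ w' x) : cgr (fun y => w y - w' y) x = cgr w x - cgr w' x := by
  rw [cgr_of (w := fun y => w y - w' y) (h.hasFDerivAt.sub h'.hasFDerivAt),
    cgr_eq_cgrL, cgr_eq_cgrL]
  simp only [cgrL, sub_apply, Complex.ofReal_sub]
  ring

theorem cgr_mul {w w' : ℂ → ℝ} {x : ℂ} (h : DifferentiableAt ℝ w x)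
    (h' : DifferentiableAt ℝ w' x) :
    cgr (fun y => w y * w' y) x = (w x : ℂ) * cgr w' x + (w' x : ℂ) * cgr w x := by
  rw [cgr_of (w := fun y => w y * w' y) (h.hasFDerivAt.mul h'.hasFDerivAt),
    cgr_eq_cgrL, cgr_eq_cgrL]
  simp only [cgrL, add_apply, smul_apply, smul_eq_mul,
    Complex.ofReal_add, Complex.ofReal_mul]
  ring

theorem cgr_const_mul (c : ℝ) (w : ℂ → ℝ) (x : ℂ) :
    cgr (fun y => c * w y) x = (c : ℂ) * cgr w x := by
  have h1 : fderiv ℝ (fun y => c * w y) x = c • fderiv ℝ w x := by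
    rw [show (fun y => c * w y) = c • w from rfl, fderiv_const_smul_field]
    rfl
  rw [cgr, cgr, h1]
  simp only [smul_apply, smul_eq_mul, Complex.ofReal_mul]
  ring

theorem cgr_add_const (c : ℝ) (w : ℂ → ℝ) (x : ℂ) : cgr (fun y => w y + c) x = cgr w x := by
  rw [cgr, cgr]
  simp

theorem cgr_comp {w : ℂ → ℝ} {κ : ℝ → ℝ} {x : ℂ} (h : DifferentiableAt ℝ w x)
    (hκ : DifferentiableAt ℝ κ (w x)) :
    cgr (fun y => κ (w y)) x = ((deriv κ (w x) : ℝ) : ℂ) * cgr w x := by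
  rw [cgr_of (w := fun y => κ (w y)) (hκ.hasDerivAt.comp_hasFDerivAt x h.hasFDerivAt),
    cgr_eq_cgrL]
  simp only [cgrL, smul_apply, smul_eq_mul, Complex.ofReal_mul]
  ring

theorem cgr_affine (w : ℂ → ℝ) (a : ℂ) {r : ℝ} (_hr : 0 < r) (x : ℂ) :
    cgr (fun y => w (a + r • y)) x = (r : ℂ) * cgr w (a + r • x) := by
  have h1 : fderiv ℝ (fun y => w (a + r • y)) x = r • fderiv ℝ w (a + r • x) := by
    have h2 : (fun y => w (a + r • y)) = fun y => (fun z => w (a + z)) (r • y) := rfl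
    rw [h2, fderiv_comp_smul (f := fun z => w (a + z)), fderiv_comp_add_left]
  rw [cgr, cgr, h1]
  simp only [smul_apply, smul_eq_mul, Complex.ofReal_mul]
  ring

/-- the gradient of a composition with a map of the plane -/
theorem cgr_comp_inner {w : ℂ → ℝ} {Ψ : ℂ → ℂ} {x : ℂ} (h : DifferentiableAt ℝ w (Ψ x))
    (hΨ : DifferentiableAt ℝ Ψ x) (v : ℂ) :
    inner ℝ (cgr (fun y => w (Ψ y)) x) v = inner ℝ (cgr w (Ψ x)) (fderiv ℝ Ψ x v) := by
  rw [cgr_inner, cgr_inner, show (fun y => w (Ψ y)) = w ∘ Ψ from rfl, fderiv_comp _ h hΨ]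
  rfl

theorem cen_mono {A B : Set ℂ} (h : A ⊆ B) : cen w K A ≤ cen w K B :=
  add_le_add (lintegral_mono_set (sdiff_subset_sdiff_left h))
    (measure_mono (inter_subset_inter_right _ h))

theorem cen_union_le (A B : Set ℂ) : cen w K (A ∪ B) ≤ cen w K A + cen w K B := by
  unfold cen
  rw [union_sdiff_distrib, inter_union_distrib_left]
  calc _ ≤ ((∫⁻ x in A \ K, ‖cgr w x‖ₑ ^ 2) + ∫⁻ x in B \ K, ‖cgr w x‖ₑ ^ 2) +
      ((μH[1] : Measure ℂ) (K ∩ A) + (μH[1] : Measure ℂ) (K ∩ B)) :=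
        add_le_add (lintegral_union_le _ _ _) (measure_union_le _ _)
    _ = _ := by ring

theorem cen_add {A B : Set ℂ} (hB : MeasurableSet B) (hK : MeasurableSet K)
    (hAB : Disjoint A B) : cen w K (A ∪ B) = cen w K A + cen w K B := by
  unfold cen
  rw [union_sdiff_distrib, inter_union_distrib_left,
    lintegral_union (hB.diff hK) (hAB.mono sdiff_subset sdiff_subset),
    measure_union (hAB.mono inter_subset_right inter_subset_right) (hK.inter hB)]
  ring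

theorem cen_congr {w w' : ℂ → ℝ} {K K' A : Set ℂ} (hA : MeasurableSet A) (hK : MeasurableSet K)
    (hKK : ∀ x ∈ A, (x ∈ K ↔ x ∈ K')) (hw : ∀ x ∈ A, x ∉ K → cgr w x = cgr w' x) :
    cen w K A = cen w' K' A := by
  have h1 : A \ K' = A \ K := by
    ext x
    constructor
    · rintro ⟨h1, h2⟩; exact ⟨h1, fun h3 => h2 ((hKK x h1).1 h3)⟩
    · rintro ⟨h1, h2⟩; exact ⟨h1, fun h3 => h2 ((hKK x h1).2 h3)⟩
  have h2 : K' ∩ A = K ∩ A := by
    ext x
    constructor
    · rintro ⟨h1, h2⟩; exact ⟨(hKK x h2).2 h1, h2⟩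
    · rintro ⟨h1, h2⟩; exact ⟨(hKK x h2).1 h1, h2⟩
  unfold cen
  rw [h1, h2]
  congr 1
  refine setLIntegral_congr_fun (hA.diff hK) fun x hx => ?_
  rw [hw x hx.1 hx.2]

/-- the gradients of two functions which agree off the closed set `F` -/
theorem cgr_off {w w' : ℂ → ℝ} {K F : Set ℂ} (hF : IsClosed F) (hK : IsOpen (Ω \ K))
    (hw : ∀ x ∈ Ω \ F, x ∉ K → w' x = w x) :
    ∀ x ∈ Ω \ F, x ∉ K → cgr w' x = cgr w x := by
  intro x hx hxK
  apply cgr_congr
  have h1 : (Ω \ K) ∩ Fᶜ ∈ 𝓝 x := (hK.inter hF.isOpen_compl).mem_nhds ⟨⟨hx.1, hxK⟩, hx.2⟩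
  filter_upwards [h1] with y hy
  exact hw y ⟨hy.1.1, hy.2⟩ hy.1.2

theorem TConf.measurableSet (h : TConf Ω w l K) : MeasurableSet K := by
  have h1 : K = Ω \ (Ω \ K) := by
    rw [sdiff_sdiff_right_self, inter_eq_right.2 h.sub]
  rw [h1]
  exact h.isOpen.measurableSet.diff h.isOpen_off.measurableSet

theorem TConf.isClosed_inter (h : TConf Ω w l K) {F : Set ℂ} (hF : IsCompact F) (hFΩ : F ⊆ Ω) :
    IsCompact (K ∩ F) := by
  have h1 : K ∩ F = F \ (Ω \ K) := by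
    ext x
    constructor
    · rintro ⟨h1, h2⟩; exact ⟨h2, fun h3 => h3.2 h1⟩
    · rintro ⟨h1, h2⟩
      refine ⟨by_contra fun h3 => h2 ⟨hFΩ h1, h3⟩, h1⟩
  rw [h1]
  exact hF.diff h.isOpen_off

theorem tm_volume_zero {K : Set ℂ} (h : (μH[1] : Measure ℂ) K < ⊤) : volume K = 0 := by
  have h1 : (μH[2] : Measure ℂ) K = 0 := by
    rcases Measure.hausdorffMeasure_zero_or_top (X := ℂ) (d₁ := 1) (d₂ := 2) (by norm_num) K
      with h2 | h2
    · exact h2
    · exact absurd h2 h.ne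
  have h2 := MeasureTheory.hausdorffMeasure_pi_real (ι := Fin 2)
  have h3 : LipschitzWith 1 (fun z : ℂ => (![z.re, z.im] : Fin 2 → ℝ)) := by
    refine LipschitzWith.of_dist_le_mul fun z z' => ?_
    rw [NNReal.coe_one, one_mul, dist_pi_le_iff dist_nonneg]
    intro i
    fin_cases i
    · simp only [Fin.zero_eta, Matrix.cons_val_zero, Real.dist_eq, Complex.dist_eq]
      rw [← Complex.sub_re]
      exact Complex.abs_re_le_norm _
    · simp only [Fin.mk_one, Matrix.cons_val_one, Real.dist_eq, Complex.dist_eq]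
      simp only [Matrix.cons_val_fin_one]
      rw [← Complex.sub_im]
      exact Complex.abs_im_le_norm _
  have h4 : (μH[2] : Measure (Fin 2 → ℝ)) ((fun z : ℂ => (![z.re, z.im] : Fin 2 → ℝ)) '' K) = 0 := by
    have h5 := h3.hausdorffMeasure_image_le (d := 2) (by norm_num) K
    rw [h1, mul_zero] at h5
    exact le_antisymm h5 bot_le
  have h5 : (volume : Measure (Fin 2 → ℝ))
      ((fun z : ℂ => (![z.re, z.im] : Fin 2 → ℝ)) '' K) = 0 := by
    have h6 : (μH[2] : Measure (Fin 2 → ℝ)) = volume := by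
      have := h2
      simpa using this
    rw [← h6]
    exact h4
  have h6 := Complex.volume_preserving_equiv_pi
  have h7 : (fun z : ℂ => (![z.re, z.im] : Fin 2 → ℝ)) = Complex.measurableEquivPi := by
    ext z i
    fin_cases i <;> rfl
  rw [h7, MeasurableEquiv.image_eq_preimage_symm] at h5
  have h8 := h6.symm.measure_preimage_equiv K
  rw [← h8]
  exact h5

theorem TConf.volume_eq_zero (h : TConf Ω w l K) : volume K = 0 := by
  refine measure_null_of_locally_null K fun x hx => ?_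
  obtain ⟨r, hr, hrΩ⟩ := Metric.nhds_basis_closedBall.mem_iff.1 (h.isOpen.mem_nhds (h.sub hx))
  refine ⟨K ∩ closedBall x r, inter_mem self_mem_nhdsWithin
    (mem_nhdsWithin_of_mem_nhds (closedBall_mem_nhds x hr)), tm_volume_zero ?_⟩
  have h1 := h.fin _ (isCompact_closedBall x r) hrΩ
  exact (le_add_self).trans_lt h1

theorem TConf.continuousOn_cgr (h : TConf Ω w l K) : ContinuousOn (cgr w) (Ω \ K) := by
  have h1 : ContinuousOn (fderiv ℝ w) (Ω \ K) := h.smooth.continuousOn_fderiv_of_isOpen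
    h.isOpen_off le_rfl
  exact cgrL_continuous.comp_continuousOn h1

theorem TConf.haus_lt (h : TConf Ω w l K) {C : Set ℂ} (hC : IsCompact C) (hCΩ : C ⊆ Ω) :
    (μH[1] : Measure ℂ) (K ∩ C) < ⊤ :=
  le_add_self.trans_lt (h.fin C hC hCΩ)

theorem TConf.lint_lt (h : TConf Ω w l K) {C : Set ℂ} (hC : IsCompact C) (hCΩ : C ⊆ Ω) :
    ∫⁻ x in C \ K, ‖cgr w x‖ₑ ^ 2 < ⊤ :=
  le_self_add.trans_lt (h.fin C hC hCΩ)

theorem TConf.aesm (h : TConf Ω w l K) :
    AEStronglyMeasurable (cgr w) (volume.restrict (Ω \ K)) :=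
  h.continuousOn_cgr.aestronglyMeasurable h.isOpen_off.measurableSet

theorem TConf.aesm' (h : TConf Ω w l K) {C : Set ℂ} (hCΩ : C ⊆ Ω) :
    AEStronglyMeasurable (cgr w) (volume.restrict (C \ K)) :=
  h.aesm.mono_set (sdiff_subset_sdiff_left hCΩ)

/-- real and extended energy integrals -/
theorem tm_lint_eq {g : ℂ → ℂ} {S : Set ℂ} (hg : IntegrableOn (fun x => ‖g x‖ ^ 2) S) :
    ∫⁻ x in S, ‖g x‖ₑ ^ 2 = ENNReal.ofReal (∫ x in S, ‖g x‖ ^ 2) := by
  rw [ofReal_integral_eq_lintegral_ofReal hg (ae_of_all _ fun x => by positivity)]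
  refine lintegral_congr fun x => ?_
  rw [← ofReal_norm, ENNReal.ofReal_pow (norm_nonneg _)]

theorem tm_integrable {g : ℂ → ℂ} {S : Set ℂ} (hm : AEStronglyMeasurable g (volume.restrict S))
    (hg : ∫⁻ x in S, ‖g x‖ₑ ^ 2 < ⊤) : IntegrableOn (fun x => ‖g x‖ ^ 2) S := by
  refine ⟨(hm.norm.pow 2), ?_⟩
  rw [hasFiniteIntegral_iff_enorm]
  refine lt_of_le_of_lt (lintegral_mono fun x => ?_) hg
  rw [enorm_pow, enorm_norm]

theorem TConf.integrable_sq (h : TConf Ω w l K) {C : Set ℂ} (hC : IsCompact C) (hCΩ : C ⊆ Ω) :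
    IntegrableOn (fun x => ‖cgr w x‖ ^ 2) (C \ K) :=
  tm_integrable (h.aesm' hCΩ) (h.lint_lt hC hCΩ)

theorem TConf.isClosed (h : TConf univ w l K) : IsClosed K := by
  have h1 := h.isOpen_off
  rw [← compl_eq_univ_sdiff] at h1
  exact isOpen_compl_iff.1 h1

theorem TConf.diffAt (h : TConf Ω w l K) {x : ℂ} (hx : x ∈ Ω) (hxK : x ∉ K) :
    DifferentiableAt ℝ w x :=
  (h.smooth.contDiffAt (h.isOpen_off.mem_nhds ⟨hx, hxK⟩)).differentiableAt (by simp)

theorem clab_locConst {K : Set ℂ} (hK : IsClosed K) : ∀ x ∉ K, ∀ᶠ y in 𝓝 x,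
    clab K y = clab K x := by
  intro x hx
  have h1 : IsOpen (connectedComponentIn Kᶜ x) := hK.isOpen_compl.connectedComponentIn
  filter_upwards [h1.mem_nhds (mem_connectedComponentIn (mem_compl hx))] with y hy
  exact (connectedComponentIn_eq hy).symm

theorem tm_good {K : Set ℂ} {a : ℂ} {R : ℝ}
    (hK : ∀ s < R, (μH[1] : Measure ℂ) (K ∩ ball a s) < ⊤) :
    ∀ᵐ s ∂(volume.restrict (Ioo 0 R)), (K ∩ sphere a s).Finite := by
  filter_upwards [count_deriv hK] with s hs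
  by_contra hinf
  have hinf : (K ∩ sphere a s).Infinite := hinf
  obtain ⟨n, hn⟩ := exists_nat_gt (deriv (fun t => ((μH[1] : Measure ℂ) (K ∩ ball a t)).toReal) s)
  have h1 := hs n (by rw [hinf.encard_eq]; exact le_top)
  linarith

end Pool.Agent.MP099f24
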