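import Mathlib
import Pool.Agent.Lib.MP_099f24_an.TM.Defs
import Pool.Agent.Lib.MP_099f24_an.SD.Polar

/-!
# Topological minimizers, module UPP: upper energy bound and pointwise gradient bound
-/

set_option autoImplicit false

namespace Pool.Agent.MP099f24

open MeasureTheory Filter Topology Set Metric
open scoped ENNReal ContDiff

variable {Ω : Set ℂ} {u w : ℂ → ℝ} {l : ℂ → Set ℂ} {K : Set ℂ}

theorem upp_cgr_congr {w w' : ℂ → ℝ} {x : ℂ} (h : w =ᶠ[𝓝 x] w') : cgr w x = cgr w' x := by
  unfold cgr
  rw [h.fderiv_eq]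

theorem upp_cgr_zero (x : ℂ) : cgr (fun _ => (0 : ℝ)) x = 0 := by
  unfold cgr
  simp

/-- the length of a circle -/
theorem upp_sphere (a : ℂ) {r : ℝ} (hr : 0 ≤ r) :
    (μH[1] : Measure ℂ) (sphere a r) ≤ ENNReal.ofReal (2 * Real.pi * r) := by
  have h1 : sphere a r = circleMap a r '' Ioc 0 (2 * Real.pi) := by
    rw [image_circleMap_Ioc, abs_of_nonneg hr]
  rw [h1]
  refine ((lipschitzWith_circleMap a r).hausdorffMeasure_image_le zero_le_one _).trans ?_
  rw [hausdorffMeasure_real, Real.volume_Ioc, sub_zero, ENNReal.rpow_one]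
  have h2 : ((Real.nnabs r : NNReal) : ℝ≥0∞) = ENNReal.ofReal r := by
    rw [ENNReal.ofReal]
    congr 1
    apply NNReal.coe_injective
    rw [Real.coe_nnabs, Real.coe_toNNReal r hr, abs_of_nonneg hr]
  rw [h2, ← ENNReal.ofReal_mul hr, mul_comm]

open Classical in
theorem TMin.upper (h : TMin Ω u l K) {a : ℂ} {r : ℝ} (hr : 0 ≤ r) (hb : closedBall a r ⊆ Ω) :
    cen u K (closedBall a r) ≤ ENNReal.ofReal (2 * Real.pi * r) := by
  rcases hr.eq_or_lt with rfl | hr
  · rw [closedBall_zero]
    have h1 : (μH[1] : Measure ℂ) (K ∩ {a}) = 0 := by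
      have : NullSingletonClass (μH[1] : Measure ℂ) := Measure.nullSingletonClass_hausdorff ℂ zero_lt_one
      exact measure_mono_null inter_subset_right (measure_singleton a)
    have h2 : (∫⁻ x in {a} \ K, ‖cgr u x‖ₑ ^ 2) = 0 :=
      setLIntegral_measure_zero _ _ (measure_mono_null diff_subset (measure_singleton a))
    unfold cen
    rw [h1, h2]
    simp
  set w : ℂ → ℝ := fun x => if x ∈ closedBall a r then 0 else u x with hw
  set l' : ℂ → Set ℂ := fun x => if x ∈ closedBall a r then ∅ else l x with hl'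
  set K' : Set ℂ := (K \ ball a r) ∪ sphere a r with hK'
  have hΩ := h.isOpen
  have hoff : Ω \ K' = ball a r ∪ ((Ω \ K) ∩ (closedBall a r)ᶜ) := by
    ext x
    simp only [hK', Set.mem_sdiff, mem_union, mem_ball, mem_sphere, mem_inter_iff, mem_compl_iff,
      mem_closedBall]
    constructor
    · rintro ⟨h1, h2⟩
      push Not at h2
      rcases lt_trichotomy (dist x a) r with h3 | h3 | h3
      · left; exact h3
      · exact absurd h3 h2.2
      · right
        exact ⟨⟨h1, fun h4 => absurd (h2.1 h4) (not_lt.2 h3.le)⟩, not_le.2 h3⟩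
    · rintro (h1 | ⟨⟨h1, h2⟩, h3⟩)
      · refine ⟨hb (mem_closedBall.2 h1.le), ?_⟩
        rintro (h4 | h4)
        · exact h4.2 h1
        · exact h1.ne h4
      · refine ⟨h1, ?_⟩
        rintro (h4 | h4)
        · exact h2 h4.1
        · exact h3 h4.le
  have hin : ∀ x ∈ ball a r, w =ᶠ[𝓝 x] (fun _ => (0 : ℝ)) := by
    intro x hx
    filter_upwards [isOpen_ball.mem_nhds hx] with y hy
    simp only [hw, if_pos (ball_subset_closedBall hy)]
  have hout : ∀ x ∈ (closedBall a r)ᶜ, w =ᶠ[𝓝 x] u := by
    intro x hx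
    filter_upwards [isClosed_closedBall.isOpen_compl.mem_nhds hx] with y hy
    simp only [hw, if_neg hy]
  have hKu : K' ⊆ K ∪ sphere a r := union_subset_union_left _ diff_subset
  have hgle : ∀ x ∈ Ω \ K', ‖cgr w x‖ₑ ≤ (if x ∈ ball a r then 0 else ‖cgr u x‖ₑ) := by
    intro x hx
    rw [hoff] at hx
    rcases hx with h1 | h1
    · rw [if_pos h1, upp_cgr_congr (hin x h1), upp_cgr_zero]
      simp
    · rw [if_neg (fun h2 => h1.2 (ball_subset_closedBall h2)), upp_cgr_congr (hout x h1.2)]
  have hconf : TConf Ω w l' K' := by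
    refine ⟨hΩ, ?_, ?_, ?_, ?_, ?_⟩
    · rintro x (hx | hx)
      · exact h.sub hx.1
      · exact hb (sphere_subset_closedBall hx)
    · rw [hoff]
      exact isOpen_ball.union (h.isOpen_off.inter isClosed_closedBall.isOpen_compl)
    · intro x hx
      rw [hoff] at hx
      apply ContDiffAt.contDiffWithinAt
      rcases hx with h1 | h1
      · exact contDiffAt_const.congr_of_eventuallyEq (hin x h1)
      · exact ((h.smooth x h1.1).contDiffAt (h.isOpen_off.mem_nhds h1.1)).congr_of_eventuallyEq
          (hout x h1.2)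
    · intro x hx
      rw [hoff] at hx
      rcases hx with h1 | h1
      · filter_upwards [isOpen_ball.mem_nhds h1] with y hy
        simp only [hl', if_pos (ball_subset_closedBall hy), if_pos (ball_subset_closedBall h1)]
      · filter_upwards [isClosed_closedBall.isOpen_compl.mem_nhds h1.2, h.lab x h1.1] with y hy hy2
        simp only [hl', if_neg hy, if_neg h1.2, hy2]
    · intro C hC hCΩ
      have h1 := h.fin C hC hCΩ
      unfold cen at h1 ⊢
      rw [ENNReal.add_lt_top] at h1 ⊢
      constructor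
      · refine lt_of_le_of_lt ?_ h1.1
        have h2 : (∫⁻ x in C \ K', ‖cgr w x‖ₑ ^ 2) ≤
            ∫⁻ x in C \ K', (if x ∈ ball a r then 0 else ‖cgr u x‖ₑ) ^ 2 := by
          apply setLIntegral_mono_ae'
          · have : C \ K' = C ∩ (Ω \ K') := by
              ext x
              simp only [Set.mem_sdiff, mem_inter_iff]
              exact ⟨fun hx => ⟨hx.1, hCΩ hx.1, hx.2⟩, fun hx => ⟨hx.1, hx.2.2⟩⟩
            rw [this, hoff]
            exact hC.measurableSet.inter (isOpen_ball.union (h.isOpen_off.inter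
              isClosed_closedBall.isOpen_compl)).measurableSet
          · refine Eventually.of_forall fun x hx => ?_
            gcongr
            exact hgle x ⟨hCΩ hx.1, hx.2⟩
        refine h2.trans ?_
        have h3 : (fun x => (if x ∈ ball a r then 0 else ‖cgr u x‖ₑ : ℝ≥0∞) ^ 2) =
            (ball a r)ᶜ.indicator (fun x => ‖cgr u x‖ₑ ^ 2) := by
          funext x
          by_cases hx : x ∈ ball a r
          · rw [if_pos hx, indicator_of_notMem (by simpa using hx)]
            simp
          · rw [if_neg hx, indicator_of_mem (by simpa using hx)]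
        rw [h3, setLIntegral_indicator isOpen_ball.measurableSet.compl]
        apply lintegral_mono_set
        rintro x ⟨hx1, hx2, hx3⟩
        refine ⟨hx2, fun hx4 => hx3 ?_⟩
        left
        exact ⟨hx4, hx1⟩
      · have h2 : K' ∩ C ⊆ (K ∩ C) ∪ sphere a r := by
          rintro x ⟨hx1, hx2⟩
          rcases hKu hx1 with h3 | h3
          · left; exact ⟨h3, hx2⟩
          · right; exact h3
        refine (measure_mono h2).trans_lt ((measure_union_le _ _).trans_lt ?_)
        exact ENNReal.add_lt_top.2 ⟨h1.2, (upp_sphere a hr.le).trans_lt ENNReal.ofReal_lt_top⟩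
  have hmin := h.min w l' K' (closedBall a r) hconf (isCompact_closedBall a r) hb (by
    intro x hx
    simp only [hK', mem_union, Set.mem_sdiff]
    constructor
    · rintro (h1 | h1)
      · exact h1.1
      · exact absurd (sphere_subset_closedBall h1) hx.2
    · intro h1
      left
      exact ⟨h1, fun h2 => hx.2 (ball_subset_closedBall h2)⟩) (by
    intro x hx _
    constructor
    · simp only [hw, if_neg hx.2]
    · simp only [hl', if_neg hx.2])
  refine hmin.trans ?_
  unfold cen
  have h1 : (∫⁻ x in closedBall a r \ K', ‖cgr w x‖ₑ ^ 2) = 0 := by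
    have h2 : closedBall a r \ K' = ball a r := by
      ext x
      simp only [hK', Set.mem_sdiff, mem_union, mem_closedBall, mem_ball, mem_sphere]
      constructor
      · rintro ⟨h3, h4⟩
        push Not at h4
        exact lt_of_le_of_ne h3 h4.2
      · intro h3
        refine ⟨h3.le, ?_⟩
        rintro (h4 | h4)
        · exact h4.2 h3
        · exact h3.ne h4
    rw [h2, setLIntegral_congr_fun (g := fun _ => 0) measurableSet_ball]
    · simp
    · intro x hx
      simp only
      rw [upp_cgr_congr (hin x hx), upp_cgr_zero]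
      simp
  have h3 : K' ∩ closedBall a r ⊆ sphere a r := by
    rintro x ⟨h4 | h4, h5⟩
    · rw [mem_closedBall] at h5
      rw [mem_sphere]
      exact le_antisymm h5 (not_lt.1 fun h6 => h4.2 (mem_ball.2 h6))
    · exact h4
  rw [h1, zero_add]
  exact (measure_mono h3).trans (upp_sphere a hr.le)

/-- the mean value inequality for the square of a holomorphic function -/
theorem upp_mean {f : ℂ → ℂ} {a : ℂ} {s : ℝ} (hs : 0 < s) {U : Set ℂ} (hU : IsOpen U)
    (hf : DifferentiableOn ℂ f U) (hsub : closedBall a s ⊆ U) :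
    2 * Real.pi * ‖f a‖ ^ 2 ≤ ∫ θ in Ioo (-Real.pi) Real.pi, ‖f (pc a s θ)‖ ^ 2 := by
  have h1 : DiffContOnCl ℂ (fun z => f z ^ 2) (ball a |s|) := by
    rw [abs_of_pos hs]
    refine DifferentiableOn.diffContOnCl ?_
    rw [closure_ball a hs.ne']
    exact (hf.mono hsub).pow 2
  have h2 := h1.circleAverage
  unfold Real.circleAverage at h2
  have hpi := Real.pi_pos
  have h3 : ‖f a‖ ^ 2 ≤ (2 * Real.pi)⁻¹ * ∫ θ in (0 : ℝ)..2 * Real.pi,
      ‖f (circleMap a s θ)‖ ^ 2 := by
    rw [← norm_pow, ← h2, norm_smul, Real.norm_of_nonneg (by positivity)]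
    refine mul_le_mul_of_nonneg_left ?_ (by positivity)
    refine (intervalIntegral.norm_integral_le_integral_norm (by positivity)).trans
      (le_of_eq ?_)
    simp only [norm_pow]
  have h4 : Function.Periodic (fun θ => ‖f (circleMap a s θ)‖ ^ 2) (2 * Real.pi) := by
    intro θ
    simp only
    rw [periodic_circleMap a s θ]
  have h5 := h4.intervalIntegral_add_eq (-Real.pi) 0
  rw [zero_add, show -Real.pi + 2 * Real.pi = Real.pi by ring] at h5
  rw [← h5, intervalIntegral.integral_of_le (by linarith), integral_Ioc_eq_integral_Ioo] at h3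
  have h6 := mul_le_mul_of_nonneg_left h3 (by positivity : (0:ℝ) ≤ 2 * Real.pi)
  rw [← mul_assoc, mul_inv_cancel₀ (by positivity), one_mul] at h6
  exact h6

theorem TMin.grad_bound (h : TMin Ω u l K) {a : ℂ} {d : ℝ} (hd : 0 < d)
    (hb : closedBall a d ⊆ Ω \ K) : ‖cgr u a‖ ^ 2 * d ≤ 2 := by
  have hpi := Real.pi_pos
  set f : ℂ → ℂ := fun x => (starRingEnd ℂ) (cgr u x) with hf
  have hfn : ∀ x, ‖f x‖ = ‖cgr u x‖ := fun x => Complex.norm_conj _
  have hfc : ContinuousOn f (Ω \ K) := h.hol.continuousOn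
  have hgc : ContinuousOn (fun x => ‖cgr u x‖ ^ 2) (closedBall a d) := by
    have h1 : ContinuousOn (fun x => ‖f x‖ ^ 2) (closedBall a d) := (hfc.mono hb).norm.pow 2
    simpa only [hfn] using h1
  have hint : IntegrableOn (fun x => ‖cgr u x‖ ^ 2) (closedBall a d) :=
    hgc.integrableOn_compact (isCompact_closedBall a d)
  -- the energy in the ball
  have hE : ∫ x in closedBall a d, ‖cgr u x‖ ^ 2 ≤ 2 * Real.pi * d := by
    have h1 := h.upper hd.le (hb.trans diff_subset)
    have h2 : (∫⁻ x in closedBall a d, ‖cgr u x‖ₑ ^ 2) ≤ ENNReal.ofReal (2 * Real.pi * d) := by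
      refine le_trans ?_ h1
      unfold cen
      have h3 : closedBall a d \ K = closedBall a d :=
        sdiff_eq_left.2 (disjoint_left.2 fun x hx hxK => (hb hx).2 hxK)
      rw [h3]
      exact le_self_add
    have h4 : (∫⁻ x in closedBall a d, ‖cgr u x‖ₑ ^ 2) =
        ENNReal.ofReal (∫ x in closedBall a d, ‖cgr u x‖ ^ 2) := by
      rw [ofReal_integral_eq_lintegral_ofReal hint
        (Eventually.of_forall fun x => by positivity)]
      refine lintegral_congr fun x => ?_
      rw [ENNReal.ofReal_pow (norm_nonneg _), ofReal_norm_eq_enorm]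
    rw [h4] at h2
    exact (ENNReal.ofReal_le_ofReal_iff (by positivity)).1 h2
  -- polar coordinates
  have hsub : {x | dist x a ∈ Ioo 0 d} ⊆ closedBall a d := fun x hx => mem_closedBall.2 hx.2.le
  have hint2 : IntegrableOn (fun x => ‖cgr u x‖ ^ 2) {x | dist x a ∈ Ioo 0 d} := hint.mono_set hsub
  have h1 : ∫ x in {x | dist x a ∈ Ioo 0 d}, ‖cgr u x‖ ^ 2 ≤
      ∫ x in closedBall a d, ‖cgr u x‖ ^ 2 :=
    setIntegral_mono_set hint (Eventually.of_forall fun x => by positivity)
      hsub.eventuallyLE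
  rw [polar_integral a measurableSet_Ioo (fun s hs => hs.1)] at h1
  have hint3 := (polar_integrable a measurableSet_Ioo (fun s hs => hs.1) _).1 hint2
  have h2 : ∫ p in Ioo 0 d ×ˢ Ioo (-Real.pi) Real.pi, p.1 • ‖cgr u (pc a p.1 p.2)‖ ^ 2 =
      ∫ s in Ioo 0 d, ∫ θ in Ioo (-Real.pi) Real.pi, s • ‖cgr u (pc a s θ)‖ ^ 2 := by
    rw [Measure.volume_eq_prod, setIntegral_prod _ (by
      rw [← Measure.volume_eq_prod]
      exact hint3)]
  have h3 : ∫ s in Ioo 0 d, s * (2 * Real.pi * ‖cgr u a‖ ^ 2) ≤
      ∫ s in Ioo 0 d, ∫ θ in Ioo (-Real.pi) Real.pi, s • ‖cgr u (pc a s θ)‖ ^ 2 := by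
    refine setIntegral_mono_on ?_ ?_ measurableSet_Ioo ?_
    · exact (Continuous.integrableOn_Icc (by fun_prop)).mono_set Ioo_subset_Icc_self
    · have h4 : Integrable (fun p : ℝ × ℝ => p.1 • ‖cgr u (pc a p.1 p.2)‖ ^ 2)
          ((volume.restrict (Ioo 0 d)).prod (volume.restrict (Ioo (-Real.pi) Real.pi))) := by
        rw [Measure.prod_restrict, ← Measure.volume_eq_prod]
        exact hint3
      exact h4.integral_prod_left
    · intro s hs
      rw [integral_smul, smul_eq_mul]
      refine mul_le_mul_of_nonneg_left ?_ hs.1.le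
      have h5 := upp_mean hs.1 h.isOpen_off h.hol
        ((closedBall_subset_closedBall hs.2.le).trans hb)
      simpa only [hfn, hf, Complex.norm_conj] using h5
  have h4 : ∫ s in Ioo 0 d, s * (2 * Real.pi * ‖cgr u a‖ ^ 2) =
      d ^ 2 / 2 * (2 * Real.pi * ‖cgr u a‖ ^ 2) := by
    rw [← integral_Ioc_eq_integral_Ioo, ← intervalIntegral.integral_of_le hd.le,
      intervalIntegral.integral_mul_const, integral_id]
    ring
  rw [h4, ← h2] at h3
  have h5 := (h3.trans h1).trans hE
  have h6 : Real.pi * d * (‖cgr u a‖ ^ 2 * d) ≤ Real.pi * d * 2 := by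
    calc Real.pi * d * (‖cgr u a‖ ^ 2 * d) = d ^ 2 / 2 * (2 * Real.pi * ‖cgr u a‖ ^ 2) := by ring
      _ ≤ 2 * Real.pi * d := h5
      _ = Real.pi * d * 2 := by ring
  exact le_of_mul_le_mul_left h6 (by positivity)

end Pool.Agent.MP099f24
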