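import Pool.Agent.Lib.MP_099f24_an.TM.Bas

/-!
# Local convergence of triples: the structure `TPre`
-/

set_option autoImplicit false

namespace Pool.Agent.MP099f24

open MeasureTheory Filter Topology Set Metric
open scoped ENNReal ContDiff

/-- Local convergence of `(u_n, l_n, K_n)` to `(u, clab K, K)` up to constants `c n` and a
relabelling `lam n`. -/
structure TPre (un : ℕ → ℂ → ℝ) (ln : ℕ → ℂ → Set ℂ) (Kn : ℕ → Set ℂ) (u : ℂ → ℝ) (K : Set ℂ)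
    (c : ℕ → Set ℂ → ℝ) (lam : ℕ → Set ℂ → Set ℂ) : Prop where
  isClosed : IsClosed K
  smooth : ContDiffOn ℝ 1 u Kᶜ
  hol : DifferentiableOn ℂ (fun x => (starRingEnd ℂ) (cgr u x)) Kᶜ
  near : ∀ x ∈ K, ∀ ε : ℝ, 0 < ε → ∀ᶠ n in atTop, (Kn n ∩ ball x ε).Nonempty
  far : ∀ C, IsCompact C → Disjoint C K → ∀ᶠ n in atTop, Disjoint C (Kn n)
  val : ∀ C, IsCompact C → Disjoint C K → ∀ ε : ℝ, 0 < ε → ∀ᶠ n in atTop, ∀ x ∈ C,
    |un n x - u x - c n (clab K x)| ≤ ε ∧ ‖cgr (un n) x - cgr u x‖ ≤ ε ∧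
      ln n x = lam n (clab K x)

end Pool.Agent.MP099f24
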