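import Mathlib
import Pool.Agent.Lib.MP_099f24_an.TM.Defs
import Pool.Agent.Lib.MP_099f24_an.TM.Pre
import Pool.Agent.Lib.MP_099f24_an.TP.Extract

/-!
# Extraction of convergent subsequences of topological minimizers
-/

set_option autoImplicit false

namespace Pool.Agent.MP099f24

open MeasureTheory Filter Topology Set Metric
open scoped ENNReal ContDiff

/-- a locally constant function is constant on preconnected sets -/
theorem tmext_const {α : Type*} {l : ℂ → α} {V : Set ℂ}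
    (hl : ∀ x ∈ V, ∀ᶠ y in 𝓝 x, l y = l x) {B : Set ℂ} (hB : IsPreconnected B) (hBV : B ⊆ V)
    {x y : ℂ} (hx : x ∈ B) (hy : y ∈ B) : l y = l x := by
  have hV : ∀ z ∈ B, ∃ t : Set ℂ, IsOpen t ∧ z ∈ t ∧ ∀ w ∈ t, l w = l z := by
    intro z hz
    obtain ⟨t, ht, hto, hzt⟩ := _root_.eventually_nhds_iff.1 (hl z (hBV hz))
    exact ⟨t, hto, hzt, ht⟩
  choose! t hto htm htl using hV
  set A : Set ℂ := ⋃ z ∈ {z ∈ B | l z = l x}, t z with hA
  set A' : Set ℂ := ⋃ z ∈ {z ∈ B | l z ≠ l x}, t z with hA'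
  have hAo : IsOpen A := isOpen_biUnion fun z hz => hto z hz.1
  have hAo' : IsOpen A' := isOpen_biUnion fun z hz => hto z hz.1
  have hdis : Disjoint A A' := by
    rw [disjoint_left]
    intro w hw hw'
    obtain ⟨z, hz, hwz⟩ := mem_iUnion₂.1 hw
    obtain ⟨z', hz', hwz'⟩ := mem_iUnion₂.1 hw'
    have e1 := htl z hz.1 w hwz
    have e2 := htl z' hz'.1 w hwz'
    exact hz'.2 (by rw [← e2, e1, hz.2])
  have hsub : B ⊆ A ∪ A' := by
    intro z hz
    by_cases h : l z = l x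
    · exact Or.inl (mem_iUnion₂.2 ⟨z, ⟨hz, h⟩, htm z hz⟩)
    · exact Or.inr (mem_iUnion₂.2 ⟨z, ⟨hz, h⟩, htm z hz⟩)
  have hBA := IsPreconnected.subset_left_of_subset_union hAo hAo' hdis hsub
    ⟨x, hx, mem_iUnion₂.2 ⟨x, ⟨hx, rfl⟩, htm x hx⟩⟩ hB
  obtain ⟨z, hz, hyz⟩ := mem_iUnion₂.1 (hBA hy)
  rw [htl z hz.1 y hyz, hz.2]

/-- a property of sequences which is locally constant in the base point propagates along connected
sets -/
theorem tmext_conn {V : Set ℂ} {W : Set ℂ} (hW : IsPreconnected W) (hWV : W ⊆ V)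
    {P : ℂ → Prop} (hloc : ∀ x ∈ V, ∃ δ > 0, ball x δ ⊆ V ∧ ∀ y ∈ ball x δ, (P x ↔ P y)) {b : ℂ}
    (hb : b ∈ W) (hPb : P b) : ∀ x ∈ W, P x := by
  have ho1 : IsOpen {x ∈ V | P x} := by
    rw [Metric.isOpen_iff]
    rintro x ⟨hx, hPx⟩
    obtain ⟨δ, hδ, h1, h2⟩ := hloc x hx
    exact ⟨δ, hδ, fun y hy => ⟨h1 hy, (h2 y hy).1 hPx⟩⟩
  have ho2 : IsOpen {x ∈ V | ¬ P x} := by
    rw [Metric.isOpen_iff]
    rintro x ⟨hx, hPx⟩
    obtain ⟨δ, hδ, h1, h2⟩ := hloc x hx
    exact ⟨δ, hδ, fun y hy => ⟨h1 hy, fun h => hPx ((h2 y hy).2 h)⟩⟩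
  have hsub := IsPreconnected.subset_left_of_subset_union ho1 ho2
    (disjoint_left.2 fun x h1 h2 => h2.2 h1.2)
    (fun x hx => by
      by_cases h : P x
      · exact Or.inl ⟨hWV hx, h⟩
      · exact Or.inr ⟨hWV hx, h⟩) ⟨b, hb, hWV hb, hPb⟩ hW
  exact fun x hx => (hsub hx).2

theorem tm_extract_core {R : ℕ → ℝ} (hR : Tendsto R atTop atTop) {un : ℕ → ℂ → ℝ}
    {ln : ℕ → ℂ → Set ℂ} {Kn : ℕ → Set ℂ}
    (h : ∀ n, TMin (ball 0 (R n)) (un n) (ln n) (Kn n))
    (hup : ∀ n (a : ℂ) (r : ℝ), 0 ≤ r → closedBall a r ⊆ ball 0 (R n) →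
      cen (un n) (Kn n) (closedBall a r) ≤ ENNReal.ofReal (2 * Real.pi * r)) :
    ∃ φ : ℕ → ℕ, StrictMono φ ∧ ∃ (u : ℂ → ℝ) (K : Set ℂ) (c : ℕ → Set ℂ → ℝ)
      (lam : ℕ → Set ℂ → Set ℂ),
      TPre (fun n => un (φ n)) (fun n => ln (φ n)) (fun n => Kn (φ n)) u K c lam := by
  classical
  obtain ⟨φ, u, K, b, hφ, hx⟩ := tp_extract hR (un := un) (Kn := Kn) (fun n => (h n).isOpen_off)
    (fun n => (h n).smooth) (fun n => (h n).hol) (by
      intro n x r hr hb
      refine le_trans ?_ (hup n x r hr.le hb)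
      unfold cen
      refine le_trans ?_ le_self_add
      exact lintegral_mono_set (sdiff_subset_sdiff_left ball_subset_closedBall))
  set β : Set ℂ → ℂ := fun W => if hW : W.Nonempty then b hW.some else 0 with hβ
  have hβb : ∀ x ∈ Kᶜ, β (clab K x) = b x := by
    intro x hxK
    have hne : (clab K x).Nonempty := ⟨x, mem_connectedComponentIn hxK⟩
    change (if hW : (clab K x).Nonempty then b hW.some else 0) = b x
    rw [dif_pos hne]
    exact hx.base_eq x hxK _ hne.some_mem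
  have hKo : IsOpen Kᶜ := hx.closed.isOpen_compl
  -- the labels are constant on small balls
  have hlab : ∀ x ∈ Kᶜ, ∃ δ > 0, ball x δ ⊆ Kᶜ ∧ ∀ᶠ n in atTop, ∀ y ∈ ball x δ,
      ln (φ n) y = ln (φ n) x := by
    intro x hxK
    obtain ⟨δ, hδ, hδK⟩ := Metric.isOpen_iff.1 hKo x hxK
    have hcd : Disjoint (closedBall x (δ / 2)) K :=
      disjoint_left.2 fun y hy => hδK (closedBall_subset_ball (by linarith) hy)
    have h1 := hx.klim.disjoint (isCompact_closedBall x (δ / 2)) hcd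
    have h3 : ∀ᶠ n in atTop, ‖x‖ + δ < R (φ n) :=
      (hR.comp hφ.tendsto_atTop).eventually_gt_atTop _
    refine ⟨δ / 2, by positivity, (ball_subset_ball (by linarith)).trans hδK, ?_⟩
    filter_upwards [h1, h3] with n hn1 hn3
    intro y hy
    have hsub : ball x (δ / 2) ⊆ ball 0 (R (φ n)) \ Kn (φ n) := by
      intro z hz
      refine ⟨?_, disjoint_left.1 hn1 (ball_subset_closedBall hz)⟩
      rw [mem_ball] at hz
      rw [mem_ball, dist_zero_right]
      have h4 : ‖z‖ ≤ ‖x‖ + dist z x := by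
        rw [dist_eq_norm]
        calc ‖z‖ = ‖x + (z - x)‖ := by rw [add_sub_cancel]
          _ ≤ _ := norm_add_le _ _
      linarith
    exact tmext_const (V := ball 0 (R (φ n)) \ Kn (φ n)) (h (φ n)).lab isPreconnected_ball hsub
      (mem_ball_self (by positivity)) hy
  have hlabW : ∀ x ∈ Kᶜ, ∀ᶠ n in atTop, ln (φ n) x = ln (φ n) (b x) := by
    intro x hxK
    have h1 := tmext_conn (isPreconnected_connectedComponentIn (F := Kᶜ) (x := x))
      (connectedComponentIn_subset _ _)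
      (P := fun y => ∀ᶠ n in atTop, ln (φ n) y = ln (φ n) (b x)) (by
        intro y hy
        obtain ⟨δ, hδ, hδK, h2⟩ := hlab y hy
        refine ⟨δ, hδ, hδK, fun z hz => ?_⟩
        constructor
        · intro h3
          filter_upwards [h2, h3] with n e1 e2
          rw [e1 z hz, e2]
        · intro h3
          filter_upwards [h2, h3] with n e1 e2
          rw [← e1 z hz, e2]) (hx.base_mem x hxK) (Eventually.of_forall fun n => rfl)
    exact h1 x (mem_connectedComponentIn hxK)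
  have hlabC : ∀ C, IsCompact C → Disjoint C K → ∀ᶠ n in atTop, ∀ x ∈ C,
      ln (φ n) x = ln (φ n) (b x) := by
    intro C hC hCK
    have hCK' : ∀ x ∈ C, x ∈ Kᶜ := fun x hx => disjoint_left.1 hCK hx
    have h1 : ∀ x ∈ C, ∃ δ > 0, ∀ᶠ n in atTop, ∀ y ∈ ball x δ,
        ln (φ n) y = ln (φ n) (b y) := by
      intro x hxC
      obtain ⟨δ, hδ, hδK, h2⟩ := hlab x (hCK' x hxC)
      refine ⟨δ, hδ, ?_⟩
      filter_upwards [h2, hlabW x (hCK' x hxC)] with n e1 e2
      intro y hy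
      have hby : b y = b x := hx.base_eq x (hCK' x hxC) y
        ((isPreconnected_ball.subset_connectedComponentIn (mem_ball_self hδ) hδK) hy)
      rw [e1 y hy, e2, hby]
    choose! r hr hrd using h1
    obtain ⟨T, hT, hcov⟩ := hC.elim_nhds_subcover (fun x => ball x (r x))
      (fun x hx => ball_mem_nhds x (hr x hx))
    have h2 : ∀ᶠ n in atTop, ∀ x ∈ T, ∀ y ∈ ball x (r x), ln (φ n) y = ln (φ n) (b y) :=
      (Filter.eventually_all_finset T).2 fun x hx => hrd x (hT x hx)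
    filter_upwards [h2] with n hn
    intro y hy
    obtain ⟨x, hxT, hyx⟩ := mem_iUnion₂.1 (hcov hy)
    exact hn x hxT y hyx
  refine ⟨φ, hφ, u, K, fun n W => un (φ n) (β W), fun n W => ln (φ n) (β W), hx.closed, hx.smooth,
    hx.hol, hx.klim.1, fun C hC hCK => hx.klim.disjoint hC hCK, ?_⟩
  intro C hC hCK ε hε
  filter_upwards [hx.conv C hC hCK ε hε, hx.grad C hC hCK ε hε, hlabC C hC hCK] with n e1 e2 e3
  intro x hxC
  have hxK : x ∈ Kᶜ := disjoint_left.1 hCK hxC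
  refine ⟨?_, e2 x hxC, ?_⟩
  · rw [hβb x hxK]
    have := e1 x hxC
    rwa [sub_right_comm] at this
  · rw [hβb x hxK]
    exact e3 x hxC

end Pool.Agent.MP099f24
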