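import Mathlib
import Pool.Agent.Lib.MP_099f24_an.TM.Bas
import Pool.Agent.Lib.MP_099f24_an.TM.Pre

/-!
# Lower semicontinuity of the energy (class free core)

If `K` is the limit of the sets `K_n`, the gradients converge locally uniformly off `K` and the
sharp lower density bound `2 r` holds for the sets `K_n`, then `E(A) ≤ liminf E_n(A)` for every
open set `A`.  The proof covers `K ∩ A` by disjoint small balls centred on `K`.
-/

set_option autoImplicit false

namespace Pool.Agent.MP099f24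

open MeasureTheory Filter Topology Set Metric
open scoped ENNReal NNReal

theorem lsc_meas (w : ℂ → ℝ) : Measurable (cgr w) := by
  unfold cgr
  have h1 := measurable_fderiv_apply_const ℝ w (1 : ℂ)
  have h2 := measurable_fderiv_apply_const ℝ w Complex.I
  exact (Complex.measurable_ofReal.comp h1).add ((Complex.measurable_ofReal.comp h2).mul_const _)

theorem lsc_meas_sq (w : ℂ → ℝ) : Measurable fun x => ‖cgr w x‖ₑ ^ 2 :=
  (lsc_meas w).enorm.pow_const 2

/-- the energy as a measure -/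
noncomputable def lsc_mu (w : ℂ → ℝ) (K : Set ℂ) : Measure ℂ :=
  (volume.restrict Kᶜ).withDensity (fun x => ‖cgr w x‖ₑ ^ 2) + (μH[1] : Measure ℂ).restrict K

theorem lsc_cen_eq (w : ℂ → ℝ) (K : Set ℂ) {A : Set ℂ} (hA : MeasurableSet A) :
    cen w K A = lsc_mu w K A := by
  rw [cen, lsc_mu, Measure.add_apply, withDensity_apply _ hA, Measure.restrict_restrict hA,
    Measure.restrict_apply hA, sdiff_eq, inter_comm K A]

/-- finitely many disjoint measurable sets -/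
theorem lsc_sum_le (w : ℂ → ℝ) (K : Set ℂ) {ι : Type*} (s : Finset ι) {B : ι → Set ℂ} {A : Set ℂ}
    (hB : ∀ i ∈ s, MeasurableSet (B i)) (hA : MeasurableSet A)
    (hd : (s : Set ι).PairwiseDisjoint B) (hsub : ∀ i ∈ s, B i ⊆ A) :
    ∑ i ∈ s, cen w K (B i) ≤ cen w K A := by
  rw [lsc_cen_eq w K hA]
  calc ∑ i ∈ s, cen w K (B i) = ∑ i ∈ s, lsc_mu w K (B i) :=
        Finset.sum_congr rfl fun i hi => lsc_cen_eq w K (hB i hi)
    _ = lsc_mu w K (⋃ i ∈ s, B i) := (measure_biUnion_finset hd hB).symm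
    _ ≤ lsc_mu w K A := measure_mono (iUnion₂_subset hsub)

theorem lsc_add_le (w : ℂ → ℝ) (K : Set ℂ) {B C A : Set ℂ} (hB : MeasurableSet B)
    (hC : MeasurableSet C) (hA : MeasurableSet A) (hd : Disjoint C B) (hBA : B ⊆ A) (hCA : C ⊆ A) :
    cen w K C + cen w K B ≤ cen w K A := by
  rw [lsc_cen_eq w K hA, lsc_cen_eq w K hB, lsc_cen_eq w K hC, ← measure_union hd hB]
  exact measure_mono (union_subset hCA hBA)

theorem lsc_lint_le (w : ℂ → ℝ) {K C : Set ℂ} (h : Disjoint C K) :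
    ∫⁻ z in C, ‖cgr w z‖ₑ ^ 2 ≤ cen w K C := by
  unfold cen
  rw [h.sdiff_eq_left]
  exact le_self_add

/-- **The finite estimate.** -/
theorem lsc_fin {un : ℕ → ℂ → ℝ} {Kn : ℕ → Set ℂ} {R : ℕ → ℝ} {u : ℂ → ℝ} {K : Set ℂ}
    (hR : Tendsto R atTop atTop)
    (dens : ∀ n, ∀ x ∈ Kn n, ∀ r : ℝ, 0 < r → closedBall x r ⊆ ball 0 (R n) →
      ENNReal.ofReal (2 * r) ≤ cen (un n) (Kn n) (ball x r))
    (near : ∀ x ∈ K, ∀ ε : ℝ, 0 < ε → ∀ᶠ n in atTop, (Kn n ∩ ball x ε).Nonempty)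
    (far : ∀ C, IsCompact C → Disjoint C K → ∀ᶠ n in atTop, Disjoint C (Kn n))
    (grad : ∀ C, IsCompact C → Disjoint C K → ∀ ε : ℝ, 0 < ε →
      ∀ᶠ n in atTop, ∀ x ∈ C, ‖cgr (un n) x - cgr u x‖ ≤ ε)
    {A C : Set ℂ} (hA : MeasurableSet A) (hC : IsCompact C) (hCA : C ⊆ A) (hCK : Disjoint C K)
    {ι : Type*} (s : Finset ι) (x : ι → ℂ) (r : ι → ℝ) (hx : ∀ i ∈ s, x i ∈ K)
    (hr : ∀ i ∈ s, 0 < r i) (hd : (s : Set ι).PairwiseDisjoint fun i => closedBall (x i) (r i))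
    (hsub : ∀ i ∈ s, closedBall (x i) (r i) ⊆ A)
    (hCd : ∀ i ∈ s, Disjoint C (closedBall (x i) (r i))) :
    (∫⁻ z in C, ‖cgr u z‖ₑ ^ 2) + ∑ i ∈ s, ENNReal.ofReal (2 * r i) ≤
      liminf (fun n => cen (un n) (Kn n) A) atTop := by
  -- the part on `C`
  have hF : ∫⁻ z in C, ‖cgr u z‖ₑ ^ 2 ≤
      liminf (fun n => ∫⁻ z in C, ‖cgr (un n) z‖ₑ ^ 2) atTop := by
    have hpt : ∀ z ∈ C, Tendsto (fun n => cgr (un n) z) atTop (𝓝 (cgr u z)) := by
      intro z hz
      rw [Metric.tendsto_atTop']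
      intro ε hε
      have h1 := grad {z} isCompact_singleton
        (disjoint_singleton_left.2 (disjoint_left.1 hCK hz)) (ε / 2) (by positivity)
      obtain ⟨N, hN⟩ := eventually_atTop.1 h1
      refine ⟨N, fun n hn => ?_⟩
      rw [dist_eq_norm]
      exact (hN n hn.le z rfl).trans_lt (by linarith)
    calc ∫⁻ z in C, ‖cgr u z‖ₑ ^ 2 =
        ∫⁻ z in C, liminf (fun n => ‖cgr (un n) z‖ₑ ^ 2) atTop := by
          apply setLIntegral_congr_fun hC.measurableSet
          intro z hz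
          have h2 : Tendsto (fun n => ‖cgr (un n) z‖ₑ ^ 2) atTop (𝓝 (‖cgr u z‖ₑ ^ 2)) :=
            ENNReal.Tendsto.pow (hpt z hz).enorm
          exact h2.liminf_eq.symm
      _ ≤ liminf (fun n => ∫⁻ z in C, ‖cgr (un n) z‖ₑ ^ 2) atTop :=
          lintegral_liminf_le fun n => lsc_meas_sq (un n)
  -- the estimate with a loss `δ`
  have hδ : ∀ δ : ℝ, 0 < δ → (∀ i ∈ s, δ < r i) →
      (∫⁻ z in C, ‖cgr u z‖ₑ ^ 2) + ∑ i ∈ s, ENNReal.ofReal (2 * (r i - δ)) ≤
      liminf (fun n => cen (un n) (Kn n) A) atTop := by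
    intro δ hδ0 hδr
    have hev : ∀ᶠ n in atTop, (∫⁻ z in C, ‖cgr (un n) z‖ₑ ^ 2) +
        ∑ i ∈ s, ENNReal.ofReal (2 * (r i - δ)) ≤ cen (un n) (Kn n) A := by
      have h1 : ∀ᶠ n in atTop, ∀ i ∈ s, (Kn n ∩ ball (x i) δ).Nonempty :=
        (Filter.eventually_all_finset s).2 fun i hi => near (x i) (hx i hi) δ hδ0
      have h2 : ∀ᶠ n in atTop, ∀ i ∈ s, closedBall (x i) (r i) ⊆ ball 0 (R n) := by
        refine (Filter.eventually_all_finset s).2 fun i hi => ?_
        filter_upwards [hR.eventually_gt_atTop (‖x i‖ + r i)] with n hn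
        intro z hz
        rw [mem_ball_zero_iff]
        rw [mem_closedBall, dist_eq_norm] at hz
        calc ‖z‖ = ‖(z - x i) + x i‖ := by ring_nf
          _ ≤ ‖z - x i‖ + ‖x i‖ := norm_add_le _ _
          _ < R n := by linarith
      filter_upwards [h1, h2, far C hC hCK] with n h1 h2 h3
      have h4 : ∀ i ∈ s, ENNReal.ofReal (2 * (r i - δ)) ≤
          cen (un n) (Kn n) (closedBall (x i) (r i)) := by
        intro i hi
        obtain ⟨y, hyK, hy⟩ := h1 i hi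
        rw [mem_ball] at hy
        have h5 : closedBall y (r i - δ) ⊆ closedBall (x i) (r i) := by
          apply closedBall_subset_closedBall'
          linarith
        exact (dens n y hyK (r i - δ) (by linarith [hδr i hi]) (h5.trans (h2 i hi))).trans
          (cen_mono (ball_subset_closedBall.trans h5))
      have h5 : (∫⁻ z in C, ‖cgr (un n) z‖ₑ ^ 2) ≤ cen (un n) (Kn n) C := lsc_lint_le _ h3
      have h6 : ∑ i ∈ s, ENNReal.ofReal (2 * (r i - δ)) ≤
          cen (un n) (Kn n) (⋃ i ∈ s, closedBall (x i) (r i)) :=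
        (Finset.sum_le_sum h4).trans (lsc_sum_le _ _ s (fun i _ => measurableSet_closedBall)
          (Finset.measurableSet_biUnion s fun i _ => measurableSet_closedBall) hd
          (fun i hi => subset_biUnion_of_mem (u := fun i => closedBall (x i) (r i)) hi))
      refine (add_le_add h5 h6).trans (lsc_add_le _ _
        (Finset.measurableSet_biUnion s fun i _ => measurableSet_closedBall) hC.measurableSet hA
        ?_ (iUnion₂_subset hsub) hCA)
      exact disjoint_iUnion₂_right.2 hCd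
    -- pass to the limit
    refine ENNReal.le_of_forall_pos_le_add fun ε hε _ => ?_
    rcases eq_or_ne (∫⁻ z in C, ‖cgr u z‖ₑ ^ 2) 0 with h0 | h0
    · rw [h0, zero_add]
      refine le_add_right (le_liminf_of_le (by isBoundedDefault) ?_)
      filter_upwards [hev] with n hn
      exact le_add_self.trans hn
    rcases eq_or_ne (∫⁻ z in C, ‖cgr u z‖ₑ ^ 2) ⊤ with htop | htop
    · have h1 : liminf (fun n => ∫⁻ z in C, ‖cgr (un n) z‖ₑ ^ 2) atTop ≤
          liminf (fun n => cen (un n) (Kn n) A) atTop := by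
        refine liminf_le_liminf ?_ (by isBoundedDefault) (by isBoundedDefault)
        filter_upwards [hev] with n hn
        exact le_self_add.trans hn
      rw [htop, top_le_iff] at hF
      rw [hF, top_le_iff] at h1
      rw [h1]
      simp
    · have hlt : (∫⁻ z in C, ‖cgr u z‖ₑ ^ 2) - ε < liminf (fun n => ∫⁻ z in C,
          ‖cgr (un n) z‖ₑ ^ 2) atTop :=
        (ENNReal.sub_lt_self htop h0 (by exact_mod_cast hε.ne')).trans_le hF
      have h1 := eventually_lt_of_lt_liminf hlt (by isBoundedDefault)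
      have h2 : (∫⁻ z in C, ‖cgr u z‖ₑ ^ 2) - ε + ∑ i ∈ s, ENNReal.ofReal (2 * (r i - δ)) ≤
          liminf (fun n => cen (un n) (Kn n) A) atTop := by
        refine le_liminf_of_le (by isBoundedDefault) ?_
        filter_upwards [h1, hev] with n h1 h2
        exact (add_le_add h1.le le_rfl).trans h2
      calc (∫⁻ z in C, ‖cgr u z‖ₑ ^ 2) + ∑ i ∈ s, ENNReal.ofReal (2 * (r i - δ))
          ≤ ((∫⁻ z in C, ‖cgr u z‖ₑ ^ 2) - ε + ε) + ∑ i ∈ s, ENNReal.ofReal (2 * (r i - δ)) :=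
            add_le_add le_tsub_add le_rfl
        _ = ((∫⁻ z in C, ‖cgr u z‖ₑ ^ 2) - ε + ∑ i ∈ s, ENNReal.ofReal (2 * (r i - δ))) + ε := by
            ring
        _ ≤ liminf (fun n => cen (un n) (Kn n) A) atTop + ε := add_le_add h2 le_rfl
  -- let `δ` tend to `0`
  have hlim : Tendsto (fun δ : ℝ => (∫⁻ z in C, ‖cgr u z‖ₑ ^ 2) +
      ∑ i ∈ s, ENNReal.ofReal (2 * (r i - δ))) (𝓝[>] 0)
      (𝓝 ((∫⁻ z in C, ‖cgr u z‖ₑ ^ 2) + ∑ i ∈ s, ENNReal.ofReal (2 * r i))) := by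
    have hc : Continuous fun δ : ℝ => ∑ i ∈ s, ENNReal.ofReal (2 * (r i - δ)) := by
      refine continuous_finsetSum s fun i _ => ENNReal.continuous_ofReal.comp ?_
      fun_prop
    have h1 : Tendsto (fun δ : ℝ => ∑ i ∈ s, ENNReal.ofReal (2 * (r i - δ))) (𝓝[>] 0)
        (𝓝 (∑ i ∈ s, ENNReal.ofReal (2 * r i))) := by
      have h2 := (hc.tendsto 0).mono_left (nhdsWithin_le_nhds (s := Ioi (0 : ℝ)))
      simpa using h2
    exact tendsto_const_nhds.add h1
  refine le_of_tendsto hlim ?_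
  have h1 : ∀ᶠ δ : ℝ in 𝓝[>] 0, ∀ i ∈ s, δ < r i :=
    (Filter.eventually_all_finset s).2 fun i hi =>
      nhdsWithin_le_nhds (Iio_mem_nhds (hr i hi))
  filter_upwards [h1, self_mem_nhdsWithin] with δ h1 h2
  exact hδ δ h2 h1

/-- a bound for the length of a compact set from a bound for packings -/
theorem lsc_packing {S : Set ℂ} (hS : IsCompact S) {L : ℝ≥0∞} {δ₀ : ℝ} (hδ₀ : 0 < δ₀)
    (h : ∀ (δ : ℝ) (T : Finset ℂ), 0 < δ → δ ≤ δ₀ → (∀ x ∈ T, x ∈ S) →
      ((T : Set ℂ).PairwiseDisjoint fun x => closedBall x δ) →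
      ∑ x ∈ T, ENNReal.ofReal (2 * δ) ≤ L) : (μH[1] : Measure ℂ) S ≤ 4 * L := by
  classical
  have hkey : ∀ n : ℕ, ∃ T : Finset ℂ, (∑ x ∈ T, ENNReal.ofReal (2 * (δ₀ / (n + 1)))) ≤ L ∧
      S ⊆ ⋃ x ∈ T, closedBall x (4 * (δ₀ / (n + 1))) := by
    intro n
    set δ : ℝ := δ₀ / (n + 1) with hδdef
    have hδ : 0 < δ := by positivity
    have hδle : δ ≤ δ₀ := by
      rw [hδdef]
      apply div_le_self hδ₀.le
      linarith [n.cast_nonneg (α := ℝ)]
    obtain ⟨T, hT, hcov⟩ := hS.elim_nhds_subcover (fun x => closedBall x δ)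
      (fun x _ => closedBall_mem_nhds x hδ)
    obtain ⟨v, hvT, hvd, hvc⟩ := Vitali.exists_disjoint_subfamily_covering_enlargement_closedBall
      (T : Set ℂ) (fun x => x) (fun _ => δ) δ (fun _ _ => le_rfl) 4 (by norm_num)
    have hvf : v.Finite := T.finite_toSet.subset hvT
    refine ⟨hvf.toFinset, h δ _ hδ hδle ?_ ?_, ?_⟩
    · intro x hx
      exact hT x (hvT (hvf.mem_toFinset.1 hx))
    · rw [hvf.coe_toFinset]
      exact hvd
    · intro z hz
      obtain ⟨x, hx, hzx⟩ := mem_iUnion₂.1 (hcov hz)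
      obtain ⟨b, hb, hsub⟩ := hvc x hx
      exact mem_iUnion₂.2 ⟨b, hvf.mem_toFinset.2 hb, hsub hzx⟩
  choose T hTL hTc using hkey
  have hr : Tendsto (fun n : ℕ => ENNReal.ofReal (8 * (δ₀ / (n + 1)))) atTop (𝓝 0) := by
    have h1 : Tendsto (fun n : ℕ => 8 * (δ₀ / ((n : ℝ) + 1))) atTop (𝓝 0) := by
      have h2 := (tendsto_one_div_add_atTop_nhds_zero_nat (𝕜 := ℝ)).const_mul (8 * δ₀)
      simp only [mul_zero] at h2
      refine h2.congr fun n => ?_
      ring
    have h3 := ENNReal.tendsto_ofReal h1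
    simpa using h3
  have hdiam : ∀ (n : ℕ) (x : ℂ), ediam (closedBall x (4 * (δ₀ / ((n : ℝ) + 1)))) ≤
      ENNReal.ofReal (8 * (δ₀ / (n + 1))) := by
    intro n x
    have h1 : ediam (closedBall x (4 * (δ₀ / ((n : ℝ) + 1)))) ≤
        2 * ENNReal.ofReal (4 * (δ₀ / (n + 1))) := by
      rw [← Metric.closedEBall_ofReal (by positivity)]
      exact Metric.ediam_closedEBall_le
    refine h1.trans (le_of_eq ?_)
    rw [show (2 : ℝ≥0∞) = ENNReal.ofReal 2 by simp, ← ENNReal.ofReal_mul (by norm_num)]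
    congr 1
    ring
  have hmain := Measure.hausdorffMeasure_le_liminf_sum (X := ℂ) (ι := fun n => {x // x ∈ T n}) 1 S
    (l := atTop) (fun n : ℕ => ENNReal.ofReal (8 * (δ₀ / (n + 1)))) hr
    (fun n i => closedBall (i : ℂ) (4 * (δ₀ / ((n : ℝ) + 1))))
    (Eventually.of_forall fun n i => hdiam n i)
    (Eventually.of_forall fun n z hz => by
      obtain ⟨x, hx, hzx⟩ := mem_iUnion₂.1 (hTc n hz)
      exact mem_iUnion.2 ⟨⟨x, hx⟩, hzx⟩)
  refine hmain.trans ?_
  refine liminf_le_of_le (by isBoundedDefault) fun b hb => ?_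
  obtain ⟨n, hn⟩ := hb.exists
  refine hn.trans ?_
  calc ∑ i : {x // x ∈ T n}, ediam (closedBall (i : ℂ) (4 * (δ₀ / ((n : ℝ) + 1)))) ^ (1 : ℝ)
      ≤ ∑ i : {x // x ∈ T n}, 4 * ENNReal.ofReal (2 * (δ₀ / (n + 1))) := by
        refine Finset.sum_le_sum fun i _ => ?_
        rw [ENNReal.rpow_one]
        refine (hdiam n i).trans (le_of_eq ?_)
        rw [show (4 : ℝ≥0∞) = ENNReal.ofReal 4 by simp, ← ENNReal.ofReal_mul (by norm_num)]
        congr 1
        ring
    _ = 4 * ∑ x ∈ T n, ENNReal.ofReal (2 * (δ₀ / (n + 1))) := by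
        rw [Finset.mul_sum]
        exact Finset.sum_coe_sort (T n) fun _ => 4 * ENNReal.ofReal (2 * (δ₀ / ((n : ℝ) + 1)))
    _ ≤ 4 * L := by gcongr; exact hTL n

/-- disjoint balls whose diameters nearly add up to the length -/
theorem lsc_balls {K A : Set ℂ} (hA : IsOpen A) (hm : (μH[1] : Measure ℂ) (K ∩ A) ≠ ⊤)
    {M : ℝ≥0∞} (hM : M < (μH[1] : Measure ℂ) (K ∩ A)) :
    ∃ (T : Finset ℂ) (r : ℂ → ℝ), (∀ x ∈ T, x ∈ K ∧ 0 < r x ∧ closedBall x (r x) ⊆ A) ∧
      ((T : Set ℂ).PairwiseDisjoint fun x => closedBall x (r x)) ∧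
      M < ∑ x ∈ T, ENNReal.ofReal (2 * r x) := by
  classical
  by_contra hcon
  push Not at hcon
  set μ : Measure ℂ := (μH[1] : Measure ℂ).restrict (K ∩ A) with hμ
  have : IsFiniteMeasure μ := ⟨by rw [hμ, Measure.restrict_apply_univ]; exact hm.lt_top⟩
  have hcover : ∀ n : ℕ, ∃ (t : Set ℂ) (r : ℂ → ℝ), t.Countable ∧
      (∑' x : t, ENNReal.ofReal (2 * r x)) ≤ M ∧ (∀ x ∈ t, r x ≤ 1 / ((n : ℝ) + 1)) ∧
      (∀ x ∈ t, 0 < r x) ∧ μ ((K ∩ A) \ ⋃ x ∈ t, closedBall x (r x)) = 0 := by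
    intro n
    have hex : ∀ x ∈ K ∩ A, ∃ ρ : ℝ, 0 < ρ ∧ closedBall x ρ ⊆ A := fun x hx =>
      Metric.nhds_basis_closedBall.mem_iff.1 (hA.mem_nhds hx.2)
    choose! ρ hρ0 hρA using hex
    obtain ⟨t, r, htc, hts, htr, ht0, htd⟩ := Besicovitch.exists_disjoint_closedBall_covering_ae μ
      (fun _ => univ) (K ∩ A) (fun x _ δ hδ => ⟨δ / 2, mem_univ _, by constructor <;> linarith⟩)
      (fun x => min (ρ x) (1 / ((n : ℝ) + 1)))
      (fun x hx => lt_min (hρ0 x hx) (by positivity))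
    refine ⟨t, r, htc, ?_, fun x hx => ((htr x hx).2.2.trans_le (min_le_right _ _)).le,
      fun x hx => (htr x hx).2.1, ht0⟩
    refine ENNReal.summable.tsum_le_of_sum_le fun s => ?_
    have h1 := hcon (s.map ⟨Subtype.val, Subtype.val_injective⟩) r ?_ ?_
    · rw [Finset.sum_map] at h1
      exact h1
    · intro x hx
      obtain ⟨y, hy, rfl⟩ := Finset.mem_map.1 hx
      have hyt : (y : ℂ) ∈ t := y.2
      refine ⟨(hts hyt).1, (htr y hyt).2.1, ?_⟩
      exact (closedBall_subset_closedBall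
        (((htr y hyt).2.2.trans_le (min_le_left _ _)).le)).trans (hρA _ (hts hyt))
    · refine htd.subset ?_
      intro x hx
      obtain ⟨y, hy, rfl⟩ := Finset.mem_map.1 (Finset.mem_coe.1 hx)
      exact y.2
  choose t r htc htM htn htp ht0 using hcover
  set N : Set ℂ := ⋃ n, ((K ∩ A) \ ⋃ x ∈ t n, closedBall x (r n x)) with hN
  have hN0 : (μH[1] : Measure ℂ) N = 0 := by
    rw [hN, measure_iUnion_null_iff]
    intro n
    have h1 := ht0 n
    rw [hμ, Measure.restrict_eq_self _ sdiff_subset] at h1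
    exact h1
  have hdiam : ∀ (n : ℕ) (x : ℂ), x ∈ t n → ediam (closedBall x (r n x)) ≤
      ENNReal.ofReal (2 * r n x) := by
    intro n x hx
    have h1 : ediam (closedBall x (r n x)) ≤ 2 * ENNReal.ofReal (r n x) := by
      rw [← Metric.closedEBall_ofReal (htp n x hx).le]
      exact Metric.ediam_closedEBall_le
    refine h1.trans (le_of_eq ?_)
    rw [show (2 : ℝ≥0∞) = ENNReal.ofReal 2 by simp, ← ENNReal.ofReal_mul (by norm_num)]
  have hr : Tendsto (fun n : ℕ => ENNReal.ofReal (2 * (1 / ((n : ℝ) + 1)))) atTop (𝓝 0) := by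
    have h1 : Tendsto (fun n : ℕ => 2 * (1 / ((n : ℝ) + 1))) atTop (𝓝 0) := by
      have h2 := (tendsto_one_div_add_atTop_nhds_zero_nat (𝕜 := ℝ)).const_mul 2
      simpa using h2
    have h3 := ENNReal.tendsto_ofReal h1
    simpa using h3
  have hcnt : ∀ n, Countable (t n) := fun n => (htc n).to_subtype
  have hmain := Measure.hausdorffMeasure_le_liminf_tsum (X := ℂ) (ι := fun n => t n) 1
    ((K ∩ A) \ N) (l := atTop) (fun n : ℕ => ENNReal.ofReal (2 * (1 / ((n : ℝ) + 1)))) hr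
    (fun n i => closedBall (i : ℂ) (r n i))
    (Eventually.of_forall fun n i => (hdiam n i i.2).trans
      (ENNReal.ofReal_le_ofReal (by linarith [htn n i i.2])))
    (Eventually.of_forall fun n z hz => by
      by_contra hcn
      refine hz.2 (mem_iUnion.2 ⟨n, hz.1, ?_⟩)
      intro hz2
      obtain ⟨x, hx, hzx⟩ := mem_iUnion₂.1 hz2
      exact hcn (mem_iUnion.2 ⟨⟨x, hx⟩, hzx⟩))
  have h2 : (μH[1] : Measure ℂ) ((K ∩ A) \ N) ≤ M := by
    refine hmain.trans ?_
    refine liminf_le_of_le (by isBoundedDefault) fun b hb => ?_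
    obtain ⟨n, hn⟩ := hb.exists
    refine hn.trans (le_trans ?_ (htM n))
    refine ENNReal.tsum_le_tsum fun i => ?_
    rw [ENNReal.rpow_one]
    exact hdiam n i i.2
  have h3 : (μH[1] : Measure ℂ) (K ∩ A) ≤ M := by
    calc (μH[1] : Measure ℂ) (K ∩ A) ≤ μH[1] (((K ∩ A) \ N) ∪ N) :=
          measure_mono fun z hz => by
            by_cases h : z ∈ N
            · exact Or.inr h
            · exact Or.inl ⟨hz, h⟩
      _ ≤ μH[1] ((K ∩ A) \ N) + μH[1] N := measure_union_le _ _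
      _ ≤ M := by rw [hN0, add_zero]; exact h2
  exact absurd hM (not_lt.2 h3)

/-- an exhaustion of `A \ K` by compact sets -/
theorem lsc_exhaust {U : Set ℂ} (hU : IsOpen U) : ∃ F : ℕ → Set ℂ,
    (∀ n, IsCompact (F n)) ∧ (∀ n, F n ⊆ U) ∧ ⋃ n, F n = U ∧ Monotone F := by
  obtain ⟨F, hFc, hFU, hFun, hFm⟩ := hU.exists_iUnion_isClosed
  refine ⟨fun n => F n ∩ closedBall 0 n, fun n => (isCompact_closedBall _ _).inter_left (hFc n),
    fun n => inter_subset_left.trans (hFU n), ?_, ?_⟩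
  · apply subset_antisymm
    · exact iUnion_subset fun n => inter_subset_left.trans (hFU n)
    · intro z hz
      rw [← hFun] at hz
      obtain ⟨n, hn⟩ := mem_iUnion.1 hz
      obtain ⟨m, hm⟩ := exists_nat_ge ‖z‖
      refine mem_iUnion.2 ⟨max n m, hFm (le_max_left _ _) hn, ?_⟩
      rw [mem_closedBall_zero_iff]
      refine hm.trans ?_
      exact_mod_cast le_max_right n m
  · intro m n hmn
    exact inter_subset_inter (hFm hmn) (closedBall_subset_closedBall (by exact_mod_cast hmn))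

/-- **Lower semicontinuity of the energy.** -/
theorem tm_lsc_core {un : ℕ → ℂ → ℝ} {Kn : ℕ → Set ℂ} {R : ℕ → ℝ} {u : ℂ → ℝ} {K : Set ℂ}
    (hR : Tendsto R atTop atTop) (hK : IsClosed K)
    (dens : ∀ n, ∀ x ∈ Kn n, ∀ r : ℝ, 0 < r → closedBall x r ⊆ ball 0 (R n) →
      ENNReal.ofReal (2 * r) ≤ cen (un n) (Kn n) (ball x r))
    (near : ∀ x ∈ K, ∀ ε : ℝ, 0 < ε → ∀ᶠ n in atTop, (Kn n ∩ ball x ε).Nonempty)
    (far : ∀ C, IsCompact C → Disjoint C K → ∀ᶠ n in atTop, Disjoint C (Kn n))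
    (grad : ∀ C, IsCompact C → Disjoint C K → ∀ ε : ℝ, 0 < ε →
      ∀ᶠ n in atTop, ∀ x ∈ C, ‖cgr (un n) x - cgr u x‖ ≤ ε)
    {A : Set ℂ} (hA : IsOpen A) :
    cen u K A ≤ liminf (fun n => cen (un n) (Kn n) A) atTop := by
  classical
  set L := liminf (fun n => cen (un n) (Kn n) A) atTop with hL
  rcases eq_or_ne L ⊤ with htop | htop
  · rw [htop]; exact le_top
  -- compact parts of `K` have bounded length
  have h1 : ∀ S : Set ℂ, IsCompact S → S ⊆ K ∩ A → (μH[1] : Measure ℂ) S ≤ 4 * L := by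
    intro S hS hSK
    obtain ⟨δ₀, hδ₀, hthick⟩ := hS.exists_cthickening_subset_open hA (hSK.trans inter_subset_right)
    refine lsc_packing hS hδ₀ fun δ T hδ hδle hT hTd => ?_
    have h2 := lsc_fin hR dens near far grad hA.measurableSet isCompact_empty (empty_subset A)
      (empty_disjoint K) T (fun x => x) (fun _ => δ) (fun x hx => (hSK (hT x hx)).1)
      (fun _ _ => hδ) hTd (fun x hx => ?_) (fun _ _ => empty_disjoint _)
    · simpa using h2
    · refine Subset.trans ?_ hthick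
      exact (closedBall_subset_closedBall hδle).trans (closedBall_subset_cthickening (hT x hx) δ₀)
  have h2 : (μH[1] : Measure ℂ) (K ∩ A) ≤ 4 * L := by
    obtain ⟨F, hFc, hFA, hFun, hFm⟩ := lsc_exhaust hA
    have h3 : K ∩ A = ⋃ n, K ∩ F n := by rw [← inter_iUnion, hFun]
    rw [h3, Monotone.measure_iUnion fun m n hmn => inter_subset_inter_right K (hFm hmn)]
    exact iSup_le fun n => h1 _ ((hFc n).inter_left hK) (inter_subset_inter_right K (hFA n))
  have hfin : (μH[1] : Measure ℂ) (K ∩ A) ≠ ⊤ :=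
    ne_top_of_le_ne_top (ENNReal.mul_ne_top (by norm_num) htop) h2
  -- compact sets off `K`
  have h3 : ∀ C : Set ℂ, IsCompact C → C ⊆ A \ K →
      (∫⁻ z in C, ‖cgr u z‖ₑ ^ 2) + μH[1] (K ∩ A) ≤ L := by
    intro C hC hCA
    have hCK : Disjoint C K := disjoint_left.2 fun z hz => (hCA hz).2
    have hKA : K ∩ (A \ C) = K ∩ A := by
      ext z
      constructor
      · exact fun hz => ⟨hz.1, hz.2.1⟩
      · exact fun hz => ⟨hz.1, hz.2, fun hzC => disjoint_left.1 hCK hzC hz.1⟩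
    refine ENNReal.le_of_forall_pos_le_add fun ε hε _ => ?_
    rcases eq_or_ne ((μH[1] : Measure ℂ) (K ∩ A)) 0 with h0 | h0
    · rw [h0, add_zero]
      have h4 := lsc_fin hR dens near far grad hA.measurableSet hC (hCA.trans sdiff_subset) hCK
        (∅ : Finset ℂ) (fun x => x) (fun _ => 1) (by simp) (by simp) (by simp) (by simp) (by simp)
      simp only [Finset.sum_empty, add_zero] at h4
      exact h4.trans le_self_add
    · have hlt : (μH[1] : Measure ℂ) (K ∩ A) - ε < μH[1] (K ∩ (A \ C)) := by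
        rw [hKA]
        exact ENNReal.sub_lt_self hfin h0 (by exact_mod_cast hε.ne')
      obtain ⟨T, r, hT, hTd, hTs⟩ := lsc_balls (hA.sdiff hC.isClosed) (by rw [hKA]; exact hfin)
        hlt
      have h4 := lsc_fin hR dens near far grad hA.measurableSet hC (hCA.trans sdiff_subset) hCK
        T (fun x => x) r (fun x hx => (hT x hx).1) (fun x hx => (hT x hx).2.1) hTd
        (fun x hx => (hT x hx).2.2.trans sdiff_subset)
        (fun x hx => disjoint_left.2 fun z hz hz2 => ((hT x hx).2.2 hz2).2 hz)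
      calc (∫⁻ z in C, ‖cgr u z‖ₑ ^ 2) + μH[1] (K ∩ A)
          ≤ (∫⁻ z in C, ‖cgr u z‖ₑ ^ 2) + (μH[1] (K ∩ A) - ε + ε) :=
            add_le_add le_rfl le_tsub_add
        _ ≤ (∫⁻ z in C, ‖cgr u z‖ₑ ^ 2) + (∑ x ∈ T, ENNReal.ofReal (2 * r x) + ε) := by
            gcongr
        _ = ((∫⁻ z in C, ‖cgr u z‖ₑ ^ 2) + ∑ x ∈ T, ENNReal.ofReal (2 * r x)) + ε := by ring
        _ ≤ L + ε := add_le_add h4 le_rfl
  -- exhaustion
  obtain ⟨F, hFc, hFA, hFun, hFm⟩ := lsc_exhaust (hA.sdiff hK)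
  have h4 : ∫⁻ z in A \ K, ‖cgr u z‖ₑ ^ 2 = ⨆ n, ∫⁻ z in F n, ‖cgr u z‖ₑ ^ 2 := by
    rw [← hFun]
    exact setLIntegral_iUnion_of_directed _ (directed_of_isDirected_le hFm)
  unfold cen
  rw [h4, ENNReal.iSup_add]
  exact iSup_le fun n => h3 (F n) (hFc n) (hFA n)

theorem tm_lsc {R : ℕ → ℝ} (hR : Tendsto R atTop atTop) {un : ℕ → ℂ → ℝ}
    {ln : ℕ → ℂ → Set ℂ} {Kn : ℕ → Set ℂ} (h : ∀ n, TMin (ball 0 (R n)) (un n) (ln n) (Kn n))
    {u : ℂ → ℝ} {K : Set ℂ}
    {c : ℕ → Set ℂ → ℝ} {lam : ℕ → Set ℂ → Set ℂ} (hp : TPre un ln Kn u K c lam)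
    {A : Set ℂ} (hA : IsOpen A) :
    cen u K A ≤ liminf (fun n => cen (un n) (Kn n) A) atTop :=
  tm_lsc_core hR hp.isClosed (fun n => (h n).dens) hp.near hp.far
    (fun C hC hCK ε hε => (hp.val C hC hCK ε hε).mono fun _ hn x hx => (hn x hx).2.1) hA

end Pool.Agent.MP099f24
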