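import Pool.Agent.Lib.MP_099f24_an.TM.CptCore
import Pool.Agent.Lib.MP_099f24_an.TM.ExtCore
import Pool.Agent.Lib.MP_099f24_an.TM.Lsc
import Pool.Agent.Lib.MP_099f24_an.TM.Upp

/-!
# Compactness theorem
-/

set_option autoImplicit false

namespace Pool.Agent.MP099f24

open MeasureTheory Filter Topology Set Metric
open scoped ENNReal ContDiff

/-- **Compactness** (form with the constants and the labels). -/
theorem tm_compact_pre {R : ℕ → ℝ} (hR : Tendsto R atTop atTop) {un : ℕ → ℂ → ℝ}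
    {ln : ℕ → ℂ → Set ℂ} {Kn : ℕ → Set ℂ}
    (h : ∀ n, TMin (ball 0 (R n)) (un n) (ln n) (Kn n)) :
    ∃ φ : ℕ → ℕ, StrictMono φ ∧ ∃ (u : ℂ → ℝ) (K : Set ℂ) (c : ℕ → Set ℂ → ℝ)
      (lam : ℕ → Set ℂ → Set ℂ), TGlob u K ∧
      TConv (fun n => un (φ n)) (fun n => Kn (φ n)) u K ∧
      TPre (fun n => un (φ n)) (fun n => ln (φ n)) (fun n => Kn (φ n)) u K c lam := by
  obtain ⟨φ, hφ, u, K, c, lam, hp⟩ := tm_extract_core hR h fun n a r hr hb => (h n).upper hr hb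
  have hR' : Tendsto (fun n => R (φ n)) atTop atTop := hR.comp hφ.tendsto_atTop
  have h' : ∀ n, TMin (ball 0 (R (φ n))) (un (φ n)) (ln (φ n)) (Kn (φ n)) := fun n => h (φ n)
  obtain ⟨h1, h2⟩ := cpt_of hR' h' hp (fun n a r hr hb => (h' n).upper hr hb)
    (fun A hA => tm_lsc hR' h' hp hA)
  exact ⟨φ, hφ, u, K, c, lam, h1, h2, hp⟩

/-- **Compactness.** -/
theorem tm_compact {R : ℕ → ℝ} (hR : Tendsto R atTop atTop) {un : ℕ → ℂ → ℝ}
    {ln : ℕ → ℂ → Set ℂ} {Kn : ℕ → Set ℂ}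
    (h : ∀ n, TMin (ball 0 (R n)) (un n) (ln n) (Kn n)) :
    ∃ φ : ℕ → ℕ, StrictMono φ ∧ ∃ (u : ℂ → ℝ) (K : Set ℂ), TGlob u K ∧
      TConv (fun n => un (φ n)) (fun n => Kn (φ n)) u K := by
  obtain ⟨φ, hφ, u, K, _, _, h1, h2, _⟩ := tm_compact_pre hR h
  exact ⟨φ, hφ, u, K, h1, h2⟩

end Pool.Agent.MP099f24
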