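import Mathlib
import Pool.Agent.Lib.MP_099f24_an.TM.Bas

/-!
# Topological minimizers: restriction to smaller open sets, finer labels
-/

set_option autoImplicit false

namespace Pool.Agent.MP099f24

open MeasureTheory Filter Topology Set Metric
open scoped ENNReal ContDiff

variable {Ω : Set ℂ} {u w : ℂ → ℝ} {l : ℂ → Set ℂ} {K : Set ℂ}

theorem TConf.restrict (h : TConf Ω w l K) {Ω' : Set ℂ} (hΩ' : IsOpen Ω') (hsub : Ω' ⊆ Ω) :
    TConf Ω' w l (K ∩ Ω') := by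
  have hoff : Ω' \ (K ∩ Ω') = (Ω \ K) ∩ Ω' := by
    ext x
    constructor
    · rintro ⟨h1, h2⟩
      exact ⟨⟨hsub h1, fun h3 => h2 ⟨h3, h1⟩⟩, h1⟩
    · rintro ⟨⟨_, h2⟩, h3⟩
      exact ⟨h3, fun h4 => h2 h4.1⟩
  refine ⟨hΩ', inter_subset_right, ?_, ?_, ?_, ?_⟩
  · rw [hoff]; exact h.isOpen_off.inter hΩ'
  · rw [hoff]; exact h.smooth.mono inter_subset_left
  · intro x hx
    rw [hoff] at hx
    exact h.lab x hx.1
  · intro C hC hCΩ
    have h1 : cen w (K ∩ Ω') C = cen w K C := by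
      have e1 : C \ (K ∩ Ω') = C \ K := by
        ext x
        constructor
        · rintro ⟨h1, h2⟩; exact ⟨h1, fun h3 => h2 ⟨h3, hCΩ h1⟩⟩
        · rintro ⟨h1, h2⟩; exact ⟨h1, fun h3 => h2 h3.1⟩
      have e2 : (K ∩ Ω') ∩ C = K ∩ C := by
        ext x
        constructor
        · rintro ⟨h1, h2⟩; exact ⟨h1.1, h2⟩
        · rintro ⟨h1, h2⟩; exact ⟨⟨h1, hCΩ h2⟩, h2⟩
      rw [cen, cen, e1, e2]
    rw [h1]
    exact h.fin C hC (hCΩ.trans hsub)

theorem cen_inter (w : ℂ → ℝ) (K : Set ℂ) {Ω' A : Set ℂ} (hA : A ⊆ Ω') :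
    cen w (K ∩ Ω') A = cen w K A := by
  have e1 : A \ (K ∩ Ω') = A \ K := by
    ext x
    constructor
    · rintro ⟨h1, h2⟩; exact ⟨h1, fun h3 => h2 ⟨h3, hA h1⟩⟩
    · rintro ⟨h1, h2⟩; exact ⟨h1, fun h3 => h2 h3.1⟩
  have e2 : (K ∩ Ω') ∩ A = K ∩ A := by
    ext x
    constructor
    · rintro ⟨h1, h2⟩; exact ⟨h1.1, h2⟩
    · rintro ⟨h1, h2⟩; exact ⟨⟨h1, hA h2⟩, h2⟩
  rw [cen, cen, e1, e2]

theorem TMin.restrict (h : TMin Ω u l K) {Ω' : Set ℂ} (hΩ' : IsOpen Ω') (hsub : Ω' ⊆ Ω) :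
    TMin Ω' u l (K ∩ Ω') := by
  classical
  have hoff : Ω' \ (K ∩ Ω') = (Ω \ K) ∩ Ω' := by
    ext x
    constructor
    · rintro ⟨h1, h2⟩
      exact ⟨⟨hsub h1, fun h3 => h2 ⟨h3, h1⟩⟩, h1⟩
    · rintro ⟨⟨_, h2⟩, h3⟩
      exact ⟨h3, fun h4 => h2 h4.1⟩
  refine ⟨h.toTConf.restrict hΩ' hsub, ?_, ?_, ?_⟩
  · rw [hoff]; exact h.hol.mono inter_subset_left
  · intro x hx r hr hb
    rw [cen_inter u K (ball_subset_closedBall.trans hb)]
    exact h.dens x hx.1 r hr (hb.trans hsub)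
  · intro w l' K' F hw hF hFΩ hK' hwu
    set W : ℂ → ℝ := fun x => if x ∈ Ω' then w x else u x with hW
    set L : ℂ → Set ℂ := fun x => if x ∈ Ω' then l' x else l x with hL
    set K'' : Set ℂ := (K \ Ω') ∪ K' with hK''
    -- the extended triple agrees with the original one off `F`
    have hKoff : ∀ x ∈ Ω \ F, (x ∈ K'' ↔ x ∈ K) := by
      intro x hx
      by_cases hxΩ : x ∈ Ω'
      · constructor
        · rintro (h1 | h1)
          · exact h1.1
          · exact ((hK' x ⟨hxΩ, hx.2⟩).1 h1).1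
        · intro h1
          exact Or.inr ((hK' x ⟨hxΩ, hx.2⟩).2 ⟨h1, hxΩ⟩)
      · constructor
        · rintro (h1 | h1)
          · exact h1.1
          · exact absurd (hw.sub h1) hxΩ
        · intro h1
          exact Or.inl ⟨h1, hxΩ⟩
    have hWoff : ∀ x ∈ Ω \ F, x ∉ K → W x = u x ∧ L x = l x := by
      intro x hx hxK
      by_cases hxΩ : x ∈ Ω'
      · have h1 := hwu x ⟨hxΩ, hx.2⟩ (fun h2 => hxK h2.1)
        simp only [hW, hL, if_pos hxΩ]
        exact h1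
      · exact ⟨if_neg hxΩ, if_neg hxΩ⟩
    have hFo : IsOpen Fᶜ := hF.isClosed.isOpen_compl
    -- inside `Ω'`
    have hin : ∀ x ∈ Ω', (x ∈ K'' ↔ x ∈ K') := by
      intro x hx
      constructor
      · rintro (h1 | h1)
        · exact absurd hx h1.2
        · exact h1
      · exact fun h1 => Or.inr h1
    have hWin : ∀ x ∈ Ω', W =ᶠ[𝓝 x] w := by
      intro x hx
      filter_upwards [hΩ'.mem_nhds hx] with y hy
      simp only [hW, if_pos hy]
    have hLin : ∀ x ∈ Ω', L =ᶠ[𝓝 x] l' := by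
      intro x hx
      filter_upwards [hΩ'.mem_nhds hx] with y hy
      simp only [hL, if_pos hy]
    have hWout : ∀ x ∈ Ω \ F, x ∉ K → W =ᶠ[𝓝 x] u := by
      intro x hx hxK
      filter_upwards [(h.isOpen_off.inter hFo).mem_nhds ⟨⟨hx.1, hxK⟩, hx.2⟩] with y hy
      exact (hWoff y ⟨hy.1.1, hy.2⟩ hy.1.2).1
    have hLout : ∀ x ∈ Ω \ F, x ∉ K → L =ᶠ[𝓝 x] l := by
      intro x hx hxK
      filter_upwards [(h.isOpen_off.inter hFo).mem_nhds ⟨⟨hx.1, hxK⟩, hx.2⟩] with y hy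
      exact (hWoff y ⟨hy.1.1, hy.2⟩ hy.1.2).2
    have hopen : IsOpen (Ω \ K'') := by
      have h1 : Ω \ K'' = (Ω' \ K') ∪ ((Ω \ K) ∩ Fᶜ) := by
        ext x
        constructor
        · rintro ⟨h1, h2⟩
          by_cases hxΩ : x ∈ Ω'
          · exact Or.inl ⟨hxΩ, fun h3 => h2 (Or.inr h3)⟩
          · exact Or.inr ⟨⟨h1, fun h3 => h2 (Or.inl ⟨h3, hxΩ⟩)⟩, fun h3 => hxΩ (hFΩ h3)⟩
        · rintro (⟨h1, h2⟩ | ⟨⟨h1, h2⟩, h3⟩)
          · exact ⟨hsub h1, fun h3 => h2 ((hin x h1).1 h3)⟩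
          · exact ⟨h1, fun h4 => h2 ((hKoff x ⟨h1, h3⟩).1 h4)⟩
      rw [h1]
      exact hw.isOpen_off.union (h.isOpen_off.inter hFo)
    have hcase : ∀ x ∈ Ω \ K'', (x ∈ Ω' ∧ x ∉ K') ∨ (x ∈ Ω \ F ∧ x ∉ K) := by
      rintro x ⟨h1, h2⟩
      by_cases hxΩ : x ∈ Ω'
      · exact Or.inl ⟨hxΩ, fun h3 => h2 (Or.inr h3)⟩
      · exact Or.inr ⟨⟨h1, fun h3 => hxΩ (hFΩ h3)⟩, fun h3 => h2 (Or.inl ⟨h3, hxΩ⟩)⟩
    have hconf : TConf Ω W L K'' := by
      refine ⟨h.isOpen, ?_, hopen, ?_, ?_, ?_⟩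
      · rintro x (h1 | h1)
        · exact h.sub h1.1
        · exact hsub (hw.sub h1)
      · intro x hx
        rcases hcase x hx with ⟨h1, h2⟩ | ⟨h1, h2⟩
        · have h3 : ContDiffAt ℝ 1 w x :=
            hw.smooth.contDiffAt (hw.isOpen_off.mem_nhds ⟨h1, h2⟩)
          exact (h3.congr_of_eventuallyEq (hWin x h1)).contDiffWithinAt
        · have h3 : ContDiffAt ℝ 1 u x :=
            h.smooth.contDiffAt (h.isOpen_off.mem_nhds ⟨h1.1, h2⟩)
          exact (h3.congr_of_eventuallyEq (hWout x h1 h2)).contDiffWithinAt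
      · intro x hx
        rcases hcase x hx with ⟨h1, h2⟩ | ⟨h1, h2⟩
        · filter_upwards [hLin x h1, hw.lab x ⟨h1, h2⟩] with y hy hy'
          rw [hy, hy', (hLin x h1).eq_of_nhds]
        · filter_upwards [hLout x h1 h2, h.lab x ⟨h1.1, h2⟩] with y hy hy'
          rw [hy, hy', (hLout x h1 h2).eq_of_nhds]
      · intro C hC hCΩ
        -- `C ⊆ C₁ ∪ C₂` with `C₁ ⊆ Ω'` and `C₂` off `F`
        obtain ⟨V, hVo, hFV, hVc, hVΩ⟩ : ∃ V, IsOpen V ∧ F ⊆ V ∧ IsCompact (closure V) ∧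
            closure V ⊆ Ω' := by
          obtain ⟨V, hV1, hV2, hV3, hV4⟩ := exists_open_between_and_isCompact_closure hF hΩ' hFΩ
          exact ⟨V, hV1, hV2, hV4, hV3⟩
        have h1 : cen W K'' (closure V) = cen w K' (closure V) := by
          refine cen_congr isClosed_closure.measurableSet ?_ (fun x hx => hin x (hVΩ hx)) ?_
          · exact (h.toTConf.measurableSet.diff hΩ'.measurableSet).union hw.measurableSet
          · intro x hx _
            exact cgr_congr (hWin x (hVΩ hx))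
        have h2 : cen W K'' (C \ V) = cen u K (C \ V) := by
          refine cen_congr (hC.isClosed.measurableSet.diff hVo.measurableSet) ?_
            (fun x hx => hKoff x ⟨hCΩ hx.1, fun h3 => hx.2 (hFV h3)⟩) ?_
          · exact (h.toTConf.measurableSet.diff hΩ'.measurableSet).union hw.measurableSet
          · intro x hx hxK
            have h3 : x ∈ Ω \ F := ⟨hCΩ hx.1, fun h3 => hx.2 (hFV h3)⟩
            exact cgr_congr (hWout x h3 (fun h4 => hxK ((hKoff x h3).2 h4)))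
        calc cen W K'' C ≤ cen W K'' (closure V ∪ (C \ V)) := by
              apply cen_mono
              intro x hx
              by_cases hxV : x ∈ V
              · exact Or.inl (subset_closure hxV)
              · exact Or.inr ⟨hx, hxV⟩
          _ ≤ cen W K'' (closure V) + cen W K'' (C \ V) := cen_union_le _ _
          _ < ⊤ := by
              rw [h1, h2]
              exact ENNReal.add_lt_top.2 ⟨hw.fin _ hVc hVΩ,
                (cen_mono sdiff_subset).trans_lt (h.fin C hC hCΩ)⟩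
    have hmin := h.min W L K'' F hconf hF (hFΩ.trans hsub) hKoff hWoff
    rw [cen_inter u K hFΩ]
    refine hmin.trans (le_of_eq ?_)
    refine cen_congr hF.isClosed.measurableSet ?_ (fun x hx => hin x (hFΩ hx)) ?_
    · exact (h.toTConf.measurableSet.diff hΩ'.measurableSet).union hw.measurableSet
    · intro x hx _
      exact cgr_congr (hWin x (hFΩ hx))

/-- finer labels -/
theorem TMin.relabel (h : TMin Ω u l K) {l₂ : ℂ → Set ℂ}
    (h₂ : ∀ x ∈ Ω \ K, ∀ᶠ y in 𝓝 x, l₂ y = l₂ x)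
    (hinj : ∀ x ∈ Ω \ K, ∀ y ∈ Ω \ K, l₂ x = l₂ y → l x = l y) : TMin Ω u l₂ K := by
  classical
  refine ⟨⟨h.isOpen, h.sub, h.isOpen_off, h.smooth, h₂, h.fin⟩, h.hol, h.dens, ?_⟩
  intro w l' K' F hw hF hFΩ hK' hwu
  set m : Set ℂ → Set ℂ := fun s => if hs : ∃ x ∈ Ω \ K, l₂ x = s then l hs.choose else ∅ with hm
  have hml : ∀ x ∈ Ω \ K, m (l₂ x) = l x := by
    intro x hx
    have hex : ∃ y ∈ Ω \ K, l₂ y = l₂ x := ⟨x, hx, rfl⟩
    simp only [hm, dif_pos hex]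
    exact hinj _ hex.choose_spec.1 _ hx hex.choose_spec.2
  refine h.min w (fun x => m (l' x)) K' F ⟨hw.isOpen, hw.sub, hw.isOpen_off, hw.smooth, ?_, hw.fin⟩
    hF hFΩ hK' ?_
  · intro x hx
    filter_upwards [hw.lab x hx] with y hy
    rw [hy]
  · intro x hx hxK
    obtain ⟨h3, h4⟩ := hwu x hx hxK
    exact ⟨h3, by rw [h4, hml x ⟨hx.1, hxK⟩]⟩

theorem tm_const_of_locConst {X : Type*} {U : Set ℂ} (hU : IsOpen U) (hUc : IsPreconnected U)
    {f : ℂ → X} (hf : ∀ x ∈ U, ∀ᶠ y in 𝓝 x, f y = f x) {x y : ℂ} (hx : x ∈ U) (hy : y ∈ U) :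
    f x = f y := by
  classical
  by_contra hne
  have h1 : IsOpen {z | z ∈ U ∧ f z = f x} := by
    rw [isOpen_iff_mem_nhds]
    rintro z ⟨hz, hzx⟩
    filter_upwards [hU.mem_nhds hz, hf z hz] with y hy hy'
    exact ⟨hy, hy'.trans hzx⟩
  have h2 : IsOpen {z | z ∈ U ∧ f z ≠ f x} := by
    rw [isOpen_iff_mem_nhds]
    rintro z ⟨hz, hzx⟩
    filter_upwards [hU.mem_nhds hz, hf z hz] with y hy hy'
    exact ⟨hy, fun h3 => hzx (hy'.symm.trans h3)⟩
  obtain ⟨z, _, hz1, hz2⟩ := hUc _ _ h1 h2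
    (fun z hz => by
      by_cases h3 : f z = f x
      · exact Or.inl ⟨hz, h3⟩
      · exact Or.inr ⟨hz, h3⟩) ⟨x, hx, hx, rfl⟩ ⟨y, hy, hy, fun h3 => hne h3.symm⟩
  exact hz2.2 hz1.2

theorem TMin.toTGlob (h : TMin univ u l K) : TGlob u K := by
  have hcl := h.toTConf.isClosed
  refine h.relabel ?_ ?_
  · intro x hx
    exact clab_locConst hcl x hx.2
  · intro x hx y hy hxy
    have hxm : x ∈ clab K x := mem_connectedComponentIn (mem_compl hx.2)
    have hym : y ∈ clab K x := by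
      rw [hxy]
      exact mem_connectedComponentIn (mem_compl hy.2)
    refine tm_const_of_locConst (U := clab K x) hcl.isOpen_compl.connectedComponentIn
      isPreconnected_connectedComponentIn (fun z hz => h.lab z ⟨mem_univ _, ?_⟩) hxm hym
    exact connectedComponentIn_subset _ _ hz

end Pool.Agent.MP099f24
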