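import Mathlib
import Pool.Agent.Lib.MP_099f24_an.TM.Defs
import Pool.Agent.Lib.MP_099f24_an.TM.Bas

/-!
# Topological minimizers: scaling
-/

set_option autoImplicit false

namespace Pool.Agent.MP099f24

open MeasureTheory Filter Topology Set Metric
open scoped ENNReal ContDiff Pointwise

variable {Ω : Set ℂ} {u w : ℂ → ℝ} {l : ℂ → Set ℂ} {K : Set ℂ}

/-- the affine map `x ↦ a + r x` -/
noncomputable def scaT (a : ℂ) (r : ℝ) (x : ℂ) : ℂ := a + r • x

theorem sca_continuous (a : ℂ) (r : ℝ) : Continuous (scaT a r) := by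
  unfold scaT; fun_prop

theorem sca_inv (a : ℂ) {r : ℝ} (hr : 0 < r) (x : ℂ) :
    scaT (-(r⁻¹ • a)) r⁻¹ (scaT a r x) = x := by
  unfold scaT
  rw [smul_add, smul_smul, inv_mul_cancel₀ hr.ne', one_smul]
  ring

theorem sca_inv' (a : ℂ) {r : ℝ} (hr : 0 < r) (x : ℂ) :
    scaT a r (scaT (-(r⁻¹ • a)) r⁻¹ x) = x := by
  unfold scaT
  rw [smul_add, smul_neg, smul_smul, smul_smul, mul_inv_cancel₀ hr.ne', one_smul, one_smul]
  ring

/-- the affine map as a homeomorphism -/
noncomputable def scaH (a : ℂ) {r : ℝ} (hr : 0 < r) : ℂ ≃ₜ ℂ where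
  toFun := scaT a r
  invFun := scaT (-(r⁻¹ • a)) r⁻¹
  left_inv := sca_inv a hr
  right_inv := sca_inv' a hr
  continuous_toFun := sca_continuous _ _
  continuous_invFun := sca_continuous _ _

theorem sca_dist (a : ℂ) {r : ℝ} (hr : 0 < r) (x y : ℂ) :
    dist (scaT a r x) (scaT a r y) = r * dist x y := by
  unfold scaT
  rw [dist_add_left, dist_smul₀, Real.norm_eq_abs, abs_of_pos hr]

theorem sca_ball (a : ℂ) {r : ℝ} (hr : 0 < r) (x : ℂ) (ρ : ℝ) :
    scaT a r ⁻¹' ball (scaT a r x) (r * ρ) = ball x ρ := by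
  ext y
  rw [mem_preimage, mem_ball, mem_ball, sca_dist a hr]
  exact mul_lt_mul_iff_right₀ hr

theorem sca_closedBall (a : ℂ) {r : ℝ} (hr : 0 < r) (x : ℂ) (ρ : ℝ) :
    scaT a r ⁻¹' closedBall (scaT a r x) (r * ρ) = closedBall x ρ := by
  ext y
  rw [mem_preimage, mem_closedBall, mem_closedBall, sca_dist a hr]
  exact mul_le_mul_iff_right₀ hr

theorem sca_map_volume (a : ℂ) {r : ℝ} (hr : 0 < r) :
    Measure.map (scaT a r) volume = ENNReal.ofReal ((r ^ 2)⁻¹) • (volume : Measure ℂ) := by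
  have h1 : scaT a r = (fun x => a + x) ∘ (fun x => r • x) := rfl
  rw [h1, ← Measure.map_map (measurable_const_add a) (measurable_const_smul r),
    Measure.map_addHaar_smul volume hr.ne', Measure.map_smul, map_add_left_eq_self,
    Complex.finrank_real_complex, abs_of_pos (by positivity)]

theorem sca_haus (a : ℂ) {r : ℝ} (hr : 0 < r) (B : Set ℂ) :
    (μH[1] : Measure ℂ) (scaT a r ⁻¹' B) = ENNReal.ofReal r⁻¹ * (μH[1] : Measure ℂ) B := by
  have h1 : scaT a r ⁻¹' B = r⁻¹ • ((IsometryEquiv.addLeft a) ⁻¹' B) := by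
    rw [← Set.preimage_smul₀ hr.ne']
    rfl
  rw [h1, Measure.hausdorffMeasure_smul₀ zero_le_one (inv_ne_zero hr.ne'),
    IsometryEquiv.hausdorffMeasure_preimage, NNReal.rpow_one, ENNReal.smul_def, smul_eq_mul]
  congr 1
  rw [ENNReal.ofReal]
  congr 1
  ext
  simp [abs_of_pos hr, hr.le]

theorem sca_cgr (w : ℂ → ℝ) (a : ℂ) {r : ℝ} (hr : 0 < r) (x : ℂ) :
    cgr (fun x => w (a + r • x) / Real.sqrt r) x = (Real.sqrt r : ℂ) * cgr w (a + r • x) := by
  have h1 : (fun x => w (a + r • x) / Real.sqrt r) =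
      fun x => (Real.sqrt r)⁻¹ * (fun y => w (a + r • y)) x := by
    funext x; rw [div_eq_inv_mul]
  rw [h1, cgr_const_mul, cgr_affine w a hr, ← mul_assoc]
  congr 1
  rw [← Complex.ofReal_mul]
  congr 1
  have h2 : Real.sqrt r * Real.sqrt r = r := Real.mul_self_sqrt hr.le
  have h3 : Real.sqrt r ≠ 0 := (Real.sqrt_pos.mpr hr).ne'
  field_simp
  rw [sq, h2]

theorem cen_scale (w : ℂ → ℝ) (K A : Set ℂ) (a : ℂ) {r : ℝ} (hr : 0 < r) :
    cen (fun x => w (a + r • x) / Real.sqrt r) ((fun x => a + r • x) ⁻¹' K)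
      ((fun x => a + r • x) ⁻¹' A) = ENNReal.ofReal r⁻¹ * cen w K A := by
  unfold cen
  have hT : (fun x => a + r • x) = scaT a r := rfl
  rw [mul_add, hT, ← preimage_sdiff, ← preimage_inter, sca_haus a hr]
  congr 1
  have h1 : ∫⁻ x in scaT a r ⁻¹' (A \ K), ‖cgr (fun x => w (a + r • x) / Real.sqrt r) x‖ₑ ^ 2 =
      ∫⁻ x in scaT a r ⁻¹' (A \ K), ENNReal.ofReal r * ‖cgr w (scaT a r x)‖ₑ ^ 2 := by
    refine lintegral_congr fun x => ?_
    rw [sca_cgr w a hr, enorm_mul, mul_pow]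
    congr 1
    rw [← ofReal_norm, Complex.norm_real, Real.norm_eq_abs, abs_of_nonneg (Real.sqrt_nonneg _),
      ← ENNReal.ofReal_pow (Real.sqrt_nonneg _), Real.sq_sqrt hr.le]
  have hem : MeasurableEmbedding (scaT a r) := (scaH a hr).measurableEmbedding
  rw [h1, lintegral_const_mul' _ _ ENNReal.ofReal_ne_top]
  have h2 : ∫⁻ x in scaT a r ⁻¹' (A \ K), ‖cgr w (scaT a r x)‖ₑ ^ 2 =
      ENNReal.ofReal ((r ^ 2)⁻¹) * ∫⁻ x in A \ K, ‖cgr w x‖ₑ ^ 2 := by
    have h3 := hem.lintegral_map (μ := volume.restrict (scaT a r ⁻¹' (A \ K)))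
      (fun y => ‖cgr w y‖ₑ ^ 2)
    rw [← h3, ← hem.restrict_map, sca_map_volume a hr, Measure.restrict_smul,
      lintegral_smul_measure, smul_eq_mul]
  rw [h2, ← mul_assoc, ← ENNReal.ofReal_mul hr.le]
  congr 2
  field_simp

theorem TConf.scale (h : TConf Ω w l K) (a : ℂ) {r : ℝ} (hr : 0 < r) :
    TConf ((fun x => a + r • x) ⁻¹' Ω) (fun x => w (a + r • x) / Real.sqrt r)
      (fun x => l (a + r • x)) ((fun x => a + r • x) ⁻¹' K) := by
  have hc : Continuous (fun x : ℂ => a + r • x) := sca_continuous a r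
  refine ⟨h.isOpen.preimage hc, preimage_mono h.sub, ?_, ?_, ?_, ?_⟩
  · rw [← preimage_sdiff]
    exact h.isOpen_off.preimage hc
  · rw [← preimage_sdiff]
    refine ContDiffOn.div_const ?_ _
    refine h.smooth.comp (g := w) (f := fun x : ℂ => a + r • x) ?_ (mapsTo_preimage _ _)
    exact (contDiff_const.add (contDiff_const_smul r)).contDiffOn
  · intro x hx
    exact hc.continuousAt.eventually (h.lab (a + r • x) hx)
  · intro C hC hCΩ
    have h1 : C = (fun x => a + r • x) ⁻¹' (scaT a r '' C) :=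
      (preimage_image_eq C (scaH a hr).injective).symm
    rw [h1, cen_scale w K _ a hr]
    refine ENNReal.mul_lt_top ENNReal.ofReal_lt_top (h.fin _ (hC.image (sca_continuous a r)) ?_)
    rw [image_subset_iff]
    exact hCΩ

theorem TMin.scale (h : TMin Ω u l K) (a : ℂ) {r : ℝ} (hr : 0 < r) :
    TMin ((fun x => a + r • x) ⁻¹' Ω) (fun x => u (a + r • x) / Real.sqrt r)
      (fun x => l (a + r • x)) ((fun x => a + r • x) ⁻¹' K) := by
  have hT : (fun x => a + r • x) = scaT a r := rfl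
  refine ⟨h.toTConf.scale a hr, ?_, ?_, ?_⟩
  · rw [← preimage_sdiff]
    have h1 : (fun x => (starRingEnd ℂ) (cgr (fun x => u (a + r • x) / Real.sqrt r) x)) =
        fun x => (Real.sqrt r : ℂ) * (fun y => (starRingEnd ℂ) (cgr u y)) (scaT a r x) := by
      funext x
      rw [sca_cgr u a hr, map_mul, Complex.conj_ofReal]
      rfl
    rw [h1]
    refine DifferentiableOn.const_mul ?_ _
    refine h.hol.comp (f := scaT a r) ?_ (mapsTo_preimage _ _)
    have : Differentiable ℂ (scaT a r) := by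
      have h2 : scaT a r = fun x => a + (r : ℂ) * x := by
        funext x
        unfold scaT
        rw [Complex.real_smul]
      rw [h2]
      fun_prop
    exact this.differentiableOn
  · intro x hx ρ hρ hb
    have h1 : closedBall (scaT a r x) (r * ρ) ⊆ Ω := by
      intro y hy
      have h2 : scaT (-(r⁻¹ • a)) r⁻¹ y ∈ closedBall x ρ := by
        rw [← sca_closedBall a hr, mem_preimage, sca_inv' a hr]
        exact hy
      have h3 := hb h2
      rw [mem_preimage] at h3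
      have h4 : a + r • scaT (-(r⁻¹ • a)) r⁻¹ y = y := sca_inv' a hr y
      rwa [h4] at h3
    have h2 := h.dens (scaT a r x) hx (r * ρ) (by positivity) h1
    have h3 := cen_scale u K (ball (scaT a r x) (r * ρ)) a hr
    rw [hT, sca_ball a hr] at h3
    rw [hT, h3]
    calc ENNReal.ofReal (2 * ρ) = ENNReal.ofReal r⁻¹ * ENNReal.ofReal (2 * (r * ρ)) := by
          rw [← ENNReal.ofReal_mul (by positivity)]
          congr 1
          field_simp
      _ ≤ _ := mul_le_mul_right h2 _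
  · intro w l' K' F hw hF hFΩ hK hwu
    have hr' : 0 < r⁻¹ := inv_pos.mpr hr
    have h1 := hw.scale (-(r⁻¹ • a)) hr'
    have hS : (fun x => -(r⁻¹ • a) + r⁻¹ • x) = scaT (-(r⁻¹ • a)) r⁻¹ := rfl
    have hΩ : (fun x => -(r⁻¹ • a) + r⁻¹ • x) ⁻¹' ((fun x => a + r • x) ⁻¹' Ω) = Ω := by
      ext y
      rw [hS, hT, mem_preimage, mem_preimage, sca_inv' a hr]
    rw [hΩ] at h1
    have hFF : scaT a r ⁻¹' (scaT (-(r⁻¹ • a)) r⁻¹ ⁻¹' F) = F := by
      ext y
      rw [mem_preimage, mem_preimage, sca_inv a hr]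
    have hFc : IsCompact (scaT (-(r⁻¹ • a)) r⁻¹ ⁻¹' F) :=
      (scaH a hr).symm.isCompact_preimage.mpr hF
    have h2 := h.min _ _ _ (scaT (-(r⁻¹ • a)) r⁻¹ ⁻¹' F) h1 hFc (by
      intro y hy
      have h3 := hFΩ hy
      rw [mem_preimage] at h3
      have h4 : a + r • scaT (-(r⁻¹ • a)) r⁻¹ y = y := sca_inv' a hr y
      rwa [h4] at h3) (by
      intro x hx
      have h4 : a + r • scaT (-(r⁻¹ • a)) r⁻¹ x = x := sca_inv' a hr x
      have h3 := hK (scaT (-(r⁻¹ • a)) r⁻¹ x) ⟨by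
        rw [mem_preimage, h4]; exact hx.1, hx.2⟩
      rw [mem_preimage (s := K), h4] at h3
      exact h3) (by
      intro x hx hxK
      have h4 : a + r • scaT (-(r⁻¹ • a)) r⁻¹ x = x := sca_inv' a hr x
      have h3 := hwu (scaT (-(r⁻¹ • a)) r⁻¹ x) ⟨by
        rw [mem_preimage, h4]; exact hx.1, hx.2⟩ (by
        rw [mem_preimage, h4]; exact hxK)
      rw [h4] at h3
      refine ⟨?_, h3.2⟩
      have h5 : w (-(r⁻¹ • a) + r⁻¹ • x) = u x / Real.sqrt r := h3.1
      rw [h5, Real.sqrt_inv]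
      have h6 : Real.sqrt r ≠ 0 := (Real.sqrt_pos.mpr hr).ne'
      field_simp)
    have h3 := cen_scale w K' F (-(r⁻¹ • a)) hr'
    rw [hS] at h3 h2
    rw [h3, inv_inv] at h2
    have h4 := cen_scale u K (scaT (-(r⁻¹ • a)) r⁻¹ ⁻¹' F) a hr
    rw [hT, hFF] at h4
    rw [hT, h4]
    calc ENNReal.ofReal r⁻¹ * cen u K (scaT (-(r⁻¹ • a)) r⁻¹ ⁻¹' F)
        ≤ ENNReal.ofReal r⁻¹ * (ENNReal.ofReal r * cen w K' F) := mul_le_mul_right h2 _
      _ = cen w K' F := by
          rw [← mul_assoc, ← ENNReal.ofReal_mul hr'.le, inv_mul_cancel₀ hr.ne', ENNReal.ofReal_one,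
            one_mul]

theorem cen_neg (w : ℂ → ℝ) (K A : Set ℂ) : cen (fun x => - w x) K A = cen w K A := by
  unfold cen
  congr 1
  refine lintegral_congr fun x => ?_
  rw [cgr_neg, enorm_neg]

theorem TConf.neg (h : TConf Ω w l K) : TConf Ω (fun x => - w x) l K where
  isOpen := h.isOpen
  sub := h.sub
  isOpen_off := h.isOpen_off
  smooth := h.smooth.neg
  lab := h.lab
  fin := fun C hC hCΩ => by rw [cen_neg]; exact h.fin C hC hCΩ

theorem TMin.neg (h : TMin Ω u l K) : TMin Ω (fun x => - u x) l K := by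
  refine ⟨h.toTConf.neg, ?_, ?_, ?_⟩
  · have h1 : (fun x => (starRingEnd ℂ) (cgr (fun x => - u x) x)) =
        fun x => - (fun y => (starRingEnd ℂ) (cgr u y)) x := by
      funext x
      rw [cgr_neg, map_neg]
    rw [h1]
    exact h.hol.neg
  · intro x hx r hr hb
    rw [cen_neg]
    exact h.dens x hx r hr hb
  · intro w l' K' F hw hF hFΩ hK hwu
    rw [cen_neg]
    have h1 := h.min (fun x => - w x) l' K' F hw.neg hF hFΩ hK (fun x hx hxK => by
      obtain ⟨h2, h3⟩ := hwu x hx hxK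
      exact ⟨by rw [h2, neg_neg], h3⟩)
    rwa [cen_neg] at h1

end Pool.Agent.MP099f24
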