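import Mathlib
import Pool.Agent.Lib.MP_099f24_an.TM.Defs

/-!
# Topological minimizers: the outer variation (weak Neumann condition)
-/

set_option autoImplicit false

namespace Pool.Agent.MP099f24

open MeasureTheory Filter Topology Set Metric
open scoped ENNReal ContDiff

variable {Ω : Set ℂ} {u w : ℂ → ℝ} {l : ℂ → Set ℂ} {K : Set ℂ}

/-- an admissible outer test function -/
structure TTest (Ω K F : Set ℂ) (ψ : ℂ → ℝ) : Prop where
  isCompact : IsCompact F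
  sub : F ⊆ Ω
  smooth : ContDiffOn ℝ 1 ψ (Ω \ K)
  supp : ∀ x ∉ F, ψ x = 0
  int : ∫⁻ x in F \ K, ‖cgr ψ x‖ₑ ^ 2 < ⊤

theorem out_cgr_lin {u ψ : ℂ → ℝ} {x : ℂ} (h : DifferentiableAt ℝ u x)
    (h' : DifferentiableAt ℝ ψ x) (t : ℝ) :
    cgr (fun y => u y + t * ψ y) x = cgr u x + t • cgr ψ x := by
  unfold cgr
  rw [fderiv_fun_add h (h'.const_mul t), fderiv_const_mul h']
  simp only [add_apply, smul_apply, smul_eq_mul,
    Complex.ofReal_add, Complex.ofReal_mul, Complex.real_smul]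
  ring

theorem out_cont {ψ : ℂ → ℝ} {O : Set ℂ} (hO : IsOpen O) (h : ContDiffOn ℝ 1 ψ O) :
    ContinuousOn (cgr ψ) O := by
  have h1 : ContinuousOn (fderiv ℝ ψ) O := h.continuousOn_fderiv_of_isOpen hO le_rfl
  have h2 : ∀ v : ℂ, ContinuousOn (fun x => ((fderiv ℝ ψ x v : ℝ) : ℂ)) O := fun v =>
    Complex.continuous_ofReal.comp_continuousOn (h1.clm_apply continuousOn_const)
  exact (h2 1).add ((h2 Complex.I).mul continuousOn_const)

theorem out_zero {ψ : ℂ → ℝ} {F : Set ℂ} (hF : IsClosed F) (h : ∀ x ∉ F, ψ x = 0) :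
    ∀ x ∉ F, cgr ψ x = 0 := by
  intro x hx
  have h1 : ψ =ᶠ[𝓝 x] fun _ => 0 := by
    filter_upwards [hF.isOpen_compl.mem_nhds hx] with y hy
    exact h y hy
  unfold cgr
  rw [h1.fderiv_eq]
  simp

theorem out_enorm_sq (a b : ℂ) (t : ℝ) :
    ‖a + t • b‖ₑ ^ 2 ≤ 2 * ‖a‖ₑ ^ 2 + 2 * ENNReal.ofReal (t ^ 2) * ‖b‖ₑ ^ 2 := by
  have h1 : ‖a + t • b‖ ≤ ‖a‖ + |t| * ‖b‖ := by
    refine (norm_add_le _ _).trans_eq ?_
    rw [norm_smul, Real.norm_eq_abs]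
  have h2 : ‖a + t • b‖ ^ 2 ≤ 2 * ‖a‖ ^ 2 + 2 * t ^ 2 * ‖b‖ ^ 2 := by
    have h3 : ‖a + t • b‖ ^ 2 ≤ (‖a‖ + |t| * ‖b‖) ^ 2 :=
      pow_le_pow_left₀ (norm_nonneg _) h1 2
    have h4 : (|t| * ‖b‖) ^ 2 = t ^ 2 * ‖b‖ ^ 2 := by rw [mul_pow, sq_abs]
    nlinarith [sq_nonneg (‖a‖ - |t| * ‖b‖)]
  have e : ∀ z : ℂ, ‖z‖ₑ ^ 2 = ENNReal.ofReal (‖z‖ ^ 2) := fun z => by
    rw [ENNReal.ofReal_pow (norm_nonneg _), ofReal_norm]
  rw [e, e, e, show (2 : ℝ≥0∞) = ENNReal.ofReal 2 by simp, mul_assoc,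
    ← ENNReal.ofReal_mul (by positivity), ← ENNReal.ofReal_mul (by positivity),
    ← ENNReal.ofReal_mul (by positivity), ← ENNReal.ofReal_add (by positivity) (by positivity)]
  refine ENNReal.ofReal_le_ofReal ?_
  linarith

theorem out_conf (h : TConf Ω u l K) {F : Set ℂ} {ψ : ℂ → ℝ} (hψ : TTest Ω K F ψ) (t : ℝ) :
    TConf Ω (fun y => u y + t * ψ y) l K := by
  refine ⟨h.isOpen, h.sub, h.isOpen_off, ?_, h.lab, ?_⟩
  · exact h.smooth.add (contDiffOn_const.mul hψ.smooth)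
  intro C hC hCΩ
  have hFc : IsClosed F := hψ.isCompact.isClosed
  have hfin := h.fin C hC hCΩ
  unfold cen at hfin ⊢
  have hm : MeasurableSet (C \ K) := by
    have : C \ K = C ∩ (Ω \ K) := by
      ext x
      exact ⟨fun hx => ⟨hx.1, hCΩ hx.1, hx.2⟩, fun hx => ⟨hx.1, hx.2.2⟩⟩
    rw [this]
    exact hC.measurableSet.inter h.isOpen_off.measurableSet
  have h1 : ∫⁻ x in C \ K, ‖cgr (fun y => u y + t * ψ y) x‖ₑ ^ 2 ≤
      ∫⁻ x in C \ K, (2 * ‖cgr u x‖ₑ ^ 2 + 2 * ENNReal.ofReal (t ^ 2) * ‖cgr ψ x‖ₑ ^ 2) := by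
    refine setLIntegral_mono' hm fun x hx => ?_
    have hx' : x ∈ Ω \ K := ⟨hCΩ hx.1, hx.2⟩
    have d1 : DifferentiableAt ℝ u x :=
      (h.smooth.differentiableOn one_ne_zero).differentiableAt (h.isOpen_off.mem_nhds hx')
    have d2 : DifferentiableAt ℝ ψ x :=
      (hψ.smooth.differentiableOn one_ne_zero).differentiableAt (h.isOpen_off.mem_nhds hx')
    rw [out_cgr_lin d1 d2]
    exact out_enorm_sq _ _ _
  have hcu : AEMeasurable (fun x => ‖cgr u x‖ₑ ^ 2) (volume.restrict (C \ K)) := by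
    have := ((out_cont h.isOpen_off h.smooth).mono
      (show C \ K ⊆ Ω \ K from fun x hx => ⟨hCΩ hx.1, hx.2⟩)).aestronglyMeasurable hm (μ := volume)
    exact this.enorm.pow_const 2
  have h2 : ∫⁻ x in C \ K, ‖cgr ψ x‖ₑ ^ 2 ≤ ∫⁻ x in F \ K, ‖cgr ψ x‖ₑ ^ 2 := by
    have hz : ∀ x ∉ F, ‖cgr ψ x‖ₑ ^ 2 = 0 := fun x hx => by
      rw [out_zero hFc hψ.supp x hx]
      simp
    calc ∫⁻ x in C \ K, ‖cgr ψ x‖ₑ ^ 2 ≤ ∫⁻ x in (F \ K) ∪ Fᶜ, ‖cgr ψ x‖ₑ ^ 2 := by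
          refine lintegral_mono_set ?_
          intro x hx
          by_cases hxF : x ∈ F
          · exact Or.inl ⟨hxF, hx.2⟩
          · exact Or.inr hxF
      _ ≤ (∫⁻ x in F \ K, ‖cgr ψ x‖ₑ ^ 2) + ∫⁻ x in Fᶜ, ‖cgr ψ x‖ₑ ^ 2 :=
          lintegral_union_le _ _ _
      _ = ∫⁻ x in F \ K, ‖cgr ψ x‖ₑ ^ 2 := by
          rw [setLIntegral_congr_fun hFc.measurableSet.compl (fun x hx => hz x hx)]
          simp
  have h3 : ∫⁻ x in C \ K, (2 * ‖cgr u x‖ₑ ^ 2 + 2 * ENNReal.ofReal (t ^ 2) * ‖cgr ψ x‖ₑ ^ 2) < ⊤ := by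
    rw [lintegral_add_left' (hcu.const_mul 2), lintegral_const_mul'' _ hcu,
      lintegral_const_mul' _ _ (by finiteness)]
    refine ENNReal.add_lt_top.2 ⟨?_, ?_⟩
    · exact ENNReal.mul_lt_top (by simp) (lt_of_le_of_lt (self_le_add_right _ _) hfin)
    · exact ENNReal.mul_lt_top (by finiteness) (h2.trans_lt hψ.int)
  exact ENNReal.add_lt_top.2 ⟨h1.trans_lt h3, lt_of_le_of_lt (self_le_add_left _ _) hfin⟩

theorem out_quad {I J : ℝ} (h : ∀ t : ℝ, 0 ≤ 2 * t * I + t ^ 2 * J) : I = 0 := by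
  by_contra hI
  rcases le_or_gt J 0 with hJ | hJ
  · have h1 := h 1
    have h2 := h (-1)
    rcases lt_or_gt_of_ne hI with h3 | h3 <;> nlinarith
  · have h1 := h (-(I / J))
    have h2 : 2 * (-(I / J)) * I + (-(I / J)) ^ 2 * J = - (I ^ 2 / J) := by
      field_simp
      ring
    rw [h2] at h1
    have : 0 < I ^ 2 / J := by positivity
    linarith

theorem TMin.outer (h : TMin Ω u l K) {F : Set ℂ} {ψ : ℂ → ℝ} (hψ : TTest Ω K F ψ) :
    IntegrableOn (fun x => inner ℝ (cgr u x) (cgr ψ x)) (F \ K) ∧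
      ∫ x in F \ K, inner ℝ (cgr u x) (cgr ψ x) = 0 := by
  have hFc : IsClosed F := hψ.isCompact.isClosed
  have hsub : F \ K ⊆ Ω \ K := fun x hx => ⟨hψ.sub hx.1, hx.2⟩
  have hm : MeasurableSet (F \ K) := by
    have : F \ K = F ∩ (Ω \ K) := by
      ext x
      exact ⟨fun hx => ⟨hx.1, hψ.sub hx.1, hx.2⟩, fun hx => ⟨hx.1, hx.2.2⟩⟩
    rw [this]
    exact hFc.measurableSet.inter h.isOpen_off.measurableSet
  set μ : Measure ℂ := volume.restrict (F \ K) with hμ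
  have hfin := h.fin F hψ.isCompact hψ.sub
  have hfin1 : ∫⁻ x in F \ K, ‖cgr u x‖ₑ ^ 2 < ⊤ := lt_of_le_of_lt (self_le_add_right _ _) hfin
  have hfin2 : (μH[1] : Measure ℂ) (K ∩ F) < ⊤ := lt_of_le_of_lt (self_le_add_left _ _) hfin
  have mu : AEStronglyMeasurable (cgr u) μ :=
    ((out_cont h.isOpen_off h.smooth).mono hsub).aestronglyMeasurable hm
  have mψ : AEStronglyMeasurable (cgr ψ) μ :=
    ((out_cont h.isOpen_off hψ.smooth).mono hsub).aestronglyMeasurable hm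
  have iu : Integrable (fun x => ‖cgr u x‖ ^ 2) μ := by
    refine ⟨mu.norm.pow 2, ?_⟩
    rw [HasFiniteIntegral]
    simpa [enorm_pow, enorm_norm] using hfin1
  have iψ : Integrable (fun x => ‖cgr ψ x‖ ^ 2) μ := by
    refine ⟨mψ.norm.pow 2, ?_⟩
    rw [HasFiniteIntegral]
    simpa [enorm_pow, enorm_norm] using hψ.int
  have ii : Integrable (fun x => inner ℝ (cgr u x) (cgr ψ x)) μ := by
    refine Integrable.mono' (g := fun x => ‖cgr u x‖ ^ 2 + ‖cgr ψ x‖ ^ 2) (iu.add iψ)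
      (mu.inner mψ) (Eventually.of_forall fun x => ?_)
    have h1 := norm_inner_le_norm (𝕜 := ℝ) (cgr u x) (cgr ψ x)
    nlinarith [sq_nonneg (‖cgr u x‖ - ‖cgr ψ x‖), sq_nonneg (‖cgr u x‖ + ‖cgr ψ x‖)]
  refine ⟨ii, ?_⟩
  refine out_quad (J := ∫ x, ‖cgr ψ x‖ ^ 2 ∂μ) fun t => ?_
  have hmin := h.min (fun y => u y + t * ψ y) l K F (out_conf h.toTConf hψ t) hψ.isCompact hψ.sub
    (fun x _ => Iff.rfl) (fun x hx _ => ⟨by simp [hψ.supp x hx.2], rfl⟩)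
  unfold cen at hmin
  rw [ENNReal.add_le_add_iff_right hfin2.ne] at hmin
  have e1 : ∀ x ∈ F \ K, cgr (fun y => u y + t * ψ y) x = cgr u x + t • cgr ψ x := by
    intro x hx
    have d1 : DifferentiableAt ℝ u x :=
      (h.smooth.differentiableOn one_ne_zero).differentiableAt (h.isOpen_off.mem_nhds (hsub hx))
    have d2 : DifferentiableAt ℝ ψ x :=
      (hψ.smooth.differentiableOn one_ne_zero).differentiableAt (h.isOpen_off.mem_nhds (hsub hx))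
    exact out_cgr_lin d1 d2 t
  rw [setLIntegral_congr_fun (f := fun x => ‖cgr (fun y => u y + t * ψ y) x‖ₑ ^ 2)
    (g := fun x => ‖cgr u x + t • cgr ψ x‖ₑ ^ 2) hm (fun x hx => by
      simp only
      rw [e1 x hx])] at hmin
  have e2 : ∀ x, ‖cgr u x + t • cgr ψ x‖ ^ 2 =
      ‖cgr u x‖ ^ 2 + 2 * t * inner ℝ (cgr u x) (cgr ψ x) + t ^ 2 * ‖cgr ψ x‖ ^ 2 := by
    intro x
    rw [norm_add_sq_real, inner_smul_right, norm_smul, Real.norm_eq_abs, mul_pow, sq_abs]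
    ring
  have is : Integrable (fun x => ‖cgr u x + t • cgr ψ x‖ ^ 2) μ := by
    simp_rw [e2]
    exact (iu.add (ii.const_mul _)).add (iψ.const_mul _)
  have e3 : ∀ z : ℂ, ‖z‖ₑ ^ 2 = ENNReal.ofReal (‖z‖ ^ 2) := fun z => by
    rw [ENNReal.ofReal_pow (norm_nonneg _), ofReal_norm]
  simp_rw [e3] at hmin
  rw [← ofReal_integral_eq_lintegral_ofReal iu (Eventually.of_forall fun x => by positivity),
    ← ofReal_integral_eq_lintegral_ofReal is (Eventually.of_forall fun x => by positivity),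
    ENNReal.ofReal_le_ofReal_iff (integral_nonneg fun x => by positivity)] at hmin
  have e4 : ∫ x, ‖cgr u x + t • cgr ψ x‖ ^ 2 ∂μ = (∫ x, ‖cgr u x‖ ^ 2 ∂μ) +
      2 * t * (∫ x, inner ℝ (cgr u x) (cgr ψ x) ∂μ) + t ^ 2 * ∫ x, ‖cgr ψ x‖ ^ 2 ∂μ := by
    simp_rw [e2]
    have i2 : Integrable (fun x => 2 * t * inner ℝ (cgr u x) (cgr ψ x)) μ := ii.const_mul _
    have i3 : Integrable (fun x => ‖cgr u x‖ ^ 2 + 2 * t * inner ℝ (cgr u x) (cgr ψ x)) μ :=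
      iu.add i2
    have i4 : Integrable (fun x => t ^ 2 * ‖cgr ψ x‖ ^ 2) μ := iψ.const_mul _
    rw [integral_add i3 i4, integral_add iu i2, integral_const_mul, integral_const_mul]
  rw [e4] at hmin
  linarith

end Pool.Agent.MP099f24
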