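import Mathlib
import Pool.Agent.Lib.MP_099f24_an.TM.Defs
import Pool.Agent.Lib.MP_099f24_an.TM.Out
import Pool.Agent.Lib.MP_099f24_an.EA.Defs

/-!
# Orthogonality in two independent directions: no singular part
-/

set_option autoImplicit false

namespace Pool.Agent.MP099f24

open MeasureTheory Filter Topology Set Metric
open scoped ENNReal ContDiff

lemma tm_dist_mul {w w' : ℂ → ℝ} {x : ℂ} (h : DifferentiableAt ℝ w x)
    (h' : DifferentiableAt ℝ w' x) :
    cgr (fun y => w y * w' y) x = (w x : ℂ) * cgr w' x + (w' x : ℂ) * cgr w x := by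
  unfold cgr
  rw [fderiv_fun_mul h h']
  simp only [add_apply, smul_apply, smul_eq_mul]
  push_cast
  ring

lemma tm_dist_inner (w : ℂ → ℝ) (x v : ℂ) : inner ℝ (cgr w x) v = fderiv ℝ w x v := by
  have h1 : v = v.re • (1 : ℂ) + v.im • Complex.I := by
    apply Complex.ext <;> simp
  conv_rhs => rw [h1, map_add, map_smul, map_smul]
  rw [Complex.inner]
  simp [cgr]

lemma tm_dist_norm (w : ℂ → ℝ) (x : ℂ) : ‖cgr w x‖ ≤ 2 * ‖fderiv ℝ w x‖ := by
  unfold cgr
  refine (norm_add_le _ _).trans ?_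
  rw [norm_mul, Complex.norm_I, mul_one, Complex.norm_real, Complex.norm_real]
  have h1 := (fderiv ℝ w x).le_opNorm 1
  have h2 := (fderiv ℝ w x).le_opNorm Complex.I
  rw [norm_one, mul_one] at h1
  rw [Complex.norm_I, mul_one] at h2
  linarith

lemma tm_dist_cont {w : ℂ → ℝ} {s : Set ℂ} (hs : IsOpen s) (h : ContDiffOn ℝ 1 w s) :
    ContinuousOn (cgr w) s := by
  have h1 := h.continuousOn_fderiv_of_isOpen hs le_rfl
  unfold cgr
  have h2 : ∀ v : ℂ, ContinuousOn (fun x => (fderiv ℝ w x v : ℂ)) s := fun v =>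
    Complex.continuous_ofReal.comp_continuousOn (h1.clm_apply continuousOn_const)
  exact (h2 1).add ((h2 Complex.I).mul continuousOn_const)

lemma tm_dist_congr {w w' : ℂ → ℝ} {x : ℂ} (h : w =ᶠ[𝓝 x] w') : cgr w x = cgr w' x := by
  unfold cgr
  rw [h.fderiv_eq]

lemma tm_dist_zero {w : ℂ → ℝ} {x : ℂ} (h : x ∉ tsupport w) : cgr w x = 0 := by
  have h1 : w =ᶠ[𝓝 x] fun _ => 0 := notMem_tsupport_iff_eventuallyEq.1 h
  rw [tm_dist_congr h1]
  simp [cgr]

/-- the quotient of a real test function by a nonvanishing holomorphic function -/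
lemma tm_dist_quot {B : Set ℂ} (hB : IsOpen B) {p : ℂ → ℂ} (hp : DifferentiableOn ℂ p B)
    (hp0 : ∀ x ∈ B, p x ≠ 0) {φ : ℂ → ℝ} (hφ : ContDiff ℝ ∞ φ) (hφB : tsupport φ ⊆ B) :
    ContDiff ℝ ∞ (fun x => (φ x : ℂ) / p x) ∧
      ∀ x ∈ B, cgr (fun y => ((φ y : ℂ) / p y).re) x +
        Complex.I * cgr (fun y => ((φ y : ℂ) / p y).im) x = cgr φ x / p x := by
  have hsm : ContDiff ℝ ∞ (fun x => (φ x : ℂ) / p x) := by
    rw [contDiff_iff_contDiffAt]
    intro x
    by_cases hx : x ∈ B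
    · have h1 : AnalyticAt ℂ p x := hp.analyticAt (hB.mem_nhds hx)
      have h2 : ContDiffAt ℝ ∞ p x := (h1.restrictScalars (𝕜 := ℝ)).contDiffAt
      have h3 : ContDiffAt ℝ ∞ (fun y => (φ y : ℂ)) x :=
        (Complex.ofRealCLM.contDiff.comp hφ).contDiffAt
      simp only [div_eq_mul_inv]
      exact h3.mul (h2.inv (hp0 x hx))
    · have h1 : φ =ᶠ[𝓝 x] fun _ => 0 :=
        notMem_tsupport_iff_eventuallyEq.1 fun h => hx (hφB h)
      have h2 : (fun x => (φ x : ℂ) / p x) =ᶠ[𝓝 x] fun _ => 0 := by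
        filter_upwards [h1] with y hy
        simp [hy]
      exact contDiffAt_const.congr_of_eventuallyEq h2
  refine ⟨hsm, fun x hx => ?_⟩
  set q : ℂ → ℂ := fun x => (φ x : ℂ) / p x with hq
  have hqd : DifferentiableAt ℝ q x := hsm.differentiable (by simp) x
  have hpd : DifferentiableAt ℂ p x := (hp x hx).differentiableAt (hB.mem_nhds hx)
  have hpr : DifferentiableAt ℝ p x := hpd.restrictScalars ℝ
  have hpI : fderiv ℝ p x Complex.I = Complex.I * fderiv ℝ p x 1 := by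
    rw [hpd.fderiv_restrictScalars ℝ]
    simp only [ContinuousLinearMap.coe_restrictScalars']
    have := (fderiv ℂ p x).map_smul Complex.I 1
    rwa [smul_eq_mul, smul_eq_mul, mul_one] at this
  have hre : ∀ v, fderiv ℝ (fun y => (q y).re) x v = (fderiv ℝ q x v).re := fun v => by
    have h1 : HasFDerivAt (fun y => (q y).re) (Complex.reCLM.comp (fderiv ℝ q x)) x :=
      Complex.reCLM.hasFDerivAt.comp x hqd.hasFDerivAt
    rw [h1.fderiv]
    rfl
  have him : ∀ v, fderiv ℝ (fun y => (q y).im) x v = (fderiv ℝ q x v).im := fun v => by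
    have h1 : HasFDerivAt (fun y => (q y).im) (Complex.imCLM.comp (fderiv ℝ q x)) x :=
      Complex.imCLM.hasFDerivAt.comp x hqd.hasFDerivAt
    rw [h1.fderiv]
    rfl
  have h0 : cgr (fun y => (q y).re) x + Complex.I * cgr (fun y => (q y).im) x =
      fderiv ℝ q x 1 + Complex.I * fderiv ℝ q x Complex.I := by
    unfold cgr
    rw [hre, hre, him, him]
    apply Complex.ext
    · simp
    · simp
      ring
  have hφd : DifferentiableAt ℝ (fun y => (φ y : ℂ)) x :=
    (Complex.ofRealCLM.differentiable.comp (hφ.differentiable (by simp))) x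
  have hφv : ∀ v, fderiv ℝ (fun y => (φ y : ℂ)) x v = (fderiv ℝ φ x v : ℂ) := fun v => by
    have h1 : HasFDerivAt (fun y => (φ y : ℂ)) (Complex.ofRealCLM.comp (fderiv ℝ φ x)) x :=
      Complex.ofRealCLM.hasFDerivAt.comp x ((hφ.differentiable (by simp)) x).hasFDerivAt
    rw [h1.fderiv]
    rfl
  -- `φ = q p`
  have hprod : (fun y => (φ y : ℂ)) =ᶠ[𝓝 x] fun y => q y * p y := by
    filter_upwards [hB.mem_nhds hx] with y hy
    simp [hq, hp0 y hy]
  have h1 : ∀ v, (fderiv ℝ φ x v : ℂ) = q x * fderiv ℝ p x v + p x * fderiv ℝ q x v := fun v => by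
    rw [← hφv, hprod.fderiv_eq, fderiv_fun_mul hqd hpr]
    simp only [add_apply, smul_apply, smul_eq_mul]
  have h2 : cgr φ x = p x * (fderiv ℝ q x 1 + Complex.I * fderiv ℝ q x Complex.I) := by
    unfold cgr
    rw [h1, h1, hpI]
    linear_combination (q x * fderiv ℝ p x 1) * Complex.I_mul_I
  change cgr (fun y => (q y).re) x + Complex.I * cgr (fun y => (q y).im) x = cgr φ x / p x
  rw [h0, h2, mul_div_cancel_left₀ _ (hp0 x hx)]

/-- integrability of a product of a test function and a bounded function -/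
lemma tm_dist_test {Ω K : Set ℂ} (hK : IsOpen (Ω \ K)) {ψ : ℂ → ℝ}
    (hψ : ContDiffOn ℝ 1 ψ (Ω \ K)) {M : ℝ} (hM : ∀ x, |ψ x| ≤ M)
    (hψ2 : ∀ C, IsCompact C → C ⊆ Ω → ∫⁻ x in C \ K, ‖cgr ψ x‖ₑ ^ 2 < ⊤)
    {F : Set ℂ} (hF : IsCompact F) (hFΩ : F ⊆ Ω) {f : ℂ → ℝ} (hf : ContDiff ℝ ∞ f)
    (hfF : tsupport f ⊆ F) :
    TTest Ω K F (fun x => f x * ψ x) ∧
    (∀ x ∈ Ω \ K, cgr (fun x => f x * ψ x) x = (f x : ℂ) * cgr ψ x + (ψ x : ℂ) * cgr f x) ∧
    (∀ p : ℂ → ℂ, Continuous p →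
      IntegrableOn (fun x => p x * cgr (fun x => f x * ψ x) x) (F \ K)) ∧
    IntegrableOn (cgr ψ) (F \ K) := by
  have hfd : Differentiable ℝ f := hf.differentiable (by simp)
  have hψd : ∀ x ∈ Ω \ K, DifferentiableAt ℝ ψ x := fun x hx =>
    (hψ.differentiableOn one_ne_zero).differentiableAt (hK.mem_nhds hx)
  have hcg : ∀ x ∈ Ω \ K, cgr (fun x => f x * ψ x) x =
      (f x : ℂ) * cgr ψ x + (ψ x : ℂ) * cgr f x := fun x hx =>
    tm_dist_mul (hfd x) (hψd x hx)
  have hsm : ContDiffOn ℝ 1 (fun x => f x * ψ x) (Ω \ K) :=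
    ((hf.of_le (by simp)).contDiffOn).mul hψ
  have hfc : Continuous (cgr f) := by
    have := tm_dist_cont isOpen_univ (hf.of_le (by simp) : ContDiff ℝ 1 f).contDiffOn
    exact continuousOn_univ.1 this
  obtain ⟨A, hA⟩ := hF.exists_bound_of_continuousOn hf.continuous.continuousOn
  obtain ⟨A', hA'⟩ := hF.exists_bound_of_continuousOn hfc.continuousOn
  have hFK : F \ K ⊆ Ω \ K := sdiff_subset_sdiff_left hFΩ
  have hFKm : MeasurableSet (F \ K) := by
    have : F \ K = F ∩ (Ω \ K) := by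
      ext x
      constructor
      · rintro ⟨h1, h2⟩
        exact ⟨h1, hFΩ h1, h2⟩
      · rintro ⟨h1, _, h2⟩
        exact ⟨h1, h2⟩
    rw [this]
    exact hF.measurableSet.inter hK.measurableSet
  have hM0 : 0 ≤ M := (abs_nonneg _).trans (hM 0)
  -- pointwise bound
  have hbd : ∀ x ∈ F \ K, ‖cgr (fun x => f x * ψ x) x‖ ≤ |A| * ‖cgr ψ x‖ + M * |A'| := by
    intro x hx
    rw [hcg x (hFK hx)]
    refine (norm_add_le _ _).trans ?_
    rw [norm_mul, norm_mul, Complex.norm_real, Complex.norm_real]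
    have h1 : ‖f x‖ ≤ |A| := (hA x hx.1).trans (le_abs_self _)
    have h2 : ‖ψ x‖ ≤ M := hM x
    have h3 : ‖cgr f x‖ ≤ |A'| := (hA' x hx.1).trans (le_abs_self _)
    gcongr
  have hfin : (volume : Measure ℂ) (F \ K) < ⊤ :=
    (measure_mono sdiff_subset).trans_lt hF.measure_lt_top
  have hmeas : ∀ {w : ℂ → ℝ}, ContDiffOn ℝ 1 w (Ω \ K) →
      AEStronglyMeasurable (cgr w) (volume.restrict (F \ K)) := fun hw =>
    ((tm_dist_cont hK hw).mono hFK).aestronglyMeasurable hFKm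
  have hψsq : IntegrableOn (fun x => ‖cgr ψ x‖ ^ 2) (F \ K) := by
    refine ⟨(hmeas hψ).norm.pow 2, ?_⟩
    unfold HasFiniteIntegral
    have h1 := hψ2 F hF hFΩ
    convert h1 using 2
    funext x
    rw [enorm_pow, enorm_norm]
  have hsq : IntegrableOn (fun x => ‖cgr (fun x => f x * ψ x) x‖ ^ 2) (F \ K) := by
    refine Integrable.mono' (g := fun x => 2 * |A| ^ 2 * ‖cgr ψ x‖ ^ 2 + 2 * (M * |A'|) ^ 2)
      ((hψsq.const_mul _).add (integrableOn_const hfin.ne)) ((hmeas hsm).norm.pow 2) ?_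
    refine (ae_restrict_iff' hFKm).2 (Eventually.of_forall fun x hx => ?_)
    rw [Real.norm_eq_abs, abs_of_nonneg (by positivity)]
    have h1 := pow_le_pow_left₀ (norm_nonneg _) (hbd x hx) 2
    nlinarith [sq_nonneg (|A| * ‖cgr ψ x‖ - M * |A'|)]
  refine ⟨⟨hF, hFΩ, hsm, ?_, ?_⟩, hcg, ?_, ?_⟩
  · intro x hx
    rw [image_eq_zero_of_notMem_tsupport fun h => hx (hfF h), zero_mul]
  · have h1 := hsq.2
    unfold HasFiniteIntegral at h1
    convert h1 using 2
    funext x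
    rw [enorm_pow, enorm_norm]
  · intro p hp
    obtain ⟨P, hP⟩ := hF.exists_bound_of_continuousOn hp.continuousOn
    refine Integrable.mono' (g := fun x => |P| * (1 + ‖cgr (fun x => f x * ψ x) x‖ ^ 2))
      (((integrableOn_const hfin.ne).add hsq).const_mul _)
      (hp.aestronglyMeasurable.mul (hmeas hsm)) ?_
    refine (ae_restrict_iff' hFKm).2 (Eventually.of_forall fun x hx => ?_)
    rw [norm_mul]
    have h1 : ‖p x‖ ≤ |P| := (hP x hx.1).trans (le_abs_self _)
    have h2 : ‖cgr (fun x => f x * ψ x) x‖ ≤ 1 + ‖cgr (fun x => f x * ψ x) x‖ ^ 2 := by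
      nlinarith [sq_nonneg (‖cgr (fun x => f x * ψ x) x‖ - 1 / 2)]
    gcongr
  · refine Integrable.mono' (g := fun x => 1 + ‖cgr ψ x‖ ^ 2)
      (Integrable.add (f := fun _ => (1 : ℝ)) (integrableOn_const hfin.ne) hψsq) (hmeas hψ) ?_
    refine Eventually.of_forall fun x => ?_
    nlinarith [sq_nonneg (‖cgr ψ x‖ - 1 / 2)]

variable {Ω : Set ℂ} {K : Set ℂ}

/-- orthogonality in two independent directions: no singular part near `x₀` -/
theorem tm_dist {k : ℂ → ℂ} (hk : ContDiff ℝ ∞ k) {V : Set ℂ} (hV : IsOpen V) (hVΩ : V ⊆ Ω)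
    (hkV : ∀ x ∈ V, dbar k x = 0)
    (hcr : ∀ (F : Set ℂ) (ψ : ℂ → ℝ), TTest Ω K F ψ →
      ∫ x in F \ K, inner ℝ (Complex.I * cgr (fun y => (k y).re) x) (cgr ψ x) = 0 ∧
      ∫ x in F \ K, inner ℝ (Complex.I * cgr (fun y => (k y).im) x) (cgr ψ x) = 0)
    (_hΩ : IsOpen Ω) (hK : IsOpen (Ω \ K)) (_hK0 : volume K = 0) {x₀ : ℂ} (hx₀ : x₀ ∈ V)
    (hne : fderiv ℝ k x₀ ≠ 0) :
    ∃ ρ > 0, ball x₀ ρ ⊆ V ∧ ∀ ψ : ℂ → ℝ, ContDiffOn ℝ 1 ψ (Ω \ K) → (∃ M, ∀ x, |ψ x| ≤ M) →
      (∀ C, IsCompact C → C ⊆ Ω → ∫⁻ x in C \ K, ‖cgr ψ x‖ₑ ^ 2 < ⊤) →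
      ∀ φ : ℂ → ℝ, ContDiff ℝ ∞ φ → HasCompactSupport φ → tsupport φ ⊆ ball x₀ ρ → ∀ v : ℂ,
        ∫ x in ball x₀ ρ \ K, ψ x * fderiv ℝ φ x v =
          - ∫ x in ball x₀ ρ \ K, φ x * inner ℝ (cgr ψ x) v := by
  set p : ℂ → ℂ := fun x => fderiv ℝ k x 1 with hpdef
  have hpc : Continuous p := (hk.continuous_fderiv (by simp)).clm_apply continuous_const
  have hkd : Differentiable ℝ k := hk.differentiable (by simp)
  have hI : ∀ x ∈ V, fderiv ℝ k x Complex.I = Complex.I * p x := by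
    intro x hx
    have h1 : fderiv ℝ k x 1 + Complex.I * fderiv ℝ k x Complex.I = 0 := by
      have := hkV x hx
      simpa [dbar] using this
    linear_combination (-Complex.I) * h1 + (fderiv ℝ k x Complex.I) * Complex.I_mul_I
  have hkC : DifferentiableOn ℂ k V := fun x hx =>
    (differentiableAt_complex_iff_differentiableAt_real.2
      ⟨hkd x, by rw [hI x hx, smul_eq_mul]⟩).differentiableWithinAt
  have hpC : DifferentiableOn ℂ p V := by
    refine (hkC.deriv hV).congr fun x hx => ?_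
    have h1 : DifferentiableAt ℂ k x := (hkC x hx).differentiableAt (hV.mem_nhds hx)
    rw [hpdef]
    simp only
    rw [h1.fderiv_restrictScalars ℝ]
    simp
  have hp0 : p x₀ ≠ 0 := by
    intro h0
    apply hne
    apply ContinuousLinearMap.ext
    intro v
    have h5 : v = v.re • (1 : ℂ) + v.im • Complex.I := by
      apply Complex.ext <;> simp
    rw [h5, map_add, map_smul, map_smul, hI x₀ hx₀]
    change v.re • p x₀ + v.im • (Complex.I * p x₀) = _
    rw [h0]
    simp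
  obtain ⟨ρ, hρ, hball⟩ : ∃ ρ > 0, ball x₀ ρ ⊆ V ∩ {x | p x ≠ 0} :=
    Metric.isOpen_iff.1 (hV.inter (isOpen_ne_fun hpc continuous_const)) x₀ ⟨hx₀, hp0⟩
  have hbV : ball x₀ ρ ⊆ V := hball.trans inter_subset_left
  have hb0 : ∀ x ∈ ball x₀ ρ, p x ≠ 0 := fun x hx => (hball hx).2
  refine ⟨ρ, hρ, hbV, ?_⟩
  rintro ψ hψ ⟨M, hM⟩ hψ2 φ hφ hφc hφs v
  set B : Set ℂ := ball x₀ ρ with hB
  set F : Set ℂ := tsupport φ with hF
  have hFΩ : F ⊆ Ω := hφs.trans (hbV.trans hVΩ)
  obtain ⟨hqs, hqc⟩ := tm_dist_quot isOpen_ball (hpC.mono hbV) hb0 hφ hφs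
  set q : ℂ → ℂ := fun x => (φ x : ℂ) / p x with hq
  -- the identity for one real factor
  have hone : ∀ f : ℂ → ℝ, ContDiff ℝ ∞ f → tsupport f ⊆ F →
      IntegrableOn (fun x => p x * ((f x : ℂ) * cgr ψ x + (ψ x : ℂ) * cgr f x)) (F \ K) ∧
      ∫ x in F \ K, p x * ((f x : ℂ) * cgr ψ x + (ψ x : ℂ) * cgr f x) = 0 := by
    intro f hf hfF
    obtain ⟨ht, hc, hi, -⟩ := tm_dist_test hK hψ hM hψ2 hφc hFΩ hf hfF
    have hFKm : MeasurableSet (F \ K) := by
      have : F \ K = F ∩ (Ω \ K) := by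
        ext x
        constructor
        · rintro ⟨h1, h2⟩
          exact ⟨h1, hFΩ h1, h2⟩
        · rintro ⟨h1, _, h2⟩
          exact ⟨h1, h2⟩
      rw [this]
      exact hφc.measurableSet.inter hK.measurableSet
    have heq : ∀ x ∈ F \ K, p x * cgr (fun x => f x * ψ x) x =
        p x * ((f x : ℂ) * cgr ψ x + (ψ x : ℂ) * cgr f x) := fun x hx => by
      rw [hc x ⟨hFΩ hx.1, hx.2⟩]
    have hi1 := hi p hpc
    refine ⟨hi1.congr_fun heq hFKm, ?_⟩
    rw [← setIntegral_congr_fun hFKm heq]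
    obtain ⟨h1, h2⟩ := hcr F _ ht
    have hre : ∀ x ∈ F \ K, inner ℝ (Complex.I * cgr (fun y => (k y).im) x)
        (cgr (fun x => f x * ψ x) x) = -(p x * cgr (fun x => f x * ψ x) x).re := by
      intro x hx
      have hxV : x ∈ V := hbV (hφs hx.1)
      have e1 : cgr (fun y => (k y).im) x = Complex.I * (starRingEnd ℂ) (p x) := by
        have h3 : HasFDerivAt (fun y => (k y).im) (Complex.imCLM.comp (fderiv ℝ k x)) x :=
          Complex.imCLM.hasFDerivAt.comp x (hkd x).hasFDerivAt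
        unfold cgr
        rw [h3.fderiv]
        simp only [ContinuousLinearMap.comp_apply, Complex.imCLM_apply, hI x hxV]
        apply Complex.ext <;> simp [hpdef]
      rw [e1, Complex.inner]
      simp
      ring
    have him : ∀ x ∈ F \ K, inner ℝ (Complex.I * cgr (fun y => (k y).re) x)
        (cgr (fun x => f x * ψ x) x) = (p x * cgr (fun x => f x * ψ x) x).im := by
      intro x hx
      have hxV : x ∈ V := hbV (hφs hx.1)
      have e1 : cgr (fun y => (k y).re) x = (starRingEnd ℂ) (p x) := by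
        have h3 : HasFDerivAt (fun y => (k y).re) (Complex.reCLM.comp (fderiv ℝ k x)) x :=
          Complex.reCLM.hasFDerivAt.comp x (hkd x).hasFDerivAt
        unfold cgr
        rw [h3.fderiv]
        simp only [ContinuousLinearMap.comp_apply, Complex.reCLM_apply, hI x hxV]
        apply Complex.ext <;> simp [hpdef]
      rw [e1, Complex.inner]
      simp
      ring
    rw [setIntegral_congr_fun hFKm him] at h1
    rw [setIntegral_congr_fun hFKm hre, integral_neg, neg_eq_zero] at h2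
    apply Complex.ext
    · have := Complex.reCLM.integral_comp_comm hi1
      simp only [Complex.reCLM_apply] at this
      rw [← this, h2, Complex.zero_re]
    · have := Complex.imCLM.integral_comp_comm hi1
      simp only [Complex.imCLM_apply] at this
      rw [← this, h1, Complex.zero_im]
  have hqF : ∀ {g : ℂ → ℝ}, (∀ x, q x = 0 → g x = 0) → tsupport g ⊆ F := by
    intro g hg
    refine closure_minimal (fun x hx => ?_) (isClosed_tsupport _)
    by_contra hcon
    apply hx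
    apply hg
    have h1 : φ x = 0 := image_eq_zero_of_notMem_tsupport hcon
    simp [hq, h1]
  have hf1 : ContDiff ℝ ∞ (fun y => (q y).re) := Complex.reCLM.contDiff.comp hqs
  have hf2 : ContDiff ℝ ∞ (fun y => (q y).im) := Complex.imCLM.contDiff.comp hqs
  obtain ⟨i1, z1⟩ := hone (fun y => (q y).re) hf1 (hqF fun x hx => by simp [hx])
  obtain ⟨i2, z2⟩ := hone (fun y => (q y).im) hf2 (hqF fun x hx => by simp [hx])
  have hFKm : MeasurableSet (F \ K) := by
    have : F \ K = F ∩ (Ω \ K) := by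
      ext x
      constructor
      · rintro ⟨h1, h2⟩
        exact ⟨h1, hFΩ h1, h2⟩
      · rintro ⟨h1, _, h2⟩
        exact ⟨h1, h2⟩
    rw [this]
    exact hφc.measurableSet.inter hK.measurableSet
  have hsum : ∀ x ∈ F \ K, p x * (((q x).re : ℂ) * cgr ψ x + (ψ x : ℂ) * cgr (fun y => (q y).re) x) +
      Complex.I * (p x * (((q x).im : ℂ) * cgr ψ x + (ψ x : ℂ) * cgr (fun y => (q y).im) x)) =
      (φ x : ℂ) * cgr ψ x + (ψ x : ℂ) * cgr φ x := by
    intro x hx
    have hxB : x ∈ B := hφs hx.1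
    have e1 := hqc x hxB
    have e2 : ((q x).re : ℂ) + (q x).im * Complex.I = q x := Complex.re_add_im _
    have e3 : q x * p x = φ x := by
      rw [hq]
      simp only
      rw [div_mul_cancel₀ _ (hb0 x hxB)]
    have e4 : p x * (cgr (fun y => (q y).re) x + Complex.I * cgr (fun y => (q y).im) x) =
        cgr φ x := by
      rw [hq]
      simp only
      rw [e1, mul_div_cancel₀ _ (hb0 x hxB)]
    rw [← e3, ← e4]
    linear_combination (p x * cgr ψ x) * e2
  have i3 : IntegrableOn (fun x => (φ x : ℂ) * cgr ψ x + (ψ x : ℂ) * cgr φ x) (F \ K) :=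
    (i1.add (i2.const_mul Complex.I)).congr_fun hsum hFKm
  have z3 : ∫ x in F \ K, ((φ x : ℂ) * cgr ψ x + (ψ x : ℂ) * cgr φ x) = 0 := by
    rw [← setIntegral_congr_fun hFKm hsum, integral_add i1 (i2.const_mul Complex.I),
      integral_const_mul, z1, z2, mul_zero, add_zero]
  obtain ⟨-, -, -, i4⟩ := tm_dist_test hK hψ hM hψ2 hφc hFΩ hφ subset_rfl
  have hpt : ∀ x, innerSL ℝ v ((φ x : ℂ) * cgr ψ x + (ψ x : ℂ) * cgr φ x) =
      φ x * inner ℝ (cgr ψ x) v + ψ x * fderiv ℝ φ x v := by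
    intro x
    rw [innerSL_apply_apply, ← Complex.real_smul, ← Complex.real_smul, inner_add_right,
      real_inner_smul_right, real_inner_smul_right, ← tm_dist_inner φ x v,
      real_inner_comm v, real_inner_comm v]
  have z4 := (innerSL ℝ v).integral_comp_comm i3
  rw [z3, map_zero] at z4
  simp only [hpt] at z4
  have i5 : IntegrableOn (fun x => φ x * inner ℝ (cgr ψ x) v + ψ x * fderiv ℝ φ x v) (F \ K) := by
    have := (innerSL ℝ v).integrable_comp i3
    simp only [hpt] at this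
    exact this
  obtain ⟨A, hA⟩ := hφc.exists_bound_of_continuousOn hφ.continuous.continuousOn
  have i6 : IntegrableOn (fun x => φ x * inner ℝ (cgr ψ x) v) (F \ K) := by
    refine Integrable.mono' (g := fun x => |A| * ‖v‖ * ‖cgr ψ x‖) (i4.norm.const_mul _)
      (hφ.continuous.aestronglyMeasurable.mul
        (i4.aestronglyMeasurable.inner aestronglyMeasurable_const)) ?_
    refine (ae_restrict_iff' hFKm).2 (Eventually.of_forall fun x hx => ?_)
    rw [norm_mul]
    have h1 : ‖φ x‖ ≤ |A| := (hA x hx.1).trans (le_abs_self _)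
    have h2 : ‖inner ℝ (cgr ψ x) v‖ ≤ ‖cgr ψ x‖ * ‖v‖ := norm_inner_le_norm _ _
    calc ‖φ x‖ * ‖inner ℝ (cgr ψ x) v‖ ≤ |A| * (‖cgr ψ x‖ * ‖v‖) := by gcongr
      _ = _ := by ring
  have i7 : IntegrableOn (fun x => ψ x * fderiv ℝ φ x v) (F \ K) := by
    refine (i5.sub i6).congr (Eventually.of_forall fun x => ?_)
    simp only [Pi.sub_apply]
    ring
  rw [integral_add i6 i7] at z4
  have hBK : MeasurableSet (B \ K) := by
    have : B \ K = B ∩ (Ω \ K) := by
      ext x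
      constructor
      · rintro ⟨h1, h2⟩
        exact ⟨h1, hVΩ (hbV h1), h2⟩
      · rintro ⟨h1, _, h2⟩
        exact ⟨h1, h2⟩
    rw [this]
    exact measurableSet_ball.inter hK.measurableSet
  have hFB : F \ K ⊆ B \ K := sdiff_subset_sdiff_left hφs
  have e1 : ∫ x in B \ K, ψ x * fderiv ℝ φ x v = ∫ x in F \ K, ψ x * fderiv ℝ φ x v := by
    apply setIntegral_eq_of_subset_of_forall_sdiff_eq_zero hBK hFB
    intro y hy
    have h1 : y ∉ F := fun h => hy.2 ⟨h, hy.1.2⟩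
    have h2 : fderiv ℝ φ y = 0 := by
      have h3 : φ =ᶠ[𝓝 y] fun _ => 0 := notMem_tsupport_iff_eventuallyEq.1 h1
      rw [h3.fderiv_eq]
      simp
    rw [h2]
    simp
  have e2 : ∫ x in B \ K, φ x * inner ℝ (cgr ψ x) v =
      ∫ x in F \ K, φ x * inner ℝ (cgr ψ x) v := by
    apply setIntegral_eq_of_subset_of_forall_sdiff_eq_zero hBK hFB
    intro y hy
    have h1 : y ∉ F := fun h => hy.2 ⟨h, hy.1.2⟩
    rw [image_eq_zero_of_notMem_tsupport h1, zero_mul]
  rw [e1, e2]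
  linarith

end Pool.Agent.MP099f24
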