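import Mathlib
import Pool.Agent.Lib.MP_099f24_an.TM.Defs

/-!
# Topological minimizers: competitors transported by a diffeomorphism
-/

set_option autoImplicit false

namespace Pool.Agent.MP099f24

open MeasureTheory Filter Topology Set Metric
open scoped ENNReal ContDiff

variable {Ω : Set ℂ} {w : ℂ → ℝ} {l : ℂ → Set ℂ} {K : Set ℂ} {Φ Ψ : ℂ → ℂ}

lemma tpush_inner (w : ℂ → ℝ) (x v : ℂ) : inner ℝ (cgr w x) v = fderiv ℝ w x v := by
  have h : v = (v.re : ℝ) • (1 : ℂ) + (v.im : ℝ) • Complex.I := by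
    apply Complex.ext <;> simp
  have h2 : fderiv ℝ w x v = v.re * fderiv ℝ w x 1 + v.im * fderiv ℝ w x Complex.I := by
    conv_lhs => rw [h]
    rw [map_add, map_smul, map_smul]
    simp
  rw [h2, cgr, Complex.inner]
  simp

/-- chain rule -/
theorem tpush_cgr {y : ℂ} (hw : DifferentiableAt ℝ w (Ψ y)) (hΨ : DifferentiableAt ℝ Ψ y) :
    cgr (fun z => w (Ψ z)) y = ContinuousLinearMap.adjoint (fderiv ℝ Ψ y) (cgr w (Ψ y)) := by
  apply ext_inner_right ℝ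
  intro v
  rw [tpush_inner, ContinuousLinearMap.adjoint_inner_left, tpush_inner]
  have h1 : fderiv ℝ (fun z => w (Ψ z)) y = (fderiv ℝ w (Ψ y)).comp (fderiv ℝ Ψ y) :=
    fderiv_comp y hw hΨ
  rw [h1]
  rfl

lemma tpush_mem (h1 : ∀ x, Ψ (Φ x) = x) {F : Set ℂ} (hid : ∀ x, x ∉ F → Φ x = x) {x : ℂ} :
    Φ x ∈ F ↔ x ∈ F := by
  constructor
  · intro hx
    by_contra hcon
    rw [hid x hcon] at hx
    exact hcon hx
  · intro hx
    by_contra hcon
    have h3 := congrArg Ψ (hid _ hcon)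
    rw [h1, h1] at h3
    rw [h3] at hcon
    exact hcon hx

lemma tpush_image (h1 : ∀ x, Ψ (Φ x) = x) (h2 : ∀ y, Φ (Ψ y) = y) (A : Set ℂ) :
    Φ '' A = Ψ ⁻¹' A := by
  ext y
  constructor
  · rintro ⟨x, hx, rfl⟩
    show Ψ (Φ x) ∈ A
    rw [h1]
    exact hx
  · intro hy
    exact ⟨Ψ y, hy, h2 y⟩

lemma tpush_superset (h1 : ∀ x, Ψ (Φ x) = x) {F : Set ℂ}
    (hid : ∀ x, x ∉ F → Φ x = x) {A : Set ℂ} (hFA : F ⊆ A) {x : ℂ} : Φ x ∈ A ↔ x ∈ A := by
  by_cases hx : x ∈ F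
  · exact ⟨fun _ => hFA hx, fun _ => hFA ((tpush_mem h1 hid).2 hx)⟩
  · rw [hid x hx]

lemma tpush_image_superset (h1 : ∀ x, Ψ (Φ x) = x) (h2 : ∀ y, Φ (Ψ y) = y) {F : Set ℂ}
    (hid : ∀ x, x ∉ F → Φ x = x) {A : Set ℂ} (hFA : F ⊆ A) : Φ '' A = A := by
  apply Subset.antisymm
  · rintro _ ⟨x, hx, rfl⟩
    exact (tpush_superset h1 hid hFA).2 hx
  · intro y hy
    exact ⟨Ψ y, (tpush_superset h1 hid hFA).1 (by rw [h2]; exact hy), h2 y⟩

/-- the length part -/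
theorem tpush_length (h1 : ∀ x, Ψ (Φ x) = x) {F : Set ℂ}
    (hid : ∀ x, x ∉ F → Φ x = x) {A : Set ℂ} (hFA : F ⊆ A) : Φ '' K ∩ A = Φ '' (K ∩ A) := by
  apply Subset.antisymm
  · rintro _ ⟨⟨x, hx, rfl⟩, hy⟩
    exact ⟨x, ⟨hx, (tpush_superset h1 hid hFA).1 hy⟩, rfl⟩
  · rintro _ ⟨x, ⟨hx, hxA⟩, rfl⟩
    exact ⟨⟨x, hx, rfl⟩, (tpush_superset h1 hid hFA).2 hxA⟩

lemma tpush_sdiff (h1 : ∀ x, Ψ (Φ x) = x) (h2 : ∀ y, Φ (Ψ y) = y) {F : Set ℂ}
    (hid : ∀ x, x ∉ F → Φ x = x) {A : Set ℂ} (hFA : F ⊆ A) :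
    A \ Φ '' K = Φ '' (A \ K) := by
  rw [tpush_image h1 h2, tpush_image h1 h2, preimage_sdiff, ← tpush_image h1 h2 A,
    tpush_image_superset h1 h2 hid hFA]

/-- off `F` nothing changes -/
lemma tpush_inv_off (h1 : ∀ x, Ψ (Φ x) = x) {F : Set ℂ} (hid : ∀ x, x ∉ F → Φ x = x) {x : ℂ}
    (hx : x ∉ F) : Ψ x = x := by
  have h3 := h1 x
  rwa [hid x hx] at h3

/-- the volume part -/
theorem tpush_vol (hsm : ContDiffOn ℝ 1 w (Ω \ K)) (hopen : IsOpen (Ω \ K))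
    (hΦ : ContDiff ℝ 1 Φ) (hΨ : ContDiff ℝ 1 Ψ) (h1 : ∀ x, Ψ (Φ x) = x)
    (h2 : ∀ y, Φ (Ψ y) = y) {F : Set ℂ} (hid : ∀ x, x ∉ F → Φ x = x) {A : Set ℂ} (hFA : F ⊆ A)
    (hAΩ : A ⊆ Ω) (hAm : MeasurableSet (A \ K)) :
    ∫⁻ y in A \ Φ '' K, ‖cgr (fun z => w (Ψ z)) y‖ₑ ^ 2 =
      ∫⁻ x in A \ K, ENNReal.ofReal |(fderiv ℝ Φ x).det| *
        ‖ContinuousLinearMap.adjoint (fderiv ℝ Ψ (Φ x)) (cgr w x)‖ₑ ^ 2 := by
  have hinj : InjOn Φ (A \ K) := by
    intro x _ y _ hxy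
    have := congrArg Ψ hxy
    rwa [h1, h1] at this
  rw [tpush_sdiff h1 h2 hid hFA, lintegral_image_eq_lintegral_abs_det_fderiv_mul volume hAm
    (fun x _ => (hΦ.differentiable (by simp) x).hasFDerivAt.hasFDerivWithinAt) hinj]
  refine setLIntegral_congr_fun hAm fun x hx => ?_
  have hd : DifferentiableAt ℝ w (Ψ (Φ x)) := by
    rw [h1]
    exact (hsm.differentiableOn (by simp)).differentiableAt
      (hopen.mem_nhds ⟨hAΩ hx.1, hx.2⟩)
  rw [tpush_cgr hd (hΨ.differentiable (by simp) _), h1]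

lemma tpush_bdd {Φ : ℂ → ℂ} (hΦ : ContDiff ℝ 1 Φ) {F : Set ℂ} (hF : IsCompact F)
    (hid : ∀ x, x ∉ F → Φ x = x) : ∃ M : ℝ, 1 ≤ M ∧ ∀ x, ‖fderiv ℝ Φ x‖ ≤ M := by
  obtain ⟨C, hC⟩ := hF.exists_bound_of_continuousOn (hΦ.continuous_fderiv (by simp)).continuousOn
  refine ⟨max C 1, le_max_right _ _, fun x => ?_⟩
  by_cases hx : x ∈ F
  · exact (hC x hx).trans (le_max_left _ _)
  · have h3 : Φ =ᶠ[𝓝 x] id := by
      filter_upwards [hF.isClosed.isOpen_compl.mem_nhds hx] with y hy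
      exact hid y hy
    rw [h3.fderiv_eq, fderiv_id]
    exact ContinuousLinearMap.norm_id_le.trans (le_max_right _ _)

lemma tpush_abs_det {B : ℂ →L[ℝ] ℂ} {M : ℝ} (hB : ‖B‖ ≤ M) : |B.det| ≤ 2 * M ^ 2 := by
  have h : B.det = (LinearMap.toMatrix Complex.basisOneI Complex.basisOneI
      (B : ℂ →ₗ[ℝ] ℂ)).det := (LinearMap.det_toMatrix _ _).symm
  have h' : B.det = (B 1).re * (B Complex.I).im - (B 1).im * (B Complex.I).re := by
    rw [h, Matrix.det_fin_two]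
    simp [LinearMap.toMatrix_apply]
    ring
  have h1 : ‖B 1‖ ≤ M := by
    have := B.le_opNorm 1
    rw [norm_one, mul_one] at this
    exact this.trans hB
  have h2 : ‖B Complex.I‖ ≤ M := by
    have := B.le_opNorm Complex.I
    rw [Complex.norm_I, mul_one] at this
    exact this.trans hB
  have hM : 0 ≤ M := (norm_nonneg _).trans h1
  rw [h']
  have e1 := (Complex.abs_re_le_norm (B 1)).trans h1
  have e2 := (Complex.abs_im_le_norm (B 1)).trans h1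
  have e3 := (Complex.abs_re_le_norm (B Complex.I)).trans h2
  have e4 := (Complex.abs_im_le_norm (B Complex.I)).trans h2
  have h5 : |(B 1).re * (B Complex.I).im| ≤ M * M := by
    rw [abs_mul]; exact mul_le_mul e1 e4 (abs_nonneg _) hM
  have h6 : |(B 1).im * (B Complex.I).re| ≤ M * M := by
    rw [abs_mul]; exact mul_le_mul e2 e3 (abs_nonneg _) hM
  calc _ ≤ |(B 1).re * (B Complex.I).im| + |(B 1).im * (B Complex.I).re| := abs_sub _ _
    _ ≤ _ := by nlinarith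

/-- the transported triple is admissible -/
theorem tpush_conf (h : TConf Ω w l K) (hΦ : ContDiff ℝ 1 Φ) (hΨ : ContDiff ℝ 1 Ψ)
    (h1 : ∀ x, Ψ (Φ x) = x) (h2 : ∀ y, Φ (Ψ y) = y) {F : Set ℂ} (hF : IsCompact F) (hFΩ : F ⊆ Ω)
    (hid : ∀ x, x ∉ F → Φ x = x) :
    TConf Ω (fun y => w (Ψ y)) (fun y => l (Ψ y)) (Φ '' K) := by
  have hoff : Ω \ Φ '' K = Ψ ⁻¹' (Ω \ K) := by
    rw [tpush_sdiff h1 h2 hid hFΩ, tpush_image h1 h2]
  have hmem : ∀ y, y ∈ Ω \ Φ '' K → Ψ y ∈ Ω \ K := by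
    intro y hy
    rw [hoff] at hy
    exact hy
  refine ⟨h.isOpen, ?_, ?_, ?_, ?_, ?_⟩
  · rintro _ ⟨x, hx, rfl⟩
    exact (tpush_superset h1 hid hFΩ).2 (h.sub hx)
  · rw [hoff]
    exact h.isOpen_off.preimage hΨ.continuous
  · exact h.smooth.comp hΨ.contDiffOn hmem
  · intro y hy
    have h3 := h.lab _ (hmem y hy)
    exact hΨ.continuous.continuousAt.eventually h3
  · intro C hC hCΩ
    have hKm : MeasurableSet K := by
      have : K = Ω \ (Ω \ K) := by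
        rw [sdiff_sdiff_right_self]
        exact (inter_eq_right.2 h.sub).symm
      rw [this]
      exact h.isOpen.measurableSet.diff h.isOpen_off.measurableSet
    set A := C ∪ F with hA
    have hAc : IsCompact A := hC.union hF
    have hAΩ : A ⊆ Ω := union_subset hCΩ hFΩ
    have hFA : F ⊆ A := subset_union_right
    obtain ⟨M, hM1, hM⟩ := tpush_bdd hΦ hF hid
    obtain ⟨N, hN1, hN⟩ := tpush_bdd hΨ hF (fun x hx => tpush_inv_off h1 hid hx)
    have hfin := h.fin A hAc hAΩ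
    rw [cen] at hfin
    have hfin1 : ∫⁻ x in A \ K, ‖cgr w x‖ₑ ^ 2 < ⊤ := (le_self_add).trans_lt hfin
    have hfin2 : (μH[1] : Measure ℂ) (K ∩ A) < ⊤ := (le_add_self).trans_lt hfin
    have hle : cen (fun y => w (Ψ y)) (Φ '' K) C ≤ cen (fun y => w (Ψ y)) (Φ '' K) A := by
      unfold cen
      refine add_le_add ?_ ?_
      · exact lintegral_mono_set (sdiff_subset_sdiff_left subset_union_left)
      · exact measure_mono (inter_subset_inter_right _ subset_union_left)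
    refine hle.trans_lt ?_
    rw [cen, tpush_vol h.smooth h.isOpen_off hΦ hΨ h1 h2 hid hFA hAΩ
      (hAc.measurableSet.diff hKm), tpush_length h1 hid hFA]
    refine ENNReal.add_lt_top.2 ⟨?_, ?_⟩
    · have hb : ∀ x, ENNReal.ofReal |(fderiv ℝ Φ x).det| *
          ‖ContinuousLinearMap.adjoint (fderiv ℝ Ψ (Φ x)) (cgr w x)‖ₑ ^ 2 ≤
          ENNReal.ofReal (2 * M ^ 2 * N ^ 2) * ‖cgr w x‖ₑ ^ 2 := by
        intro x
        have h3 : ‖ContinuousLinearMap.adjoint (fderiv ℝ Ψ (Φ x)) (cgr w x)‖ ≤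
            N * ‖cgr w x‖ := by
          refine (ContinuousLinearMap.le_opNorm _ _).trans ?_
          gcongr
          rw [LinearIsometryEquiv.norm_map]
          exact hN _
        have h4 : ∀ z : ℂ, ‖z‖ₑ ^ 2 = ENNReal.ofReal (‖z‖ ^ 2) := by
          intro z
          rw [← ofReal_norm, ENNReal.ofReal_pow (norm_nonneg _)]
        rw [h4, h4, ← ENNReal.ofReal_mul (abs_nonneg _), ← ENNReal.ofReal_mul (by positivity)]
        apply ENNReal.ofReal_le_ofReal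
        calc _ ≤ (2 * M ^ 2) * (N * ‖cgr w x‖) ^ 2 := by
              gcongr
              exact tpush_abs_det (hM x)
          _ = _ := by ring
      refine (lintegral_mono hb).trans_lt ?_
      rw [lintegral_const_mul' _ _ ENNReal.ofReal_ne_top]
      exact ENNReal.mul_lt_top ENNReal.ofReal_lt_top hfin1
    · have hlip : LipschitzWith (Real.toNNReal M) Φ := by
        refine lipschitzWith_of_nnnorm_fderiv_le (𝕜 := ℝ) (hΦ.differentiable (by simp)) ?_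
        intro x
        rw [← NNReal.coe_le_coe, coe_nnnorm, Real.coe_toNNReal _ (by positivity)]
        exact hM x
      refine (hlip.hausdorffMeasure_image_le (d := 1) (by norm_num) _).trans_lt ?_
      exact ENNReal.mul_lt_top (by simp) hfin2

end Pool.Agent.MP099f24
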