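import Mathlib
import Pool.Agent.Lib.MP_099f24_an.TM.Defs
import Pool.Agent.Lib.MP_099f24_an.TM.Bas
import Pool.Agent.Lib.MP_099f24_an.TM.Out
import Pool.Agent.Lib.MP_099f24_an.TM.Push
import Pool.Agent.Lib.MP_099f24_an.EA.Sec

/-!
# Topological minimizers: second variation along fields which are locally constant near `K`
-/

set_option autoImplicit false

namespace Pool.Agent.MP099f24

open MeasureTheory Filter Topology Set Metric
open scoped ENNReal ContDiff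

variable {Ω : Set ℂ} {u w : ℂ → ℝ} {l : ℂ → Set ℂ} {K : Set ℂ}

theorem esec_meas (w : ℂ → ℝ) : Measurable (cgr w) := by
  have h1 : Measurable (fun x => ((fderiv ℝ w x 1 : ℝ) : ℂ)) :=
    Complex.measurable_ofReal.comp (measurable_fderiv_apply_const ℝ w 1)
  have h2 : Measurable (fun x => ((fderiv ℝ w x Complex.I : ℝ) : ℂ)) :=
    Complex.measurable_ofReal.comp (measurable_fderiv_apply_const ℝ w Complex.I)
  exact h1.add (h2.mul_const _)

theorem esec_int {F : Set ℂ} {ψ : ℂ → ℝ} (hψ : TTest Ω K F ψ)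
    (C : Set ℂ) : IntegrableOn (fun x => ‖cgr ψ x‖ ^ 2) (C \ K) := by
  have hFc : IsClosed F := hψ.isCompact.isClosed
  refine tm_integrable (esec_meas ψ).aestronglyMeasurable ?_
  refine lt_of_le_of_lt ?_ hψ.int
  have hz : ∀ x ∉ F, ‖cgr ψ x‖ₑ ^ 2 = 0 := fun x hx => by
    rw [out_zero hFc hψ.supp x hx]
    simp
  calc ∫⁻ x in C \ K, ‖cgr ψ x‖ₑ ^ 2 ≤ ∫⁻ x in (F \ K) ∪ Fᶜ, ‖cgr ψ x‖ₑ ^ 2 := by
        refine lintegral_mono_set ?_
        intro x hx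
        by_cases hxF : x ∈ F
        · exact Or.inl ⟨hxF, hx.2⟩
        · exact Or.inr hxF
    _ ≤ (∫⁻ x in F \ K, ‖cgr ψ x‖ₑ ^ 2) + ∫⁻ x in Fᶜ, ‖cgr ψ x‖ₑ ^ 2 :=
        lintegral_union_le _ _ _
    _ = ∫⁻ x in F \ K, ‖cgr ψ x‖ₑ ^ 2 := by
        rw [setLIntegral_congr_fun hFc.measurableSet.compl (fun x hx => hz x hx)]
        simp

theorem esec_one (h : TMin Ω u l K) {X : ℂ → ℂ} (hX : ContDiff ℝ ∞ X) (hXc : HasCompactSupport X)
    {U : Set ℂ} (hU : IsOpen U) (hKU : K ⊆ U)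
    (h0 : ∀ x ∈ U, fderiv ℝ X x = 0) {F : Set ℂ} {ψ : ℂ → ℝ} (hψ : TTest Ω K F ψ)
    {A : Set ℂ} (hA : IsCompact A) (hAΩ : A ⊆ Ω) (hXA : tsupport X ⊆ A) (hFA : F ⊆ A) :
    ∃ t₁ > 0, ∃ C : ℝ, ∀ t : ℝ, 0 < t → t ≤ t₁ →
      0 ≤ t * (∫ x in A \ K, easec_A1 X (cgr u) (cgr ψ) x) +
        t ^ 2 * (∫ x in A \ K, easec_A2 X (cgr u) (cgr ψ) x) + t ^ 3 * C := by
  obtain ⟨N, hN1, hN⟩ := fvar_bound hX hXc
  have hN0 : 0 < N := by linarith
  have hgm : Measurable (cgr u) := esec_meas u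
  have hqm : Measurable (cgr ψ) := esec_meas ψ
  have hg2 : IntegrableOn (fun x => ‖cgr u x‖ ^ 2) (A \ K) := h.toTConf.integrable_sq hA hAΩ
  have hq2 : IntegrableOn (fun x => ‖cgr ψ x‖ ^ 2) (A \ K) := esec_int hψ A
  have hKm : MeasurableSet K := h.toTConf.measurableSet
  have hAm : MeasurableSet (A \ K) := hA.measurableSet.diff hKm
  have hA1 := easec_int_A1 hX hN hgm hqm hg2 hq2
  have hA2 := easec_int_A2 hX hN hgm hqm hg2 hq2
  have hR : IntegrableOn (fun x => 138 * N ^ 3 * (‖cgr u x‖ ^ 2 + ‖cgr ψ x‖ ^ 2)) (A \ K) :=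
    Integrable.const_mul (Integrable.add hg2 hq2) _
  set C := ∫ x in A \ K, 138 * N ^ 3 * (‖cgr u x‖ ^ 2 + ‖cgr ψ x‖ ^ 2) with hC
  refine ⟨1 / (4 * N), by positivity, C, fun t ht ht1 => ?_⟩
  have htN : t * N ≤ 1 / 4 := by
    calc t * N ≤ 1 / (4 * N) * N := by gcongr
      _ = 1 / 4 := by field_simp
  have ht1' : t ≤ 1 := by nlinarith
  obtain ⟨Ψ, hΨ, h1, h2⟩ := fvar_diffeo hX hN1 hN ht htN
  have hΦ : ContDiff ℝ ∞ (fun x => x + t • X x) := contDiff_id.add (hX.const_smul t)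
  have hid : ∀ x, x ∉ A → x + t • X x = x := by
    intro x hx
    rw [image_eq_zero_of_notMem_tsupport (fun hx' => hx (hXA hx')), smul_zero, add_zero]
  have hΦ1 : ContDiff ℝ 1 (fun x => x + t • X x) := hΦ.of_le (by exact_mod_cast le_top)
  have hΨ1 : ContDiff ℝ 1 Ψ := hΨ.of_le (by exact_mod_cast le_top)
  have c1 := out_conf h.toTConf hψ t
  have c2 := tpush_conf c1 hΦ1 hΨ1 h1 h2 hA hAΩ hid
  have hinv : ∀ x, x ∉ A → Ψ x = x := fun x hx => tpush_inv_off h1 hid hx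
  have hmin := h.min _ _ _ A c2 hA hAΩ (by
    intro x hx
    rw [tpush_image h1 h2]
    show Ψ x ∈ K ↔ x ∈ K
    rw [hinv x hx.2]) (by
    intro x hx _
    rw [hinv x hx.2, hψ.supp x (fun hF => hx.2 (hFA hF))]
    exact ⟨by ring, rfl⟩)
  have hAA : A ⊆ A := Subset.rfl
  -- the length term
  have hlen : (μH[1] : Measure ℂ) ((fun x => x + t • X x) '' K ∩ A) ≤
      (μH[1] : Measure ℂ) (K ∩ A) := by
    rw [tpush_length h1 hid hAA]
    exact ea_len hX hU h0 t (inter_subset_left.trans hKU)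
  have hfin : (μH[1] : Measure ℂ) (K ∩ A) < ⊤ := h.toTConf.haus_lt hA hAΩ
  unfold cen at hmin
  have hE : ∫⁻ x in A \ K, ‖cgr u x‖ₑ ^ 2 ≤
      ∫⁻ y in A \ (fun x => x + t • X x) '' K,
        ‖cgr (fun z => (fun y => u y + t * ψ y) (Ψ z)) y‖ₑ ^ 2 :=
    (ENNReal.add_le_add_iff_right hfin.ne).1 (hmin.trans (add_le_add le_rfl hlen))
  rw [tpush_vol c1.smooth c1.isOpen_off hΦ1 hΨ1 h1 h2 hid hAA hAΩ hAm] at hE
  -- the volume term
  set G : ℂ → ℝ := fun x => ‖cgr u x‖ ^ 2 + t * easec_A1 X (cgr u) (cgr ψ) x +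
    t ^ 2 * easec_A2 X (cgr u) (cgr ψ) x +
    t ^ 3 * (138 * N ^ 3 * (‖cgr u x‖ ^ 2 + ‖cgr ψ x‖ ^ 2)) with hG
  have hpt : ∀ x, ‖(ContinuousLinearMap.id ℝ ℂ + t • fderiv ℝ X x)
      (Complex.I * (cgr u x + t • cgr ψ x))‖ ^ 2 /
      (ContinuousLinearMap.id ℝ ℂ + t • fderiv ℝ X x).det ≤ G x := by
    intro x
    exact easec_point (hN x) hN1 ht ht1' htN (cgr u x) (cgr ψ x)
  have hG0 : ∀ x, 0 ≤ G x := by
    intro x
    refine le_trans ?_ (hpt x)
    have h4 := fvar_det_ge (hN x) ht.le htN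
    positivity
  have hvol : ∫⁻ x in A \ K, ENNReal.ofReal |(fderiv ℝ (fun x => x + t • X x) x).det| *
      ‖ContinuousLinearMap.adjoint (fderiv ℝ Ψ (x + t • X x))
        (cgr (fun y => u y + t * ψ y) x)‖ₑ ^ 2 ≤ ∫⁻ x in A \ K, ENNReal.ofReal (G x) := by
    refine setLIntegral_mono' hAm fun x hx => ?_
    have hx' : x ∈ Ω \ K := ⟨hAΩ hx.1, hx.2⟩
    have d1 : DifferentiableAt ℝ u x := h.toTConf.diffAt hx'.1 hx'.2
    have d2 : DifferentiableAt ℝ ψ x :=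
      (hψ.smooth.differentiableOn one_ne_zero).differentiableAt (h.isOpen_off.mem_nhds hx')
    rw [out_cgr_lin d1 d2, (fvar_hasFDerivAt hX t x).fderiv]
    set B := ContinuousLinearMap.id ℝ ℂ + t • fderiv ℝ X x with hB
    have hdet : 1 / 4 ≤ B.det := fvar_det_ge (hN x) ht.le htN
    have hdet0 : 0 < B.det := by linarith
    have h3 : ∀ z : ℂ, ‖z‖ₑ ^ 2 = ENNReal.ofReal (‖z‖ ^ 2) := by
      intro z
      rw [← ofReal_norm, ENNReal.ofReal_pow (norm_nonneg _)]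
    rw [h3, ← ENNReal.ofReal_mul (abs_nonneg _), abs_of_pos hdet0]
    apply ENNReal.ofReal_le_ofReal
    rw [mul_comm, fvar_adj B (fderiv ℝ Ψ (x + t • X x))
      (fun v => fvar_inv_deriv hX hΨ h1 x v) hdet0 (cgr u x + t • cgr ψ x)]
    exact hpt x
  have i1 : IntegrableOn (fun x => ‖cgr u x‖ ^ 2 + t * easec_A1 X (cgr u) (cgr ψ) x) (A \ K) :=
    Integrable.add hg2 (Integrable.const_mul hA1 t)
  have i2 : IntegrableOn (fun x => ‖cgr u x‖ ^ 2 + t * easec_A1 X (cgr u) (cgr ψ) x +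
      t ^ 2 * easec_A2 X (cgr u) (cgr ψ) x) (A \ K) :=
    Integrable.add i1 (Integrable.const_mul hA2 _)
  have i3 : IntegrableOn G (A \ K) := Integrable.add i2 (Integrable.const_mul hR _)
  have hFi : ∫⁻ x in A \ K, ENNReal.ofReal (G x) = ENNReal.ofReal (∫ x in A \ K, G x) :=
    (ofReal_integral_eq_lintegral_ofReal i3 (Eventually.of_forall hG0)).symm
  have hfinal := hE.trans hvol
  rw [tm_lint_eq hg2, hFi, ENNReal.ofReal_le_ofReal_iff (integral_nonneg hG0)] at hfinal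
  have hsum : ∫ x in A \ K, G x = (∫ x in A \ K, ‖cgr u x‖ ^ 2) +
      t * (∫ x in A \ K, easec_A1 X (cgr u) (cgr ψ) x) +
      t ^ 2 * (∫ x in A \ K, easec_A2 X (cgr u) (cgr ψ) x) + t ^ 3 * C := by
    rw [hG, hC, ← integral_const_mul, ← integral_const_mul, ← integral_const_mul,
      ← integral_add hg2 (Integrable.const_mul hA1 t),
      ← integral_add i1 (Integrable.const_mul hA2 _),
      ← integral_add i2 (Integrable.const_mul hR _)]
  rw [hsum] at hfinal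
  linarith

theorem esec_neg_test {F : Set ℂ} {ψ : ℂ → ℝ} (hψ : TTest Ω K F ψ) :
    TTest Ω K F (fun y => -ψ y) := by
  refine ⟨hψ.isCompact, hψ.sub, hψ.smooth.neg, fun x hx => ?_, ?_⟩
  · rw [hψ.supp x hx, neg_zero]
  · have := hψ.int
    simpa only [cgr_neg, enorm_neg] using this

theorem TMin.sec (h : TMin Ω u l K) {X : ℂ → ℂ} (hX : ContDiff ℝ ∞ X) (hXc : HasCompactSupport X)
    (hXs : tsupport X ⊆ Ω) {U : Set ℂ} (hU : IsOpen U) (hKU : K ⊆ U)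
    (h0 : ∀ x ∈ U, fderiv ℝ X x = 0) {F : Set ℂ} {ψ : ℂ → ℝ} (hψ : TTest Ω K F ψ) :
    0 ≤ (∫ x in Ω \ K, QB (fderiv ℝ X x) (cgr u x)) +
      2 * (∫ x in Ω \ K, inner ℝ (SB (fderiv ℝ X x) (cgr u x)) (cgr ψ x)) +
      ∫ x in Ω \ K, ‖cgr ψ x‖ ^ 2 := by
  set A : Set ℂ := tsupport X ∪ F with hAdef
  have hA : IsCompact A := IsCompact.union hXc hψ.isCompact
  have hAΩ : A ⊆ Ω := union_subset hXs hψ.sub
  have hXA : tsupport X ⊆ A := subset_union_left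
  have hFA : F ⊆ A := subset_union_right
  obtain ⟨t₁, ht₁, C, hone⟩ := esec_one h hX hXc hU hKU h0 hψ hA hAΩ hXA hFA
  have hneg : ∀ x, fderiv ℝ (fun y => -X y) x = -fderiv ℝ X x := fun x => fderiv_fun_neg
  obtain ⟨t₂, ht₂, D, htwo⟩ := esec_one h (X := fun y => -X y) hX.neg hXc.neg hU hKU
    (fun x hx => by rw [hneg, h0 x hx, neg_zero]) (esec_neg_test hψ) hA hAΩ
    (by rwa [tsupport_fun_neg]) hFA
  have hgm : Measurable (cgr u) := esec_meas u
  have hqm : Measurable (cgr ψ) := esec_meas ψ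
  have hg2 : IntegrableOn (fun x => ‖cgr u x‖ ^ 2) (A \ K) := h.toTConf.integrable_sq hA hAΩ
  have hq2 : IntegrableOn (fun x => ‖cgr ψ x‖ ^ 2) (A \ K) := esec_int hψ A
  have e1 : ∀ x, easec_A1 (fun y => -X y) (cgr u) (cgr (fun y => -ψ y)) x =
      -easec_A1 X (cgr u) (cgr ψ) x := by
    intro x
    unfold easec_A1
    rw [hneg, cgr_neg]
    simp only [_root_.neg_apply, Complex.neg_re, Complex.neg_im, inner_neg_left,
      inner_neg_right]
    ring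
  have e2 : ∀ x, easec_A2 (fun y => -X y) (cgr u) (cgr (fun y => -ψ y)) x =
      easec_A2 X (cgr u) (cgr ψ) x := by
    intro x
    unfold easec_A2
    rw [hneg, cgr_neg, sb_neg, qb_neg, inner_neg_neg, norm_neg]
  simp only [e1, e2, integral_neg] at htwo
  obtain ⟨N, hN1, hN⟩ := fvar_bound hX hXc
  have hb : 0 ≤ ∫ x in A \ K, easec_A2 X (cgr u) (cgr ψ) x :=
    easec_limit (lt_min ht₁ ht₂) (fun t ht ht' => hone t ht (ht'.trans (min_le_left _ _)))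
      (fun t ht ht' => htwo t ht (ht'.trans (min_le_right _ _)))
  have hSBi := easec_int_SB hX hN hgm hqm hg2 hq2
  have hQBi := easec_int_QB hX hN hgm hg2
  have hsum : ∫ x in A \ K, easec_A2 X (cgr u) (cgr ψ) x =
      (∫ x in A \ K, ‖cgr ψ x‖ ^ 2) +
      2 * (∫ x in A \ K, inner ℝ (SB (fderiv ℝ X x) (cgr u x)) (cgr ψ x)) +
      ∫ x in A \ K, QB (fderiv ℝ X x) (cgr u x) := by
    have hi : IntegrableOn (fun x => ‖cgr ψ x‖ ^ 2 +
        2 * inner ℝ (SB (fderiv ℝ X x) (cgr u x)) (cgr ψ x)) (A \ K) :=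
      Integrable.add hq2 (Integrable.const_mul hSBi 2)
    rw [← integral_const_mul, ← integral_add hq2 (Integrable.const_mul hSBi 2),
      ← integral_add hi hQBi]
    rfl
  have hm := h.isOpen_off.measurableSet
  have hsub : A \ K ⊆ Ω \ K := sdiff_subset_sdiff_left hAΩ
  have hnot : ∀ x, x ∈ (Ω \ K) \ (A \ K) → x ∉ A := fun x hx hxA => hx.2 ⟨hxA, hx.1.2⟩
  have z0 : ∀ x, x ∉ A → fderiv ℝ X x = 0 := by
    intro x hx
    have h3 : x ∉ tsupport (fderiv ℝ X) := fun h' => hx (hXA (tsupport_fderiv_subset ℝ h'))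
    exact image_eq_zero_of_notMem_tsupport h3
  have z1 : ∀ x, x ∉ A → cgr ψ x = 0 := fun x hx =>
    out_zero hψ.isCompact.isClosed hψ.supp x (fun hF => hx (hFA hF))
  have z2 : ∀ x, x ∉ A → QB (fderiv ℝ X x) (cgr u x) = 0 := by
    intro x hx
    rw [z0 x hx]
    have hdet0 : (0 : ℂ →L[ℝ] ℂ).det = 0 := by
      rw [fvar_det]
      simp
    unfold QB
    rw [hdet0]
    simp
  rw [setIntegral_eq_of_subset_of_forall_sdiff_eq_zero hm hsub (fun x hx => z2 x (hnot x hx)),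
    setIntegral_eq_of_subset_of_forall_sdiff_eq_zero hm hsub (fun x hx => by
      rw [z1 x (hnot x hx), inner_zero_right]),
    setIntegral_eq_of_subset_of_forall_sdiff_eq_zero hm hsub (fun x hx => by
      rw [z1 x (hnot x hx)]; simp)]
  rw [hsum] at hb
  linarith

end Pool.Agent.MP099f24
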