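import Mathlib
import Pool.Agent.Lib.MP_099f24_an.TM.Esec
import Pool.Agent.Lib.MP_099f24_an.EA.Cross

set_option autoImplicit false

namespace Pool.Agent.MP099f24

open MeasureTheory Filter Topology Set Metric
open scoped ENNReal ContDiff



end Pool.Agent.MP099f24

/-!
# The orthogonality relations for topological minimizers (module ECROSS)
-/

set_option autoImplicit false

namespace Pool.Agent.MP099f24

open MeasureTheory Filter Topology Set Metric
open scoped ENNReal ContDiff

theorem ecross_grad (a : ℂ → ℝ) (x : ℂ) : cgr a x = outer_grad a x := by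
  rw [eacross_grad_eq]
  rfl

theorem ecross_open {K : Set ℂ} (hK : IsClosed K) : IsOpen ((univ : Set ℂ) \ K) := by
  rw [← compl_eq_univ_sdiff]
  exact hK.isOpen_compl

theorem ecross_cont {K : Set ℂ} (hK : IsClosed K) {v : ℂ → ℝ}
    (hv : ContDiffOn ℝ 1 v (univ \ K)) : ContinuousOn (cgr v) Kᶜ := by
  have h1 : ContinuousOn (fderiv ℝ v) (univ \ K) :=
    hv.continuousOn_fderiv_of_isOpen (ecross_open hK) le_rfl
  rw [← compl_eq_univ_sdiff] at h1
  have h2 : ContinuousOn (fun x => (fderiv ℝ v x 1 : ℂ)) Kᶜ :=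
    Complex.continuous_ofReal.comp_continuousOn (h1.clm_apply continuousOn_const)
  have h3 : ContinuousOn (fun x => (fderiv ℝ v x Complex.I : ℂ)) Kᶜ :=
    Complex.continuous_ofReal.comp_continuousOn (h1.clm_apply continuousOn_const)
  exact h2.add (h3.mul continuousOn_const)

theorem ecross_meas {K : Set ℂ} (hK : IsClosed K) {v : ℂ → ℝ}
    (hv : ContDiffOn ℝ 1 v (univ \ K)) : Measurable (Kᶜ.indicator (cgr v)) := by
  classical
  rw [← Set.piecewise_eq_indicator]
  exact (ecross_cont hK hv).measurable_piecewise continuousOn_const hK.isOpen_compl.measurableSet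

theorem ecross_diff {K : Set ℂ} (hK : IsClosed K) {v : ℂ → ℝ}
    (hv : ContDiffOn ℝ 1 v (univ \ K)) {x : ℂ} (hx : x ∉ K) : DifferentiableAt ℝ v x :=
  ((hv x ⟨mem_univ x, hx⟩).contDiffAt ((ecross_open hK).mem_nhds ⟨mem_univ x, hx⟩)).differentiableAt
    one_ne_zero

theorem ecross_intOn {K : Set ℂ} (hK : IsClosed K) {v : ℂ → ℝ}
    (hv : ContDiffOn ℝ 1 v (univ \ K)) {C : Set ℂ}
    (hfin : ∫⁻ x in C \ K, ‖cgr v x‖ₑ ^ 2 < ⊤) :
    IntegrableOn (fun x => ‖Kᶜ.indicator (cgr v) x‖ ^ 2) C := by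
  refine ⟨((ecross_meas hK hv).norm.pow_const 2).aestronglyMeasurable, ?_⟩
  rw [hasFiniteIntegral_iff_enorm]
  have e : ∀ x, ‖‖Kᶜ.indicator (cgr v) x‖ ^ 2‖ₑ = Kᶜ.indicator (fun x => ‖cgr v x‖ₑ ^ 2) x := by
    intro x
    rw [enorm_pow, enorm_norm]
    by_cases hx : x ∈ Kᶜ
    · rw [indicator_of_mem hx, indicator_of_mem hx]
    · rw [indicator_of_notMem hx, indicator_of_notMem hx]
      simp
  simp only [e]
  rw [lintegral_indicator hK.isOpen_compl.measurableSet,
    Measure.restrict_restrict hK.isOpen_compl.measurableSet]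
  rwa [show Kᶜ ∩ C = C \ K by rw [inter_comm]; rfl]

theorem ecross_q0 {K F : Set ℂ} {ψ : ℂ → ℝ} (hψ : TTest univ K F ψ) {x : ℂ} (hx : x ∉ F) :
    cgr ψ x = 0 := by
  have h1 : ψ =ᶠ[𝓝 x] fun _ => (0 : ℝ) := by
    filter_upwards [hψ.isCompact.isClosed.isOpen_compl.mem_nhds hx] with y hy
    exact hψ.supp y hy
  unfold cgr
  rw [h1.fderiv_eq]
  simp

theorem ecross_qL {K F : Set ℂ} (hK : IsClosed K) {ψ : ℂ → ℝ} (hψ : TTest univ K F ψ) :
    eacross_L (Kᶜ.indicator (cgr ψ)) := by
  refine ⟨ecross_meas hK hψ.smooth, ?_⟩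
  rw [← integrableOn_iff_integrable_of_support_subset (s := F)]
  · exact ecross_intOn hK hψ.smooth hψ.int
  · intro x hx
    by_contra h'
    apply hx
    simp only
    by_cases hxK : x ∈ Kᶜ
    · rw [indicator_of_mem hxK, ecross_q0 hψ h']
      simp
    · rw [indicator_of_notMem hxK]
      simp

/-- gradient of the test function -/
theorem ecross_add {K F : Set ℂ} (hK : IsClosed K) {ψ : ℂ → ℝ} (hψ : TTest univ K F ψ)
    {α : ℂ → ℝ} (hα : ContDiff ℝ ∞ α) (c : ℝ) {x : ℂ} (hx : x ∉ K) :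
    cgr (fun y => α y + c * ψ y) x = outer_grad α x + c • Kᶜ.indicator (cgr ψ) x := by
  rw [indicator_of_mem (show x ∈ Kᶜ from hx), ← ecross_grad]
  have h1 : HasFDerivAt α (fderiv ℝ α x) x :=
    (hα.differentiable (by simp)).differentiableAt.hasFDerivAt
  have h2 : HasFDerivAt ψ (fderiv ℝ ψ x) x := (ecross_diff hK hψ.smooth hx).hasFDerivAt
  have h3 : HasFDerivAt (fun y => α y + c * ψ y) (fderiv ℝ α x + c • fderiv ℝ ψ x) x :=
    h1.add (h2.const_mul c)
  unfold cgr
  rw [h3.fderiv]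
  simp
  ring

theorem ecross_test {K F : Set ℂ} (hK : IsClosed K) {ψ : ℂ → ℝ} (hψ : TTest univ K F ψ)
    {α : ℂ → ℝ} (hα : ContDiff ℝ ∞ α) (hαc : HasCompactSupport α) (c : ℝ) :
    TTest univ K (F ∪ tsupport α) (fun y => α y + c * ψ y) := by
  refine ⟨hψ.isCompact.union hαc, subset_univ _, ?_, fun x hx => ?_, ?_⟩
  · exact (hα.of_le (by simp)).contDiffOn.add (contDiffOn_const.mul hψ.smooth)
  · rw [mem_union, not_or] at hx
    rw [hψ.supp x hx.1, image_eq_zero_of_notMem_tsupport hx.2]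
    simp
  · have h1 := ((eacross_L_grad hα hαc).add ((ecross_qL hK hψ).smul c)).int
    have h2 := h1.2
    rw [hasFiniteIntegral_iff_enorm] at h2
    refine lt_of_le_of_lt ?_ h2
    have hm : MeasurableSet ((F ∪ tsupport α) \ K) :=
      ((hψ.isCompact.union hαc).isClosed.measurableSet).diff hK.measurableSet
    calc ∫⁻ x in (F ∪ tsupport α) \ K, ‖cgr (fun y => α y + c * ψ y) x‖ₑ ^ 2
        = ∫⁻ x in (F ∪ tsupport α) \ K,
          ‖‖outer_grad α x + c • Kᶜ.indicator (cgr ψ) x‖ ^ 2‖ₑ := by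
          refine setLIntegral_congr_fun hm fun x hx => ?_
          rw [ecross_add hK hψ hα c hx.2, enorm_pow, enorm_norm]
      _ ≤ _ := setLIntegral_le_lintegral _ _

theorem ecross_setInt {K : Set ℂ} (hK0 : volume K = 0) {f f' : ℂ → ℝ}
    (hff : ∀ x ∉ K, f x = f' x) : ∫ x in univ \ K, f x = ∫ x, f' x := by
  have h1 : (univ \ K : Set ℂ) =ᵐ[volume] univ := by
    rw [← compl_eq_univ_sdiff]
    rw [ae_eq_univ, compl_compl]
    exact hK0
  rw [setIntegral_congr_set h1, setIntegral_univ]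
  refine integral_congr_ae ?_
  have h2 : ∀ᵐ x ∂(volume : Measure ℂ), x ∉ K := by
    rw [ae_iff]
    simpa using hK0
  filter_upwards [h2] with x hx
  exact hff x hx

theorem ecross_concl {K F : Set ℂ} (hK : IsClosed K) (hK0 : volume K = 0) {ψ : ℂ → ℝ}
    (hψ : TTest univ K F ψ) (a : ℂ → ℝ) :
    ∫ x in F \ K, inner ℝ (Complex.I * cgr a x) (cgr ψ x) =
      ∫ x, inner ℝ (Complex.I * outer_grad a x) (Kᶜ.indicator (cgr ψ) x) := by
  have hm : MeasurableSet (F \ K) :=
    (hψ.isCompact.isClosed.measurableSet).diff hK.measurableSet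
  rw [← integral_indicator hm]
  refine integral_congr_ae ?_
  have h2 : ∀ᵐ x ∂(volume : Measure ℂ), x ∉ K := by
    rw [ae_iff]
    simpa using hK0
  filter_upwards [h2] with x hx
  rw [indicator_of_mem (show x ∈ Kᶜ from hx), ← ecross_grad]
  by_cases hF : x ∈ F
  · rw [indicator_of_mem (show x ∈ F \ K from ⟨hF, hx⟩)]
  · rw [indicator_of_notMem (fun h' => hF h'.1), ecross_q0 hψ hF, inner_zero_right]

theorem TMin.cross {u : ℂ → ℝ} {l : ℂ → Set ℂ} {K : Set ℂ} (h : TMin univ u l K) {X : ℂ → ℂ}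
    (hX : ContDiff ℝ ∞ X)
    (hXc : HasCompactSupport X) {U : Set ℂ} (hU : IsOpen U) (hKU : K ⊆ U)
    (h0 : ∀ x ∈ U, fderiv ℝ X x = 0) {k : ℂ → ℂ} (hk : ContDiff ℝ ∞ k)
    (hkX : ∀ x ∉ K, dbar k x = dbar X x * (starRingEnd ℂ) (cgr u x)) {C : ℝ}
    (hkC : ∀ x, ‖k x‖ ≤ C / (1 + ‖x‖) ∧ ‖fderiv ℝ k x‖ ≤ C / (1 + ‖x‖) ^ 2)
    {F : Set ℂ} {ψ : ℂ → ℝ} (hψ : TTest univ K F ψ) :
    ∫ x in F \ K, inner ℝ (Complex.I * cgr (fun y => (k y).re) x) (cgr ψ x) = 0 ∧
    ∫ x in F \ K, inner ℝ (Complex.I * cgr (fun y => (k y).im) x) (cgr ψ x) = 0 := by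
  have hK : IsClosed K := by
    have := h.isOpen_off
    rw [← compl_eq_univ_sdiff] at this
    exact isOpen_compl_iff.1 this
  have hK0 : volume K = 0 := h.toTConf.volume_eq_zero
  rw [ecross_concl hK hK0 hψ, ecross_concl hK hK0 hψ]
  have haeK : ∀ᵐ x ∂(volume : Measure ℂ), x ∉ K := by
    rw [ae_iff]
    simpa using hK0
  obtain ⟨MX, hMX1, hMX⟩ := fvar_bound hX hXc
  set g : ℂ → ℂ := Kᶜ.indicator (cgr u) with hg
  set q : ℂ → ℂ := Kᶜ.indicator (cgr ψ) with hq
  have hgm : Measurable g := ecross_meas hK h.smooth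
  have hgu : ∀ x ∉ K, g x = cgr u x := fun x hx => indicator_of_mem (show x ∈ Kᶜ from hx) _
  have hkX' : ∀ᵐ x ∂(volume : Measure ℂ), dbar k x = dbar X x * (starRingEnd ℂ) (g x) := by
    filter_upwards [haeK] with x hx
    rw [hgu x hx]
    exact hkX x hx
  -- the radius
  obtain ⟨R₀, hR₀, hXs, hFs⟩ : ∃ R₀ : ℝ, 1 ≤ R₀ ∧ (∀ x, R₀ ≤ ‖x‖ → x ∉ tsupport X) ∧
      ∀ x, R₀ ≤ ‖x‖ → x ∉ F := by
    obtain ⟨r1, hr1⟩ := (hXc.isCompact.isBounded).subset_closedBall (0 : ℂ)
    obtain ⟨r2, hr2⟩ := (hψ.isCompact.isBounded).subset_closedBall (0 : ℂ)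
    refine ⟨max 1 (max r1 r2 + 1), le_max_left _ _, fun x hx hx' => ?_, fun x hx hx' => ?_⟩
    · have h1 := hr1 hx'
      rw [mem_closedBall, dist_zero_right] at h1
      have h2 := (le_max_right 1 (max r1 r2 + 1)).trans hx
      have h3 := le_max_left r1 r2
      linarith
    · have h1 := hr2 hx'
      rw [mem_closedBall, dist_zero_right] at h1
      have h2 := (le_max_right 1 (max r1 r2 + 1)).trans hx
      have h3 := le_max_right r1 r2
      linarith
  have hg2 : IntegrableOn (fun x => ‖g x‖ ^ 2) (closedBall 0 R₀) := by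
    refine ecross_intOn hK h.smooth (lt_of_le_of_lt ?_
      (h.fin _ (isCompact_closedBall 0 R₀) (subset_univ _)))
    exact le_self_add
  have hXR : ∀ x, R₀ ≤ ‖x‖ → fderiv ℝ X x = 0 := by
    intro x hx
    by_contra h'
    exact hXs x hx (tsupport_fderiv_subset ℝ (subset_tsupport _ h'))
  -- the field `Y`
  have hfc : ∀ v, Continuous (fun x => fderiv ℝ X x v) := fun v =>
    (hX.continuous_fderiv (by simp)).clm_apply continuous_const
  have hYm : Measurable (fun x => SB (fderiv ℝ X x) (g x)) := by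
    have e : (fun x => SB (fderiv ℝ X x) (g x)) = fun x =>
        -((fderiv ℝ X x 1 + Complex.I * fderiv ℝ X x Complex.I) * (starRingEnd ℂ) (g x)) := by
      funext x
      exact sb_conj _ _
    rw [e]
    exact ((((hfc 1).measurable.add ((hfc Complex.I).measurable.const_mul _))).mul
      (Complex.continuous_conj.measurable.comp hgm)).neg
  have hYL : eacross_L (fun x => SB (fderiv ℝ X x) (g x)) := by
    refine eacross_mk hg2 hYm (c := 2 * MX) (fun x => ?_) (fun x hx => ?_)
    · rw [sb_conj, norm_neg, norm_mul, RCLike.norm_conj]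
      have t1 := (fderiv ℝ X x).le_opNorm 1
      have t2 := (fderiv ℝ X x).le_opNorm Complex.I
      rw [norm_one, mul_one] at t1
      rw [Complex.norm_I, mul_one] at t2
      have t3 : ‖fderiv ℝ X x 1 + Complex.I * fderiv ℝ X x Complex.I‖ ≤ 2 * MX := by
        refine (norm_add_le _ _).trans ?_
        rw [norm_mul, Complex.norm_I, one_mul]
        have := hMX x
        linarith
      exact mul_le_mul t3 (by linarith) (norm_nonneg _) (by linarith)
    · rw [sb_conj, hXR x hx.le]
      simp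
  -- the field `q`
  have hq0 : ∀ x, R₀ ≤ ‖x‖ → q x = 0 := by
    intro x hx
    rw [hq]
    by_cases hxK : x ∈ Kᶜ
    · rw [indicator_of_mem hxK]
      exact ecross_q0 hψ (hFs x hx)
    · rw [indicator_of_notMem hxK]
  have hqL : eacross_L q := ecross_qL hK hψ
  -- the quadratic forms
  have hQ : ∀ (B : ℂ → ℂ →L[ℝ] ℂ), (∀ v, Continuous fun x => B x v) → (∀ x, ‖B x‖ ≤ MX) →
      (∀ x, R₀ ≤ ‖x‖ → B x = 0) → Integrable (fun x => QB (B x) (g x)) := by
    intro B hB1 hB2 hB3
    refine eacross_int hg2 ?_ (c := 3 * MX ^ 2) (fun x => ?_) (fun x hx => ?_)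
    · simp only [eaalg_QB]
      have := Complex.measurable_re.comp (hB1 1).measurable
      have := Complex.measurable_im.comp (hB1 1).measurable
      have := Complex.measurable_re.comp (hB1 Complex.I).measurable
      have := Complex.measurable_im.comp (hB1 Complex.I).measurable
      have := Complex.measurable_re.comp hgm
      have := Complex.measurable_im.comp hgm
      fun_prop
    · refine (qb_bound (hB2 x) _).trans ?_
      nlinarith [sq_nonneg MX]
    · rw [hB3 x hx.le, eaalg_QB]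
      simp
  have hQ1 : Integrable (fun x => QB (fderiv ℝ X x) (g x)) := hQ _ hfc hMX hXR
  have hQ2 : Integrable (fun x => QB (Complex.I • fderiv ℝ X x) (g x)) := by
    refine hQ _ (fun v => ?_) (fun x => ?_) (fun x hx => ?_)
    · simp only [eaalg_smul_apply]
      exact (hfc v).const_mul _
    · rw [norm_smul, Complex.norm_I, one_mul]
      exact hMX x
    · rw [hXR x hx, smul_zero]
  -- the second field
  have hX'd : ∀ x, fderiv ℝ (fun y => Complex.I * X y) x = Complex.I • fderiv ℝ X x := fun x =>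
    fderiv_const_mul (hX.differentiable (by simp)).differentiableAt _
  have hX' : ContDiff ℝ ∞ (fun y => Complex.I * X y) := contDiff_const.mul hX
  have hX'c : HasCompactSupport (fun y => Complex.I * X y) := hXc.mul_left
  -- the second variation inequality, rewritten
  have sec : ∀ (Z : ℂ → ℂ), ContDiff ℝ ∞ Z → HasCompactSupport Z →
      (∀ x ∈ U, fderiv ℝ Z x = 0) → ∀ (α : ℂ → ℝ), ContDiff ℝ ∞ α → HasCompactSupport α → ∀ c : ℝ,
      0 ≤ (∫ x, QB (fderiv ℝ Z x) (g x)) +
        2 * (∫ x, inner ℝ (SB (fderiv ℝ Z x) (g x)) (outer_grad α x + c • q x)) +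
        ∫ x, ‖outer_grad α x + c • q x‖ ^ 2 := by
    intro Z hZ hZc hZ0 α hα hαc c
    have T := h.sec hZ hZc (subset_univ _) hU hKU hZ0 (ecross_test hK hψ hα hαc c)
    rw [ecross_setInt (f' := fun x => QB (fderiv ℝ Z x) (g x)) hK0
        (fun x hx => by rw [hgu x hx]),
      ecross_setInt (f' := fun x => inner ℝ (SB (fderiv ℝ Z x) (g x))
        (outer_grad α x + c • q x)) hK0
        (fun x hx => by rw [hgu x hx, ecross_add hK hψ hα c hx]),
      ecross_setInt (f' := fun x => ‖outer_grad α x + c • q x‖ ^ 2) hK0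
        (fun x hx => by rw [ecross_add hK hψ hα c hx])] at T
    exact T
  obtain ⟨c₁, hc₁, hcut⟩ := eacross_cut
  have hC0 : 0 ≤ C := by
    have := (norm_nonneg _).trans (hkC 0).1
    simpa using this
  set D : ℝ := 16 * Real.pi * (c₁ * C) ^ 2 with hD
  have main : ∀ R : ℝ, R₀ ≤ R → ∀ c d : ℝ, 0 ≤ D / R ^ 2 -
      2 * c * (∫ x, inner ℝ (Complex.I * outer_grad (fun y => (k y).im) x) (q x)) +
      c ^ 2 * (∫ x, ‖q x‖ ^ 2) -
      2 * d * (∫ x, inner ℝ (Complex.I * outer_grad (fun y => (k y).re) x) (q x)) +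
      d ^ 2 * ∫ x, ‖q x‖ ^ 2 := by
    intro R hR c d
    have hRp : 0 < R := by linarith
    obtain ⟨χ, hχ, hχc, hχ1, hχ2, hχ3, hχ4⟩ := hcut R hRp
    have hW := eacross_W (g := g) hR₀ hR hXR hkX' hk (fun x => (hkC x).1) hc₁ hχ hχ1 hχ2 hχ3 hχ4
    have ha : ContDiff ℝ ∞ (fun y => χ y * (k y).re) :=
      hχ.mul (Complex.reCLM.contDiff.comp hk)
    have hb : ContDiff ℝ ∞ (fun y => χ y * (k y).im) :=
      hχ.mul (Complex.imCLM.contDiff.comp hk)
    have hac : HasCompactSupport (fun y => χ y * (k y).re) := hχc.mul_right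
    have hbc : HasCompactSupport (fun y => χ y * (k y).im) := hχc.mul_right
    have T1 := sec X hX hXc h0 _ ha hac c
    have T2 := sec _ hX' hX'c (fun x hx => by rw [hX'd, h0 x hx, smul_zero])
      (fun y => (-1) * (χ y * (k y).im)) (contDiff_const.mul hb) hbc.mul_left d
    simp only [eacross_grad_mul, hX'd, sb_smul_I, neg_one_smul] at T2
    have S := eacross_sum hYL (eacross_L_grad ha hac) (eacross_L_grad hb hbc) hqL (by
      filter_upwards [hW] with x hx
      rcases lt_or_ge ‖x‖ R with h' | h'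
      · exact Or.inl (hx.1 h')
      · exact Or.inr (hq0 x (hR.trans h'))) (eacross_null ha hb hac) hQ1 hQ2
      (fun x => qb_sum _ _) c d T1 T2
    have w1 : (∫ x, ‖SB (fderiv ℝ X x) (g x) + outer_grad (fun y => χ y * (k y).re) x +
      Complex.I * outer_grad (fun y => χ y * (k y).im) x‖ ^ 2) ≤ D / R ^ 2 := by
      have hm : MeasurableSet (closedBall (0 : ℂ) (2 * R)) := measurableSet_closedBall
      have hf : volume (closedBall (0 : ℂ) (2 * R)) ≠ ⊤ := measure_closedBall_lt_top.ne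
      calc _ ≤ ∫ x, (closedBall (0 : ℂ) (2 * R)).indicator
            (fun _ => (2 * c₁ * C / R ^ 2) ^ 2) x := by
            refine integral_mono_of_nonneg (Eventually.of_forall fun x => by positivity) ?_ ?_
            · exact (integrable_indicator_iff hm).2 (integrableOn_const hf)
            · filter_upwards [hW] with x hx
              exact hx.2
        _ = volume.real (closedBall (0 : ℂ) (2 * R)) * (2 * c₁ * C / R ^ 2) ^ 2 := by
            rw [integral_indicator hm, setIntegral_const, smul_eq_mul]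
        _ = D / R ^ 2 := by
            rw [Measure.real, Complex.volume_closedBall, ENNReal.toReal_mul, ENNReal.toReal_pow,
              ENNReal.toReal_ofReal (by positivity)]
            simp only [ENNReal.coe_toReal, NNReal.coe_real_pi, hD]
            field_simp
            ring
    have w2 : ∀ (f F : ℂ → ℝ), (∀ x, ‖x‖ < R → F x = f x) →
        ∫ x, inner ℝ (Complex.I * outer_grad F x) (q x) =
        ∫ x, inner ℝ (Complex.I * outer_grad f x) (q x) := by
      intro f F hfF
      refine integral_congr_ae (Eventually.of_forall fun x => ?_)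
      simp only
      rcases lt_or_ge ‖x‖ R with h' | h'
      · have h1 : F =ᶠ[𝓝 x] f := by
          have h2 : ∀ᶠ y in 𝓝 x, ‖y‖ < R := continuous_norm.continuousAt.eventually_lt_const h'
          filter_upwards [h2] with y hy
          exact hfF y hy
        have h3 : outer_grad F x = outer_grad f x := by
          unfold outer_grad
          rw [h1.fderiv_eq]
        rw [h3]
      · rw [hq0 x (hR.trans h'), inner_zero_right, inner_zero_right]
    rw [w2 (fun y => (k y).re) (fun y => χ y * (k y).re)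
      (fun x hx => by rw [hχ1 x hx.le, one_mul]),
      w2 (fun y => (k y).im) (fun y => χ y * (k y).im)
      (fun x hx => by rw [hχ1 x hx.le, one_mul])] at S
    linarith
  have lim : ∀ E : ℝ, (∀ R : ℝ, R₀ ≤ R → 0 ≤ D / R ^ 2 + E) → 0 ≤ E := by
    intro E hE
    have t1 : Tendsto (fun R : ℝ => D / R ^ 2 + E) atTop (𝓝 (0 + E)) :=
      (tendsto_const_nhds.div_atTop (tendsto_pow_atTop two_ne_zero)).add tendsto_const_nhds
    rw [zero_add] at t1
    refine ge_of_tendsto t1 ?_
    filter_upwards [eventually_ge_atTop R₀] with R hR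
    exact hE R hR
  constructor
  · have := outer_quad (A := -(∫ x, inner ℝ (Complex.I * outer_grad (fun y => (k y).re) x)
      (q x))) (B := ∫ x, ‖q x‖ ^ 2) one_pos (fun t _ => by
        refine lim _ (fun R hR => ?_)
        have := main R hR 0 t
        linarith)
    linarith
  · have := outer_quad (A := -(∫ x, inner ℝ (Complex.I * outer_grad (fun y => (k y).im) x)
      (q x))) (B := ∫ x, ‖q x‖ ^ 2) one_pos (fun t _ => by
        refine lim _ (fun R hR => ?_)
        have := main R hR t 0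
        linarith)
    linarith

end Pool.Agent.MP099f24
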