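import Mathlib
import Pool.Agent.Lib.MP_099f24_an.TM.Defs
import Pool.Agent.Lib.MP_099f24_an.TM.Push
import Pool.Agent.Lib.MP_099f24_an.SD.Fvar
import Pool.Agent.Lib.MP_099f24_an.Calibration
import Pool.Agent.Lib.MP_099f24_an.EA.Finald

/-!
# Topological minimizers: contraction of a piece of `K` with constant gradient around it
-/

set_option autoImplicit false

namespace Pool.Agent.MP099f24

open MeasureTheory Filter Topology Set Metric
open scoped ENNReal ContDiff

variable {Ω : Set ℂ} {u : ℂ → ℝ} {l : ℂ → Set ℂ} {K : Set ℂ}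

lemma efin_meas (h : TConf Ω u l K) : MeasurableSet K := by
  have : K = Ω \ (Ω \ K) := by
    rw [sdiff_sdiff_right_self]
    exact (inter_eq_right.2 h.sub).symm
  rw [this]
  exact h.isOpen.measurableSet.diff h.isOpen_off.measurableSet

lemma efin_cont (h : TConf Ω u l K) : ContinuousOn (cgr u) (Ω \ K) := by
  have h1 : ContinuousOn (fderiv ℝ u) (Ω \ K) :=
    h.smooth.continuousOn_fderiv_of_isOpen h.isOpen_off le_rfl
  have h2 : ∀ v : ℂ, ContinuousOn (fun x => ((fderiv ℝ u x v : ℝ) : ℂ)) (Ω \ K) := fun v =>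
    Complex.continuous_ofReal.comp_continuousOn (h1.clm_apply continuousOn_const)
  exact (h2 1).add ((h2 Complex.I).mul continuousOn_const)

/-- First variation inequality in the class, before passing to the limit. -/
theorem efin_fvar (h : TMin Ω u l K) {X : ℂ → ℂ} (hX : ContDiff ℝ ∞ X)
    (hXc : HasCompactSupport X) (hXs : tsupport X ⊆ Ω) {M : ℝ} (hM1 : 1 ≤ M)
    (hM : ∀ x, ‖fderiv ℝ X x‖ ≤ M) {t : ℝ} (ht : 0 < t) (htM : t * M ≤ 1 / 4) :
    cen u K (tsupport X) ≤
      (∫⁻ x in tsupport X \ K, ENNReal.ofReal (‖cgr u x‖ ^ 2 + t * (‖cgr u x‖ ^ 2 * dv X x -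
        2 * inner ℝ (fderiv ℝ X x (cgr u x)) (cgr u x)) + 60 * M ^ 2 * t ^ 2 * ‖cgr u x‖ ^ 2)) +
      (μH[1] : Measure ℂ) ((fun x => x + t • X x) '' (K ∩ tsupport X)) := by
  obtain ⟨Ψ, hΨ, h1, h2⟩ := fvar_diffeo hX hM1 hM ht htM
  set F := tsupport X with hF
  have hid : ∀ x, x ∉ F → x + t • X x = x := by
    intro x hx
    rw [image_eq_zero_of_notMem_tsupport hx, smul_zero, add_zero]
  have hΦ : ContDiff ℝ ∞ (fun x => x + t • X x) := contDiff_id.add (hX.const_smul t)
  have hFm : MeasurableSet (F \ K) := (isClosed_tsupport X).measurableSet.diff (efin_meas h.toTConf)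
  have hconf := tpush_conf h.toTConf (hΦ.of_le (by simp)) (hΨ.of_le (by simp)) h1 h2 hXc hXs hid
  have hmin := h.min _ _ _ F hconf hXc hXs (by
      intro x hx
      constructor
      · rintro ⟨y, hy, hyx⟩
        have h3 : y ∉ F := by
          intro h4
          have h5 := (tpush_mem (Φ := fun x => x + t • X x) h1 hid).2 h4
          exact hx.2 (hyx ▸ h5)
        have h6 := hid y h3
        simp only at hyx
        rw [hyx] at h6
        rw [h6]
        exact hy
      · intro hxK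
        exact ⟨x, hxK, hid x hx.2⟩) (by
      intro x hx hxK
      have h3 := tpush_inv_off (Φ := fun x => x + t • X x) h1 hid hx.2
      rw [h3]
      exact ⟨rfl, rfl⟩)
  refine hmin.trans ?_
  rw [cen, tpush_vol h.smooth h.isOpen_off (hΦ.of_le (by simp)) (hΨ.of_le (by simp)) h1 h2 hid
    (subset_refl F) hXs hFm, tpush_length h1 hid (subset_refl F)]
  gcongr ?_ + _
  refine lintegral_mono fun x => ?_
  rw [(fvar_hasFDerivAt hX t x).fderiv]
  set A := ContinuousLinearMap.id ℝ ℂ + t • fderiv ℝ X x with hA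
  have hdet : 1 / 4 ≤ A.det := fvar_det_ge (hM x) ht.le htM
  have hdet0 : 0 < A.det := by linarith
  have h3 : ∀ z : ℂ, ‖z‖ₑ ^ 2 = ENNReal.ofReal (‖z‖ ^ 2) := by
    intro z
    rw [← ofReal_norm, ENNReal.ofReal_pow (norm_nonneg _)]
  simp only
  rw [h3, ← ENNReal.ofReal_mul (abs_nonneg _), abs_of_pos hdet0]
  apply ENNReal.ofReal_le_ofReal
  rw [mul_comm, fvar_adj A (fderiv ℝ Ψ (x + t • X x))
    (fun v => fvar_inv_deriv hX hΨ h1 x v) hdet0 (cgr u x)]
  exact fvar_expand (hM x) ht.le htM (cgr u x)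

/-- The length of the piece vanishes. -/
theorem efin_null (h : TMin Ω u l K) {Q D : Set ℂ} (hQ : IsOpen Q) (hD : IsCompact D)
    (hDQ : D ⊆ Q) (hQΩ : Q ⊆ Ω) (hS : K ∩ Q ⊆ D) {c : ℂ} (hc : ∀ x ∈ Q \ D, cgr u x = c) :
    (μH[1] : Measure ℂ) (K ∩ Q) = 0 := by
  obtain ⟨η, hη, hηc, hηs, -, hη1⟩ := cal_cutoff hD hQ hDQ
  set X : ℂ → ℂ := fun x => (-η x) • x with hXdef
  have hX : ContDiff ℝ ∞ X := hη.neg.smul contDiff_id
  have hXsub : tsupport X ⊆ tsupport η := by
    refine closure_mono fun x hx => ?_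
    intro h0
    apply hx
    simp [hXdef, h0]
  have hXc : HasCompactSupport X := IsCompact.of_isClosed_subset hηc (isClosed_tsupport _) hXsub
  have hXQ : tsupport X ⊆ Q := hXsub.trans hηs
  have hXs : tsupport X ⊆ Ω := hXQ.trans hQΩ
  have hdX : ∀ x v, fderiv ℝ X x v = (-η x) • v + (-(fderiv ℝ η x v)) • x := by
    intro x v
    have h1 : HasFDerivAt η (fderiv ℝ η x) x := (hη.differentiable (by simp) x).hasFDerivAt
    have h2 : HasFDerivAt (fun y : ℂ => y) (ContinuousLinearMap.id ℝ ℂ) x := hasFDerivAt_id x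
    have h3 : HasFDerivAt X _ x := h1.neg.smul h2
    rw [h3.fderiv]
    rfl
  have hDη : ∀ x ∈ D, η x = 1 ∧ fderiv ℝ η x = 0 := by
    intro x hx
    refine ⟨(hη1 x hx).self_of_nhds, ?_⟩
    rw [(hη1 x hx).fderiv_eq]
    simp
  have hdXD : ∀ x ∈ D, ∀ v, fderiv ℝ X x v = -v := by
    intro x hx v
    rw [hdX, (hDη x hx).1, (hDη x hx).2]
    simp
  have hDK : D ⊆ tsupport X := by
    intro x hx
    by_contra hcon
    have h1 : fderiv ℝ X x = 0 := fderiv_of_notMem_tsupport ℝ hcon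
    have h2 := hdXD x hx 1
    rw [h1] at h2
    simp at h2
  obtain ⟨M, hM1, hM⟩ := fvar_bound hX hXc
  set F := tsupport X with hFdef
  have hFc : IsCompact F := hXc
  have hFm : MeasurableSet F := (isClosed_tsupport X).measurableSet
  have hKm := efin_meas h.toTConf
  have hKF : K ∩ F ⊆ D := fun x hx => hS ⟨hx.1, hXQ hx.2⟩
  have hKQ : K ∩ Q ⊆ K ∩ F := fun x hx => ⟨hx.1, hDK (hS hx)⟩
  have hfin := h.fin F hFc hXs
  rw [cen] at hfin
  have hfin1 : ∫⁻ x in F \ K, ‖cgr u x‖ₑ ^ 2 < ⊤ := (le_self_add).trans_lt hfin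
  have hfin2 : (μH[1] : Measure ℂ) (K ∩ F) < ⊤ := (le_add_self).trans_lt hfin
  have henn : ∀ z : ℂ, ‖z‖ₑ ^ 2 = ENNReal.ofReal (‖z‖ ^ 2) := by
    intro z
    rw [← ofReal_norm, ENNReal.ofReal_pow (norm_nonneg _)]
  have hcont : ContinuousOn (cgr u) (F \ K) :=
    (efin_cont h.toTConf).mono (sdiff_subset_sdiff_left hXs)
  have hasm : AEStronglyMeasurable (cgr u) (volume.restrict (F \ K)) :=
    hcont.aestronglyMeasurable (hFm.diff hKm)
  have hgint : IntegrableOn (fun x => ‖cgr u x‖ ^ 2) (F \ K) := by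
    refine ⟨(hasm.norm.pow 2), ?_⟩
    rw [HasFiniteIntegral]
    refine lt_of_le_of_lt (lintegral_mono fun x => ?_) hfin1
    rw [henn, ← ofReal_norm, Real.norm_eq_abs, abs_of_nonneg (sq_nonneg _)]
  -- the first order term
  have hcint : IntegrableOn (fun x => ‖c‖ ^ 2 * dv X x - 2 * inner ℝ (fderiv ℝ X x c) c) F := by
    refine ContinuousOn.integrableOn_compact hFc ?_
    have h1 : Continuous fun x => fderiv ℝ X x c :=
      (hX.continuous_fderiv (by simp)).clm_apply continuous_const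
    exact ((continuous_const.mul (fvar_continuous_dv hX)).sub
      (continuous_const.mul (h1.inner continuous_const))).continuousOn
  have hKF0 : ∀ x ∈ D, ∀ z : ℂ,
      ‖z‖ ^ 2 * dv X x - 2 * inner ℝ (fderiv ℝ X x z) z = 0 := by
    intro x hx z
    have h1 : dv X x = -2 := by
      rw [dv, hdXD x hx, hdXD x hx]
      simp
      norm_num
    rw [h1, hdXD x hx, inner_neg_left, real_inner_self_eq_norm_sq]
    ring
  have hVeq : ∀ x ∈ F \ K, ‖cgr u x‖ ^ 2 * dv X x -
      2 * inner ℝ (fderiv ℝ X x (cgr u x)) (cgr u x) =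
      ‖c‖ ^ 2 * dv X x - 2 * inner ℝ (fderiv ℝ X x c) c := by
    intro x hx
    by_cases hxD : x ∈ D
    · rw [hKF0 x hxD, hKF0 x hxD]
    · rw [hc x ⟨hXQ hx.1, hxD⟩]
  have hVint : IntegrableOn (fun x => ‖cgr u x‖ ^ 2 * dv X x -
      2 * inner ℝ (fderiv ℝ X x (cgr u x)) (cgr u x)) (F \ K) :=
    (hcint.mono_set sdiff_subset).congr_fun (fun x hx => (hVeq x hx).symm) (hFm.diff hKm)
  have hV : ∫ x in F \ K, (‖cgr u x‖ ^ 2 * dv X x -
      2 * inner ℝ (fderiv ℝ X x (cgr u x)) (cgr u x)) = 0 := by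
    rw [setIntegral_congr_fun (hFm.diff hKm) hVeq, ← eafinald_const hX hXc c, ← hFdef]
    have h1 := integral_inter_add_sdiff (μ := volume) (s := F) (t := K) hKm hcint
    rw [← h1, setIntegral_eq_zero_of_forall_eq_zero (t := F ∩ K), zero_add]
    intro x hx
    exact hKF0 x (hKF ⟨hx.2, hx.1⟩) c
  set G : ℝ := ∫ x in F \ K, ‖cgr u x‖ ^ 2 with hG
  have hG0 : 0 ≤ G := integral_nonneg fun x => by positivity
  have hGe : ∫⁻ x in F \ K, ‖cgr u x‖ₑ ^ 2 = ENNReal.ofReal G := by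
    rw [hG, ofReal_integral_eq_lintegral_ofReal hgint
      (Eventually.of_forall fun x => by positivity)]
    exact lintegral_congr fun x => henn _
  -- the inequality
  have key : ∀ t > 0, t * M ≤ 1 / 4 → (μH[1] (K ∩ F)).toReal ≤ t * (60 * M ^ 2 * G) := by
    intro t ht htM
    have h1 := efin_fvar h hX hXc hXs hM1 hM ht htM
    rw [← hFdef, cen, hGe] at h1
    have h2 : ∫⁻ x in F \ K, ENNReal.ofReal (‖cgr u x‖ ^ 2 + t * (‖cgr u x‖ ^ 2 * dv X x -
        2 * inner ℝ (fderiv ℝ X x (cgr u x)) (cgr u x)) + 60 * M ^ 2 * t ^ 2 * ‖cgr u x‖ ^ 2) =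
        ENNReal.ofReal (G + 60 * M ^ 2 * t ^ 2 * G) := by
      rw [← ofReal_integral_eq_lintegral_ofReal]
      · congr 1
        rw [integral_add, integral_add, integral_const_mul, integral_const_mul, hV, mul_zero,
          add_zero]
        · exact hgint
        · exact hVint.const_mul t
        · exact hgint.add (hVint.const_mul t)
        · exact hgint.const_mul _
      · exact (hgint.add (hVint.const_mul t)).add (hgint.const_mul _)
      · refine Eventually.of_forall fun x => ?_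
        have h3 := fvar_expand (hM x) ht.le htM (cgr u x)
        have h4 := fvar_det_ge (hM x) ht.le htM
        refine le_trans ?_ h3
        positivity
    have ht1 : t ≤ 1 / 4 := by nlinarith
    have h3 : (μH[1] : Measure ℂ) ((fun x => x + t • X x) '' (K ∩ F)) ≤
        ENNReal.ofReal (1 - t) * μH[1] (K ∩ F) := by
      have hlip : LipschitzOnWith (Real.toNNReal (1 - t)) (fun x => x + t • X x) (K ∩ F) := by
        refine LipschitzOnWith.of_dist_le_mul fun x hx y hy => ?_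
        have e : ∀ z ∈ K ∩ F, z + t • X z = (1 - t) • z := by
          intro z hz
          rw [hXdef]
          simp only
          rw [(hDη z (hKF hz)).1]
          simp
          ring
        rw [e x hx, e y hy, dist_smul₀, Real.norm_eq_abs, abs_of_nonneg (by linarith),
          Real.coe_toNNReal _ (by linarith)]
      have h4 := hlip.hausdorffMeasure_image_le (d := 1) (by norm_num)
      rw [ENNReal.rpow_one] at h4
      exact h4
    rw [h2] at h1
    have h5 := h1.trans (add_le_add le_rfl h3)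
    rw [← ENNReal.ofReal_toReal hfin2.ne, ← ENNReal.ofReal_mul (by linarith),
      ← ENNReal.ofReal_add hG0 ENNReal.toReal_nonneg,
      ← ENNReal.ofReal_add (by positivity) (mul_nonneg (by linarith) ENNReal.toReal_nonneg),
      ENNReal.ofReal_le_ofReal_iff (add_nonneg (by positivity)
        (mul_nonneg (by linarith) ENNReal.toReal_nonneg))] at h5
    have h6 : t * (μH[1] (K ∩ F)).toReal ≤ t * (t * (60 * M ^ 2 * G)) := by
      nlinarith
    exact le_of_mul_le_mul_left h6 ht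
  have h0 : (μH[1] (K ∩ F)).toReal ≤ 0 := by
    by_contra hcon
    push Not at hcon
    set m := (μH[1] (K ∩ F)).toReal with hm
    set B := 60 * M ^ 2 * G with hB
    have hB0 : 0 ≤ B := by positivity
    set t := min (1 / (4 * M)) (m / (2 * (B + 1))) with ht
    have ht0 : 0 < t := by
      apply lt_min (by positivity) (by positivity)
    have htM : t * M ≤ 1 / 4 := by
      have h1 : t ≤ 1 / (4 * M) := min_le_left _ _
      calc t * M ≤ 1 / (4 * M) * M := by gcongr
        _ = 1 / 4 := by field_simp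
    have h1 := key t ht0 htM
    have h2 : t * (2 * (B + 1)) ≤ m := by
      have h3 : t ≤ m / (2 * (B + 1)) := min_le_right _ _
      rwa [le_div_iff₀ (by positivity)] at h3
    nlinarith
  have h1 : (μH[1] : Measure ℂ) (K ∩ F) = 0 := by
    have h2 : (μH[1] (K ∩ F)).toReal = 0 := le_antisymm h0 ENNReal.toReal_nonneg
    exact ((ENNReal.toReal_eq_zero_iff _).1 h2).resolve_right hfin2.ne
  exact measure_mono_null hKQ h1

/-! ### complements of null sets -/

lemma efin_proj {N : Set ℂ} (h0 : (μH[1] : Measure ℂ) N = 0) (v : ℂ) :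
    volume ((fun z => inner ℝ v z) '' N) = 0 := by
  have hl : LipschitzWith ‖innerSL ℝ v‖₊ (fun z : ℂ => (inner ℝ v z : ℝ)) :=
    (innerSL ℝ v).lipschitz
  have h1 := hl.hausdorffMeasure_image_le (d := 1) (by norm_num) N
  rw [h0, mul_zero, hausdorffMeasure_real] at h1
  exact le_antisymm h1 zero_le

lemma efin_conn {B N : Set ℂ} (hBc : Convex ℝ B) (hN : IsOpen (B \ N))
    (h0 : (μH[1] : Measure ℂ) (N ∩ B) = 0) : IsPreconnected (B \ N) := by
  refine isPreconnected_of_forall_pair fun p hp q hq => ?_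
  rcases eq_or_ne p q with rfl | hpq
  · exact ⟨{p}, by simpa using hp, rfl, rfl, isPreconnected_singleton⟩
  obtain ⟨δ₁, hδ₁, hb₁⟩ := Metric.isOpen_iff.1 hN p hp
  obtain ⟨δ₂, hδ₂, hb₂⟩ := Metric.isOpen_iff.1 hN q hq
  set v : ℂ := Complex.I * (q - p) with hv
  have hv0 : 0 < ‖v‖ := by
    rw [hv, norm_mul, Complex.norm_I, one_mul]
    exact norm_pos_iff.2 (sub_ne_zero.2 hpq.symm)
  have hvq : inner ℝ v q = inner ℝ v p := by
    have h1 : inner ℝ v (q - p) = 0 := by
      rw [hv, Complex.inner]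
      simp
      ring
    rw [inner_sub_right] at h1
    linarith
  set ε₀ : ℝ := min δ₁ δ₂ / ‖v‖ with hε₀
  have hε₀p : 0 < ε₀ := div_pos (lt_min hδ₁ hδ₂) hv0
  -- a good line
  obtain ⟨ε, hε, hgood⟩ : ∃ ε ∈ Ioo 0 ε₀, inner ℝ v p + ε * ‖v‖ ^ 2 ∉
      (fun z => inner ℝ v z) '' (N ∩ B) := by
    by_contra hcon
    push Not at hcon
    have h1 : Ioo (inner ℝ v p) (inner ℝ v p + ε₀ * ‖v‖ ^ 2) ⊆
        (fun z => inner ℝ v z) '' (N ∩ B) := by
      intro s hs
      have h2 := hcon ((s - inner ℝ v p) / ‖v‖ ^ 2) ⟨div_pos (by linarith [hs.1]) (by positivity),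
        by rw [div_lt_iff₀ (by positivity)]; linarith [hs.2]⟩
      rw [div_mul_cancel₀ _ (by positivity), add_sub_cancel] at h2
      exact h2
    have h3 := measure_mono_null h1 (efin_proj h0 v)
    rw [Real.volume_Ioo, ENNReal.ofReal_eq_zero] at h3
    have : 0 < ε₀ * ‖v‖ ^ 2 := by positivity
    linarith
  have hεv : ‖ε • v‖ < min δ₁ δ₂ := by
    rw [norm_smul, Real.norm_eq_abs, abs_of_pos hε.1]
    have := hε.2
    rwa [hε₀, lt_div_iff₀ hv0] at this
  have hp' : p + ε • v ∈ ball p δ₁ := by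
    rw [mem_ball, dist_eq_norm, add_sub_cancel_left]
    exact hεv.trans_le (min_le_left _ _)
  have hq' : q + ε • v ∈ ball q δ₂ := by
    rw [mem_ball, dist_eq_norm, add_sub_cancel_left]
    exact hεv.trans_le (min_le_right _ _)
  have hseg : segment ℝ (p + ε • v) (q + ε • v) ⊆ B \ N := by
    intro z hz
    have hzB : z ∈ B := hBc.segment_subset (hb₁ hp').1 (hb₂ hq').1 hz
    refine ⟨hzB, fun hzN => hgood ⟨z, ⟨hzN, hzB⟩, ?_⟩⟩
    obtain ⟨a, b, ha, hb, hab, rfl⟩ := hz
    simp only [inner_add_right, inner_smul_right, hvq, real_inner_self_eq_norm_sq]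
    have : a = 1 - b := by linarith
    rw [this]
    ring
  refine ⟨ball p δ₁ ∪ segment ℝ (p + ε • v) (q + ε • v) ∪ ball q δ₂,
    union_subset (union_subset hb₁ hseg) hb₂, Or.inl (Or.inl (mem_ball_self hδ₁)),
    Or.inr (mem_ball_self hδ₂), ?_⟩
  refine IsPreconnected.union (q + ε • v) (Or.inr (right_mem_segment ℝ _ _)) hq' ?_
    (convex_ball _ _).isPreconnected
  exact IsPreconnected.union (p + ε • v) hp' (left_mem_segment ℝ _ _)
    (convex_ball _ _).isPreconnected (convex_segment _ _).isPreconnected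

lemma efin_dense {N O : Set ℂ} (hO : IsOpen O) (hne : O.Nonempty)
    (h0 : (μH[1] : Measure ℂ) (N ∩ O) = 0) : ∃ z ∈ O, z ∉ N := by
  obtain ⟨x, hx⟩ := hne
  obtain ⟨δ, hδ, hb⟩ := Metric.isOpen_iff.1 hO x hx
  by_contra hcon
  push Not at hcon
  have h1 := efin_proj h0 1
  have h2 : Ioo x.re (x.re + δ) ⊆ (fun z => inner ℝ (1 : ℂ) z) '' (N ∩ O) := by
    intro s hs
    have h3 : x + ((s - x.re : ℝ) : ℂ) ∈ O := by
      apply hb
      rw [mem_ball, dist_eq_norm, add_sub_cancel_left, Complex.norm_real, Real.norm_eq_abs,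
        abs_of_pos (by linarith [hs.1])]
      linarith [hs.2]
    refine ⟨_, ⟨hcon _ h3, h3⟩, ?_⟩
    simp [Complex.inner]
  have h3 := measure_mono_null h2 h1
  rw [Real.volume_Ioo, ENNReal.ofReal_eq_zero] at h3
  linarith

/-- the density bound fails at a point near which the gradient is constant and `K` is null -/
lemma efin_dens (h : TMin Ω u l K) {x : ℂ} (hxK : x ∈ K) {r : ℝ} (hr : 0 < r)
    (hb : ball x r ⊆ Ω) (h0 : (μH[1] : Measure ℂ) (K ∩ ball x r) = 0) {c : ℂ}
    (hc : ∀ y ∈ ball x r, y ∉ K → cgr u y = c) : False := by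
  set s : ℝ := min (r / 2) (1 / (Real.pi * (‖c‖ ^ 2 + 1))) with hs
  have hs0 : 0 < s := lt_min (by positivity) (by positivity)
  have hsr : s < r := (min_le_left _ _).trans_lt (by linarith)
  have h1 := h.dens x hxK s hs0 ((closedBall_subset_ball hsr).trans hb)
  have hKm := efin_meas h.toTConf
  have h2 : cen u K (ball x s) ≤ ENNReal.ofReal (‖c‖ ^ 2 * (Real.pi * s ^ 2)) := by
    rw [cen, measure_mono_null (inter_subset_inter_right _ (ball_subset_ball hsr.le)) h0, add_zero]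
    calc ∫⁻ y in ball x s \ K, ‖cgr u y‖ₑ ^ 2 = ∫⁻ _ in ball x s \ K, ‖c‖ₑ ^ 2 := by
          refine setLIntegral_congr_fun (measurableSet_ball.diff hKm) fun y hy => ?_
          rw [hc y (ball_subset_ball hsr.le hy.1) hy.2]
      _ ≤ ∫⁻ _ in ball x s, ‖c‖ₑ ^ 2 := lintegral_mono_set sdiff_subset
      _ = ENNReal.ofReal (‖c‖ ^ 2 * (Real.pi * s ^ 2)) := by
          rw [setLIntegral_const, Complex.volume_ball, ENNReal.ofReal_mul (by positivity),
            ← ofReal_norm, ENNReal.ofReal_pow (norm_nonneg _),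
            ENNReal.ofReal_mul Real.pi_pos.le, ENNReal.ofReal_pow hs0.le,
            ← NNReal.coe_real_pi, ENNReal.ofReal_coe_nnreal, mul_comm (NNReal.pi : ℝ≥0∞)]
  have h3 := h1.trans h2
  rw [ENNReal.ofReal_le_ofReal_iff (by positivity)] at h3
  have h4 : s * (Real.pi * (‖c‖ ^ 2 + 1)) ≤ 1 := by
    have : s ≤ 1 / (Real.pi * (‖c‖ ^ 2 + 1)) := min_le_right _ _
    rwa [le_div_iff₀ (by positivity)] at this
  have h5 : s * (s * (Real.pi * (‖c‖ ^ 2 + 1))) ≤ s * 1 := by gcongr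
  have h6 : 0 < Real.pi * s ^ 2 := by positivity
  nlinarith

theorem TMin.finald (h : TMin Ω u l K) {Q D : Set ℂ} (hQ : IsOpen Q) (hD : IsCompact D)
    (hDQ : D ⊆ Q) (hQΩ : Q ⊆ Ω) (hS : K ∩ Q ⊆ D) {c : ℂ} (hc : ∀ x ∈ Q \ D, cgr u x = c) :
    K ∩ Q = ∅ := by
  have h0 := efin_null h hQ hD hDQ hQΩ hS hc
  have hopen : ∀ O : Set ℂ, IsOpen O → O ⊆ Ω → IsOpen (O \ K) := by
    intro O hO hOΩ
    have : O \ K = O ∩ (Ω \ K) := by
      ext y
      exact ⟨fun hy => ⟨hy.1, hOΩ hy.1, hy.2⟩, fun hy => ⟨hy.1, hy.2.2⟩⟩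
    rw [this]
    exact hO.inter h.isOpen_off
  set A : Set ℂ := {x | x ∈ Q ∧ ∃ r > 0, ball x r ⊆ Q ∧ ∀ y ∈ ball x r, y ∉ K → cgr u y = c} with hA
  have hAo : IsOpen A := by
    rw [Metric.isOpen_iff]
    rintro x ⟨-, r, hr, hb, hy⟩
    refine ⟨r, hr, fun y hyr => ⟨hb hyr, r - dist y x, by linarith [mem_ball.1 hyr], ?_, ?_⟩⟩
    · exact (ball_subset (by linarith)).trans hb
    · intro z hz hzK
      exact hy z (ball_subset (by linarith) hz) hzK
  have hDA : Q \ D ⊆ A := by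
    intro x hx
    obtain ⟨r, hr, hb⟩ := Metric.isOpen_iff.1 (hQ.sdiff hD.isClosed) x hx
    exact ⟨hx.1, r, hr, fun y hy => (hb hy).1, fun y hy _ => hc y (hb hy)⟩
  set G : Set ℂ := Q \ A with hG
  have hGD : G ⊆ D := by
    intro x hx
    by_contra hcon
    exact hx.2 (hDA ⟨hx.1, hcon⟩)
  have hGcl : IsClosed G := by
    rw [← closure_subset_iff_isClosed]
    intro x hx
    have hxD : x ∈ D := closure_minimal hGD hD.isClosed hx
    refine ⟨hDQ hxD, fun hxA => ?_⟩
    obtain ⟨y, hyA, hyG⟩ := mem_closure_iff.1 hx A hAo hxA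
    exact hyG.2 hyA
  have hGop : IsOpen G := by
    rw [Metric.isOpen_iff]
    intro x hx
    obtain ⟨r, hr, hb⟩ := Metric.isOpen_iff.1 hQ x hx.1
    refine ⟨r, hr, fun y hy => ⟨hb hy, fun hyA => hx.2 ?_⟩⟩
    obtain ⟨-, ρ, hρ, hbρ, hcρ⟩ := hyA
    have hU : IsOpen (ball x r \ K) := hopen _ isOpen_ball (hb.trans hQΩ)
    have hUc : IsPreconnected (ball x r \ K) := efin_conn (convex_ball _ _) hU
      (measure_mono_null (inter_subset_inter_right _ hb) h0)
    have hO : IsOpen (ball x r ∩ ball y ρ) := isOpen_ball.inter isOpen_ball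
    obtain ⟨z, hz, hzK⟩ := efin_dense (N := K) hO ⟨y, hy, mem_ball_self hρ⟩
      (measure_mono_null (inter_subset_inter_right _ (inter_subset_left.trans hb)) h0)
    have hf : DifferentiableOn ℂ (fun x => (starRingEnd ℂ) (cgr u x) - (starRingEnd ℂ) c)
        (ball x r \ K) :=
      (h.hol.mono (sdiff_subset_sdiff_left (hb.trans hQΩ))).sub_const _
    have hf' := hf.analyticOnNhd hU
    have hz0 : (fun x => (starRingEnd ℂ) (cgr u x) - (starRingEnd ℂ) c) =ᶠ[𝓝 z] 0 := by
      have h1 : IsOpen ((ball x r ∩ ball y ρ) \ K) :=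
        hopen _ hO (inter_subset_left.trans (hb.trans hQΩ))
      filter_upwards [h1.mem_nhds ⟨hz, hzK⟩] with z' hz'
      rw [hcρ z' hz'.1.2 hz'.2]
      simp
    have h2 := hf'.eqOn_zero_of_preconnected_of_eventuallyEq_zero hUc ⟨hz.1, hzK⟩ hz0
    refine ⟨hx.1, r, hr, hb, fun z' hz' hzK' => ?_⟩
    have h3 := h2 ⟨hz', hzK'⟩
    have h4 : (starRingEnd ℂ) (cgr u z') = (starRingEnd ℂ) c := sub_eq_zero.1 h3
    exact (starRingEnd ℂ).injective h4
  have hG0 : G = ∅ := by
    rcases isClopen_iff.1 ⟨hGcl, hGop⟩ with h1 | h1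
    · exact h1
    · exfalso
      have h2 : IsCompact (univ : Set ℂ) :=
        hD.of_isClosed_subset isClosed_univ (h1 ▸ hGD)
      exact noncompact_univ ℂ h2
  rw [eq_empty_iff_forall_notMem]
  rintro x ⟨hxK, hxQ⟩
  have hxA : x ∈ A := by
    by_contra hcon
    have : x ∈ G := ⟨hxQ, hcon⟩
    rw [hG0] at this
    exact this
  obtain ⟨-, r, hr, hb, hy⟩ := hxA
  exact efin_dens h hxK hr (hb.trans hQΩ)
    (measure_mono_null (inter_subset_inter_right _ hb) h0) hy

end Pool.Agent.MP099f24
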