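import Mathlib
import Pool.Agent.Lib.MP_099f24_an.TM.Defs
import Pool.Agent.Lib.MP_099f24_an.TM.Bas
import Pool.Agent.Lib.MP_099f24_an.TM.Upp
import Pool.Agent.Lib.MP_099f24_an.Calibration

/-!
# Topological minimizers: a bounded set `K` is empty
-/

set_option autoImplicit false

namespace Pool.Agent.MP099f24

open MeasureTheory Filter Topology Set Metric
open scoped ENNReal ContDiff

variable {Ω : Set ℂ} {u : ℂ → ℝ} {l : ℂ → Set ℂ} {K : Set ℂ}

/-- mean value bound for the gradient -/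
theorem eunb_mean (h : TMin Ω u l K) {a : ℂ} {d E : ℝ} (hd : 0 < d) (hE0 : 0 ≤ E)
    (hb : closedBall a d ⊆ Ω \ K) (hE' : cen u K (closedBall a d) ≤ ENNReal.ofReal E) :
    Real.pi * d ^ 2 * ‖cgr u a‖ ^ 2 ≤ E := by
  have hpi := Real.pi_pos
  set f : ℂ → ℂ := fun x => (starRingEnd ℂ) (cgr u x) with hf
  have hfn : ∀ x, ‖f x‖ = ‖cgr u x‖ := fun x => Complex.norm_conj _
  have hfc : ContinuousOn f (Ω \ K) := h.hol.continuousOn
  have hgc : ContinuousOn (fun x => ‖cgr u x‖ ^ 2) (closedBall a d) := by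
    have h1 : ContinuousOn (fun x => ‖f x‖ ^ 2) (closedBall a d) := (hfc.mono hb).norm.pow 2
    simpa only [hfn] using h1
  have hint : IntegrableOn (fun x => ‖cgr u x‖ ^ 2) (closedBall a d) :=
    hgc.integrableOn_compact (isCompact_closedBall a d)
  -- the energy in the ball
  have hE : ∫ x in closedBall a d, ‖cgr u x‖ ^ 2 ≤ E := by
    have h2 : (∫⁻ x in closedBall a d, ‖cgr u x‖ₑ ^ 2) ≤ ENNReal.ofReal E := by
      refine le_trans ?_ hE'
      unfold cen
      have h3 : closedBall a d \ K = closedBall a d :=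
        sdiff_eq_left.2 (disjoint_left.2 fun x hx hxK => (hb hx).2 hxK)
      rw [h3]
      exact le_self_add
    have h4 : (∫⁻ x in closedBall a d, ‖cgr u x‖ₑ ^ 2) =
        ENNReal.ofReal (∫ x in closedBall a d, ‖cgr u x‖ ^ 2) := by
      rw [ofReal_integral_eq_lintegral_ofReal hint
        (Eventually.of_forall fun x => by positivity)]
      refine lintegral_congr fun x => ?_
      rw [ENNReal.ofReal_pow (norm_nonneg _), ofReal_norm]
    rw [h4] at h2
    exact (ENNReal.ofReal_le_ofReal_iff hE0).1 h2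
  -- polar coordinates
  have hsub : {x | dist x a ∈ Ioo 0 d} ⊆ closedBall a d := fun x hx => mem_closedBall.2 hx.2.le
  have hint2 : IntegrableOn (fun x => ‖cgr u x‖ ^ 2) {x | dist x a ∈ Ioo 0 d} := hint.mono_set hsub
  have h1 : ∫ x in {x | dist x a ∈ Ioo 0 d}, ‖cgr u x‖ ^ 2 ≤
      ∫ x in closedBall a d, ‖cgr u x‖ ^ 2 :=
    setIntegral_mono_set hint (Eventually.of_forall fun x => by positivity)
      hsub.eventuallyLE
  rw [polar_integral a measurableSet_Ioo (fun s hs => hs.1)] at h1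
  have hint3 := (polar_integrable a measurableSet_Ioo (fun s hs => hs.1) _).1 hint2
  have h2 : ∫ p in Ioo 0 d ×ˢ Ioo (-Real.pi) Real.pi, p.1 • ‖cgr u (pc a p.1 p.2)‖ ^ 2 =
      ∫ s in Ioo 0 d, ∫ θ in Ioo (-Real.pi) Real.pi, s • ‖cgr u (pc a s θ)‖ ^ 2 := by
    rw [Measure.volume_eq_prod, setIntegral_prod _ (by
      rw [← Measure.volume_eq_prod]
      exact hint3)]
  have h3 : ∫ s in Ioo 0 d, s * (2 * Real.pi * ‖cgr u a‖ ^ 2) ≤
      ∫ s in Ioo 0 d, ∫ θ in Ioo (-Real.pi) Real.pi, s • ‖cgr u (pc a s θ)‖ ^ 2 := by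
    refine setIntegral_mono_on ?_ ?_ measurableSet_Ioo ?_
    · exact (Continuous.integrableOn_Icc (by fun_prop)).mono_set Ioo_subset_Icc_self
    · have h4 : Integrable (fun p : ℝ × ℝ => p.1 • ‖cgr u (pc a p.1 p.2)‖ ^ 2)
          ((volume.restrict (Ioo 0 d)).prod (volume.restrict (Ioo (-Real.pi) Real.pi))) := by
        rw [Measure.prod_restrict, ← Measure.volume_eq_prod]
        exact hint3
      exact h4.integral_prod_left
    · intro s hs
      rw [integral_smul, smul_eq_mul]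
      refine mul_le_mul_of_nonneg_left ?_ hs.1.le
      have h5 := upp_mean hs.1 h.isOpen_off h.hol
        ((closedBall_subset_closedBall hs.2.le).trans hb)
      simpa only [hfn, hf, Complex.norm_conj] using h5
  have h4 : ∫ s in Ioo 0 d, s * (2 * Real.pi * ‖cgr u a‖ ^ 2) =
      d ^ 2 / 2 * (2 * Real.pi * ‖cgr u a‖ ^ 2) := by
    rw [← integral_Ioc_eq_integral_Ioo, ← intervalIntegral.integral_of_le hd.le,
      intervalIntegral.integral_mul_const, integral_id]
    ring
  rw [h4, ← h2] at h3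
  have h5 := (h3.trans h1).trans hE
  calc Real.pi * d ^ 2 * ‖cgr u a‖ ^ 2 = d ^ 2 / 2 * (2 * Real.pi * ‖cgr u a‖ ^ 2) := by ring
    _ ≤ E := h5

/-- oscillation in an annulus -/
lemma eunb_osc {R m : ℝ} (hR : 0 < R)
    (hd : ∀ x : ℂ, R ≤ ‖x‖ → ‖x‖ ≤ 2 * R → DifferentiableAt ℝ u x)
    (hm : ∀ x : ℂ, R ≤ ‖x‖ → ‖x‖ ≤ 2 * R → ‖fderiv ℝ u x‖ ≤ m) {x : ℂ} (hx1 : R ≤ ‖x‖)
    (hx2 : ‖x‖ ≤ 2 * R) : |u x - u (R : ℂ)| ≤ (Real.pi + 1) * R * m := by
  set θ := x.arg with hθ
  have hexp : ∀ t : ℝ, ‖Complex.exp (t * Complex.I)‖ = 1 := Complex.norm_exp_ofReal_mul_I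
  have hn : ∀ s : ℝ, 0 ≤ s → ∀ t : ℝ, ‖(s : ℂ) * Complex.exp (t * Complex.I)‖ = s := by
    intro s hs t
    rw [norm_mul, hexp, mul_one, Complex.norm_real, Real.norm_eq_abs, abs_of_nonneg hs]
  have hm0 : 0 ≤ m := (norm_nonneg _).trans (hm x hx1 hx2)
  -- along the circle
  have h1 : |u ((R : ℂ) * Complex.exp (θ * Complex.I)) - u ((R : ℂ) *
      Complex.exp ((0 : ℝ) * Complex.I))| ≤ (m * R) * |θ - 0| := by
    have hder : ∀ t : ℝ, HasDerivAt (fun t : ℝ => u ((R : ℂ) * Complex.exp (t * Complex.I)))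
        (fderiv ℝ u ((R : ℂ) * Complex.exp (t * Complex.I))
          ((R : ℂ) * (Complex.exp (t * Complex.I) * Complex.I))) t := by
      intro t
      have e1 : HasDerivAt (fun t : ℝ => (R : ℂ) * Complex.exp (t * Complex.I))
          ((R : ℂ) * (Complex.exp (t * Complex.I) * Complex.I)) t := by
        have e2 : HasDerivAt (fun t : ℝ => (t : ℂ) * Complex.I) Complex.I t := by
          simpa using (Complex.ofRealCLM.hasDerivAt (x := t)).mul_const Complex.I
        exact (e2.cexp).const_mul (R : ℂ)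
      have e3 := (hd ((R : ℂ) * Complex.exp (t * Complex.I)) (by rw [hn R hR.le])
        (by rw [hn R hR.le]; linarith)).hasFDerivAt
      exact e3.comp_hasDerivAt t e1
    have h2 := Convex.norm_image_sub_le_of_norm_hasDerivWithin_le (s := univ) (C := m * R)
      (fun t _ => (hder t).hasDerivWithinAt) (fun t _ => by
        refine (ContinuousLinearMap.le_opNorm _ _).trans ?_
        rw [norm_mul, norm_mul, hexp, Complex.norm_I, Complex.norm_real, Real.norm_eq_abs,
          abs_of_pos hR, one_mul, mul_one]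
        exact mul_le_mul_of_nonneg_right (hm _ (by rw [hn R hR.le])
          (by rw [hn R hR.le]; linarith)) hR.le) convex_univ (mem_univ (0 : ℝ)) (mem_univ θ)
    simpa only [Real.norm_eq_abs] using h2
  -- along the ray
  have h2 : |u ((‖x‖ : ℂ) * Complex.exp (θ * Complex.I)) - u ((R : ℂ) *
      Complex.exp (θ * Complex.I))| ≤ m * |‖x‖ - R| := by
    have hder : ∀ s ∈ Icc R (2 * R),
        HasDerivWithinAt (fun s : ℝ => u ((s : ℂ) * Complex.exp (θ * Complex.I)))
        (fderiv ℝ u ((s : ℂ) * Complex.exp (θ * Complex.I))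
          (Complex.exp (θ * Complex.I))) (Icc R (2 * R)) s := by
      intro s hs
      have e1 : HasDerivAt (fun s : ℝ => (s : ℂ) * Complex.exp (θ * Complex.I))
          (Complex.exp (θ * Complex.I)) s := by
        simpa using (Complex.ofRealCLM.hasDerivAt (x := s)).mul_const
          (Complex.exp (θ * Complex.I))
      have hs0 : 0 ≤ s := hR.le.trans hs.1
      have e3 := (hd ((s : ℂ) * Complex.exp (θ * Complex.I)) (by rw [hn s hs0]; exact hs.1)
        (by rw [hn s hs0]; exact hs.2)).hasFDerivAt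
      exact (e3.comp_hasDerivAt s e1).hasDerivWithinAt
    have h3 := Convex.norm_image_sub_le_of_norm_hasDerivWithin_le (s := Icc R (2 * R)) (C := m)
      hder (fun s hs => by
        refine (ContinuousLinearMap.le_opNorm _ _).trans ?_
        have hs0 : 0 ≤ s := hR.le.trans hs.1
        rw [hexp, mul_one]
        exact hm _ (by rw [hn s hs0]; exact hs.1) (by rw [hn s hs0]; exact hs.2))
      (convex_Icc _ _) (left_mem_Icc.2 (by linarith)) (⟨hx1, hx2⟩ : ‖x‖ ∈ Icc R (2 * R))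
    simpa only [Real.norm_eq_abs] using h3
  rw [Complex.norm_mul_exp_arg_mul_I] at h2
  have h0 : ((R : ℂ) * Complex.exp ((0 : ℝ) * Complex.I)) = (R : ℂ) := by simp
  rw [h0, sub_zero] at h1
  have h3 : |θ| ≤ Real.pi := Complex.abs_arg_le_pi x
  have h4 : |‖x‖ - R| ≤ R := by
    rw [abs_of_nonneg (by linarith)]
    linarith
  have h5 : (m * R) * |θ| ≤ (m * R) * Real.pi := mul_le_mul_of_nonneg_left h3 (by positivity)
  have h6 : m * |‖x‖ - R| ≤ m * R := mul_le_mul_of_nonneg_left h4 hm0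
  calc |u x - u (R : ℂ)| ≤ |u x - u ((R : ℂ) * Complex.exp (θ * Complex.I))| +
        |u ((R : ℂ) * Complex.exp (θ * Complex.I)) - u (R : ℂ)| := abs_sub_le _ _ _
    _ ≤ m * R + (m * R) * Real.pi := by linarith
    _ = _ := by ring

lemma eunb_preconn (R₀ : ℝ) : IsPreconnected {x : ℂ | R₀ < ‖x‖} := by
  rcases lt_or_ge R₀ 0 with h | h
  · have : {x : ℂ | R₀ < ‖x‖} = univ := by
      ext x
      simp only [Set.mem_ofPred_eq, mem_univ, iff_true]
      exact h.trans_le (norm_nonneg x)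
    rw [this]
    exact isPreconnected_univ
  · have h1 : IsPreconnected ((Ioi R₀ : Set ℝ) ×ˢ (univ : Set ℝ)) :=
      ((convex_Ioi R₀).prod convex_univ).isPreconnected
    have h2 := h1.image (fun p : ℝ × ℝ => (p.1 : ℂ) * Complex.exp (p.2 * Complex.I))
      (by fun_prop)
    convert h2 using 1
    ext x
    constructor
    · intro hx
      exact ⟨(‖x‖, x.arg), ⟨hx, mem_univ _⟩, Complex.norm_mul_exp_arg_mul_I x⟩
    · rintro ⟨⟨s, t⟩, ⟨hs, -⟩, rfl⟩
      have hs' : R₀ < s := hs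
      show R₀ < _
      rw [norm_mul, Complex.norm_exp_ofReal_mul_I, mul_one, Complex.norm_real, Real.norm_eq_abs]
      exact hs'.trans_le (le_abs_self s)

lemma eunb_label (h : TConf univ u l K) {R₀ : ℝ} (hK : K ⊆ closedBall 0 R₀) {x y : ℂ}
    (hx : R₀ < ‖x‖) (hy : R₀ < ‖y‖) : l x = l y := by
  have : PreconnectedSpace {x : ℂ | R₀ < ‖x‖} :=
    isPreconnected_iff_preconnectedSpace.1 (eunb_preconn R₀)
  have hoff : ∀ z ∈ {x : ℂ | R₀ < ‖x‖}, z ∉ K := by
    intro z hz hzK
    have := hK hzK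
    rw [mem_closedBall_zero_iff] at this
    exact absurd hz (not_lt.2 this)
  have h1 : IsLocallyConstant (fun z : {x : ℂ | R₀ < ‖x‖} => l z) := by
    rw [IsLocallyConstant.iff_eventually_eq]
    intro z
    have h2 := h.lab z ⟨mem_univ _, hoff z z.2⟩
    exact continuous_subtype_val.continuousAt.eventually h2
  exact h1.apply_eq_of_preconnectedSpace ⟨x, hx⟩ ⟨y, hy⟩

/-- the cut-off competitor -/
lemma eunb_comp (h : TMin univ u l K) {R₀ : ℝ} (hR₀ : 0 < R₀) (hK : K ⊆ closedBall 0 R₀) :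
    ∃ B : ℝ, 0 ≤ B ∧ ∀ R m : ℝ, R₀ < R → (∀ x : ℂ, R ≤ ‖x‖ → ‖x‖ ≤ 2 * R → ‖cgr u x‖ ≤ m) →
      cen u K (closedBall 0 (2 * R)) ≤ ENNReal.ofReal (B * R ^ 2 * m ^ 2) := by
  obtain ⟨χ, hχ, hχc, hχs, hχ01, hχ1⟩ := cal_cutoff (isCompact_closedBall (0 : ℂ) (5 / 4))
    (isOpen_ball (x := (0 : ℂ)) (ε := 7 / 4)) (closedBall_subset_ball (by norm_num))
  obtain ⟨M, hM⟩ : ∃ M : ℝ, ∀ x, ‖fderiv ℝ χ x‖ ≤ M :=
    (hχ.continuous_fderiv (by simp)).bounded_above_of_compact_support (hχc.fderiv ℝ)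
  have hM0 : 0 ≤ M := (norm_nonneg _).trans (hM 0)
  refine ⟨(1 + (Real.pi + 1) * M) ^ 2 * (4 * Real.pi), by positivity, fun R m hR hm => ?_⟩
  have hR0 : 0 < R := hR₀.trans hR
  have hoff : ∀ x : ℂ, R₀ < ‖x‖ → x ∉ K := by
    intro z hz hzK
    have := hK hzK
    rw [mem_closedBall_zero_iff] at this
    exact absurd hz (not_lt.2 this)
  have hm0 : 0 ≤ m := by
    have e : ‖(R : ℂ)‖ = R := by rw [Complex.norm_real, Real.norm_eq_abs, abs_of_pos hR0]
    exact (norm_nonneg _).trans (hm R (by rw [e]) (by rw [e]; linarith))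
  have huC : ∀ x : ℂ, R₀ < ‖x‖ → ContDiffAt ℝ 1 u x := fun x hx =>
    h.smooth.contDiffAt (h.isOpen_off.mem_nhds ⟨mem_univ _, hoff x hx⟩)
  have hud : ∀ x : ℂ, R₀ < ‖x‖ → DifferentiableAt ℝ u x := fun x hx =>
    (huC x hx).differentiableAt (by simp)
  set c : ℝ := u (R : ℂ) with hc
  set κ : ℂ → ℝ := fun x => χ ((1 / R) • x) with hκ
  have hκC : ContDiff ℝ ∞ κ := hχ.comp (contDiff_id.const_smul (1 / R))
  have hκ1 : ∀ x : ℂ, ‖x‖ ≤ 5 / 4 * R → κ =ᶠ[𝓝 x] fun _ => (1 : ℝ) := by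
    intro x hx
    have h1 : (1 / R) • x ∈ closedBall (0 : ℂ) (5 / 4) := by
      rw [mem_closedBall_zero_iff, norm_smul, Real.norm_eq_abs, abs_of_pos (by positivity)]
      rw [one_div, inv_mul_le_iff₀ hR0]
      linarith
    have h2 : ContinuousAt (fun y : ℂ => (1 / R) • y) x := by fun_prop
    exact h2.eventually (hχ1 _ h1)
  have hκ0 : ∀ x : ℂ, 2 * R ≤ ‖x‖ → κ x = 0 := by
    intro x hx
    have h1 : (1 / R) • x ∉ tsupport χ := by
      intro h2
      have h3 := hχs h2
      rw [mem_ball_zero_iff, norm_smul, Real.norm_eq_abs, abs_of_pos (by positivity), one_div,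
        inv_mul_lt_iff₀ hR0] at h3
      linarith
    exact (image_eq_zero_of_notMem_tsupport h1 : χ ((1 / R) • x) = 0)
  have hκd : ∀ x, ‖fderiv ℝ κ x‖ ≤ M / R := by
    intro x
    have h1 : fderiv ℝ κ x = (1 / R) • fderiv ℝ χ ((1 / R) • x) := by
      rw [hκ]
      exact fderiv_comp_smul (1 / R)
    rw [h1, norm_smul, Real.norm_eq_abs, abs_of_pos (by positivity), div_mul_eq_mul_div, one_mul]
    gcongr
    exact hM _
  set w : ℂ → ℝ := fun x => c + (1 - κ x) * (u x - c) with hw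
  have hwin : ∀ x : ℂ, ‖x‖ ≤ 5 / 4 * R → w =ᶠ[𝓝 x] fun _ => c := by
    intro x hx
    filter_upwards [hκ1 x hx] with y hy
    rw [hw]
    simp only
    rw [hy]
    ring
  have hwC : ContDiff ℝ 1 w := by
    rw [contDiff_iff_contDiffAt]
    intro x
    rcases le_or_gt ‖x‖ (5 / 4 * R) with hx | hx
    · exact contDiffAt_const.congr_of_eventuallyEq (hwin x hx)
    · have h1 := huC x (by linarith)
      exact contDiffAt_const.add ((contDiffAt_const.sub
        (hκC.contDiffAt.of_le (by simp))).mul (h1.sub contDiffAt_const))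
  have hwcont : Continuous (cgr w) := by
    have h1 : Continuous (fderiv ℝ w) := hwC.continuous_fderiv (by simp)
    exact cgrL_continuous.comp h1
  -- the bound of the gradient
  have hbound : ∀ x ∈ closedBall (0 : ℂ) (2 * R), ‖cgr w x‖ ≤ m * (1 + (Real.pi + 1) * M) := by
    intro x hx
    rw [mem_closedBall_zero_iff] at hx
    rcases le_or_gt ‖x‖ (5 / 4 * R) with hx' | hx'
    · rw [cgr_congr (hwin x hx'), cgr_const, norm_zero]
      positivity
    · have hxR : R ≤ ‖x‖ := by linarith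
      rw [cgr_norm]
      have e1 : HasFDerivAt u (fderiv ℝ u x) x := (hud x (by linarith)).hasFDerivAt
      have e2 : HasFDerivAt κ (fderiv ℝ κ x) x := (hκC.differentiable (by simp) x).hasFDerivAt
      have e3 : HasFDerivAt w ((1 - κ x) • fderiv ℝ u x + (u x - c) • (-fderiv ℝ κ x)) x := by
        have e4 := ((e2.const_sub 1).mul (e1.sub_const c)).const_add c
        exact e4
      rw [e3.fderiv]
      have hosc := eunb_osc (u := u) (m := m) hR0 (fun y hy _ => hud y (by linarith))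
        (fun y hy hy' => by rw [← cgr_norm]; exact hm y hy hy') hxR hx
      have hκ01 : 0 ≤ κ x ∧ κ x ≤ 1 := hχ01 _
      calc ‖(1 - κ x) • fderiv ℝ u x + (u x - c) • (-fderiv ℝ κ x)‖ ≤
            ‖(1 - κ x) • fderiv ℝ u x‖ + ‖(u x - c) • (-fderiv ℝ κ x)‖ := norm_add_le _ _
        _ = |1 - κ x| * ‖cgr u x‖ + |u x - c| * ‖fderiv ℝ κ x‖ := by
            rw [norm_smul, norm_smul, norm_neg, Real.norm_eq_abs, Real.norm_eq_abs, cgr_norm]
        _ ≤ 1 * m + ((Real.pi + 1) * R * m) * (M / R) := by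
            refine add_le_add ?_ ?_
            · refine mul_le_mul ?_ (hm x hxR hx) (norm_nonneg _) zero_le_one
              rw [abs_of_nonneg (by linarith)]
              linarith
            · exact mul_le_mul hosc (hκd x) (norm_nonneg _) (by positivity)
        _ = m * (1 + (Real.pi + 1) * M) := by
            field_simp
  have hconf : TConf univ w (fun _ => l ((2 * R : ℝ) : ℂ)) ∅ := by
    refine ⟨isOpen_univ, empty_subset _, by simp, hwC.contDiffOn, fun x _ => ?_, fun C hC _ => ?_⟩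
    · exact Eventually.of_forall fun _ => rfl
    · have h1 : IntegrableOn (fun x => ‖cgr w x‖ ^ 2) C :=
        (hwcont.norm.pow 2).continuousOn.integrableOn_compact hC
      rw [cen, sdiff_empty, empty_inter, measure_empty, add_zero, tm_lint_eq h1]
      exact ENNReal.ofReal_lt_top
  have hmin := h.min w _ ∅ (closedBall 0 (2 * R)) hconf (isCompact_closedBall _ _)
    (subset_univ _) (by
      intro x hx
      have hx' : 2 * R < ‖x‖ := by
        have := hx.2
        rwa [mem_closedBall_zero_iff, not_le] at this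
      exact ⟨fun h => absurd h (notMem_empty _), fun h => absurd h (hoff x (by linarith))⟩) (by
      intro x hx _
      have hx' : 2 * R < ‖x‖ := by
        have := hx.2
        rwa [mem_closedBall_zero_iff, not_le] at this
      refine ⟨?_, ?_⟩
      · rw [hw]
        simp only
        rw [hκ0 x hx'.le]
        ring
      · refine eunb_label h.toTConf hK ?_ (by linarith)
        rw [Complex.norm_real, Real.norm_eq_abs, abs_of_pos (by linarith)]
        linarith)
  refine hmin.trans ?_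
  rw [cen, sdiff_empty, empty_inter, measure_empty, add_zero]
  have hb' : ∀ x ∈ closedBall (0 : ℂ) (2 * R), ‖cgr w x‖ₑ ^ 2 ≤
      ENNReal.ofReal ((m * (1 + (Real.pi + 1) * M)) ^ 2) := by
    intro x hx
    rw [← ofReal_norm, ← ENNReal.ofReal_pow (norm_nonneg _)]
    apply ENNReal.ofReal_le_ofReal
    have := hbound x hx
    gcongr
  calc ∫⁻ x in closedBall (0 : ℂ) (2 * R), ‖cgr w x‖ₑ ^ 2 ≤
        ∫⁻ _ in closedBall (0 : ℂ) (2 * R), ENNReal.ofReal ((m * (1 + (Real.pi + 1) * M)) ^ 2) :=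
        setLIntegral_mono' measurableSet_closedBall hb'
    _ = ENNReal.ofReal ((m * (1 + (Real.pi + 1) * M)) ^ 2 * (Real.pi * (2 * R) ^ 2)) := by
        have hv : volume (closedBall (0 : ℂ) (2 * R)) = ENNReal.ofReal (Real.pi * (2 * R) ^ 2) := by
          rw [Complex.volume_closedBall, ENNReal.ofReal_mul Real.pi_pos.le,
            ENNReal.ofReal_pow (by positivity), ← NNReal.coe_real_pi, ENNReal.ofReal_coe_nnreal,
            mul_comm]
        rw [setLIntegral_const, hv, ← ENNReal.ofReal_mul (by positivity)]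
    _ ≤ _ := by
        apply ENNReal.ofReal_le_ofReal
        apply le_of_eq
        ring

/-- decay of the gradient -/
lemma eunb_decay (h : TMin univ u l K) {R₀ : ℝ} (hR₀ : 0 < R₀) (hK : K ⊆ closedBall 0 R₀) :
    ∃ C R₁ : ℝ, 0 ≤ C ∧ 0 < R₁ ∧ ∀ z : ℂ, R₁ ≤ ‖z‖ → ‖cgr u z‖ ≤ C / ‖z‖ := by
  have hoff : ∀ x : ℂ, R₀ < ‖x‖ → x ∉ K := by
    intro z hz hzK
    have := hK hzK
    rw [mem_closedBall_zero_iff] at this
    exact absurd hz (not_lt.2 this)
  have hb1 : ∀ z : ℂ, 4 * R₀ ≤ ‖z‖ → ‖cgr u z‖ ^ 2 ≤ 4 / ‖z‖ := by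
    intro z hz
    have hz0 : 0 < ‖z‖ := by linarith
    have h1 := h.grad_bound (a := z) (d := ‖z‖ / 2) (by positivity) (by
      intro y hy
      refine ⟨mem_univ _, hoff y ?_⟩
      rw [mem_closedBall, dist_eq_norm] at hy
      have h2 : ‖z‖ ≤ ‖y‖ + ‖y - z‖ := by
        calc ‖z‖ = ‖y - (y - z)‖ := by congr 1; ring
          _ ≤ _ := norm_sub_le _ _
      linarith)
    rw [le_div_iff₀ hz0]
    linarith
  set f : ℂ → ℂ := fun z => (starRingEnd ℂ) (cgr u z) with hf
  have hfn : ∀ z, ‖f z‖ = ‖cgr u z‖ := fun z => Complex.norm_conj _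
  set H : ℂ → ℂ := fun w => f w⁻¹ with hH
  set ρ : ℝ := 1 / (4 * R₀) with hρ
  have hρ0 : 0 < ρ := by positivity
  have hinv : ∀ w ∈ ball (0 : ℂ) ρ \ {0}, 4 * R₀ ≤ ‖w⁻¹‖ := by
    rintro w ⟨hw, hw0⟩
    rw [mem_ball_zero_iff] at hw
    have hw1 : 0 < ‖w‖ := norm_pos_iff.2 hw0
    rw [norm_inv, le_inv_comm₀ (by positivity) hw1, ← one_div]
    exact hw.le
  have hHb : ∀ w ∈ ball (0 : ℂ) ρ \ {0}, ‖H w‖ ^ 2 ≤ 4 * ‖w‖ := by
    intro w hw
    have h1 := hb1 w⁻¹ (hinv w hw)
    rw [norm_inv, div_inv_eq_mul] at h1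
    rw [hH]
    simp only
    rw [hfn]
    exact h1
  have hd : DifferentiableOn ℂ H (ball (0 : ℂ) ρ \ {0}) := by
    have h1 : DifferentiableOn ℂ f (univ \ K) := h.hol
    refine h1.comp ?_ ?_
    · intro w hw
      exact (differentiableAt_inv hw.2).differentiableWithinAt
    · intro w hw
      exact ⟨mem_univ _, hoff _ (by have := hinv w hw; linarith)⟩
  have hbdd : BddAbove (norm ∘ H '' (ball (0 : ℂ) ρ \ {0})) := by
    refine ⟨1 + 4 * ρ, ?_⟩
    rintro _ ⟨w, hw, rfl⟩
    have h1 := hHb w hw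
    have h2 : ‖w‖ < ρ := mem_ball_zero_iff.1 hw.1
    show ‖H w‖ ≤ _
    nlinarith [sq_nonneg (‖H w‖ - 1), norm_nonneg (H w)]
  have hlim : Tendsto H (𝓝[≠] 0) (𝓝 0) := by
    rw [tendsto_zero_iff_norm_tendsto_zero]
    have h1 : Tendsto (fun w : ℂ => Real.sqrt (4 * ‖w‖)) (𝓝[≠] 0) (𝓝 0) := by
      have h2 : Continuous (fun w : ℂ => Real.sqrt (4 * ‖w‖)) := by fun_prop
      have h3 := h2.tendsto 0
      simp only [norm_zero, mul_zero, Real.sqrt_zero] at h3
      exact h3.mono_left nhdsWithin_le_nhds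
    refine squeeze_zero' (Eventually.of_forall fun w => norm_nonneg _) ?_ h1
    have h2 : ball (0 : ℂ) ρ \ {0} ∈ 𝓝[≠] (0 : ℂ) := by
      rw [sdiff_eq, inter_comm]
      exact inter_mem_nhdsWithin _ (ball_mem_nhds _ hρ0)
    filter_upwards [h2] with w hw
    exact Real.le_sqrt_of_sq_le (hHb w hw)
  have hext := Complex.differentiableOn_update_limUnder_of_bddAbove (ball_mem_nhds (0 : ℂ) hρ0)
    hd hbdd
  rw [hlim.limUnder_eq] at hext
  have hat := (hext.differentiableAt (ball_mem_nhds (0 : ℂ) hρ0)).isBigO_sub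
  obtain ⟨C, hC0, hC⟩ := hat.exists_nonneg
  rw [Asymptotics.isBigOWith_iff] at hC
  obtain ⟨δ, hδ, hball⟩ := Metric.eventually_nhds_iff_ball.1 hC
  refine ⟨C, 1 / δ + 1, hC0, by positivity, fun z hz => ?_⟩
  have hz0 : 0 < ‖z‖ := lt_of_lt_of_le (by positivity) hz
  have hzne : z ≠ 0 := norm_pos_iff.1 hz0
  have h1 := hball z⁻¹ (by
    rw [mem_ball_zero_iff, norm_inv, inv_lt_comm₀ hz0 hδ, ← one_div]
    linarith)
  rw [Function.update_self, Function.update_of_ne (inv_ne_zero hzne), sub_zero, sub_zero, hH] at h1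
  simp only [inv_inv] at h1
  rw [hfn, norm_inv] at h1
  rw [div_eq_mul_inv]
  exact h1

theorem TMin.unb (h : TMin univ u l K) (hb : Bornology.IsBounded K) : K = ∅ := by
  by_contra hne
  obtain ⟨x₀, hx₀⟩ := nonempty_iff_ne_empty.2 hne
  obtain ⟨R₀', hR₀'⟩ := hb.subset_closedBall 0
  set R₀ : ℝ := max R₀' 1 with hR₀def
  have hR₀ : 0 < R₀ := lt_of_lt_of_le one_pos (le_max_right _ _)
  have hK : K ⊆ closedBall 0 R₀ := hR₀'.trans (closedBall_subset_closedBall (le_max_left _ _))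
  have hoff : ∀ x : ℂ, R₀ < ‖x‖ → x ∉ K := by
    intro z hz hzK
    have := hK hzK
    rw [mem_closedBall_zero_iff] at this
    exact absurd hz (not_lt.2 this)
  have hKm : MeasurableSet K := h.toTConf.measurableSet
  obtain ⟨B, hB0, hB⟩ := eunb_comp h hR₀ hK
  obtain ⟨C, R₁, hC0, hR₁, hC⟩ := eunb_decay h hR₀ hK
  -- total energy is finite
  set E : ℝ → ℝ≥0∞ := fun R => cen u K (closedBall 0 R) with hE
  have hEmono : Monotone E := fun a b hab => cen_mono (closedBall_subset_closedBall hab)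
  have hEb : ∀ R, E R ≤ ENNReal.ofReal (B * C ^ 2) := by
    intro R
    set r : ℝ := max (max R R₁) (R₀ + 1) with hr
    have hr1 : R ≤ r := (le_max_left _ _).trans (le_max_left _ _)
    have hr2 : R₁ ≤ r := (le_max_right _ _).trans (le_max_left _ _)
    have hr3 : R₀ + 1 ≤ r := le_max_right _ _
    have hr0 : 0 < r := by linarith
    have h1 := hB r (C / r) (by linarith) (by
      intro x hx _
      refine (hC x (hr2.trans hx)).trans ?_
      gcongr)
    calc E R ≤ E (2 * r) := hEmono (by linarith)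
      _ ≤ ENNReal.ofReal (B * r ^ 2 * (C / r) ^ 2) := h1
      _ = ENNReal.ofReal (B * C ^ 2) := by
          congr 1
          field_simp
  set S : ℝ≥0∞ := ⨆ R, E R with hS
  have hSle : S ≤ ENNReal.ofReal (B * C ^ 2) := iSup_le hEb
  have hSfin : S ≠ ⊤ := (hSle.trans_lt ENNReal.ofReal_lt_top).ne
  -- a small ball has energy at least 2
  have h2 : ENNReal.ofReal 2 ≤ E (‖x₀‖ + 1) := by
    have h1 := h.dens x₀ hx₀ 1 one_pos (subset_univ _)
    rw [mul_one] at h1
    refine h1.trans (cen_mono ?_)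
    intro y hy
    rw [mem_closedBall_zero_iff]
    rw [mem_ball, dist_eq_norm] at hy
    have h2 : ‖y‖ ≤ ‖x₀‖ + ‖y - x₀‖ := by
      calc ‖y‖ = ‖x₀ + (y - x₀)‖ := by congr 1; ring
        _ ≤ _ := norm_add_le _ _
    linarith
  -- small tails
  set ε : ℝ := 1 / (8 * (B + 1)) with hε
  have hε0 : 0 < ε := by positivity
  obtain ⟨R', hR'⟩ : ∃ R', S < E R' + ENNReal.ofReal ε := by
    by_contra hcon
    push Not at hcon
    have h3 : S + ENNReal.ofReal ε ≤ S := by
      rw [hS, ENNReal.iSup_add]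
      exact iSup_le hcon
    have h4 : ENNReal.ofReal ε = 0 := by
      by_contra h5
      exact absurd h3 (not_le.2 (ENNReal.lt_add_right hSfin h5))
    rw [ENNReal.ofReal_eq_zero] at h4
    linarith
  set R : ℝ := max (2 * (|R'| + R₀ + 1)) (‖x₀‖ + 1) with hR
  have hR2 : 2 * (|R'| + R₀ + 1) ≤ R := le_max_left _ _
  have hR0 : 0 < R := by
    have := abs_nonneg R'
    linarith
  have htail : ∀ z : ℂ, R ≤ ‖z‖ → cen u K (closedBall z (R / 2 - 1 / 2)) ≤ ENNReal.ofReal ε := by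
    intro z hz
    have hdisj : Disjoint (closedBall (0 : ℂ) R') (closedBall z (R / 2 - 1 / 2)) := by
      rw [Set.disjoint_left]
      intro y hy hy'
      rw [mem_closedBall_zero_iff] at hy
      rw [mem_closedBall, dist_eq_norm] at hy'
      have h3 : ‖z‖ ≤ ‖y‖ + ‖y - z‖ := by
        calc ‖z‖ = ‖y - (y - z)‖ := by congr 1; ring
          _ ≤ _ := norm_sub_le _ _
      have := le_abs_self R'
      linarith
    have h3 := cen_add (w := u) (K := K) (measurableSet_closedBall (x := z) (ε := R / 2 - 1 / 2))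
      hKm hdisj
    have h4 : cen u K (closedBall (0 : ℂ) R' ∪ closedBall z (R / 2 - 1 / 2)) ≤ S := by
      refine le_trans (cen_mono ?_) (le_iSup E (|R'| + ‖z‖ + R))
      refine union_subset (closedBall_subset_closedBall ?_) ?_
      · have := le_abs_self R'
        have := norm_nonneg z
        linarith
      · intro y hy
        rw [mem_closedBall, dist_eq_norm] at hy
        rw [mem_closedBall_zero_iff]
        have h5 : ‖y‖ ≤ ‖z‖ + ‖y - z‖ := by
          calc ‖y‖ = ‖z + (y - z)‖ := by congr 1; ring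
            _ ≤ _ := norm_add_le _ _
        have := abs_nonneg R'
        linarith
    rw [h3] at h4
    have h5 : E R' ≠ ⊤ := ((le_iSup E R').trans_lt (lt_top_iff_ne_top.2 hSfin)).ne
    have h6 : E R' + cen u K (closedBall z (R / 2 - 1 / 2)) ≤ E R' + ENNReal.ofReal ε :=
      h4.trans hR'.le
    exact (ENNReal.add_le_add_iff_left h5).1 h6
  have hRbig : 2 ≤ R := by
    have := abs_nonneg R'
    linarith
  -- the gradient in the annulus
  have hgrad : ∀ x : ℂ, R ≤ ‖x‖ → ‖x‖ ≤ 2 * R → ‖cgr u x‖ ≤ Real.sqrt (ε * 16 / (Real.pi * R ^ 2)) := by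
    intro x hx _
    apply Real.le_sqrt_of_sq_le
    have h3 := eunb_mean h (a := x) (d := R / 2 - 1 / 2) (E := ε) (by linarith) hε0.le (by
      intro y hy
      refine ⟨mem_univ _, hoff y ?_⟩
      rw [mem_closedBall, dist_eq_norm] at hy
      have h4 : ‖x‖ ≤ ‖y‖ + ‖y - x‖ := by
        calc ‖x‖ = ‖y - (y - x)‖ := by congr 1; ring
          _ ≤ _ := norm_sub_le _ _
      have := abs_nonneg R'
      linarith) (htail x hx)
    have hpi := Real.pi_pos
    rw [le_div_iff₀ (by positivity)]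
    have h4 : R / 4 ≤ R / 2 - 1 / 2 := by linarith
    have h5 : (R / 4) ^ 2 ≤ (R / 2 - 1 / 2) ^ 2 := by gcongr
    have h6 : Real.pi * (R / 4) ^ 2 * ‖cgr u x‖ ^ 2 ≤
        Real.pi * (R / 2 - 1 / 2) ^ 2 * ‖cgr u x‖ ^ 2 := by gcongr
    linarith
  have hfinal := hB R _ (by have := abs_nonneg R'; linarith) hgrad
  have h3 : ENNReal.ofReal 2 ≤ E (2 * R) := h2.trans (hEmono (by
    have := le_max_right (2 * (|R'| + R₀ + 1)) (‖x₀‖ + 1)
    rw [← hR] at this
    linarith))
  have h4 := h3.trans hfinal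
  rw [Real.sq_sqrt (by positivity), ENNReal.ofReal_le_ofReal_iff (by positivity)] at h4
  have h5 : B * R ^ 2 * (ε * 16 / (Real.pi * R ^ 2)) = 2 * B / (Real.pi * (B + 1)) := by
    rw [hε]
    field_simp
    ring
  rw [h5, le_div_iff₀ (by positivity)] at h4
  have hpi : 3 < Real.pi := Real.pi_gt_three
  nlinarith

end Pool.Agent.MP099f24
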