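import Mathlib
import Pool.Agent.Lib.MP_099f24_an.TM.Defs

/-!
# Topological minimizers, module GLU: the cut and paste lemma
-/

set_option autoImplicit false
set_option linter.unusedVariables false

namespace Pool.Agent.MP099f24

open MeasureTheory Filter Topology Set Metric
open scoped ENNReal ContDiff

theorem glu_cgr_congr {w w' : ℂ → ℝ} {x : ℂ} (h : w =ᶠ[𝓝 x] w') : cgr w x = cgr w' x := by
  unfold cgr
  rw [h.fderiv_eq]

theorem glu_measurableSet {Ω : Set ℂ} {w : ℂ → ℝ} {l : ℂ → Set ℂ} {K : Set ℂ}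
    (h : TConf Ω w l K) : MeasurableSet K := by
  have : K = Ω \ (Ω \ K) := by
    ext x
    constructor
    · intro hx
      exact ⟨h.sub hx, fun hx' => hx'.2 hx⟩
    · rintro ⟨hx, hx'⟩
      by_contra hK
      exact hx' ⟨hx, hK⟩
  rw [this]
  exact h.isOpen.measurableSet.diff h.isOpen_off.measurableSet

theorem glu_isCompact_inter {Ω : Set ℂ} {w : ℂ → ℝ} {l : ℂ → Set ℂ} {K : Set ℂ}
    (h : TConf Ω w l K) {F : Set ℂ} (hF : IsCompact F) (hFΩ : F ⊆ Ω) : IsCompact (K ∩ F) := by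
  have : K ∩ F = F \ (Ω \ K) := by
    ext x
    constructor
    · rintro ⟨hx, hxF⟩
      exact ⟨hxF, fun hx' => hx'.2 hx⟩
    · rintro ⟨hx, hx'⟩
      refine ⟨?_, hx⟩
      by_contra hK
      exact hx' ⟨hFΩ hx, hK⟩
  rw [this]
  exact hF.diff h.isOpen_off

theorem glu_sphere_le (q : ℂ) {η : ℝ} (hη : 0 < η) :
    (μH[1] : Measure ℂ) (sphere q η) ≤ ENNReal.ofReal (2 * Real.pi * η) := by
  have hsub : sphere q η ⊆ (circleMap q η) '' (Icc 0 (2 * Real.pi)) := by
    intro x hx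
    have h1 : x ∈ (circleMap q η) '' (Ioc 0 (2 * Real.pi)) := by
      rw [image_circleMap_Ioc, abs_of_pos hη]
      exact hx
    exact image_mono Ioc_subset_Icc_self h1
  refine (measure_mono hsub).trans ?_
  have hl : LipschitzWith (Real.nnabs η) (circleMap q η) := lipschitzWith_circleMap q η
  have h2 := hl.hausdorffMeasure_image_le (d := 1) (by norm_num) (Icc 0 (2 * Real.pi))
  refine h2.trans ?_
  have h3 : (μH[1] : Measure ℝ) (Icc 0 (2 * Real.pi)) = ENNReal.ofReal (2 * Real.pi) := by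
    rw [MeasureTheory.hausdorffMeasure_real, Real.volume_Icc, sub_zero]
  rw [h3, ENNReal.rpow_one]
  have h4 : ((Real.nnabs η : NNReal) : ℝ≥0∞) = ENNReal.ofReal η := by
    rw [Real.nnabs_of_nonneg hη.le]
    rfl
  rw [h4, ← ENNReal.ofReal_mul hη.le]
  exact le_of_eq (by ring_nf)

theorem glu_cont {w : ℂ → ℝ} {W : Set ℂ} (hW : IsOpen W) (h : ContDiffOn ℝ 1 w W) :
    ContinuousOn (cgr w) W := by
  have h1 : ContinuousOn (fderiv ℝ w) W := h.continuousOn_fderiv_of_isOpen hW le_rfl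
  unfold cgr
  apply ContinuousOn.add
  · exact Complex.continuous_ofReal.comp_continuousOn (h1.clm_apply continuousOn_const)
  · exact (Complex.continuous_ofReal.comp_continuousOn
      (h1.clm_apply continuousOn_const)).mul continuousOn_const

theorem glu_lint_compact {w : ℂ → ℝ} {W A : Set ℂ} (hW : IsOpen W) (h : ContDiffOn ℝ 1 w W)
    (hA : IsCompact A) (hAW : A ⊆ W) : ∫⁻ x in A, ‖cgr w x‖ₑ ^ 2 < ⊤ := by
  have hc : ContinuousOn (cgr w) A := (glu_cont hW h).mono hAW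
  obtain ⟨M, hM⟩ := hA.exists_bound_of_continuousOn hc
  have h1 : ∫⁻ x in A, ‖cgr w x‖ₑ ^ 2 ≤ ∫⁻ x in A, (ENNReal.ofReal M) ^ 2 := by
    refine setLIntegral_mono' hA.isClosed.measurableSet fun x hx => ?_
    gcongr
    rw [← ofReal_norm]
    exact ENNReal.ofReal_le_ofReal (hM x hx)
  refine h1.trans_lt ?_
  rw [setLIntegral_const]
  exact ENNReal.mul_lt_top (ENNReal.pow_lt_top ENNReal.ofReal_lt_top) hA.measure_lt_top

theorem glu_piece {f g : ℂ → ℝ≥0∞} {A B : Set ℂ} (hA : MeasurableSet A)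
    (hfg : ∀ x ∈ A, f x = g x) (hAB : A ⊆ B) : ∫⁻ x in A, f x ≤ ∫⁻ x in B, g x := by
  rw [setLIntegral_congr_fun hA hfg]
  exact lintegral_mono_set hAB


theorem tm_glue {Ω₁ Ω₂ : Set ℂ} {w₁ w₂ : ℂ → ℝ} {l₁ l₂ : ℂ → Set ℂ} {K₁ K₂ : Set ℂ}
    (h₁ : TConf Ω₁ w₁ l₁ K₁) (h₂ : TConf Ω₂ w₂ l₂ K₂) {a : ℂ} {s η δ : ℝ} (Q : Finset ℂ)
    (hη : 0 < η) (hδ : 0 < δ) (hδs : δ < s)
    (hQd : ∀ q ∈ Q, ∀ q' ∈ Q, q ≠ q' → Disjoint (closedBall q η) (closedBall q' η))
    (hB1 : closedBall a s ⊆ Ω₁) (hQ1 : ∀ q ∈ Q, closedBall q η ⊆ Ω₁) (hB2 : closedBall a s ⊆ Ω₂)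
    (hann : ∀ x, s - δ ≤ dist x a → dist x a ≤ s → (∀ q ∈ Q, η ≤ dist x q) →
      x ∉ K₁ ∧ x ∉ K₂ ∧ l₂ x = l₁ x)
    {χ : ℂ → ℝ} (hχ : ContDiff ℝ 1 χ) (hχ1 : ∀ x, dist x a ≤ s - δ → χ x = 1)
    (hχ0 : ∀ x, s ≤ dist x a → χ x = 0) :
    ∃ (w : ℂ → ℝ) (l : ℂ → Set ℂ) (K : Set ℂ), TConf Ω₁ w l K ∧
      (∀ x, s < dist x a → (∀ q ∈ Q, η < dist x q) →
        (x ∈ K ↔ x ∈ K₁) ∧ w x = w₁ x ∧ l x = l₁ x) ∧
      cen w K (closedBall a s ∪ ⋃ q ∈ Q, closedBall q η) ≤
        cen w₂ K₂ (ball a (s - δ)) +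
        (∫⁻ x in {x | s - δ ≤ dist x a ∧ dist x a ≤ s ∧ ∀ q ∈ Q, η ≤ dist x q},
          ‖cgr (fun y => χ y * w₂ y + (1 - χ y) * w₁ y) x‖ₑ ^ 2) +
        Q.card * ENNReal.ofReal (2 * Real.pi * η) := by
  classical
  -- the open discs, the circles
  set D : Set ℂ := ⋃ q ∈ Q, ball q η with hD
  set S : Set ℂ := ⋃ q ∈ Q, sphere q η with hS
  set DC : Set ℂ := ⋃ q ∈ Q, closedBall q η with hDC
  set g : ℂ → ℝ := fun y => χ y * w₂ y + (1 - χ y) * w₁ y with hg
  set Ann : Set ℂ := {x | s - δ ≤ dist x a ∧ dist x a ≤ s ∧ ∀ q ∈ Q, η ≤ dist x q} with hAnn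
  have hDo : IsOpen D := isOpen_biUnion fun q _ => isOpen_ball
  have hDCc : IsCompact DC := Q.finite_toSet.isCompact_biUnion fun q _ => isCompact_closedBall q η
  have hSc : IsCompact S := Q.finite_toSet.isCompact_biUnion fun q _ => isCompact_sphere q η
  have memD : ∀ x, x ∈ D ↔ ∃ q ∈ Q, dist x q < η := by
    intro x; simp [hD]
  have memDC : ∀ x, x ∈ DC ↔ ∃ q ∈ Q, dist x q ≤ η := by
    intro x; simp [hDC]
  have memS : ∀ x, x ∈ S ↔ ∃ q ∈ Q, dist x q = η := by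
    intro x; simp [hS, mem_sphere, dist_eq_norm]
  have hDC' : DC = D ∪ S := by
    ext x
    rw [mem_union, memD, memDC, memS]
    constructor
    · rintro ⟨q, hq, hx⟩
      rcases hx.lt_or_eq with h | h
      · exact Or.inl ⟨q, hq, h⟩
      · exact Or.inr ⟨q, hq, h⟩
    · rintro (⟨q, hq, hx⟩ | ⟨q, hq, hx⟩)
      · exact ⟨q, hq, hx.le⟩
      · exact ⟨q, hq, hx.le⟩
  have hDCΩ : DC ⊆ Ω₁ := by
    intro x hx
    obtain ⟨q, hq, hx⟩ := (memDC x).1 hx
    exact hQ1 q hq (mem_closedBall.2 hx)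
  have notD : ∀ x, x ∉ D → ∀ q ∈ Q, η ≤ dist x q := by
    intro x hx q hq
    by_contra hlt
    exact hx ((memD x).2 ⟨q, hq, not_le.1 hlt⟩)
  have hAnnc : IsCompact Ann := by
    have h1 : IsClosed Ann := by
      have : Ann = {x | s - δ ≤ dist x a} ∩ ({x | dist x a ≤ s} ∩ ⋂ q ∈ Q, {x | η ≤ dist x q}) := by
        ext x
        simp [hAnn]
      rw [this]
      refine (isClosed_le continuous_const (continuous_id.dist continuous_const)).inter
        ((isClosed_le (continuous_id.dist continuous_const) continuous_const).inter ?_)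
      exact isClosed_biInter fun q _ => isClosed_le continuous_const
        (continuous_id.dist continuous_const)
    exact (isCompact_closedBall a s).of_isClosed_subset h1 fun x hx => mem_closedBall.2 hx.2.1
  have hK1m := glu_measurableSet h₁
  have hK2m := glu_measurableSet h₂
  have hK2c : IsCompact (K₂ ∩ closedBall a s) :=
    glu_isCompact_inter h₂ (isCompact_closedBall a s) hB2
  -- the data
  set K : Set ℂ := (K₁ \ (ball a s ∪ D)) ∪ (S ∪ ((K₂ ∩ closedBall a s) \ D)) with hK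
  set w : ℂ → ℝ := fun x => if x ∈ D then 0 else g x with hw
  set l : ℂ → Set ℂ := fun x => if x ∈ D then ∅ else if dist x a < s then l₂ x else l₁ x with hl
  have hKcl : IsOpen (Ω₁ \ K) := by
    have : Ω₁ \ K = ((Ω₁ \ K₁) ∪ (Ω₁ ∩ (ball a s ∪ D))) ∩ (Sᶜ ∩ ((K₂ ∩ closedBall a s) \ D)ᶜ) := by
      ext x
      simp only [hK, Set.mem_sdiff, mem_union, mem_inter_iff, mem_compl_iff]
      tauto
    rw [this]
    refine ((h₁.isOpen_off).union (h₁.isOpen.inter (isOpen_ball.union hDo))).inter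
      (hSc.isClosed.isOpen_compl.inter ?_)
    exact (hK2c.diff hDo).isClosed.isOpen_compl
  have hKm : MeasurableSet K :=
    (hK1m.diff (isOpen_ball.union hDo).measurableSet).union
      (hSc.isClosed.measurableSet.union ((hK2m.inter isClosed_closedBall.measurableSet).diff
        hDo.measurableSet))
  have hKsub : K ⊆ Ω₁ := by
    rintro x (hx | hx | hx)
    · exact h₁.sub hx.1
    · exact hDCΩ (hDC' ▸ Or.inr hx)
    · exact hB1 hx.1.2
  -- near a point off the discs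
  have hoff : ∀ x, x ∉ K → x ∉ D → ∀ᶠ y in 𝓝 x, y ∉ D := by
    intro x hxK hxD
    have hx : x ∈ DCᶜ := by
      intro h
      rw [hDC'] at h
      rcases h with h | h
      · exact hxD h
      · exact hxK (Or.inr (Or.inl h))
    filter_upwards [hDCc.isClosed.isOpen_compl.mem_nhds hx] with y hy hyD
    exact hy (hDC' ▸ Or.inl hyD)
  have hwD : ∀ x ∈ D, w =ᶠ[𝓝 x] fun _ => 0 := by
    intro x hx
    filter_upwards [hDo.mem_nhds hx] with y hy
    simp [hw, hy]
  have hwg : ∀ x, x ∉ K → x ∉ D → w =ᶠ[𝓝 x] g := by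
    intro x hxK hxD
    filter_upwards [hoff x hxK hxD] with y hy
    simp [hw, hy]
  have hg2 : ∀ x, dist x a < s - δ → g =ᶠ[𝓝 x] w₂ := by
    intro x hx
    filter_upwards [isOpen_ball.mem_nhds (mem_ball.2 hx)] with y hy
    simp [hg, hχ1 y (mem_ball.1 hy).le]
  have hg1 : ∀ x, s < dist x a → g =ᶠ[𝓝 x] w₁ := by
    intro x hx
    have ho : IsOpen {y : ℂ | s < dist y a} :=
      isOpen_lt continuous_const (continuous_id.dist continuous_const)
    filter_upwards [ho.mem_nhds hx] with y hy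
    have hy' : s < dist y a := hy
    simp [hg, hχ0 y hy'.le]
  have hgW : ContDiffOn ℝ 1 g ((Ω₁ \ K₁) ∩ (Ω₂ \ K₂)) := by
    have h1 : ContDiffOn ℝ 1 w₁ ((Ω₁ \ K₁) ∩ (Ω₂ \ K₂)) := h₁.smooth.mono inter_subset_left
    have h2 : ContDiffOn ℝ 1 w₂ ((Ω₁ \ K₁) ∩ (Ω₂ \ K₂)) := h₂.smooth.mono inter_subset_right
    exact (hχ.contDiffOn.mul h2).add ((contDiffOn_const.sub hχ.contDiffOn).mul h1)
  have hWo : IsOpen ((Ω₁ \ K₁) ∩ (Ω₂ \ K₂)) := h₁.isOpen_off.inter h₂.isOpen_off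
  have hAnnW : Ann ⊆ (Ω₁ \ K₁) ∩ (Ω₂ \ K₂) := by
    intro x hx
    obtain ⟨h1, h2, -⟩ := hann x hx.1 hx.2.1 hx.2.2
    exact ⟨⟨hB1 (mem_closedBall.2 hx.2.1), h1⟩, ⟨hB2 (mem_closedBall.2 hx.2.1), h2⟩⟩
  -- trichotomy
  have htri : ∀ x ∈ Ω₁ \ K, x ∉ D → (dist x a < s - δ ∧ x ∉ K₂ ∧ x ∈ Ω₂) ∨ x ∈ Ann ∨
      (s < dist x a ∧ x ∉ K₁) := by
    rintro x ⟨hxΩ, hxK⟩ hxD
    rcases lt_or_ge (dist x a) (s - δ) with h | h
    · refine Or.inl ⟨h, ?_, hB2 (mem_closedBall.2 (by linarith))⟩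
      intro h2
      exact hxK (Or.inr (Or.inr ⟨⟨h2, mem_closedBall.2 (by linarith)⟩, hxD⟩))
    · rcases le_or_gt (dist x a) s with h' | h'
      · exact Or.inr (Or.inl ⟨h, h', notD x hxD⟩)
      · refine Or.inr (Or.inr ⟨h', ?_⟩)
        intro h1
        refine hxK (Or.inl ⟨h1, ?_⟩)
        rintro (hb | hb)
        · exact absurd (mem_ball.1 hb) (by linarith)
        · exact hxD hb
  -- the length of the circles
  have hSlen : (μH[1] : Measure ℂ) S ≤ Q.card * ENNReal.ofReal (2 * Real.pi * η) := by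
    rw [hS]
    refine (measure_biUnion_finset_le Q _).trans ?_
    refine (Finset.sum_le_sum fun q _ => glu_sphere_le q hη).trans ?_
    rw [Finset.sum_const, nsmul_eq_mul]
  have hSfin : (μH[1] : Measure ℂ) S < ⊤ :=
    hSlen.trans_lt (ENNReal.mul_lt_top (ENNReal.natCast_lt_top _) ENNReal.ofReal_lt_top)
  -- the gradient part
  have hgrad : ∀ A : Set ℂ, MeasurableSet A → A ⊆ Ω₁ → ∫⁻ x in A \ K, ‖cgr w x‖ₑ ^ 2 ≤
      (∫⁻ x in ball a (s - δ) \ K₂, ‖cgr w₂ x‖ₑ ^ 2) + (∫⁻ x in Ann, ‖cgr g x‖ₑ ^ 2) +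
        ∫⁻ x in (A \ (closedBall a s ∪ DC)) \ K₁, ‖cgr w₁ x‖ₑ ^ 2 := by
    intro A hA hAΩ
    set P0 : Set ℂ := (A \ K) ∩ D with hP0
    set P2 : Set ℂ := ((A \ K) \ D) ∩ ball a (s - δ) with hP2
    set PA : Set ℂ := ((A \ K) \ D) ∩ Ann with hPA
    set P1 : Set ℂ := ((A \ K) \ D) \ closedBall a s with hP1
    have hAK : MeasurableSet (A \ K) := hA.diff hKm
    have hAKD : MeasurableSet ((A \ K) \ D) := hAK.diff hDo.measurableSet
    have hcov : A \ K ⊆ (P0 ∪ P2) ∪ (PA ∪ P1) := by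
      intro x hx
      by_cases hxD : x ∈ D
      · exact Or.inl (Or.inl ⟨hx, hxD⟩)
      · rcases htri x ⟨hAΩ hx.1, hx.2⟩ hxD with h | h | h
        · exact Or.inl (Or.inr ⟨⟨hx, hxD⟩, mem_ball.2 h.1⟩)
        · exact Or.inr (Or.inl ⟨⟨hx, hxD⟩, h⟩)
        · refine Or.inr (Or.inr ⟨⟨hx, hxD⟩, ?_⟩)
          intro hb
          exact absurd (mem_closedBall.1 hb) (by linarith [h.1])
    have e0 : ∫⁻ x in P0, ‖cgr w x‖ₑ ^ 2 = 0 := by
      have : ∫⁻ x in P0, ‖cgr w x‖ₑ ^ 2 = ∫⁻ x in P0, 0 := by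
        refine setLIntegral_congr_fun (hAK.inter hDo.measurableSet) fun x hx => ?_
        have h1 : cgr w x = 0 := by
          rw [glu_cgr_congr (hwD x hx.2)]
          simp [cgr]
        simp [h1]
      rw [this]
      simp
    have e2 : ∫⁻ x in P2, ‖cgr w x‖ₑ ^ 2 ≤ ∫⁻ x in ball a (s - δ) \ K₂, ‖cgr w₂ x‖ₑ ^ 2 := by
      refine glu_piece (hAKD.inter isOpen_ball.measurableSet) (fun x hx => ?_) fun x hx => ?_
      · have h1 : cgr w x = cgr w₂ x :=
          glu_cgr_congr ((hwg x hx.1.1.2 hx.1.2).trans (hg2 x (mem_ball.1 hx.2)))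
        rw [h1]
      · refine ⟨hx.2, fun h2 => hx.1.1.2 (Or.inr (Or.inr ⟨⟨h2, ?_⟩, hx.1.2⟩))⟩
        exact mem_closedBall.2 (by linarith [mem_ball.1 hx.2])
    have eA : ∫⁻ x in PA, ‖cgr w x‖ₑ ^ 2 ≤ ∫⁻ x in Ann, ‖cgr g x‖ₑ ^ 2 := by
      refine glu_piece (hAKD.inter hAnnc.isClosed.measurableSet) (fun x hx => ?_) fun x hx => hx.2
      have h1 : cgr w x = cgr g x := glu_cgr_congr (hwg x hx.1.1.2 hx.1.2)
      rw [h1]
    have e1 : ∫⁻ x in P1, ‖cgr w x‖ₑ ^ 2 ≤
        ∫⁻ x in (A \ (closedBall a s ∪ DC)) \ K₁, ‖cgr w₁ x‖ₑ ^ 2 := by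
      refine glu_piece (hAKD.diff isClosed_closedBall.measurableSet) (fun x hx => ?_) fun x hx => ?_
      · have hlt : s < dist x a := by
          by_contra hle
          exact hx.2 (mem_closedBall.2 (not_lt.1 hle))
        have h1 : cgr w x = cgr w₁ x :=
          glu_cgr_congr ((hwg x hx.1.1.2 hx.1.2).trans (hg1 x hlt))
        rw [h1]
      · refine ⟨⟨hx.1.1.1, ?_⟩, ?_⟩
        · rintro (hb | hb)
          · exact hx.2 hb
          · rw [hDC'] at hb
            rcases hb with hb | hb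
            · exact hx.1.2 hb
            · exact hx.1.1.2 (Or.inr (Or.inl hb))
        · intro h1
          refine hx.1.1.2 (Or.inl ⟨h1, ?_⟩)
          rintro (hb | hb)
          · exact hx.2 (ball_subset_closedBall hb)
          · exact hx.1.2 hb
    calc ∫⁻ x in A \ K, ‖cgr w x‖ₑ ^ 2
        ≤ ∫⁻ x in (P0 ∪ P2) ∪ (PA ∪ P1), ‖cgr w x‖ₑ ^ 2 := lintegral_mono_set hcov
      _ ≤ (∫⁻ x in P0 ∪ P2, ‖cgr w x‖ₑ ^ 2) + ∫⁻ x in PA ∪ P1, ‖cgr w x‖ₑ ^ 2 :=
          lintegral_union_le _ _ _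
      _ ≤ ((∫⁻ x in P0, ‖cgr w x‖ₑ ^ 2) + ∫⁻ x in P2, ‖cgr w x‖ₑ ^ 2) +
          ((∫⁻ x in PA, ‖cgr w x‖ₑ ^ 2) + ∫⁻ x in P1, ‖cgr w x‖ₑ ^ 2) :=
          add_le_add (lintegral_union_le _ _ _) (lintegral_union_le _ _ _)
      _ ≤ (0 + ∫⁻ x in ball a (s - δ) \ K₂, ‖cgr w₂ x‖ₑ ^ 2) +
          ((∫⁻ x in Ann, ‖cgr g x‖ₑ ^ 2) +
            ∫⁻ x in (A \ (closedBall a s ∪ DC)) \ K₁, ‖cgr w₁ x‖ₑ ^ 2) := by
          gcongr
          exact e0.le
      _ = _ := by rw [zero_add, add_assoc]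
  -- the length part
  have hlen : ∀ A : Set ℂ, (μH[1] : Measure ℂ) (K ∩ A) ≤
      (μH[1] : Measure ℂ) (K₂ ∩ ball a (s - δ)) + Q.card * ENNReal.ofReal (2 * Real.pi * η) +
        (μH[1] : Measure ℂ) (K₁ ∩ (A \ (closedBall a s ∪ DC))) := by
    intro A
    have hcov : K ∩ A ⊆ ((K₂ ∩ ball a (s - δ)) ∪ S) ∪ (K₁ ∩ (A \ (closedBall a s ∪ DC))) := by
      rintro x ⟨hx | hx | hx, hxA⟩
      · by_cases hxS : x ∈ S
        · exact Or.inl (Or.inr hxS)
        · refine Or.inr ⟨hx.1, hxA, ?_⟩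
          have hxD : x ∉ D := fun h => hx.2 (Or.inr h)
          rintro (hb | hb)
          · have hle : s ≤ dist x a := by
              by_contra hlt
              exact hx.2 (Or.inl (mem_ball.2 (not_le.1 hlt)))
            exact (hann x (by linarith) (mem_closedBall.1 hb) (notD x hxD)).1 hx.1
          · rw [hDC'] at hb
            rcases hb with hb | hb
            · exact hxD hb
            · exact hxS hb
      · exact Or.inl (Or.inr hx)
      · refine Or.inl (Or.inl ⟨hx.1.1, ?_⟩)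
        by_contra hb
        have hge : s - δ ≤ dist x a := by
          by_contra hlt
          exact hb (mem_ball.2 (not_le.1 hlt))
        exact (hann x hge (mem_closedBall.1 hx.1.2) (notD x hx.2)).2.1 hx.1.1
    refine (measure_mono hcov).trans ((measure_union_le _ _).trans ?_)
    gcongr
    refine (measure_union_le _ _).trans ?_
    gcongr
  refine ⟨w, l, K, ⟨h₁.isOpen, hKsub, hKcl, ?_, ?_, ?_⟩, ?_, ?_⟩
  · -- smoothness
    intro x hx
    apply ContDiffAt.contDiffWithinAt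
    by_cases hxD : x ∈ D
    · exact contDiffAt_const.congr_of_eventuallyEq (hwD x hxD)
    · refine ContDiffAt.congr_of_eventuallyEq ?_ (hwg x hx.2 hxD)
      rcases htri x hx hxD with h | h | h
      · exact ((h₂.smooth.contDiffAt (h₂.isOpen_off.mem_nhds ⟨h.2.2, h.2.1⟩))).congr_of_eventuallyEq
          (hg2 x h.1)
      · exact hgW.contDiffAt (hWo.mem_nhds (hAnnW h))
      · exact ((h₁.smooth.contDiffAt (h₁.isOpen_off.mem_nhds ⟨hx.1, h.2⟩))).congr_of_eventuallyEq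
          (hg1 x h.1)
  · -- labels
    intro x hx
    by_cases hxD : x ∈ D
    · filter_upwards [hDo.mem_nhds hxD] with y hy
      simp [hl, hy, hxD]
    · have hev := hoff x hx.2 hxD
      rcases htri x hx hxD with h | h | h
      · filter_upwards [hev, isOpen_ball.mem_nhds (mem_ball.2 h.1), h₂.lab x ⟨h.2.2, h.2.1⟩]
          with y hy hy1 hy2
        have h3 : dist x a < s := by linarith [h.1]
        have h4 : dist y a < s := by linarith [mem_ball.1 hy1]
        simp [hl, hy, hxD, h3, h4, hy2]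
      · obtain ⟨hk1, hk2, hll⟩ := hann x h.1 h.2.1 h.2.2
        have hW := hAnnW h
        filter_upwards [hev, h₁.lab x hW.1, h₂.lab x hW.2] with y hy hy1 hy2
        have h3 : l y = l₁ x := by
          simp only [hl, hy, if_false]
          split_ifs
          · rw [hy2, hll]
          · exact hy1
        have h4 : l x = l₁ x := by
          simp only [hl, hxD, if_false]
          split_ifs
          · exact hll
          · rfl
        rw [h3, h4]
      · have ho : IsOpen {y : ℂ | s < dist y a} :=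
          isOpen_lt continuous_const (continuous_id.dist continuous_const)
        filter_upwards [hev, ho.mem_nhds h.1, h₁.lab x ⟨hx.1, h.2⟩] with y hy hy1 hy2
        have hy1' : s < dist y a := hy1
        have h3 : ¬ dist x a < s := by linarith [h.1]
        have h4 : ¬ dist y a < s := by linarith
        simp [hl, hy, hxD, h3, h4, hy2]
  · -- local finiteness
    intro C hC hCΩ
    have hCm := hC.isClosed.measurableSet
    have f2 : cen w₂ K₂ (closedBall a s) < ⊤ := h₂.fin _ (isCompact_closedBall a s) hB2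
    have f1 : cen w₁ K₁ C < ⊤ := h₁.fin _ hC hCΩ
    have hf2a : ∫⁻ x in ball a (s - δ) \ K₂, ‖cgr w₂ x‖ₑ ^ 2 < ⊤ := by
      refine lt_of_le_of_lt ?_ f2
      unfold cen
      refine le_trans (lintegral_mono_set ?_) le_self_add
      exact sdiff_subset_sdiff_left ((ball_subset_ball (by linarith)).trans ball_subset_closedBall)
    have hf2b : (μH[1] : Measure ℂ) (K₂ ∩ ball a (s - δ)) < ⊤ := by
      refine lt_of_le_of_lt ?_ f2
      unfold cen
      refine le_trans (measure_mono ?_) le_add_self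
      exact inter_subset_inter_right _
        ((ball_subset_ball (by linarith)).trans ball_subset_closedBall)
    have hf1a : ∫⁻ x in (C \ (closedBall a s ∪ DC)) \ K₁, ‖cgr w₁ x‖ₑ ^ 2 < ⊤ := by
      refine lt_of_le_of_lt ?_ f1
      unfold cen
      refine le_trans (lintegral_mono_set ?_) le_self_add
      exact sdiff_subset_sdiff_left sdiff_subset
    have hf1b : (μH[1] : Measure ℂ) (K₁ ∩ (C \ (closedBall a s ∪ DC))) < ⊤ := by
      refine lt_of_le_of_lt ?_ f1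
      unfold cen
      refine le_trans (measure_mono ?_) le_add_self
      exact inter_subset_inter_right _ sdiff_subset
    have hfA : ∫⁻ x in Ann, ‖cgr g x‖ₑ ^ 2 < ⊤ := glu_lint_compact hWo hgW hAnnc hAnnW
    unfold cen
    refine ENNReal.add_lt_top.2 ⟨?_, ?_⟩
    · refine (hgrad C hCm hCΩ).trans_lt ?_
      exact ENNReal.add_lt_top.2 ⟨ENNReal.add_lt_top.2 ⟨hf2a, hfA⟩, hf1a⟩
    · refine (hlen C).trans_lt ?_
      exact ENNReal.add_lt_top.2 ⟨ENNReal.add_lt_top.2 ⟨hf2b,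
        ENNReal.mul_lt_top (ENNReal.natCast_lt_top _) ENNReal.ofReal_lt_top⟩, hf1b⟩
  · -- agreement outside
    intro x hx hxq
    have hxD : x ∉ D := by
      intro h
      obtain ⟨q, hq, hlt⟩ := (memD x).1 h
      linarith [hxq q hq]
    have hxS : x ∉ S := by
      intro h
      obtain ⟨q, hq, he⟩ := (memS x).1 h
      linarith [hxq q hq]
    refine ⟨?_, ?_, ?_⟩
    · constructor
      · rintro (h | h | h)
        · exact h.1
        · exact absurd h hxS
        · exact absurd (mem_closedBall.1 h.1.2) (by linarith)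
      · intro h
        refine Or.inl ⟨h, ?_⟩
        rintro (hb | hb)
        · exact absurd (mem_ball.1 hb) (by linarith)
        · exact hxD hb
    · simp [hw, hg, hxD, hχ0 x hx.le]
    · have h3 : ¬ dist x a < s := by linarith
      simp [hl, hxD, h3]
  · -- the energy bound
    have hAm : MeasurableSet (closedBall a s ∪ DC) :=
      isClosed_closedBall.measurableSet.union hDCc.isClosed.measurableSet
    have hAΩ : closedBall a s ∪ DC ⊆ Ω₁ := union_subset hB1 hDCΩ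
    have i1 := hgrad _ hAm hAΩ
    have i2 := hlen (closedBall a s ∪ DC)
    rw [Set.sdiff_self, Set.empty_sdiff, Measure.restrict_empty, lintegral_zero_measure, add_zero] at i1
    rw [Set.sdiff_self, inter_empty, measure_empty, add_zero] at i2
    calc cen w K (closedBall a s ∪ DC)
        ≤ ((∫⁻ x in ball a (s - δ) \ K₂, ‖cgr w₂ x‖ₑ ^ 2) + (∫⁻ x in Ann, ‖cgr g x‖ₑ ^ 2)) +
          ((μH[1] : Measure ℂ) (K₂ ∩ ball a (s - δ)) +
            Q.card * ENNReal.ofReal (2 * Real.pi * η)) := add_le_add i1 i2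
      _ = _ := by
          unfold cen
          ring

end Pool.Agent.MP099f24
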