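import Mathlib
import Pool.Agent.Lib.MP_099f24_an.TM.Defs
import Pool.Agent.Lib.MP_099f24_an.TM.Bas
import Pool.Agent.Lib.MP_099f24_an.TM.Glu

/-!
# Topological minimizers: exact pasting on a circle
-/

set_option autoImplicit false

namespace Pool.Agent.MP099f24

open MeasureTheory Filter Topology Set Metric
open scoped ENNReal ContDiff

variable {Ω : Set ℂ} {u w : ℂ → ℝ} {l : ℂ → Set ℂ} {K : Set ℂ}

/-- radial cut-off functions with a controlled gradient -/
theorem paste_cut : ∃ C : ℝ, 0 < C ∧ ∀ (a : ℂ) (s δ : ℝ), 0 < δ → δ < s → ∃ χ : ℂ → ℝ,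
    ContDiff ℝ 1 χ ∧ (∀ x, dist x a ≤ s - δ → χ x = 1) ∧ (∀ x, s ≤ dist x a → χ x = 0) ∧
      (∀ x, 0 ≤ χ x ∧ χ x ≤ 1) ∧
      ∀ x, s - δ ≤ dist x a → dist x a ≤ s → ‖cgr χ x‖ ≤ C / δ := by
  have hc : Continuous (deriv Real.smoothTransition) :=
    (Real.smoothTransition.contDiff (n := 1)).continuous_deriv le_rfl
  obtain ⟨C, hC⟩ := (isCompact_Icc (a := (0 : ℝ)) (b := 1)).exists_bound_of_continuousOn
    hc.continuousOn
  refine ⟨2 * |C| + 1, by positivity, fun a s δ hδ hδs => ?_⟩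
  have hD : 0 < s ^ 2 - (s - δ) ^ 2 := by nlinarith
  have hDs : δ * s ≤ s ^ 2 - (s - δ) ^ 2 := by nlinarith
  set D : ℝ := s ^ 2 - (s - δ) ^ 2 with hDdef
  have hs : 0 < s := hδ.trans hδs
  let g : ℂ → ℝ := fun x => (s ^ 2 - ‖x - a‖ ^ 2) / D
  have hg : ContDiff ℝ 1 g := by
    have h1 : ContDiff ℝ 1 (fun x : ℂ => ‖x - a‖ ^ 2) :=
      (contDiff_id.sub contDiff_const).norm_sq ℝ
    exact (contDiff_const.sub h1).div_const D
  refine ⟨fun x => Real.smoothTransition (g x),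
    Real.smoothTransition.contDiff.comp hg, fun x hx => ?_, fun x hx => ?_, fun x => ?_,
    fun x h1 h2 => ?_⟩
  · apply Real.smoothTransition.one_of_one_le
    rw [dist_eq_norm] at hx
    change 1 ≤ (s ^ 2 - ‖x - a‖ ^ 2) / D
    rw [one_le_div hD]
    have := norm_nonneg (x - a)
    nlinarith
  · apply Real.smoothTransition.zero_of_nonpos
    rw [dist_eq_norm] at hx
    change (s ^ 2 - ‖x - a‖ ^ 2) / D ≤ 0
    apply div_nonpos_of_nonpos_of_nonneg _ hD.le
    nlinarith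
  · exact ⟨Real.smoothTransition.nonneg _, Real.smoothTransition.le_one _⟩
  · rw [dist_eq_norm] at h1 h2
    have hgx : g x ∈ Icc (0 : ℝ) 1 := by
      constructor
      · change 0 ≤ (s ^ 2 - ‖x - a‖ ^ 2) / D
        apply div_nonneg _ hD.le
        have := norm_nonneg (x - a)
        nlinarith
      · change (s ^ 2 - ‖x - a‖ ^ 2) / D ≤ 1
        rw [div_le_one hD]
        have := norm_nonneg (x - a)
        nlinarith
    obtain ⟨L, hL, hgd⟩ : ∃ L : ℂ →L[ℝ] ℝ, ‖L‖ ≤ 2 * s ∧ HasFDerivAt g (D⁻¹ • L) x := by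
      have h3 := ((hasFDerivAt_id (𝕜 := ℝ) x).sub_const a).norm_sq
      have h4 := (h3.const_sub (s ^ 2)).const_smul (D⁻¹)
      refine ⟨_, ?_, h4.congr_of_eventuallyEq (Eventually.of_forall fun y => ?_)⟩
      · rw [norm_neg]
        refine ContinuousLinearMap.opNorm_le_bound _ (by positivity) fun v => ?_
        have h5 : ‖(2 : ℝ) * inner ℝ (x - a) v‖ ≤ 2 * s * ‖v‖ := by
          rw [norm_mul, Real.norm_ofNat, mul_assoc]
          apply mul_le_mul_of_nonneg_left _ (by norm_num)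
          exact (norm_inner_le_norm _ _).trans (mul_le_mul_of_nonneg_right h2 (norm_nonneg _))
        have h6 : (2 • (innerSL ℝ (id x - a)).comp (ContinuousLinearMap.id ℝ ℂ)) v =
            2 * inner ℝ (x - a) v := by
          change (2 : ℕ) • (innerSL ℝ (x - a) v) = _
          rw [nsmul_eq_mul]
          rfl
        rw [h6]
        exact h5
      · change (s ^ 2 - ‖y - a‖ ^ 2) / D = D⁻¹ * (s ^ 2 - ‖y - a‖ ^ 2)
        rw [div_eq_inv_mul]
    rw [cgr_comp (w := g) hgd.differentiableAt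
      ((Real.smoothTransition.contDiff (n := 1)).differentiable (by simp) _),
      norm_mul, cgr_norm, hgd.fderiv, Complex.norm_real]
    have h5 : ‖D⁻¹ • L‖ ≤ 2 / δ := by
      rw [norm_smul, norm_inv, Real.norm_eq_abs, abs_of_pos hD]
      calc D⁻¹ * ‖L‖ ≤ D⁻¹ * (2 * s) := mul_le_mul_of_nonneg_left hL (inv_nonneg.2 hD.le)
        _ ≤ (δ * s)⁻¹ * (2 * s) := by
            apply mul_le_mul_of_nonneg_right _ (by positivity)
            exact inv_anti₀ (by positivity) hDs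
        _ = 2 / δ := by field_simp
    calc ‖deriv Real.smoothTransition (g x)‖ * ‖D⁻¹ • L‖
        ≤ |C| * (2 / δ) := mul_le_mul ((hC _ hgx).trans (le_abs_self C)) h5 (norm_nonneg _)
          (abs_nonneg _)
      _ ≤ (2 * |C| + 1) / δ := by
          rw [mul_div_assoc', div_le_div_iff_of_pos_right hδ]
          nlinarith

theorem paste_near {a : ℂ} {s η : ℝ} (hs : 0 < s) (hη : 0 < η) (P : Finset ℂ) {V : Set ℂ}
    (hV : IsOpen V) (hSV : ∀ x ∈ sphere a s, (∀ q ∈ P, η / 2 ≤ dist x q) → x ∈ V) {f : ℂ → ℝ}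
    (hf : ContDiffOn ℝ 1 f V)
    (hf0 : ∀ x ∈ sphere a s, (∀ q ∈ P, η / 2 ≤ dist x q) → f x = 0) :
    ∃ δ₀ : ℝ, 0 < δ₀ ∧ ∃ T : Set ℂ, IsCompact T ∧ T ⊆ V ∧ ∃ M : ℝ, 0 ≤ M ∧ ∀ δ : ℝ, 0 < δ →
      δ < δ₀ → ∀ x, s - δ ≤ dist x a → dist x a ≤ s → (∀ q ∈ P, η ≤ dist x q) →
        x ∈ T ∧ |f x| ≤ M * δ := by
  set S : Set ℂ := sphere a s ∩ ⋂ q ∈ P, {x | η / 2 ≤ dist x q} with hSdef
  have hScl : IsClosed (⋂ q ∈ P, {x : ℂ | η / 2 ≤ dist x q}) :=
    isClosed_biInter fun q _ => isClosed_le continuous_const (continuous_id.dist continuous_const)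
  have hS : IsCompact S := (isCompact_sphere a s).inter_right hScl
  have hSmem : ∀ x, x ∈ S ↔ x ∈ sphere a s ∧ ∀ q ∈ P, η / 2 ≤ dist x q := by
    intro x
    simp [hSdef]
  have hSV' : S ⊆ V := fun x hx => hSV x ((hSmem x).1 hx).1 ((hSmem x).1 hx).2
  obtain ⟨δ₁, hδ₁, hT⟩ := hS.exists_cthickening_subset_open hV hSV'
  have hTc : IsCompact (cthickening δ₁ S) := hS.cthickening
  have hfd : ContinuousOn (fderiv ℝ f) V := hf.continuousOn_fderiv_of_isOpen hV le_rfl
  obtain ⟨M, hM⟩ := hTc.exists_bound_of_continuousOn (hfd.mono hT)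
  refine ⟨min (min δ₁ (η / 2)) s, by positivity, cthickening δ₁ S, hTc, hT, |M|, abs_nonneg _,
    fun δ hδ hδ0 x h1 h2 hq => ?_⟩
  have hd1 : δ < δ₁ := hδ0.trans_le ((min_le_left _ _).trans (min_le_left _ _))
  have hd2 : δ < η / 2 := hδ0.trans_le ((min_le_left _ _).trans (min_le_right _ _))
  have hd3 : δ < s := hδ0.trans_le (min_le_right _ _)
  set r : ℝ := dist x a with hr
  have hrpos : 0 < r := by linarith
  set x' : ℂ := a + (s / r) • (x - a) with hx'
  have hrn : ‖x - a‖ = r := by rw [hr, dist_eq_norm]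
  have hx's : x' ∈ sphere a s := by
    rw [mem_sphere, dist_eq_norm, hx', add_sub_cancel_left, norm_smul, hrn, Real.norm_eq_abs,
      abs_of_pos (by positivity)]
    field_simp
  have hxx' : dist x x' ≤ δ := by
    have h3 : x - x' = (1 - s / r) • (x - a) := by
      rw [hx', sub_smul, one_smul]
      ring
    rw [dist_eq_norm, h3, norm_smul, hrn, Real.norm_eq_abs]
    have h4 : |1 - s / r| = s / r - 1 := by
      rw [abs_sub_comm, abs_of_nonneg]
      rw [sub_nonneg, one_le_div hrpos]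
      exact h2
    rw [h4, sub_mul, div_mul_cancel₀ _ hrpos.ne']
    linarith
  have hx'S : x' ∈ S := by
    refine (hSmem x').2 ⟨hx's, fun q hqP => ?_⟩
    have h3 := hq q hqP
    have h4 := dist_triangle x x' q
    linarith
  have hball : closedBall x' δ ⊆ cthickening δ₁ S :=
    (closedBall_subset_cthickening hx'S δ).trans (cthickening_mono hd1.le S)
  have hxb : x ∈ closedBall x' δ := hxx'
  refine ⟨hball hxb, ?_⟩
  have h5 : ‖f x - f x'‖ ≤ |M| * ‖x - x'‖ := by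
    refine Convex.norm_image_sub_le_of_norm_fderiv_le (𝕜 := ℝ) (s := closedBall x' δ)
      (fun y hy => ?_) (fun y hy => (hM y (hball hy)).trans (le_abs_self M))
      (convex_closedBall x' δ) (mem_closedBall_self hδ.le) hxb
    exact (hf.contDiffAt (hV.mem_nhds (hT (hball hy)))).differentiableAt (by simp)
  rw [hf0 x' hx's ((hSmem x').1 hx'S).2, sub_zero, Real.norm_eq_abs] at h5
  refine h5.trans (mul_le_mul_of_nonneg_left ?_ (abs_nonneg M))
  rwa [← dist_eq_norm]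

theorem paste_annulus (a : ℂ) {s δ : ℝ} (hδ : 0 < δ) (hδs : δ < s) :
    volume {x : ℂ | s - δ ≤ dist x a ∧ dist x a ≤ s} ≤ ENNReal.ofReal (2 * Real.pi * s * δ) := by
  have h1 : {x : ℂ | s - δ ≤ dist x a ∧ dist x a ≤ s} = closedBall a s \ ball a (s - δ) := by
    ext x
    simp only [mem_ofPred_eq, Set.mem_sdiff, mem_closedBall, mem_ball, not_lt]
    exact and_comm
  rw [h1, measure_sdiff ((ball_subset_ball (by linarith)).trans ball_subset_closedBall)
    measurableSet_ball.nullMeasurableSet measure_ball_lt_top.ne, Complex.volume_closedBall,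
    Complex.volume_ball, ← ENNReal.ofReal_pow (by linarith), ← ENNReal.ofReal_pow (by linarith)]
  rw [show ((NNReal.pi : NNReal) : ℝ≥0∞) = ENNReal.ofReal Real.pi by
    rw [ENNReal.ofReal]; congr 1; ext; simp [Real.pi_pos.le]]
  rw [← ENNReal.ofReal_mul (by positivity), ← ENNReal.ofReal_mul (by positivity),
    ← ENNReal.ofReal_sub _ (by positivity)]
  apply ENNReal.ofReal_le_ofReal
  have := Real.pi_pos
  nlinarith [mul_pos this (mul_pos hδ hδ)]

theorem paste_eta (h : TMin Ω u l K) {Ω₂ : Set ℂ} {w₂ : ℂ → ℝ} {l₂ : ℂ → Set ℂ} {K₂ : Set ℂ}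
    (h₂ : TConf Ω₂ w₂ l₂ K₂) {a : ℂ} {s η : ℝ} (hs : 0 < s) (hη : 0 < η) (P : Finset ℂ)
    (hPd : ∀ q ∈ P, ∀ q' ∈ P, q ≠ q' → Disjoint (closedBall q η) (closedBall q' η))
    (hPΩ : ∀ q ∈ P, closedBall q η ⊆ Ω) (hB : closedBall a s ⊆ Ω) (hB2 : closedBall a s ⊆ Ω₂)
    (hm : ∀ x ∈ sphere a s, x ∉ P → x ∉ K ∧ x ∉ K₂ ∧ w₂ x = u x ∧ l₂ x = l x) :
    cen u K (closedBall a s) ≤ cen w₂ K₂ (ball a s) +
      P.card * ENNReal.ofReal (2 * Real.pi * η) := by
  obtain ⟨C, hC, hcut⟩ := paste_cut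
  -- the good open set
  set V : Set ℂ := ((Ω \ K) ∩ (Ω₂ \ K₂)) ∩ interior {x | l₂ x = l x} with hVdef
  have hV : IsOpen V := (h.isOpen_off.inter h₂.isOpen_off).inter isOpen_interior
  have hnP : ∀ x, (∀ q ∈ P, η / 2 ≤ dist x q) → x ∉ P := by
    intro x hx hxP
    have := hx x hxP
    rw [dist_self] at this
    linarith
  have hSV : ∀ x ∈ sphere a s, (∀ q ∈ P, η / 2 ≤ dist x q) → x ∈ V := by
    intro x hx hq
    obtain ⟨h1, h2, -, h3⟩ := hm x hx (hnP x hq)
    have h4 : x ∈ Ω \ K := ⟨hB (sphere_subset_closedBall hx), h1⟩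
    have h5 : x ∈ Ω₂ \ K₂ := ⟨hB2 (sphere_subset_closedBall hx), h2⟩
    refine ⟨⟨h4, h5⟩, ?_⟩
    rw [mem_interior_iff_mem_nhds]
    filter_upwards [h.lab x h4, h₂.lab x h5] with y hy1 hy2
    change l₂ y = l y
    rw [hy1, hy2, h3]
  set f : ℂ → ℝ := fun x => w₂ x - u x with hfdef
  have huV : ContDiffOn ℝ 1 u V := h.smooth.mono fun x hx => hx.1.1
  have hwV : ContDiffOn ℝ 1 w₂ V := h₂.smooth.mono fun x hx => hx.1.2
  have hf : ContDiffOn ℝ 1 f V := hwV.sub huV
  have hf0 : ∀ x ∈ sphere a s, (∀ q ∈ P, η / 2 ≤ dist x q) → f x = 0 := by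
    intro x hx hq
    obtain ⟨-, -, h1, -⟩ := hm x hx (hnP x hq)
    change w₂ x - u x = 0
    rw [h1, sub_self]
  obtain ⟨δ₀, hδ₀, T, hT, hTV, M, hM, hnear⟩ := paste_near hs hη P hV hSV hf hf0
  obtain ⟨M1, hM1⟩ := hT.exists_bound_of_continuousOn
    (((h.continuousOn_cgr).mono fun x hx => hx.1.1 : ContinuousOn (cgr u) V).mono hTV)
  obtain ⟨M2, hM2⟩ := hT.exists_bound_of_continuousOn
    (((h₂.continuousOn_cgr).mono fun x hx => hx.1.2 : ContinuousOn (cgr w₂) V).mono hTV)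
  set N : ℝ := |M1| + (|M2| + |M1|) + M * C with hN
  have hN0 : 0 ≤ N := by positivity
  -- the estimate for a fixed `δ`
  have key : ∀ δ : ℝ, 0 < δ → δ < min δ₀ s → cen u K (closedBall a s) ≤ cen w₂ K₂ (ball a s) +
      ENNReal.ofReal (N ^ 2 * (2 * Real.pi * s) * δ) +
      P.card * ENNReal.ofReal (2 * Real.pi * η) := by
    intro δ hδ hδm
    have hδ1 : δ < δ₀ := hδm.trans_le (min_le_left _ _)
    have hδs : δ < s := hδm.trans_le (min_le_right _ _)
    obtain ⟨χ, hχ, hχ1, hχ0, hχb, hχg⟩ := hcut a s δ hδ hδs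
    have hann : ∀ x, s - δ ≤ dist x a → dist x a ≤ s → (∀ q ∈ P, η ≤ dist x q) →
        x ∉ K ∧ x ∉ K₂ ∧ l₂ x = l x := by
      intro x h1 h2 hq
      have h3 := hTV (hnear δ hδ hδ1 x h1 h2 hq).1
      have h4 : x ∈ {x | l₂ x = l x} := interior_subset h3.2
      exact ⟨h3.1.1.2, h3.1.2.2, h4⟩
    obtain ⟨w, l', K', hw, hoff, hen⟩ := tm_glue h.toTConf h₂ P hη hδ hδs hPd hB hPΩ hB2 hann
      hχ hχ1 hχ0
    set F : Set ℂ := closedBall a s ∪ ⋃ q ∈ P, closedBall q η with hF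
    have hFc : IsCompact F := (isCompact_closedBall a s).union
      (P.isCompact_biUnion fun q _ => isCompact_closedBall q η)
    have hFΩ : F ⊆ Ω := union_subset hB (iUnion₂_subset hPΩ)
    have hout : ∀ x, x ∉ F → s < dist x a ∧ ∀ q ∈ P, η < dist x q := by
      intro x hx
      rw [hF, mem_union, not_or] at hx
      refine ⟨?_, fun q hq => ?_⟩
      · have := hx.1
        rwa [mem_closedBall, not_le] at this
      · by_contra hc
        exact hx.2 (mem_biUnion hq (mem_closedBall.2 (not_lt.1 hc)))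
    have hmin := h.min w l' K' F hw hFc hFΩ
      (fun x hx => (hoff x (hout x hx.2).1 (hout x hx.2).2).1)
      (fun x hx _ => (hoff x (hout x hx.2).1 (hout x hx.2).2).2)
    refine (cen_mono subset_union_left).trans (hmin.trans (hen.trans ?_))
    refine add_le_add (add_le_add (cen_mono (ball_subset_ball (by linarith))) ?_) le_rfl
    -- the annulus
    have hpt : ∀ x ∈ {x : ℂ | s - δ ≤ dist x a ∧ dist x a ≤ s ∧ ∀ q ∈ P, η ≤ dist x q},
        ‖cgr (fun y => χ y * w₂ y + (1 - χ y) * u y) x‖ₑ ^ 2 ≤ ENNReal.ofReal (N ^ 2) := by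
      intro x hx
      obtain ⟨h1, h2, h3⟩ := hx
      obtain ⟨hxT, hfx⟩ := hnear δ hδ hδ1 x h1 h2 h3
      have hxV := hTV hxT
      have hdu : DifferentiableAt ℝ u x := h.diffAt hxV.1.1.1 hxV.1.1.2
      have hdw : DifferentiableAt ℝ w₂ x := h₂.diffAt hxV.1.2.1 hxV.1.2.2
      have hdχ : DifferentiableAt ℝ χ x := hχ.differentiable (by simp) x
      have hdf : DifferentiableAt ℝ f x := hdw.sub hdu
      have e1 : (fun y => χ y * w₂ y + (1 - χ y) * u y) = fun y => u y + χ y * f y := by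
        ext y
        change χ y * w₂ y + (1 - χ y) * u y = u y + χ y * (w₂ y - u y)
        ring
      have e2 : cgr (fun y => χ y * w₂ y + (1 - χ y) * u y) x =
          cgr u x + ((χ x : ℂ) * (cgr w₂ x - cgr u x) + (f x : ℂ) * cgr χ x) := by
        rw [e1, cgr_add (w := u) (w' := fun y => χ y * f y) hdu (hdχ.mul hdf),
          cgr_mul hdχ hdf, cgr_sub hdw hdu]
      have e3 : ‖cgr (fun y => χ y * w₂ y + (1 - χ y) * u y) x‖ ≤ N := by
        rw [e2]
        have b1 : ‖cgr u x‖ ≤ |M1| := (hM1 x hxT).trans (le_abs_self _)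
        have b2 : ‖cgr w₂ x‖ ≤ |M2| := (hM2 x hxT).trans (le_abs_self _)
        have b3 : ‖(χ x : ℂ)‖ ≤ 1 := by
          rw [Complex.norm_real, Real.norm_eq_abs, abs_of_nonneg (hχb x).1]
          exact (hχb x).2
        have b4 : ‖(f x : ℂ) * cgr χ x‖ ≤ M * C := by
          rw [norm_mul, Complex.norm_real, Real.norm_eq_abs]
          calc |f x| * ‖cgr χ x‖ ≤ (M * δ) * (C / δ) :=
                mul_le_mul hfx (hχg x h1 h2) (norm_nonneg _) (by positivity)
            _ = M * C := by field_simp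
        have b5 : ‖(χ x : ℂ) * (cgr w₂ x - cgr u x)‖ ≤ |M2| + |M1| := by
          rw [norm_mul]
          calc ‖(χ x : ℂ)‖ * ‖cgr w₂ x - cgr u x‖ ≤ 1 * (|M2| + |M1|) :=
                mul_le_mul b3 ((norm_sub_le _ _).trans (add_le_add b2 b1)) (norm_nonneg _)
                  zero_le_one
            _ = _ := one_mul _
        calc _ ≤ ‖cgr u x‖ + ‖(χ x : ℂ) * (cgr w₂ x - cgr u x) + (f x : ℂ) * cgr χ x‖ :=
              norm_add_le _ _
          _ ≤ |M1| + ((|M2| + |M1|) + M * C) :=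
              add_le_add b1 ((norm_add_le _ _).trans (add_le_add b5 b4))
          _ = N := by rw [hN]; ring
      rw [← ofReal_norm, ← ENNReal.ofReal_pow (norm_nonneg _)]
      exact ENNReal.ofReal_le_ofReal (pow_le_pow_left₀ (norm_nonneg _) e3 2)
    have hmeas : MeasurableSet
        {x : ℂ | s - δ ≤ dist x a ∧ dist x a ≤ s ∧ ∀ q ∈ P, η ≤ dist x q} := by
      have e1 : {x : ℂ | s - δ ≤ dist x a ∧ dist x a ≤ s ∧ ∀ q ∈ P, η ≤ dist x q} =
          ({x | s - δ ≤ dist x a} ∩ {x | dist x a ≤ s}) ∩ ⋂ q ∈ P, {x | η ≤ dist x q} := by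
        ext x
        simp [and_assoc]
      rw [e1]
      refine ((isClosed_le continuous_const (continuous_id.dist continuous_const)).inter
        (isClosed_le (continuous_id.dist continuous_const) continuous_const)).inter
        (isClosed_biInter fun q _ => isClosed_le continuous_const
          (continuous_id.dist continuous_const)) |>.measurableSet
    calc _ ≤ ∫⁻ x in {x : ℂ | s - δ ≤ dist x a ∧ dist x a ≤ s ∧ ∀ q ∈ P, η ≤ dist x q},
          ENNReal.ofReal (N ^ 2) := setLIntegral_mono' hmeas hpt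
      _ ≤ ENNReal.ofReal (N ^ 2) * volume {x : ℂ | s - δ ≤ dist x a ∧ dist x a ≤ s} := by
          rw [setLIntegral_const]
          have hsub : {x : ℂ | s - δ ≤ dist x a ∧ dist x a ≤ s ∧ ∀ q ∈ P, η ≤ dist x q} ⊆
              {x : ℂ | s - δ ≤ dist x a ∧ dist x a ≤ s} := fun x hx => ⟨hx.1, hx.2.1⟩
          exact mul_le_mul_right (measure_mono hsub) _
      _ ≤ ENNReal.ofReal (N ^ 2) * ENNReal.ofReal (2 * Real.pi * s * δ) :=
          mul_le_mul_right (paste_annulus a hδ hδs) _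
      _ = ENNReal.ofReal (N ^ 2 * (2 * Real.pi * s) * δ) := by
          rw [← ENNReal.ofReal_mul (by positivity)]
          congr 1
          ring
  -- `δ → 0`
  have hlim : Tendsto (fun δ : ℝ => cen w₂ K₂ (ball a s) +
      ENNReal.ofReal (N ^ 2 * (2 * Real.pi * s) * δ) +
      P.card * ENNReal.ofReal (2 * Real.pi * η)) (𝓝[>] 0)
      (𝓝 (cen w₂ K₂ (ball a s) + ENNReal.ofReal (N ^ 2 * (2 * Real.pi * s) * 0) +
      P.card * ENNReal.ofReal (2 * Real.pi * η))) := by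
    refine Tendsto.add (Tendsto.add tendsto_const_nhds ?_) tendsto_const_nhds
    refine ENNReal.tendsto_ofReal (Tendsto.const_mul _ ?_)
    exact tendsto_id.mono_left nhdsWithin_le_nhds
  have hfin := ge_of_tendsto hlim (show ∀ᶠ δ in 𝓝[>] (0 : ℝ), cen u K (closedBall a s) ≤ _ by
    filter_upwards [Ioo_mem_nhdsGT (lt_min hδ₀ hs)] with δ hδ
    exact key δ hδ.1 hδ.2)
  simpa using hfin

/-- exact matching on the circle, off finitely many points -/
theorem TMin.paste (h : TMin Ω u l K) {Ω₂ : Set ℂ} {w₂ : ℂ → ℝ} {l₂ : ℂ → Set ℂ} {K₂ : Set ℂ}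
    (h₂ : TConf Ω₂ w₂ l₂ K₂) {a : ℂ} {s : ℝ} (hs : 0 < s) {Q : Set ℂ} (hQ : Q.Finite)
    (hB : closedBall a s ⊆ Ω) (hB2 : closedBall a s ⊆ Ω₂)
    (hm : ∀ x ∈ sphere a s, x ∉ Q → x ∉ K ∧ x ∉ K₂ ∧ w₂ x = u x ∧ l₂ x = l x) :
    cen u K (closedBall a s) ≤ cen w₂ K₂ (ball a s) := by
  have hPfin : (sphere a s ∩ Q).Finite := hQ.subset inter_subset_right
  set P : Finset ℂ := hPfin.toFinset with hP
  have hPmem : ∀ q, q ∈ P ↔ q ∈ sphere a s ∧ q ∈ Q := by
    intro q
    rw [hP, Finite.mem_toFinset]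
    rfl
  -- small discs
  have hev1 : ∀ᶠ η in 𝓝[>] (0 : ℝ), ∀ q ∈ P, closedBall q η ⊆ Ω := by
    rw [Finset.eventually_all]
    intro q hq
    have hqΩ : q ∈ Ω := hB (sphere_subset_closedBall ((hPmem q).1 hq).1)
    obtain ⟨ε, hε, hεΩ⟩ := Metric.nhds_basis_closedBall.mem_iff.1 (h.isOpen.mem_nhds hqΩ)
    filter_upwards [Ioo_mem_nhdsGT hε] with η hη
    exact (closedBall_subset_closedBall hη.2.le).trans hεΩ
  have hev2 : ∀ᶠ η in 𝓝[>] (0 : ℝ), ∀ q ∈ P, ∀ q' ∈ P, q ≠ q' →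
      Disjoint (closedBall q η) (closedBall q' η) := by
    rw [Finset.eventually_all]
    intro q hq
    rw [Finset.eventually_all]
    intro q' hq'
    by_cases hqq : q = q'
    · exact Eventually.of_forall fun η hne => absurd hqq hne
    · have hd : 0 < dist q q' / 2 := by
        have := dist_pos.2 hqq
        positivity
      filter_upwards [Ioo_mem_nhdsGT hd] with η hη _
      apply closedBall_disjoint_closedBall
      linarith [hη.2]
  have hlim : Tendsto (fun η : ℝ => cen w₂ K₂ (ball a s) +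
      P.card * ENNReal.ofReal (2 * Real.pi * η)) (𝓝[>] 0)
      (𝓝 (cen w₂ K₂ (ball a s) + P.card * ENNReal.ofReal (2 * Real.pi * 0))) := by
    refine Tendsto.add tendsto_const_nhds (ENNReal.Tendsto.const_mul ?_ (Or.inr (by simp)))
    refine ENNReal.tendsto_ofReal (Tendsto.const_mul _ ?_)
    exact tendsto_id.mono_left nhdsWithin_le_nhds
  have hfin := ge_of_tendsto hlim (show ∀ᶠ η in 𝓝[>] (0 : ℝ), cen u K (closedBall a s) ≤ _ by
    filter_upwards [self_mem_nhdsWithin, hev1, hev2] with η hη h1 h2'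
    refine paste_eta h h₂ hs hη P h2' h1 hB hB2 fun x hx hxP => hm x hx fun hxQ => ?_
    exact hxP ((hPmem x).2 ⟨hx, hxQ⟩))
  simpa using hfin

end Pool.Agent.MP099f24
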