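import Mathlib
import Pool.Agent.Lib.MP_099f24_an.TM.Defs
import Pool.Agent.Lib.MP_099f24_an.TM.Bas
import Pool.Agent.Lib.MP_099f24_an.TM.Paste

/-!
# Topological minimizers: removal of the set where the function and the label extend
-/

set_option autoImplicit false

namespace Pool.Agent.MP099f24

open MeasureTheory Filter Topology Set Metric
open scoped ENNReal ContDiff

variable {Ω : Set ℂ} {u w : ℂ → ℝ} {l : ℂ → Set ℂ} {K : Set ℂ}

/-- a function of class `C¹` on an open set, with empty singular set and constant label -/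
theorem tconf_smooth {U : Set ℂ} (hU : IsOpen U) {v : ℂ → ℝ} (hv : ContDiffOn ℝ 1 v U)
    (c : Set ℂ) : TConf U v (fun _ => c) ∅ := by
  have h1 : ContinuousOn (cgr v) U := by
    have h1 : ContinuousOn (fderiv ℝ v) U := hv.continuousOn_fderiv_of_isOpen hU le_rfl
    exact cgrL_continuous.comp_continuousOn h1
  refine ⟨hU, empty_subset _, by simpa using hU, by simpa using hv,
    fun x _ => Eventually.of_forall fun _ => rfl, fun C hC hCU => ?_⟩
  unfold cen
  rw [empty_inter, measure_empty, add_zero, sdiff_empty]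
  obtain ⟨M, hM⟩ := hC.exists_bound_of_continuousOn (h1.mono hCU)
  calc ∫⁻ x in C, ‖cgr v x‖ₑ ^ 2 ≤ ∫⁻ _ in C, ENNReal.ofReal M ^ 2 := by
        refine setLIntegral_mono_ae' hC.measurableSet (ae_of_all _ fun x hx => ?_)
        gcongr
        rw [← ofReal_norm]
        exact ENNReal.ofReal_le_ofReal (hM x hx)
    _ < ⊤ := by
        rw [setLIntegral_const]
        exact ENNReal.mul_lt_top (ENNReal.pow_lt_top ENNReal.ofReal_lt_top) hC.measure_lt_top

/-- The removal theorem from the pasting inequality on good circles. -/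
theorem tm_remove_core (h : TMin Ω u l K) {x₀ : ℂ} {ρ : ℝ} (hb : ball x₀ ρ ⊆ Ω)
    {v : ℂ → ℝ} (hv : ContDiffOn ℝ 1 v (ball x₀ ρ)) (huv : ∀ x ∈ ball x₀ ρ, x ∉ K → u x = v x)
    (c : Set ℂ) (hp : ∀ s, 0 < s → s < ρ → (K ∩ sphere x₀ s).Finite →
      cen u K (closedBall x₀ s) ≤ cen v ∅ (ball x₀ s)) : K ∩ ball x₀ ρ = ∅ := by
  by_contra hne
  obtain ⟨y, hyK, hy⟩ := nonempty_iff_ne_empty.2 hne
  -- a good radius
  have hfin : ∀ s < ρ, (μH[1] : Measure ℂ) (K ∩ ball x₀ s) < ⊤ := fun s hs =>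
    (measure_mono (inter_subset_inter_right _ ball_subset_closedBall)).trans_lt
      (h.toTConf.haus_lt (isCompact_closedBall x₀ s) ((closedBall_subset_ball hs).trans hb))
  have hgood := tm_good hfin
  obtain ⟨s, ⟨hs1, hs2⟩, hsf⟩ : ∃ s ∈ Ioo (dist y x₀) ρ, (K ∩ sphere x₀ s).Finite := by
    have h1 : ∀ᵐ s ∂(volume.restrict (Ioo (dist y x₀) ρ)), (K ∩ sphere x₀ s).Finite :=
      ae_restrict_of_ae_restrict_of_subset (Ioo_subset_Ioo_left dist_nonneg) hgood
    have h2 : (volume.restrict (Ioo (dist y x₀) ρ)) ≠ 0 := by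
      rw [Ne, Measure.restrict_eq_zero, Real.volume_Ioo]
      rw [mem_ball] at hy
      simp only [ENNReal.ofReal_eq_zero, sub_nonpos, not_le]
      exact hy
    have h3 : NeZero (volume.restrict (Ioo (dist y x₀) ρ)) := ⟨h2⟩
    have h4 := (h1.and (ae_restrict_mem measurableSet_Ioo)).exists
    obtain ⟨s, h5, h6⟩ := h4
    exact ⟨s, h6, h5⟩
  have hs0 : 0 < s := dist_nonneg.trans_lt hs1
  have hsρ : closedBall x₀ s ⊆ ball x₀ ρ := closedBall_subset_ball hs2
  have hconf := tconf_smooth isOpen_ball hv c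
  have hpaste := hp s hs0 hs2 hsf
  -- the gradients agree off `K`
  have hgr : ∀ x ∈ ball x₀ ρ, x ∉ K → cgr u x = cgr v x := by
    intro x hx hxK
    refine cgr_congr ?_
    have h1 : (Ω \ K) ∩ ball x₀ ρ ∈ 𝓝 x :=
      (h.isOpen_off.inter isOpen_ball).mem_nhds ⟨⟨hb hx, hxK⟩, hx⟩
    filter_upwards [h1] with z hz
    exact huv z hz.2 hz.1.2
  have hvol := h.toTConf.volume_eq_zero
  have hKm := h.toTConf.measurableSet
  -- the integrals over any measurable subset of the ball agree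
  have hint : ∀ A : Set ℂ, MeasurableSet A → A ⊆ ball x₀ ρ →
      ∫⁻ x in A \ K, ‖cgr u x‖ₑ ^ 2 = ∫⁻ x in A, ‖cgr v x‖ₑ ^ 2 := by
    intro A hA hAb
    have h1 : ∫⁻ x in A \ K, ‖cgr u x‖ₑ ^ 2 = ∫⁻ x in A \ K, ‖cgr v x‖ₑ ^ 2 :=
      setLIntegral_congr_fun (hA.diff hKm) fun x hx => by
        rw [hgr x (hAb hx.1) hx.2]
    rw [h1]
    refine setLIntegral_congr ?_
    exact sdiff_ae_eq_self.2 (measure_mono_null inter_subset_right hvol)
  -- the length of `K` in the closed ball vanishes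
  have hlen : (μH[1] : Measure ℂ) (K ∩ closedBall x₀ s) = 0 := by
    unfold cen at hpaste
    rw [empty_inter, measure_empty, add_zero, sdiff_empty,
      hint _ measurableSet_closedBall hsρ] at hpaste
    have h1 : ∫⁻ x in ball x₀ s, ‖cgr v x‖ₑ ^ 2 ≤ ∫⁻ x in closedBall x₀ s, ‖cgr v x‖ₑ ^ 2 :=
      lintegral_mono_set ball_subset_closedBall
    have h2 : ∫⁻ x in closedBall x₀ s, ‖cgr v x‖ₑ ^ 2 < ⊤ := by
      have h3 := hconf.lint_lt (isCompact_closedBall x₀ s) hsρ
      rwa [sdiff_empty] at h3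
    have h3 : (∫⁻ x in closedBall x₀ s, ‖cgr v x‖ₑ ^ 2) + (μH[1] : Measure ℂ)
        (K ∩ closedBall x₀ s) ≤ (∫⁻ x in closedBall x₀ s, ‖cgr v x‖ₑ ^ 2) + 0 := by
      rw [add_zero]; exact hpaste.trans h1
    exact le_antisymm ((ENNReal.add_le_add_iff_left h2.ne).1 h3) bot_le
  -- contradiction with the density bound
  obtain ⟨M, hM⟩ := (isCompact_closedBall x₀ s).exists_bound_of_continuousOn
    ((hconf.continuousOn_cgr).mono (by rw [sdiff_empty]; exact hsρ))
  have hM0 : 0 ≤ M := (norm_nonneg _).trans (hM x₀ (mem_closedBall_self hs0.le))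
  set r : ℝ := Min.min ((s - dist y x₀) / 2) (1 / (2 * (M ^ 2 * Real.pi + 1))) with hr
  have hr0 : 0 < r := lt_min (by linarith) (by positivity)
  have hyr : closedBall y r ⊆ closedBall x₀ s := by
    refine closedBall_subset_closedBall' ?_
    have : r ≤ (s - dist y x₀) / 2 := min_le_left _ _
    linarith
  have hd := h.dens y hyK r hr0 (hyr.trans (hsρ.trans hb))
  have hcen : cen u K (ball y r) ≤ ENNReal.ofReal (M ^ 2 * (Real.pi * r ^ 2)) := by
    unfold cen
    have hsub : ball y r ⊆ closedBall x₀ s := ball_subset_closedBall.trans hyr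
    rw [hint _ measurableSet_ball (hsub.trans hsρ),
      measure_mono_null (inter_subset_inter_right _ hsub) hlen, add_zero]
    calc ∫⁻ x in ball y r, ‖cgr v x‖ₑ ^ 2 ≤ ∫⁻ _ in ball y r, ENNReal.ofReal M ^ 2 := by
          refine setLIntegral_mono_ae' measurableSet_ball (ae_of_all _ fun x hx => ?_)
          gcongr
          rw [← ofReal_norm]
          exact ENNReal.ofReal_le_ofReal (hM x (hsub hx))
      _ = ENNReal.ofReal (M ^ 2 * (Real.pi * r ^ 2)) := by
          rw [setLIntegral_const, Complex.volume_ball, ENNReal.ofReal_mul (by positivity),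
            ENNReal.ofReal_pow hM0, mul_comm Real.pi, ENNReal.ofReal_mul (by positivity),
            ENNReal.ofReal_pow hr0.le]
          congr 2
          rw [← NNReal.coe_real_pi, ENNReal.ofReal_coe_nnreal]
  have h5 := (ENNReal.ofReal_le_ofReal_iff (by positivity)).1 (hd.trans hcen)
  have h6 : r ≤ 1 / (2 * (M ^ 2 * Real.pi + 1)) := min_le_right _ _
  have h7 : r * (2 * (M ^ 2 * Real.pi + 1)) ≤ 1 := by
    rwa [le_div_iff₀ (by positivity)] at h6
  have h8 : M ^ 2 * (Real.pi * r ^ 2) = r * (r * (M ^ 2 * Real.pi)) := by ring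
  have h9 : r * (M ^ 2 * Real.pi) ≤ 1 := by nlinarith
  nlinarith

theorem TMin.remove (h : TMin Ω u l K) {x₀ : ℂ} {ρ : ℝ} (_hρ : 0 < ρ) (hb : ball x₀ ρ ⊆ Ω)
    {v : ℂ → ℝ} (hv : ContDiffOn ℝ 1 v (ball x₀ ρ)) (huv : ∀ x ∈ ball x₀ ρ, x ∉ K → u x = v x)
    {c : Set ℂ} (hl : ∀ x ∈ ball x₀ ρ, x ∉ K → l x = c) : K ∩ ball x₀ ρ = ∅ := by
  refine tm_remove_core h hb hv huv c fun s hs0 hs2 hsf => ?_
  have hsρ : closedBall x₀ s ⊆ ball x₀ ρ := closedBall_subset_ball hs2
  refine h.paste (tconf_smooth isOpen_ball hv c) hs0 hsf (hsρ.trans hb) hsρ fun x hx hxQ => ?_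
  have h1 : x ∉ K := fun h2 => hxQ ⟨h2, hx⟩
  have h2 : x ∈ ball x₀ ρ := hsρ (sphere_subset_closedBall hx)
  exact ⟨h1, notMem_empty _, (huv x h2 h1).symm, (hl x h2 h1).symm⟩

end Pool.Agent.MP099f24
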