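import Mathlib
import Pool.Agent.Lib.MP_099f24_an.TM.Defs
import Pool.Agent.Lib.MP_099f24_an.TM.WeakHol
import Pool.Agent.Lib.MP_099f24_an.TM.Bas
import Pool.Agent.Lib.MP_099f24_an.TM.Out
import Pool.Agent.Lib.MP_099f24_an.TM.Rem

/-!
# No singular part in a ball: the ball does not meet `K`
-/

set_option autoImplicit false

namespace Pool.Agent.MP099f24

open MeasureTheory Filter Topology Set Metric
open scoped ENNReal ContDiff

variable {Ω : Set ℂ} {u w : ℂ → ℝ} {l : ℂ → Set ℂ} {K : Set ℂ}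

/-- a holomorphic function on a ball with real values is constant -/
theorem nosing_real {x₀ : ℂ} {r : ℝ} (hr : 0 < r) {P : ℂ → ℂ}
    (hP : DifferentiableOn ℂ P (ball x₀ r)) (hre : ∀ x ∈ ball x₀ r, (P x).im = 0) :
    ∃ c : ℂ, ∀ x ∈ ball x₀ r, P x = c := by
  have ha : AnalyticOnNhd ℂ P (ball x₀ r) := hP.analyticOnNhd isOpen_ball
  rcases ha.is_constant_or_isOpen (convex_ball x₀ r).isPreconnected with ⟨w, hw⟩ | ho
  · exact ⟨w, hw⟩
  · exfalso
    have h1 := ho (ball x₀ r) subset_rfl isOpen_ball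
    have h2 : P x₀ ∈ P '' ball x₀ r := mem_image_of_mem _ (mem_ball_self hr)
    obtain ⟨ε, hε, hsub⟩ := Metric.isOpen_iff.1 h1 _ h2
    have h3 : P x₀ + ((ε / 2 : ℝ) : ℂ) * Complex.I ∈ ball (P x₀) ε := by
      rw [mem_ball, dist_eq_norm, add_sub_cancel_left, norm_mul, Complex.norm_I, mul_one,
        Complex.norm_real, Real.norm_eq_abs, abs_of_pos (by positivity)]
      linarith
    obtain ⟨y, hy, hy'⟩ := hsub h3
    have h4 := hre y hy
    have h5 := hre x₀ (mem_ball_self hr)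
    rw [hy'] at h4
    simp only [Complex.add_im, Complex.mul_im, Complex.ofReal_re, Complex.I_im, mul_one,
      Complex.ofReal_im, Complex.I_re, mul_zero, add_zero, h5, zero_add] at h4
    linarith

/-- a bounded continuous function off a null set without distributional gradient is constant -/
theorem nosing_const {K : Set ℂ} (hK0 : volume K = 0) {x₀ : ℂ} {r : ℝ} (hr : 0 < r)
    (hKo : IsOpen (ball x₀ r \ K)) {ψ : ℂ → ℝ} (hψ : ContinuousOn ψ (ball x₀ r \ K)) {M : ℝ}
    (hM : ∀ x, |ψ x| ≤ M)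
    (h0 : ∀ φ : ℂ → ℝ, ContDiff ℝ ∞ φ → HasCompactSupport φ → tsupport φ ⊆ ball x₀ r → ∀ v : ℂ,
      ∫ x in ball x₀ r \ K, ψ x * fderiv ℝ φ x v = 0) :
    ∃ c : ℝ, ∀ x ∈ ball x₀ r, x ∉ K → ψ x = c := by
  set V : Set ℂ := ball x₀ r with hV
  have hae : (V \ K : Set ℂ) =ᵐ[volume] V := sdiff_null_ae_eq_self hK0
  have : IsFiniteMeasure ((volume : Measure ℂ).restrict V) :=
    ⟨by rw [Measure.restrict_apply_univ]; exact measure_ball_lt_top⟩
  have hint : IntegrableOn (fun x => (ψ x : ℂ)) V := by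
    refine Integrable.of_bound ?_ M (Eventually.of_forall fun x => ?_)
    · rw [← Measure.restrict_congr_set hae]
      exact (Complex.continuous_ofReal.comp_continuousOn hψ).aestronglyMeasurable hKo.measurableSet
    · rw [Complex.norm_real, Real.norm_eq_abs]
      exact hM x
  have h1 : ∀ φ : ℂ → ℝ, ContDiff ℝ ∞ φ → HasCompactSupport φ → tsupport φ ⊆ V → ∀ v : ℂ,
      ∫ x in V, ψ x * fderiv ℝ φ x v = 0 := by
    intro φ h1 h2 h3 v
    rw [← setIntegral_congr_set hae]
    exact h0 φ h1 h2 h3 v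
  obtain ⟨P, hPd, hP⟩ := te_weakhol isOpen_ball hint.locallyIntegrableOn
    (fun φ a1 a2 a3 => by simpa using h1 φ a1 a2 a3 1)
    (fun φ a1 a2 a3 => by simpa using h1 φ a1 a2 a3 Complex.I)
  have him : ∀ x ∈ V, (P x).im = 0 := by
    have h2 : (fun x => (P x).im) =ᵐ[(volume : Measure ℂ).restrict V] fun _ => 0 := by
      filter_upwards [(ae_restrict_iff' measurableSet_ball).2 hP] with x hx
      have h3 := congrArg Complex.im hx
      simp only [Complex.ofReal_im, Complex.conj_im] at h3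
      linarith
    exact Measure.eqOn_open_of_ae_eq h2 isOpen_ball
      (Complex.continuous_im.comp_continuousOn hPd.continuousOn) continuousOn_const
  obtain ⟨c, hc⟩ := nosing_real hr hPd him
  refine ⟨c.re, fun x hx hxK => ?_⟩
  have h2 : ψ =ᵐ[(volume : Measure ℂ).restrict (V \ K)] fun _ => c.re := by
    have h3 : ∀ᵐ x ∂((volume : Measure ℂ).restrict V), ψ x = c.re := by
      filter_upwards [(ae_restrict_iff' measurableSet_ball).2 hP,
        ae_restrict_mem measurableSet_ball] with x hx hxV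
      rw [hc x hxV] at hx
      have h3 := congrArg Complex.re hx
      simpa using h3
    exact ae_restrict_of_ae_restrict_of_subset sdiff_subset h3
  exact Measure.eqOn_open_of_ae_eq h2 hKo hψ continuousOn_const ⟨hx, hxK⟩

/-- square integrability of the gradient on compact sets -/
theorem nosing_int (h : TConf Ω u l K) {C : Set ℂ} (hC : IsCompact C) (hCΩ : C ⊆ Ω) :
    IntegrableOn (cgr u) (C \ K) := by
  have hm : MeasurableSet (C \ K) := hC.isClosed.measurableSet.diff h.measurableSet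
  have : IsFiniteMeasure ((volume : Measure ℂ).restrict (C \ K)) :=
    ⟨by
      rw [Measure.restrict_apply_univ]
      exact (measure_mono sdiff_subset).trans_lt hC.measure_lt_top⟩
  have h1 : AEStronglyMeasurable (cgr u) ((volume : Measure ℂ).restrict (C \ K)) :=
    (h.continuousOn_cgr.mono (sdiff_subset_sdiff_left hCΩ)).aestronglyMeasurable hm
  have h2 : MemLp (cgr u) 2 ((volume : Measure ℂ).restrict (C \ K)) := by
    refine ⟨h1, ?_⟩
    rw [eLpNorm_lt_top_iff_lintegral_rpow_enorm_lt_top (by norm_num) (by norm_num)]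
    have h3 : ∫⁻ x in C \ K, ‖cgr u x‖ₑ ^ 2 < ⊤ :=
      (le_self_add.trans_lt (h.fin C hC hCΩ))
    simpa using h3
  exact h2.integrable (by norm_num)

/-- bounded smooth truncations -/
noncomputable def nosing_k (n : ℕ) (s : ℝ) : ℝ := (n + 1) * Real.arctan (s / (n + 1))

theorem nosing_k_deriv (n : ℕ) (s : ℝ) :
    HasDerivAt (nosing_k n) (1 / (1 + (s / (n + 1)) ^ 2)) s := by
  have hn : (0 : ℝ) < n + 1 := by positivity
  have h1 : HasDerivAt (fun s : ℝ => s / (n + 1)) (1 / (n + 1)) s :=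
    (hasDerivAt_id s).div_const _
  have h2 : HasDerivAt (nosing_k n)
      (((n : ℝ) + 1) * (1 / (1 + (s / (n + 1)) ^ 2) * (1 / (n + 1)))) s :=
    (h1.arctan).const_mul ((n : ℝ) + 1)
  convert h2 using 1
  have h3 : (1 + (s / ((n : ℝ) + 1)) ^ 2) ≠ 0 := by positivity
  field_simp

theorem nosing_k_smooth (n : ℕ) : ContDiff ℝ ∞ (nosing_k n) :=
  contDiff_const.mul (Real.contDiff_arctan.comp (contDiff_id.div_const _))

theorem nosing_k_bound (n : ℕ) (s : ℝ) : |nosing_k n s| ≤ (n + 1) * (Real.pi / 2) := by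
  have hn : (0 : ℝ) < n + 1 := by positivity
  unfold nosing_k
  rw [abs_mul, abs_of_pos hn]
  refine mul_le_mul_of_nonneg_left ?_ hn.le
  rw [abs_le]
  exact ⟨(Real.neg_pi_div_two_lt_arctan _).le, (Real.arctan_lt_pi_div_two _).le⟩

theorem nosing_k_lim (s : ℝ) :
    Tendsto (fun n : ℕ => 1 / (1 + (s / ((n : ℝ) + 1)) ^ 2)) atTop (𝓝 1) := by
  have h1 : Tendsto (fun n : ℕ => s / ((n : ℝ) + 1)) atTop (𝓝 0) :=
    tendsto_const_nhds.div_atTop (tendsto_natCast_atTop_atTop.atTop_add tendsto_const_nhds)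
  have h2 : Tendsto (fun n : ℕ => 1 / (1 + (s / ((n : ℝ) + 1)) ^ 2)) atTop
      (𝓝 (1 / (1 + (0 : ℝ) ^ 2))) :=
    tendsto_const_nhds.div (tendsto_const_nhds.add (h1.pow 2)) (by norm_num)
  simpa using h2

/-- the gradient is weakly curl free -/
theorem nosing_curl (h : TMin Ω u l K) {x₀ : ℂ} {ρ : ℝ} (hb : ball x₀ ρ ⊆ Ω)
    (hd : ∀ ψ : ℂ → ℝ, ContDiffOn ℝ 1 ψ (Ω \ K) → (∃ M, ∀ x, |ψ x| ≤ M) →
      (∀ C, IsCompact C → C ⊆ Ω → ∫⁻ x in C \ K, ‖cgr ψ x‖ₑ ^ 2 < ⊤) →
      ∀ φ : ℂ → ℝ, ContDiff ℝ ∞ φ → HasCompactSupport φ → tsupport φ ⊆ ball x₀ ρ → ∀ v : ℂ,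
        ∫ x in ball x₀ ρ \ K, ψ x * fderiv ℝ φ x v =
          - ∫ x in ball x₀ ρ \ K, φ x * inner ℝ (cgr ψ x) v)
    {φ : ℂ → ℝ} (hφ : ContDiff ℝ ∞ φ) (hc : HasCompactSupport φ) (hs : tsupport φ ⊆ ball x₀ ρ) :
    ∫ x in ball x₀ ρ \ K, ((cgr u x).re * fderiv ℝ φ x Complex.I -
      (cgr u x).im * fderiv ℝ φ x 1) = 0 := by
  have hC := h.toTConf
  have hm : MeasurableSet (ball x₀ ρ \ K) := measurableSet_ball.diff hC.measurableSet
  have hsm : ∀ v : ℂ, ContDiff ℝ ∞ (fun x => fderiv ℝ φ x v) := tewh_fd_smooth hφ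
  have hts : ∀ v : ℂ, tsupport (fun x => fderiv ℝ φ x v) ⊆ tsupport φ :=
    fun v => tsupport_fderiv_apply_subset ℝ v
  have hcs : ∀ v : ℂ, HasCompactSupport (fun x => fderiv ℝ φ x v) :=
    fun v => IsCompact.of_isClosed_subset hc (isClosed_tsupport _) (hts v)
  have hzero : ∀ v : ℂ, ∀ x ∉ tsupport φ, fderiv ℝ φ x v = 0 := fun v x hx =>
    image_eq_zero_of_notMem_tsupport (f := fun x => fderiv ℝ φ x v) fun h' => hx (hts v h')
  -- integrability of products
  have hgi : ∀ (w : ℂ → ℂ), (∀ x ∈ Ω \ K, ‖w x‖ ≤ ‖cgr u x‖) → ContinuousOn w (Ω \ K) →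
      ∀ v : ℂ, IntegrableOn (fun x => (fderiv ℝ φ x v : ℂ) * w x) (ball x₀ ρ \ K) := by
    intro w hw hwc v
    have hts' : tsupport φ ⊆ Ω := hs.trans hb
    have h1 : IntegrableOn w (tsupport φ \ K) := by
      refine Integrable.mono (nosing_int hC hc hts') ?_ ?_
      · exact (hwc.mono (sdiff_subset_sdiff_left hts')).aestronglyMeasurable
          (hc.isClosed.measurableSet.diff hC.measurableSet)
      · refine (ae_restrict_iff' (hc.isClosed.measurableSet.diff hC.measurableSet)).2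
          (Eventually.of_forall fun x hx => hw x ⟨hts' hx.1, hx.2⟩)
    obtain ⟨L, hL⟩ := (hcs v).exists_bound_of_continuous (hsm v).continuous
    have h2 : IntegrableOn (fun x => (fderiv ℝ φ x v : ℂ) * w x) (tsupport φ \ K) := by
      refine h1.bdd_mul (c := L) ?_ ?_
      · exact (Complex.continuous_ofReal.comp (hsm v).continuous).aestronglyMeasurable
      · refine Eventually.of_forall fun x => ?_
        rw [Complex.norm_real]
        exact hL x
    refine h2.of_forall_sdiff_eq_zero hm ?_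
    intro x hx
    have hx' : x ∉ tsupport φ := fun h' => hx.2 ⟨h', hx.1.2⟩
    rw [hzero v x hx', Complex.ofReal_zero, zero_mul]
  have hgr : ∀ (w : ℂ → ℂ), (∀ x ∈ Ω \ K, ‖w x‖ ≤ ‖cgr u x‖) → ContinuousOn w (Ω \ K) →
      ∀ v : ℂ, IntegrableOn (fun x => fderiv ℝ φ x v * (w x).re) (ball x₀ ρ \ K) ∧
        IntegrableOn (fun x => fderiv ℝ φ x v * (w x).im) (ball x₀ ρ \ K) := by
    intro w hw hwc v
    have h1 := hgi w hw hwc v
    constructor
    · refine (h1.re).congr (Eventually.of_forall fun x => ?_)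
      simp
    · refine (h1.im).congr (Eventually.of_forall fun x => ?_)
      simp
  have hcu := hgr (cgr u) (fun x _ => le_rfl) hC.continuousOn_cgr
  -- the truncated identity
  have hn : ∀ n : ℕ, ∫ x in ball x₀ ρ \ K, (1 / (1 + (u x / (n + 1)) ^ 2)) *
      ((cgr u x).re * fderiv ℝ φ x Complex.I - (cgr u x).im * fderiv ℝ φ x 1) = 0 := by
    intro n
    have hcg : ∀ x ∈ Ω \ K, cgr (fun y => nosing_k n (u y)) x =
        ((1 / (1 + (u x / (n + 1)) ^ 2) : ℝ) : ℂ) * cgr u x := by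
      intro x hx
      have h1 : DifferentiableAt ℝ u x :=
        (hC.smooth.contDiffAt (hC.isOpen_off.mem_nhds hx)).differentiableAt (by norm_num)
      rw [cgr_comp h1 (nosing_k_deriv n _).differentiableAt, (nosing_k_deriv n _).deriv]
    have hle : ∀ s : ℝ, 0 ≤ 1 / (1 + (s / ((n : ℝ) + 1)) ^ 2) ∧
        1 / (1 + (s / ((n : ℝ) + 1)) ^ 2) ≤ 1 := by
      intro s
      have h0 : 0 ≤ (s / ((n : ℝ) + 1)) ^ 2 := sq_nonneg _
      constructor
      · positivity
      · rw [div_le_one (by positivity)]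
        linarith
    have hnorm : ∀ x ∈ Ω \ K, ‖cgr (fun y => nosing_k n (u y)) x‖ ≤ ‖cgr u x‖ := by
      intro x hx
      rw [hcg x hx, norm_mul, Complex.norm_real, Real.norm_eq_abs, abs_of_nonneg (hle _).1]
      calc _ ≤ 1 * ‖cgr u x‖ := mul_le_mul_of_nonneg_right (hle _).2 (norm_nonneg _)
        _ = ‖cgr u x‖ := one_mul _
    have hsmo : ContDiffOn ℝ 1 (fun y => nosing_k n (u y)) (Ω \ K) :=
      ((nosing_k_smooth n).of_le (by simp)).comp_contDiffOn hC.smooth
    have hconf : ContinuousOn (cgr (fun y => nosing_k n (u y))) (Ω \ K) := by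
      have h1 : ContinuousOn (fun x => ((1 / (1 + (u x / (n + 1)) ^ 2) : ℝ) : ℂ) * cgr u x)
          (Ω \ K) := by
        refine ContinuousOn.mul ?_ hC.continuousOn_cgr
        refine Complex.continuous_ofReal.comp_continuousOn ?_
        have h2 : Continuous fun s : ℝ => 1 / (1 + (s / ((n : ℝ) + 1)) ^ 2) := by
          refine continuous_const.div (by fun_prop) fun s => ?_
          positivity
        exact h2.comp_continuousOn hC.smooth.continuousOn
      exact h1.congr hcg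
    have hE : ∀ C, IsCompact C → C ⊆ Ω →
        ∫⁻ x in C \ K, ‖cgr (fun y => nosing_k n (u y)) x‖ₑ ^ 2 < ⊤ := by
      intro C hC1 hC2
      have hmC : MeasurableSet (C \ K) := hC1.isClosed.measurableSet.diff hC.measurableSet
      refine lt_of_le_of_lt (setLIntegral_mono' hmC fun x hx => ?_)
        (le_self_add.trans_lt (hC.fin C hC1 hC2))
      gcongr
      rw [enorm_le_iff_norm_le]
      exact hnorm x ⟨hC2 hx.1, hx.2⟩
    have hbd : ∃ M, ∀ x, |nosing_k n (u x)| ≤ M := ⟨_, fun x => nosing_k_bound n (u x)⟩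
    have e1 := hd _ hsmo hbd hE _ (hsm Complex.I) (hcs Complex.I)
      ((hts Complex.I).trans hs) 1
    have e2 := hd _ hsmo hbd hE _ (hsm 1) (hcs 1) ((hts 1).trans hs) Complex.I
    simp only [tewh_symm hφ _ Complex.I 1] at e1
    rw [e2, neg_inj] at e1
    have hc' := hgr _ hnorm hconf
    have e3 : ∀ z : ℂ, inner ℝ z (1 : ℂ) = z.re := fun z => by simp [Complex.inner]
    have e4 : ∀ z : ℂ, inner ℝ z Complex.I = z.im := fun z => by simp [Complex.inner]
    simp only [e3, e4] at e1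
    have e5 : ∫ x in ball x₀ ρ \ K, (1 / (1 + (u x / (n + 1)) ^ 2)) *
        ((cgr u x).re * fderiv ℝ φ x Complex.I - (cgr u x).im * fderiv ℝ φ x 1) =
        ∫ x in ball x₀ ρ \ K, (fderiv ℝ φ x Complex.I *
          (cgr (fun y => nosing_k n (u y)) x).re - fderiv ℝ φ x 1 *
          (cgr (fun y => nosing_k n (u y)) x).im) := by
      refine setIntegral_congr_fun hm fun x hx => ?_
      rw [hcg x ⟨hb hx.1, hx.2⟩, Complex.re_ofReal_mul, Complex.im_ofReal_mul]
      ring
    rw [e5, integral_sub (hc' Complex.I).1 (hc' 1).2, ← e1, sub_self]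
  -- passage to the limit
  have hD : IntegrableOn (fun x => (cgr u x).re * fderiv ℝ φ x Complex.I -
      (cgr u x).im * fderiv ℝ φ x 1) (ball x₀ ρ \ K) := by
    refine ((hcu Complex.I).1.sub (hcu 1).2).congr (Eventually.of_forall fun x => ?_)
    show fderiv ℝ φ x Complex.I * (cgr u x).re - fderiv ℝ φ x 1 * (cgr u x).im = _
    ring
  have hlim : Tendsto (fun n : ℕ => ∫ x in ball x₀ ρ \ K, (1 / (1 + (u x / (n + 1)) ^ 2)) *
      ((cgr u x).re * fderiv ℝ φ x Complex.I - (cgr u x).im * fderiv ℝ φ x 1)) atTop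
      (𝓝 (∫ x in ball x₀ ρ \ K, ((cgr u x).re * fderiv ℝ φ x Complex.I -
        (cgr u x).im * fderiv ℝ φ x 1))) := by
    refine tendsto_integral_of_dominated_convergence _ (fun n => ?_) hD.norm (fun n => ?_) ?_
    · have h1 : AEStronglyMeasurable (fun x => (1 / (1 + (u x / (n + 1)) ^ 2)))
          ((volume : Measure ℂ).restrict (ball x₀ ρ \ K)) := by
        have h2 : Continuous fun s : ℝ => 1 / (1 + (s / ((n : ℝ) + 1)) ^ 2) := by
          refine continuous_const.div (by fun_prop) fun s => ?_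
          positivity
        exact ((h2.comp_continuousOn hC.smooth.continuousOn).mono
          (sdiff_subset_sdiff_left hb)).aestronglyMeasurable hm
      exact h1.mul hD.aestronglyMeasurable
    · refine Eventually.of_forall fun x => ?_
      rw [norm_mul]
      have h0 : 0 ≤ (u x / ((n : ℝ) + 1)) ^ 2 := sq_nonneg _
      have h1 : ‖1 / (1 + (u x / ((n : ℝ) + 1)) ^ 2)‖ ≤ 1 := by
        rw [Real.norm_eq_abs, abs_of_nonneg (by positivity), div_le_one (by positivity)]
        linarith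
      calc _ ≤ 1 * _ := mul_le_mul_of_nonneg_right h1 (norm_nonneg _)
        _ = _ := one_mul _
    · refine Eventually.of_forall fun x => ?_
      have h1 := (nosing_k_lim (u x)).mul_const
        ((cgr u x).re * fderiv ℝ φ x Complex.I - (cgr u x).im * fderiv ℝ φ x 1)
      rwa [one_mul] at h1
  simp only [hn] at hlim
  exact (tendsto_nhds_unique tendsto_const_nhds hlim).symm

/-- the gradient is weakly divergence free -/
theorem nosing_div (h : TMin Ω u l K) {x₀ : ℂ} {ρ : ℝ} (hb : ball x₀ ρ ⊆ Ω)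
    {φ : ℂ → ℝ} (hφ : ContDiff ℝ ∞ φ) (hc : HasCompactSupport φ) (hs : tsupport φ ⊆ ball x₀ ρ) :
    ∫ x in ball x₀ ρ \ K, ((cgr u x).re * fderiv ℝ φ x 1 +
      (cgr u x).im * fderiv ℝ φ x Complex.I) = 0 := by
  have hC := h.toTConf
  have hm : MeasurableSet (ball x₀ ρ \ K) := measurableSet_ball.diff hC.measurableSet
  have hzero : ∀ v : ℂ, ∀ x ∉ tsupport φ, fderiv ℝ φ x v = 0 := fun v x hx =>
    image_eq_zero_of_notMem_tsupport (f := fun x => fderiv ℝ φ x v)
      fun h' => hx (tsupport_fderiv_apply_subset ℝ v h')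
  have hφc : Continuous (cgr φ) := by
    unfold cgr
    exact (Complex.continuous_ofReal.comp (tewh_fd_smooth hφ 1).continuous).add
      ((Complex.continuous_ofReal.comp (tewh_fd_smooth hφ Complex.I).continuous).mul
        continuous_const)
  have hcφ : HasCompactSupport (cgr φ) := by
    refine HasCompactSupport.intro hc fun x hx => ?_
    unfold cgr
    rw [hzero 1 x hx, hzero Complex.I x hx]
    simp
  have ht : TTest Ω K (tsupport φ) φ := by
    refine ⟨hc, hs.trans hb, (hφ.of_le (by simp)).contDiffOn,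
      fun x hx => image_eq_zero_of_notMem_tsupport hx, ?_⟩
    obtain ⟨L, hL⟩ := hcφ.exists_bound_of_continuous hφc
    have hm' : MeasurableSet (tsupport φ \ K) :=
      hc.isClosed.measurableSet.diff hC.measurableSet
    refine lt_of_le_of_lt (setLIntegral_mono' hm' (g := fun _ => (ENNReal.ofReal L) ^ 2)
      fun x hx => ?_) ?_
    · gcongr
      rw [← ofReal_norm]
      exact ENNReal.ofReal_le_ofReal (hL x)
    · rw [setLIntegral_const]
      exact ENNReal.mul_lt_top (ENNReal.pow_lt_top ENNReal.ofReal_lt_top)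
        ((measure_mono sdiff_subset).trans_lt hc.measure_lt_top)
  have h1 := (h.outer ht).2
  have h2 : ∫ x in ball x₀ ρ \ K, ((cgr u x).re * fderiv ℝ φ x 1 +
      (cgr u x).im * fderiv ℝ φ x Complex.I) =
      ∫ x in tsupport φ \ K, inner ℝ (cgr u x) (cgr φ x) := by
    rw [setIntegral_eq_of_subset_of_forall_sdiff_eq_zero (s := tsupport φ \ K) hm
      (sdiff_subset_sdiff_left hs)]
    · refine setIntegral_congr_fun (hc.isClosed.measurableSet.diff hC.measurableSet)
        fun x hx => ?_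
      simp [Complex.inner, cgr]
      ring
    · intro x hx
      have hx' : x ∉ tsupport φ := fun h' => hx.2 ⟨h', hx.1.2⟩
      rw [hzero 1 x hx', hzero Complex.I x hx']
      ring
  rw [h2, h1]

/-- if no bounded function has a singular part near `x₀` then `x₀` is not a point of `K` -/
theorem TMin.nosing (h : TMin Ω u l K) {x₀ : ℂ} {ρ : ℝ} (hρ : 0 < ρ) (hb : ball x₀ ρ ⊆ Ω)
    (hd : ∀ ψ : ℂ → ℝ, ContDiffOn ℝ 1 ψ (Ω \ K) → (∃ M, ∀ x, |ψ x| ≤ M) →
      (∀ C, IsCompact C → C ⊆ Ω → ∫⁻ x in C \ K, ‖cgr ψ x‖ₑ ^ 2 < ⊤) →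
      ∀ φ : ℂ → ℝ, ContDiff ℝ ∞ φ → HasCompactSupport φ → tsupport φ ⊆ ball x₀ ρ → ∀ v : ℂ,
        ∫ x in ball x₀ ρ \ K, ψ x * fderiv ℝ φ x v =
          - ∫ x in ball x₀ ρ \ K, φ x * inner ℝ (cgr ψ x) v) :
    K ∩ ball x₀ ρ = ∅ := by
  classical
  have hC := h.toTConf
  have hK0 : volume K = 0 := hC.volume_eq_zero
  have hKo : ∀ r ≤ ρ, IsOpen (ball x₀ r \ K) := by
    intro r hr
    have h1 : ball x₀ r \ K = ball x₀ r ∩ (Ω \ K) := by
      ext x
      constructor
      · intro hx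
        exact ⟨hx.1, hb (ball_subset_ball hr hx.1), hx.2⟩
      · intro hx
        exact ⟨hx.1, hx.2.2⟩
    rw [h1]
    exact isOpen_ball.inter hC.isOpen_off
  have hm : MeasurableSet (ball x₀ ρ \ K) := measurableSet_ball.diff hC.measurableSet
  have hae : (ball x₀ ρ \ K : Set ℂ) =ᵐ[volume] ball x₀ ρ := sdiff_null_ae_eq_self hK0
  -- constancy of functions without gradient on a smaller ball
  have hconst : ∀ r : ℝ, 0 < r → r ≤ ρ → ∀ ψ : ℂ → ℝ, ContDiffOn ℝ 1 ψ (Ω \ K) →
      (∃ M, ∀ x, |ψ x| ≤ M) →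
      (∀ C, IsCompact C → C ⊆ Ω → ∫⁻ x in C \ K, ‖cgr ψ x‖ₑ ^ 2 < ⊤) →
      (∀ x ∈ ball x₀ r, x ∉ K → cgr ψ x = 0) → ∃ c : ℝ, ∀ x ∈ ball x₀ r, x ∉ K → ψ x = c := by
    intro r hr hrρ ψ h1 h2 h3 h4
    obtain ⟨M, hM⟩ := h2
    have hsub : ball x₀ r ⊆ ball x₀ ρ := ball_subset_ball hrρ
    refine nosing_const hK0 hr (hKo r hrρ)
      (h1.continuousOn.mono (sdiff_subset_sdiff_left (hsub.trans hb))) hM ?_
    intro φ hφ hc hs v
    have h5 := hd ψ h1 ⟨M, hM⟩ h3 φ hφ hc (hs.trans hsub) v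
    have h6 : ∫ x in ball x₀ ρ \ K, φ x * inner ℝ (cgr ψ x) v = 0 := by
      rw [← integral_zero ℂ ℝ (μ := volume.restrict (ball x₀ ρ \ K))]
      refine setIntegral_congr_fun hm fun x hx => ?_
      by_cases hxr : x ∈ ball x₀ r
      · rw [h4 x hxr hx.2]
        simp
      · have : φ x = 0 := image_eq_zero_of_notMem_tsupport fun h' => hxr (hs h')
        rw [this, zero_mul]
    rw [h6, neg_zero] at h5
    rw [setIntegral_eq_of_subset_of_forall_sdiff_eq_zero (s := ball x₀ r \ K) hm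
      (sdiff_subset_sdiff_left hsub)] at h5
    · exact h5
    · intro x hx
      have hx' : x ∉ tsupport φ := fun h' => hx.2 ⟨hs h', hx.1.2⟩
      have : fderiv ℝ φ x v = 0 := image_eq_zero_of_notMem_tsupport (f := fun x => fderiv ℝ φ x v)
        fun h' => hx' (tsupport_fderiv_apply_subset ℝ v h')
      rw [this, mul_zero]
  -- labels
  obtain ⟨y₀, hy₀⟩ : (ball x₀ ρ \ K).Nonempty := by
    by_contra hne
    rw [not_nonempty_iff_eq_empty] at hne
    have h1 : volume (ball x₀ ρ) = volume (ball x₀ ρ \ K) := (measure_congr hae).symm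
    rw [hne, measure_empty] at h1
    exact (measure_ball_pos volume x₀ hρ).ne' h1
  have hlab : ∀ x ∈ ball x₀ ρ, x ∉ K → l x = l y₀ := by
    have hloc : ∀ x ∈ Ω \ K, (fun y => if l y = l y₀ then (1 : ℝ) else 0) =ᶠ[𝓝 x]
        fun _ => if l x = l y₀ then (1 : ℝ) else 0 := by
      intro x hx
      filter_upwards [hC.lab x hx] with y hy
      rw [hy]
    have hcg : ∀ x ∈ Ω \ K, cgr (fun y => if l y = l y₀ then (1 : ℝ) else 0) x = 0 := by
      intro x hx
      rw [cgr_congr (hloc x hx), cgr_const]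
    have q1 : ContDiffOn ℝ 1 (fun y => if l y = l y₀ then (1 : ℝ) else 0) (Ω \ K) := by
      intro x hx
      exact ((contDiffAt_const (c := if l x = l y₀ then (1 : ℝ) else 0)).congr_of_eventuallyEq
        (hloc x hx)).contDiffWithinAt
    have q2 : ∃ M : ℝ, ∀ x, |(fun y => if l y = l y₀ then (1 : ℝ) else 0) x| ≤ M := by
      refine ⟨1, fun x => ?_⟩
      simp only
      split_ifs <;> simp
    have q3 : ∀ C, IsCompact C → C ⊆ Ω →
        ∫⁻ x in C \ K, ‖cgr (fun y => if l y = l y₀ then (1 : ℝ) else 0) x‖ₑ ^ 2 < ⊤ := by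
      intro C hC1 hC2
      rw [setLIntegral_congr_fun (hC1.isClosed.measurableSet.diff hC.measurableSet)
        (g := fun _ => 0) fun x hx => by
          rw [hcg x ⟨hC2 hx.1, hx.2⟩]
          simp]
      simp
    obtain ⟨c, hc⟩ := hconst ρ hρ le_rfl _ q1 q2 q3 (fun x hx hxK => hcg x ⟨hb hx, hxK⟩)
    intro x hx hxK
    have h1 := hc y₀ hy₀.1 hy₀.2
    have h2 := hc x hx hxK
    simp only [if_true] at h1
    rw [← h1] at h2
    by_contra hne
    rw [if_neg hne] at h2
    norm_num at h2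
  -- the holomorphic extension of the conjugate of the gradient
  have hgint : LocallyIntegrableOn (cgr u) (ball x₀ ρ) := by
    intro x hx
    obtain ⟨δ, hδ, hsub⟩ := nhds_basis_closedBall.mem_iff.1 (isOpen_ball.mem_nhds hx)
    have h1 := nosing_int hC (isCompact_closedBall x δ) (hsub.trans hb)
    have h2 : IntegrableOn (cgr u) (closedBall x δ) :=
      h1.congr_set_ae (sdiff_null_ae_eq_self hK0).symm
    exact ⟨closedBall x δ, mem_nhdsWithin_of_mem_nhds (closedBall_mem_nhds x hδ), h2⟩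
  obtain ⟨P, hPd, hP⟩ := te_weakhol isOpen_ball hgint
    (fun φ a1 a2 a3 => by
      rw [← setIntegral_congr_set hae]
      exact nosing_div h hb a1 a2 a3)
    (fun φ a1 a2 a3 => by
      rw [← setIntegral_congr_set hae]
      exact nosing_curl h hb hd a1 a2 a3)
  have hPeq : ∀ x ∈ ball x₀ ρ \ K, cgr u x = (starRingEnd ℂ) (P x) := by
    have h1 : cgr u =ᵐ[(volume : Measure ℂ).restrict (ball x₀ ρ \ K)]
        fun x => (starRingEnd ℂ) (P x) :=
      ae_restrict_of_ae_restrict_of_subset sdiff_subset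
        ((ae_restrict_iff' measurableSet_ball).2 hP)
    exact Measure.eqOn_open_of_ae_eq h1 (hKo ρ le_rfl)
      (hC.continuousOn_cgr.mono (sdiff_subset_sdiff_left hb))
      (Complex.continuous_conj.comp_continuousOn (hPd.continuousOn.mono sdiff_subset))
  obtain ⟨G, hG⟩ := hPd.isExactOn_ball
  have hvd : ∀ x ∈ ball x₀ ρ, HasFDerivAt (fun y => (G y).re)
      (Complex.reCLM.comp ((ContinuousLinearMap.toSpanSingleton ℂ (P x)).restrictScalars ℝ))
      x := fun x hx =>
    Complex.reCLM.hasFDerivAt.comp x ((hG x hx).hasFDerivAt.restrictScalars ℝ)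
  have hGd : DifferentiableOn ℂ G (ball x₀ ρ) := fun x hx =>
    (hG x hx).differentiableAt.differentiableWithinAt
  have hvs : ContDiffOn ℝ 1 (fun y => (G y).re) (ball x₀ ρ) := by
    have h1 : ContDiffOn ℂ 1 G (ball x₀ ρ) := hGd.contDiffOn isOpen_ball
    exact Complex.reCLM.contDiff.comp_contDiffOn (h1.restrict_scalars ℝ)
  have hvg : ∀ x ∈ ball x₀ ρ, cgr (fun y => (G y).re) x = (starRingEnd ℂ) (P x) := by
    intro x hx
    unfold cgr
    rw [(hvd x hx).fderiv]
    apply Complex.ext <;> simp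
  have huv : ∀ x ∈ ball x₀ ρ \ K, cgr (fun y => u y - (G y).re) x = 0 := by
    intro x hx
    have h1 : DifferentiableAt ℝ u x :=
      (hC.smooth.contDiffAt (hC.isOpen_off.mem_nhds ⟨hb hx.1, hx.2⟩)).differentiableAt
        (by norm_num)
    rw [cgr_sub h1 (hvd x hx.1).differentiableAt, hPeq x hx, hvg x hx.1, sub_self]
  -- conclusion on smaller balls
  have key : ∀ r : ℝ, 0 < r → r < ρ → K ∩ ball x₀ r = ∅ := by
    intro r hr hrρ
    let η : ContDiffBump x₀ := ⟨r, (r + ρ) / 2, hr, by linarith⟩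
    have hηt : tsupport (η : ℂ → ℝ) ⊆ ball x₀ ρ := by
      rw [η.tsupport_eq]
      exact closedBall_subset_ball (by show (r + ρ) / 2 < ρ; linarith)
    set ψ : ℂ → ℝ := fun y => η y * Real.arctan (u y - (G y).re) with hψd
    have hd1 : ∀ x ∈ ball x₀ ρ \ K, ContDiffAt ℝ 1 (fun y => u y - (G y).re) x := by
      intro x hx
      exact (hC.smooth.contDiffAt (hC.isOpen_off.mem_nhds ⟨hb hx.1, hx.2⟩)).sub
        (hvs.contDiffAt (isOpen_ball.mem_nhds hx.1))
    have hzero : ∀ x ∉ tsupport (η : ℂ → ℝ), ψ =ᶠ[𝓝 x] fun _ => 0 := by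
      intro x hx
      filter_upwards [(isClosed_tsupport (η : ℂ → ℝ)).isOpen_compl.mem_nhds hx] with y hy
      rw [hψd]
      simp only
      rw [image_eq_zero_of_notMem_tsupport hy, zero_mul]
    have hcg : ∀ x ∈ ball x₀ ρ \ K, cgr ψ x =
        ((Real.arctan (u x - (G x).re) : ℝ) : ℂ) * cgr (η : ℂ → ℝ) x := by
      intro x hx
      have h1 : DifferentiableAt ℝ (η : ℂ → ℝ) x :=
        (η.contDiff (n := 1)).differentiable (by norm_num) x
      have h2 : DifferentiableAt ℝ (fun y => u y - (G y).re) x :=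
        (hd1 x hx).differentiableAt (by norm_num)
      have h3 : DifferentiableAt ℝ (fun y => Real.arctan (u y - (G y).re)) x := h2.arctan
      have h4 : cgr (fun y => Real.arctan (u y - (G y).re)) x = 0 := by
        rw [cgr_comp (κ := Real.arctan) h2 (Real.differentiable_arctan _), huv x hx, mul_zero]
      rw [hψd, cgr_mul h1 h3, h4, mul_zero, zero_add]
    obtain ⟨L, hL⟩ : ∃ L, ∀ x, ‖cgr (η : ℂ → ℝ) x‖ ≤ L := by
      have h1 : Continuous (cgr (η : ℂ → ℝ)) := by
        unfold cgr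
        have h2 : ContDiff ℝ ∞ (η : ℂ → ℝ) := η.contDiff
        exact (Complex.continuous_ofReal.comp (tewh_fd_smooth h2 1).continuous).add
          ((Complex.continuous_ofReal.comp (tewh_fd_smooth h2 Complex.I).continuous).mul
            continuous_const)
      have h2 : HasCompactSupport (cgr (η : ℂ → ℝ)) := by
        refine HasCompactSupport.intro η.hasCompactSupport fun x hx => ?_
        have h3 : (η : ℂ → ℝ) =ᶠ[𝓝 x] fun _ => 0 := by
          filter_upwards [(isClosed_tsupport (η : ℂ → ℝ)).isOpen_compl.mem_nhds hx] with y hy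
          exact image_eq_zero_of_notMem_tsupport hy
        rw [cgr_congr h3, cgr_const]
      exact h2.exists_bound_of_continuous h1
    have hL0 : 0 ≤ L := (norm_nonneg _).trans (hL x₀)
    have hat : ∀ s : ℝ, |Real.arctan s| ≤ Real.pi / 2 := fun s => by
      rw [abs_le]
      exact ⟨(Real.neg_pi_div_two_lt_arctan _).le, (Real.arctan_lt_pi_div_two _).le⟩
    have hnorm : ∀ x ∈ Ω \ K, ‖cgr ψ x‖ ≤ Real.pi / 2 * L := by
      intro x hx
      by_cases hxt : x ∈ tsupport (η : ℂ → ℝ)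
      · rw [hcg x ⟨hηt hxt, hx.2⟩, norm_mul, Complex.norm_real, Real.norm_eq_abs]
        exact mul_le_mul (hat _) (hL x) (norm_nonneg _) (by positivity)
      · rw [cgr_congr (hzero x hxt), cgr_const, norm_zero]
        positivity
    have q1 : ContDiffOn ℝ 1 ψ (Ω \ K) := by
      intro x hx
      by_cases hxt : x ∈ tsupport (η : ℂ → ℝ)
      · have h1 : ContDiffAt ℝ 1 (η : ℂ → ℝ) x := η.contDiff.contDiffAt
        exact (h1.mul (Real.contDiff_arctan.contDiffAt.comp x
          (hd1 x ⟨hηt hxt, hx.2⟩))).contDiffWithinAt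
      · exact ((contDiffAt_const (c := (0 : ℝ))).congr_of_eventuallyEq
          (hzero x hxt)).contDiffWithinAt
    have q2 : ∃ M : ℝ, ∀ x, |ψ x| ≤ M := by
      refine ⟨Real.pi / 2, fun x => ?_⟩
      rw [hψd]
      simp only
      rw [abs_mul, abs_of_nonneg η.nonneg]
      calc _ ≤ 1 * (Real.pi / 2) := mul_le_mul η.le_one (hat _) (abs_nonneg _) zero_le_one
        _ = _ := one_mul _
    have q3 : ∀ C, IsCompact C → C ⊆ Ω → ∫⁻ x in C \ K, ‖cgr ψ x‖ₑ ^ 2 < ⊤ := by
      intro C hC1 hC2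
      have hm' : MeasurableSet (C \ K) := hC1.isClosed.measurableSet.diff hC.measurableSet
      refine lt_of_le_of_lt (setLIntegral_mono' hm'
        (g := fun _ => (ENNReal.ofReal (Real.pi / 2 * L)) ^ 2) fun x hx => ?_) ?_
      · gcongr
        rw [← ofReal_norm]
        exact ENNReal.ofReal_le_ofReal (hnorm x ⟨hC2 hx.1, hx.2⟩)
      · rw [setLIntegral_const]
        exact ENNReal.mul_lt_top (ENNReal.pow_lt_top ENNReal.ofReal_lt_top)
          ((measure_mono sdiff_subset).trans_lt hC1.measure_lt_top)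
    have q4 : ∀ x ∈ ball x₀ r, x ∉ K → cgr ψ x = 0 := by
      intro x hx hxK
      rw [hcg x ⟨ball_subset_ball hrρ.le hx, hxK⟩]
      have h1 : (η : ℂ → ℝ) =ᶠ[𝓝 x] fun _ => 1 := by
        filter_upwards [isOpen_ball.mem_nhds hx] with y hy
        exact η.one_of_mem_closedBall (ball_subset_closedBall hy)
      rw [cgr_congr h1, cgr_const, mul_zero]
    obtain ⟨c, hc⟩ := hconst r hr hrρ.le ψ q1 q2 q3 q4
    -- `u - v` is constant on the ball
    have h1 : ∀ x ∈ ball x₀ r, x ∉ K → u x = (G x).re + Real.tan c := by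
      intro x hx hxK
      have h2 := hc x hx hxK
      have h3 : (η : ℂ → ℝ) x = 1 := η.one_of_mem_closedBall (ball_subset_closedBall hx)
      rw [hψd] at h2
      simp only at h2
      rw [h3, one_mul] at h2
      rw [← h2, Real.tan_arctan]
      ring
    refine h.remove hr ((ball_subset_ball hrρ.le).trans hb)
      (v := fun y => (G y).re + Real.tan c) ?_ h1
      (c := l y₀) (fun x hx hxK => hlab x (ball_subset_ball hrρ.le hx) hxK)
    exact (hvs.mono (ball_subset_ball hrρ.le)).add contDiffOn_const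
  rw [eq_empty_iff_forall_notMem]
  intro x hx
  have h1 : dist x x₀ < ρ := hx.2
  have h2 := key ((dist x x₀ + ρ) / 2) (by have := dist_nonneg (x := x) (y := x₀); linarith)
    (by linarith)
  rw [eq_empty_iff_forall_notMem] at h2
  exact h2 x ⟨hx.1, by rw [mem_ball]; linarith⟩

end Pool.Agent.MP099f24
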