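import Mathlib
import Pool.Agent.Lib.MP_099f24_an.EA.Cauchy
import Pool.Agent.Lib.MP_099f24_an.EA.Zero
import Pool.Agent.Lib.MP_099f24_an.EA.Topo
import Pool.Agent.Lib.MP_099f24_an.EA.Cut
import Pool.Agent.Lib.MP_099f24_an.ST.Bound
import Pool.Agent.Lib.MP_099f24_an.TM.Dist
import Pool.Agent.Lib.MP_099f24_an.TM.Nosing
import Pool.Agent.Lib.MP_099f24_an.TM.Efin
import Pool.Agent.Lib.MP_099f24_an.TM.Eunb
import Pool.Agent.Lib.MP_099f24_an.TM.Ecross

/-!
# Topological minimizers in the plane have no compact relatively open pieces: assembly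
-/

set_option autoImplicit false

namespace Pool.Agent.MP099f24

open MeasureTheory Filter Topology Set Metric
open scoped ENNReal ContDiff

variable {Ω : Set ℂ} {u : ℂ → ℝ} {l : ℂ → Set ℂ} {K : Set ℂ}

/-- real differentiable functions with `∂̄ k = 0` are complex differentiable -/
theorem earn_diff {k : ℂ → ℂ} (hk : Differentiable ℝ k) {x : ℂ} (h0 : dbar k x = 0) :
    DifferentiableAt ℂ k x := by
  have h1 : fderiv ℝ k x Complex.I = Complex.I * fderiv ℝ k x 1 := by
    have h2 : fderiv ℝ k x 1 + Complex.I * fderiv ℝ k x Complex.I = 0 := by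
      simpa [dbar] using h0
    have h3 : Complex.I * (fderiv ℝ k x 1 + Complex.I * fderiv ℝ k x Complex.I) = 0 := by
      rw [h2, mul_zero]
    have h4 : Complex.I * (fderiv ℝ k x 1 + Complex.I * fderiv ℝ k x Complex.I) =
        Complex.I * fderiv ℝ k x 1 - fderiv ℝ k x Complex.I := by
      linear_combination (fderiv ℝ k x Complex.I) * Complex.I_mul_I
    rw [h4, sub_eq_zero] at h3
    exact h3.symm
  rw [differentiableAt_complex_iff_differentiableAt_real]
  exact ⟨hk x, by rw [h1, smul_eq_mul]⟩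

theorem earn_dbar_mul_conj {χ : ℂ → ℝ} (hχ : ContDiff ℝ ∞ χ) {P : ℂ → ℂ} {x : ℂ}
    (hP : DifferentiableAt ℂ P x) :
    dbar (fun y => (χ y : ℂ) * P y) x = dbar (fun y => (χ y : ℂ)) x * P x := by
  have hχ' : DifferentiableAt ℝ (fun y => (χ y : ℂ)) x :=
    (Complex.ofRealCLM.differentiable.comp (hχ.differentiable (by simp))) x
  have hP' : DifferentiableAt ℝ P x := hP.restrictScalars ℝ
  have h2 : fderiv ℝ P x Complex.I = Complex.I * fderiv ℝ P x 1 := by
    rw [hP.fderiv_restrictScalars ℝ]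
    simp only [ContinuousLinearMap.coe_restrictScalars']
    have := (fderiv ℂ P x).map_smul Complex.I 1
    simpa using this
  unfold dbar
  rw [fderiv_fun_mul hχ' hP']
  simp only [add_apply, smul_apply, smul_eq_mul, h2]
  linear_combination (χ x : ℂ) * (fderiv ℝ P x 1) / 2 * Complex.I_mul_I

theorem earn_dbar_holo {P : ℂ → ℂ} {x : ℂ} (hP : DifferentiableAt ℂ P x) : dbar P x = 0 := by
  have h2 : fderiv ℝ P x Complex.I = Complex.I * fderiv ℝ P x 1 := by
    rw [hP.fderiv_restrictScalars ℝ]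
    simp only [ContinuousLinearMap.coe_restrictScalars']
    have := (fderiv ℂ P x).map_smul Complex.I 1
    simpa using this
  unfold dbar
  rw [h2]
  linear_combination (fderiv ℝ P x 1) / 2 * Complex.I_mul_I

/-- no singular part on a closed set of length zero -/
theorem earn_null {B K : Set ℂ} (hB : IsOpen B) (hoff : IsOpen (B \ K))
    (h0 : (μH[1] : Measure ℂ) (K ∩ B) = 0) {ψ : ℂ → ℝ} (hψ : ContDiffOn ℝ 1 ψ (B \ K)) {M : ℝ}
    (hM : ∀ x, |ψ x| ≤ M) (hK0 : volume K = 0)
    (hfin : ∀ C, IsCompact C → C ⊆ B → ∫⁻ x in C \ K, ‖cgr ψ x‖ₑ ^ 2 < ⊤)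
    {φ : ℂ → ℝ} (hφ : ContDiff ℝ ∞ φ) (hφc : HasCompactSupport φ) (hφs : tsupport φ ⊆ B) (v : ℂ) :
    ∫ x in B \ K, ψ x * fderiv ℝ φ x v = - ∫ x in B \ K, φ x * inner ℝ (cgr ψ x) v := by
  classical
  have hM0 : 0 ≤ M := (abs_nonneg _).trans (hM 0)
  have hcg : ContinuousOn (cgr ψ) (B \ K) := by
    have h1 : ContinuousOn (fderiv ℝ ψ) (B \ K) := hψ.continuousOn_fderiv_of_isOpen hoff le_rfl
    have h2 : ∀ v : ℂ, ContinuousOn (fun x => ((fderiv ℝ ψ x v : ℝ) : ℂ)) (B \ K) := fun v =>
      Complex.continuous_ofReal.comp_continuousOn (h1.clm_apply continuousOn_const)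
    exact (h2 1).add ((h2 Complex.I).mul continuousOn_const)
  set w : ℂ → ℝ := (B \ K).indicator ψ with hw
  set g : ℂ → ℂ := (B \ K).indicator (cgr ψ) with hg
  have hwm : Measurable w := by
    rw [hw, ← piecewise_eq_indicator]
    exact hψ.continuousOn.measurable_piecewise continuousOn_const hoff.measurableSet
  have hgm : Measurable g := by
    rw [hg, ← piecewise_eq_indicator]
    exact hcg.measurable_piecewise continuousOn_const hoff.measurableSet
  have hev : ∀ x ∈ B \ K, w =ᶠ[𝓝 x] ψ := by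
    intro x hx
    filter_upwards [hoff.mem_nhds hx] with y hy
    rw [hw, indicator_of_mem hy]
  have hBK : B \ (K ∩ B) = B \ K := by
    ext x; simp only [Set.mem_sdiff, mem_inter_iff]; tauto
  have hD : StrData B (K ∩ B) M w g :=
    { isOpen := hB
      sub := inter_subset_right
      rel := by rw [hBK]; exact hoff
      fin := fun C _ _ => (measure_mono inter_subset_left).trans_lt (by rw [h0]; exact ENNReal.zero_lt_top)
      wm := hwm
      wb := by
        intro x
        by_cases hx : x ∈ B \ K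
        · rw [hw, indicator_of_mem hx]; exact hM x
        · rw [hw, indicator_of_notMem hx, abs_zero]; exact hM0
      gm := hgm
      lip := by
        intro x hx
        rw [hBK] at hx
        obtain ⟨L, t, ht, hL⟩ := (hψ.contDiffAt (hoff.mem_nhds hx)).exists_lipschitzOnWith
        refine ⟨L, t ∩ (B \ K), inter_mem ht (hoff.mem_nhds hx), ?_⟩
        have h1 : LipschitzOnWith L ψ (t ∩ (B \ K)) := hL.mono inter_subset_left
        intro y hy z hz
        rw [hw, indicator_of_mem hy.2, indicator_of_mem hz.2]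
        exact h1 hy hz
      hw := by
        refine Eventually.of_forall fun x hx => ?_
        rw [hBK] at hx
        have h1 : HasFDerivAt ψ (fderiv ℝ ψ x) x :=
          ((hψ.contDiffAt (hoff.mem_nhds hx)).differentiableAt one_ne_zero).hasFDerivAt
        have h2 : innerSL ℝ (g x) = fderiv ℝ ψ x := by
          ext v
          rw [hg, indicator_of_mem hx, innerSL_apply_apply, cgr_inner]
        rw [h2]
        exact h1.congr_of_eventuallyEq (hev x hx)
      gi := by
        rw [locallyIntegrableOn_iff hB.isLocallyClosed]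
        intro C hCB hC
        have h1 : ∫⁻ x in C, ‖g x‖ₑ ^ 2 < ⊤ := by
          refine lt_of_le_of_lt ?_ (hfin C hC hCB)
          rw [← lintegral_indicator hC.measurableSet,
            ← lintegral_indicator₀ (hC.measurableSet.nullMeasurableSet.diff (NullMeasurableSet.of_null hK0))]
          refine lintegral_mono fun x => ?_
          by_cases hx : x ∈ C
          · rw [indicator_of_mem hx]
            by_cases hxK : x ∈ K
            · have : g x = 0 := by rw [hg, indicator_of_notMem (fun hh => hh.2 hxK)]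
              simp [this]
            · rw [indicator_of_mem (show x ∈ C \ K from ⟨hx, hxK⟩), hg,
                indicator_of_mem (show x ∈ B \ K from ⟨hCB hx, hxK⟩)]
          · rw [indicator_of_notMem hx]; exact zero_le
        have hmem : MemLp g 2 (volume.restrict C) := by
          refine ⟨hgm.aestronglyMeasurable, ?_⟩
          rw [eLpNorm_lt_top_iff_lintegral_rpow_enorm_lt_top two_ne_zero ENNReal.ofNat_ne_top]
          simpa using h1
        have hfinC : IsFiniteMeasure (volume.restrict C) :=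
          ⟨by rw [Measure.restrict_apply_univ]; exact hC.measure_lt_top⟩
        exact hmem.integrable one_le_two }
  obtain ⟨M₁, -, hM₁⟩ := trace_beta_bound
  have h1 := str_T_bound hD hM₁ hφ hφc hφs v
  have h2 : ∫⁻ x in K ∩ B, ‖φ x‖ₑ ∂(μH[1] : Measure ℂ) = 0 := by
    rw [Measure.restrict_eq_zero.2 h0, lintegral_zero_measure]
  rw [h2, mul_zero, nonpos_iff_eq_zero, enorm_eq_zero] at h1
  unfold strT at h1
  have h3 : ∫ x, w x * fderiv ℝ φ x v = ∫ x in B \ K, ψ x * fderiv ℝ φ x v := by
    rw [← integral_indicator hoff.measurableSet]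
    refine integral_congr_ae (Eventually.of_forall fun x => ?_)
    by_cases hx : x ∈ B \ K
    · simp only [hw, indicator_of_mem hx]
    · simp only [hw, indicator_of_notMem hx, zero_mul]
  have h4 : ∫ x, φ x * inner ℝ (g x) v = ∫ x in B \ K, φ x * inner ℝ (cgr ψ x) v := by
    rw [← integral_indicator hoff.measurableSet]
    refine integral_congr_ae (Eventually.of_forall fun x => ?_)
    by_cases hx : x ∈ B \ K
    · simp only [hg, indicator_of_mem hx]
    · simp only [hg, indicator_of_notMem hx, inner_zero_left, mul_zero]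
  rw [h3, h4] at h1
  linarith

/-- `K` has positive length near each of its points -/
theorem TMin.earn_pos (h : TMin Ω u l K) {x₀ : ℂ} (hx₀ : x₀ ∈ K) {ρ : ℝ} (hρ : 0 < ρ)
    (hb : ball x₀ ρ ⊆ Ω) : 0 < (μH[1] : Measure ℂ) (K ∩ ball x₀ ρ) := by
  rw [pos_iff_ne_zero]
  intro h0
  have hKm : MeasurableSet K := h.toTConf.measurableSet
  have hK0 : volume K = 0 := h.toTConf.volume_eq_zero
  have hne : K ∩ ball x₀ ρ = ∅ := by
    refine h.nosing hρ hb ?_
    rintro ψ hψ ⟨M, hM⟩ hfin φ hφ hφc hφs v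
    have hoff : IsOpen (ball x₀ ρ \ K) := by
      have : ball x₀ ρ \ K = ball x₀ ρ ∩ (Ω \ K) := by
        ext x; constructor
        · rintro ⟨h1, h2⟩; exact ⟨h1, hb h1, h2⟩
        · rintro ⟨h1, -, h2⟩; exact ⟨h1, h2⟩
      rw [this]
      exact isOpen_ball.inter h.isOpen_off
    exact earn_null isOpen_ball hoff h0 (hψ.mono (sdiff_subset_sdiff_left hb)) hM hK0
      (fun C hC hCB => hfin C hC (hCB.trans hb)) hφ hφc hφs v
  exact (Set.eq_empty_iff_forall_notMem.1 hne) x₀ ⟨hx₀, mem_ball_self hρ⟩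


/-- A topological minimizer in the plane has no compact relatively open piece. -/
theorem TMin.noPiece (h : TMin univ u l K) : NoPiece K := by
  intro C hC hCne hCK hcl
  have hK : IsClosed K := by
    have := h.isOpen_off
    rw [← compl_eq_univ_sdiff] at this
    exact isOpen_compl_iff.1 this
  have hK0 : volume K = 0 := h.toTConf.volume_eq_zero
  have hKu : ¬ Bornology.IsBounded K := by
    intro hb
    have h1 := h.unb hb
    rw [h1] at hCK
    exact hCne.ne_empty (subset_empty_iff.1 hCK)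
  obtain ⟨G, hGo, hGc, ⟨R, hR⟩, hCG, hKG, hKGne⟩ := ea_topo hK hKu hC hCne hCK hcl
  obtain ⟨χ, G', U, hχ, hχc, hG'o, hUo, hGG', hKU, hχ0, hχ1⟩ := ea_cut hK hGo hR hKG
  set P : ℂ → ℂ := fun x => (starRingEnd ℂ) (cgr u x) with hPdef
  have hP : DifferentiableOn ℂ P (univ \ K) := h.hol
  have hKo : IsOpen (univ \ K : Set ℂ) := isOpen_univ.sdiff hK
  have hPat : ∀ x, x ∉ K → DifferentiableAt ℂ P x := fun x hx =>
    (hP x ⟨mem_univ x, hx⟩).differentiableAt (hKo.mem_nhds ⟨mem_univ x, hx⟩)
  set X : ℂ → ℂ := fun y => (χ y : ℂ) with hXdef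
  have hX : ContDiff ℝ ∞ X := Complex.ofRealCLM.contDiff.comp hχ
  have hXc : HasCompactSupport X := hχc.comp_left (g := fun t : ℝ => (t : ℂ)) Complex.ofReal_zero
  have hVo : IsOpen (G' ∪ U) := hG'o.union hUo
  have hKV : K ⊆ G' ∪ U := by
    intro x hx
    by_cases hxG : x ∈ G
    · exact Or.inl (hGG' (subset_closure hxG))
    · exact Or.inr (hKU ⟨hx, hxG⟩)
  have hX0 : ∀ x ∈ G' ∪ U, fderiv ℝ X x = 0 := by
    rintro x (hx | hx)
    · have : X =ᶠ[𝓝 x] fun _ => 0 := by
        filter_upwards [hG'o.mem_nhds hx] with y hy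
        simp [hXdef, hχ0 y hy]
      rw [this.fderiv_eq, fderiv_fun_const]
      rfl
    · have : X =ᶠ[𝓝 x] fun _ => 1 := by
        filter_upwards [hUo.mem_nhds hx] with y hy
        simp [hXdef, hχ1 y hy]
      rw [this.fderiv_eq, fderiv_fun_const]
      rfl
  have hdX0 : ∀ x ∈ G' ∪ U, dbar X x = 0 := by
    intro x hx
    simp [dbar, hX0 x hx]
  -- the right hand side
  set F : ℂ → ℂ := fun x => dbar X x * P x with hFdef
  have hdX : ContDiff ℝ ∞ (dbar X) := by
    have h1 : ∀ v : ℂ, ContDiff ℝ ∞ (fun x => fderiv ℝ X x v) := fun v =>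
      (hX.fderiv_right (m := ∞) (by simp)).clm_apply contDiff_const
    unfold dbar
    exact ((h1 1).add (contDiff_const.mul (h1 Complex.I))).div_const 2
  have hF : ContDiff ℝ ∞ F := by
    rw [contDiff_iff_contDiffAt]
    intro x
    by_cases hx : x ∈ G' ∪ U
    · have : F =ᶠ[𝓝 x] fun _ => 0 := by
        filter_upwards [hVo.mem_nhds hx] with y hy
        simp [hFdef, hdX0 y hy]
      exact contDiffAt_const.congr_of_eventuallyEq this
    · have hxK : x ∉ K := fun hh => hx (hKV hh)
      have h1 : AnalyticAt ℂ P x :=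
        hP.analyticAt (hKo.mem_nhds ⟨mem_univ x, hxK⟩)
      have h2 : ContDiffAt ℝ ∞ P x := (h1.restrictScalars (𝕜 := ℝ)).contDiffAt
      exact hdX.contDiffAt.mul h2
  have hFc : HasCompactSupport F := by
    have h1 : HasCompactSupport (dbar X) := by
      refine hXc.mono' ?_
      intro x hx
      by_contra hxs
      refine hx ?_
      have : X =ᶠ[𝓝 x] fun _ => 0 := by
        filter_upwards [(isClosed_tsupport X).isOpen_compl.mem_nhds hxs] with y hy
        exact image_eq_zero_of_notMem_tsupport hy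
      simp [dbar, this.fderiv_eq]
    exact h1.mul_right
  obtain ⟨k, hk, hkF, Ck, hkC⟩ := ea_cauchy hF hFc
  have hkX : ∀ x ∉ K, dbar k x = dbar X x * (starRingEnd ℂ) (cgr u x) := by
    intro x _
    rw [hkF x]
  have hkV : ∀ x ∈ G' ∪ U, dbar k x = 0 := by
    intro x hx
    rw [hkF x, hFdef]
    simp [hdX0 x hx]
  have hk0 : ∀ x ∈ K, fderiv ℝ k x = 0 := by
    intro x hxK
    by_contra hne
    obtain ⟨ρ, hρ, -, hd⟩ := tm_dist hk hVo (subset_univ _) hkV
      (fun F ψ hψ => h.cross hX hXc hVo hKV hX0 hk hkX hkC hψ) isOpen_univ hKo hK0 (hKV hxK) hne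
    have h1 := h.nosing hρ (subset_univ _) hd
    exact (Set.eq_empty_iff_forall_notMem.1 h1) x ⟨hxK, mem_ball_self hρ⟩
  have hkd : Differentiable ℝ k := hk.differentiable (by simp)
  have hpos : ∀ W : Set ℂ, IsOpen W → (K ∩ W).Nonempty → 0 < (μH[1] : Measure ℂ) (K ∩ W) := by
    intro W hW ⟨x, hxK, hxW⟩
    obtain ⟨δ, hδ, hball⟩ := Metric.isOpen_iff.1 hW x hxW
    exact (h.earn_pos hxK hδ (subset_univ _)).trans_le
      (measure_mono (inter_subset_inter_right _ hball))
  have hderiv : ∀ x, dbar k x = 0 → fderiv ℝ k x = 0 → deriv k x = 0 := by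
    intro x hx hx0
    have h1 := earn_diff hkd hx
    have h2 : fderiv ℝ k x = (fderiv ℂ k x).restrictScalars ℝ := h1.fderiv_restrictScalars ℝ
    have h3 : fderiv ℂ k x 1 = 0 := by
      have := congrArg (fun L : ℂ →L[ℝ] ℂ => L 1) h2
      simp only [ContinuousLinearMap.coe_restrictScalars', hx0,
        zero_apply] at this
      exact this.symm
    rw [← fderiv_apply_one_eq_deriv]
    exact h3
  -- k vanishes on G
  have hkG : ∀ x ∈ G, k x = 0 := by
    have hGV : G ⊆ G' ∪ U := (subset_closure.trans hGG').trans subset_union_left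
    obtain ⟨c, hc⟩ := ea_zero2 (E := K ∩ G) hGo hGc
      (fun x hx => (earn_diff hkd (hkV x (hGV hx))).differentiableWithinAt)
      (fun x hx => hx.2) (hpos G hGo hKGne)
      (fun x hx => hderiv x (hkV x (hGV hx.2)) (hk0 x hx.1))
    have hc0 : c = 0 := by
      have h1 : Tendsto (fun n : ℕ => Ck / (1 + ((n : ℝ) + |R|))) atTop (𝓝 0) := by
        refine Tendsto.const_div_atTop ?_ _
        refine tendsto_atTop_add_const_left _ _ ?_
        exact tendsto_atTop_add_const_right _ _ tendsto_natCast_atTop_atTop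
      have h2 : ∀ n : ℕ, ‖c‖ ≤ Ck / (1 + ((n : ℝ) + |R|)) := by
        intro n
        have h3 : ‖(((n : ℝ) + |R| : ℝ) : ℂ)‖ = (n : ℝ) + |R| := by
          rw [Complex.norm_real, Real.norm_eq_abs, abs_of_nonneg (by positivity)]
        have h4 : (((n : ℝ) + |R| : ℝ) : ℂ) ∈ G := by
          refine hR _ ?_
          rw [h3]
          have : (0 : ℝ) ≤ n := by positivity
          linarith [le_abs_self R]
        rw [← hc _ h4]
        refine ((hkC _).1).trans ?_
        rw [h3]
      have h3 : ‖c‖ ≤ 0 := ge_of_tendsto' h1 h2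
      simpa using h3
    intro x hx
    rw [hc x hx, hc0]
  -- the function M
  set Mf : ℂ → ℂ := fun x => X x * P x - k x with hMdef
  have hMd : ∀ x, x ∉ K → DifferentiableAt ℂ Mf x := by
    intro x hx
    have hPx := hPat x hx
    have h1 : DifferentiableAt ℝ (fun y => X y * P y) x :=
      ((hX.differentiable (by simp)) x).mul (hPx.restrictScalars ℝ)
    rw [differentiableAt_complex_iff_differentiableAt_real]
    have h2 : DifferentiableAt ℝ Mf x := h1.sub (hkd x)
    refine ⟨h2, ?_⟩
    have h3 : dbar Mf x = 0 := by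
      have h4 : dbar Mf x = dbar (fun y => X y * P y) x - dbar k x := by
        unfold dbar
        rw [hMdef, fderiv_fun_sub h1 (hkd x)]
        simp only [sub_apply]
        ring
      rw [h4, earn_dbar_mul_conj hχ hPx, hkF x]
      simp [hFdef, hXdef]
    have h5 : fderiv ℝ Mf x 1 + Complex.I * fderiv ℝ Mf x Complex.I = 0 := by
      simpa [dbar] using h3
    have h6 : Complex.I * (fderiv ℝ Mf x 1 + Complex.I * fderiv ℝ Mf x Complex.I) = 0 := by
      rw [h5, mul_zero]
    have h7 : Complex.I * (fderiv ℝ Mf x 1 + Complex.I * fderiv ℝ Mf x Complex.I) =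
        Complex.I * fderiv ℝ Mf x 1 - fderiv ℝ Mf x Complex.I := by
      linear_combination (fderiv ℝ Mf x Complex.I) * Complex.I_mul_I
    rw [h7, sub_eq_zero] at h6
    rw [smul_eq_mul]
    exact h6.symm
  have hM0G : ∀ x ∈ G, Mf x = 0 := by
    intro x hx
    simp [hMdef, hXdef, hχ0 x (hGG' (subset_closure hx)), hkG x hx]
  -- balls around the frontier of G
  have hfr : ∀ x ∈ frontier G, ∃ ε > 0, Disjoint (ball x ε) K := by
    intro x hx
    have hxK : x ∉ K := fun hh => (Set.disjoint_left.1 hKG) hh hx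
    obtain ⟨ε, hε, hb⟩ := Metric.isOpen_iff.1 hK.isOpen_compl x hxK
    exact ⟨ε, hε, Set.disjoint_left.2 fun y hy => hb hy⟩
  choose! ε hε0 hεK using hfr
  have hM0 : ∀ x ∈ frontier G, ∀ y ∈ ball x (ε x), Mf y = 0 := by
    intro x hx y hy
    have hxc : x ∈ closure G := frontier_subset_closure hx
    obtain ⟨z, hzb, hzG⟩ := mem_closure_iff.1 hxc (ball x (ε x)) isOpen_ball
      (mem_ball_self (hε0 x hx))
    have han : AnalyticOnNhd ℂ Mf (ball x (ε x)) := by
      refine DifferentiableOn.analyticOnNhd ?_ isOpen_ball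
      intro w hw
      exact (hMd w (Set.disjoint_left.1 (hεK x hx) hw)).differentiableWithinAt
    have hev : Mf =ᶠ[𝓝 z] 0 := by
      filter_upwards [hGo.mem_nhds hzG] with w hw using hM0G w hw
    exact han.eqOn_zero_of_preconnected_of_eventuallyEq_zero
      (convex_ball x (ε x)).isPreconnected hzb hev hy
  set W : Set ℂ := ⋃ x ∈ frontier G, ball x (ε x) with hWdef
  have hWo : IsOpen W := isOpen_biUnion fun x _ => isOpen_ball
  have hWK : ∀ y ∈ W, y ∉ K := by
    intro y hy
    obtain ⟨x, hx, hyx⟩ := mem_iUnion₂.1 hy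
    exact Set.disjoint_left.1 (hεK x hx) hyx
  have hWM : ∀ y ∈ W, Mf y = 0 := by
    intro y hy
    obtain ⟨x, hx, hyx⟩ := mem_iUnion₂.1 hy
    exact hM0 x hx y hyx
  set Q : Set ℂ := (closure G)ᶜ ∪ W with hQdef
  have hQo : IsOpen Q := isClosed_closure.isOpen_compl.union hWo
  have hGQ : Gᶜ ⊆ Q := by
    intro x hx
    by_cases hxc : x ∈ closure G
    · refine Or.inr (mem_iUnion₂.2 ⟨x, ?_, mem_ball_self (hε0 x ?_)⟩) <;>
      exact ⟨hxc, fun hh => hx (interior_subset hh)⟩
    · exact Or.inl hxc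
  have hKQ : K ∩ Q ⊆ Gᶜ := by
    rintro x ⟨hxK, hxQ | hxQ⟩
    · exact fun hh => hxQ (subset_closure hh)
    · exact absurd hxK (hWK x hxQ)
  -- the holomorphic extension
  set p : ℂ → ℂ := fun x => k x + (1 - X x) * P x with hpdef
  have hpK : ∀ x ∈ K ∩ Q, p =ᶠ[𝓝 x] k := by
    intro x hx
    have hxU : x ∈ U := hKU ⟨hx.1, hKQ hx⟩
    filter_upwards [hUo.mem_nhds hxU] with y hy
    simp [hpdef, hXdef, hχ1 y hy]
  have hpd : DifferentiableOn ℂ p Q := by
    intro x hx
    refine DifferentiableAt.differentiableWithinAt ?_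
    by_cases hxK : x ∈ K
    · refine (earn_diff hkd (hkV x (hKV hxK))).congr_of_eventuallyEq (hpK x ⟨hxK, hx⟩)
    · have h1 : p = fun y => P y - Mf y := by
        funext y
        simp only [hpdef, hMdef]
        ring
      rw [h1]
      exact (hPat x hxK).sub (hMd x hxK)
  obtain ⟨c0, hc0⟩ := hCne
  have hc0K : c0 ∈ K := hCK hc0
  have hc0Q : c0 ∈ Q := hGQ (hCG hc0)
  set Q' : Set ℂ := connectedComponentIn Q c0 with hQ'def
  have hQ'o : IsOpen Q' := hQo.connectedComponentIn
  have hQ'c : IsPreconnected Q' := isPreconnected_connectedComponentIn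
  have hQ'Q : Q' ⊆ Q := connectedComponentIn_subset _ _
  have hc0Q' : c0 ∈ Q' := mem_connectedComponentIn hc0Q
  have hQQ'o : IsOpen (Q \ Q') := by
    rw [isOpen_iff_mem_nhds]
    rintro y ⟨hyQ, hyQ'⟩
    have h1 : connectedComponentIn Q y ∈ 𝓝 y :=
      (hQo.connectedComponentIn).mem_nhds (mem_connectedComponentIn hyQ)
    refine mem_of_superset h1 ?_
    intro z hz
    refine ⟨connectedComponentIn_subset _ _ hz, fun hz' => hyQ' ?_⟩
    have h2 := connectedComponentIn_eq hz
    have h3 := connectedComponentIn_eq hz'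
    rw [hQ'def, h3, ← h2]
    exact mem_connectedComponentIn hyQ
  obtain ⟨c, hc⟩ := ea_zero2 (E := K ∩ Q') hQ'o hQ'c
    (hpd.mono hQ'Q) (fun x hx => hx.2) (hpos Q' hQ'o ⟨c0, hc0K, hc0Q'⟩)
    (fun x hx => by
      rw [(hpK x ⟨hx.1, hQ'Q hx.2⟩).deriv_eq]
      exact hderiv x (hkV x (hKV hx.1)) (hk0 x hx.1))
  have hGcc : IsCompact Gᶜ := by
    refine Metric.isCompact_of_isClosed_isBounded hGo.isClosed_compl ?_
    refine (isBounded_closedBall (x := (0 : ℂ)) (r := R)).subset ?_
    intro x hx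
    rw [mem_closedBall, dist_zero_right]
    by_contra hh
    exact hx (hR x (not_le.1 hh).le)
  have hD : IsCompact (Gᶜ ∩ Q') := by
    have : Gᶜ ∩ Q' = Gᶜ \ (Q \ Q') := by
      ext x
      constructor
      · rintro ⟨h1, h2⟩
        exact ⟨h1, fun hh => hh.2 h2⟩
      · rintro ⟨h1, h2⟩
        refine ⟨h1, ?_⟩
        by_contra hh
        exact h2 ⟨hGQ h1, hh⟩
    rw [this]
    exact hGcc.diff hQQ'o
  have hfin := h.finald hQ'o hD inter_subset_right (subset_univ _)
    (fun x hx => ⟨hKQ ⟨hx.1, hQ'Q hx.2⟩, hx.2⟩) (c := (starRingEnd ℂ) c) (by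
      intro x hxQ
      have hxG : x ∈ G := by
        by_contra hh
        exact hxQ.2 ⟨hh, hxQ.1⟩
      have hxW : x ∈ W := by
        rcases hQ'Q hxQ.1 with h1 | h1
        · exact absurd (subset_closure hxG) h1
        · exact h1
      have h1 := hc x hxQ.1
      have h2 := hWM x hxW
      have h3 : P x = p x + Mf x := by
        simp only [hpdef, hMdef]
        ring
      have h4 : cgr u x = (starRingEnd ℂ) (P x) := by
        simp only [hPdef, Complex.conj_conj]
      rw [h4, h3, h1, h2, add_zero])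
  exact (Set.eq_empty_iff_forall_notMem.1 hfin) c0 ⟨hc0K, hc0Q'⟩

end Pool.Agent.MP099f24
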