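import Mathlib
import Pool.Agent.Lib.MP_099f24_an.TM.Bas
import Pool.Agent.Lib.MP_099f24_an.SD.Outer

/-!
# Topological minimizers: dictionary with the gradient `outer_grad` of the library
-/

set_option autoImplicit false

namespace Pool.Agent.MP099f24

open MeasureTheory Filter Topology Set Metric
open scoped ENNReal ContDiff

theorem cgr_eq_outer (w : ℂ → ℝ) (x : ℂ) : cgr w x = outer_grad w x := by
  refine ext_inner_right ℝ fun v => ?_
  rw [cgr_inner, outer_inner_grad]

end Pool.Agent.MP099f24
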