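import Mathlib
import Pool.Agent.Lib.MP_099f24_an.TM.Defs
import Pool.Agent.Lib.MP_099f24_an.TM.Bas
import Pool.Agent.Lib.MP_099f24_an.TP.Cutoff

/-!
# Topological minimizers: the flux lemma

If a compact set `S` of finite length is added to `K` and the indicator of `V` is locally constant
off `K ∪ S`, then the flux of the gradient of `u` out of `V` through `S` vanishes: flux `c` through
infinity costs `c ^ 2 * log R`, blocking it costs only the length of `S`.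
-/

set_option autoImplicit false

namespace Pool.Agent.MP099f24

open MeasureTheory Filter Topology Set Metric
open scoped ENNReal ContDiff

variable {Ω : Set ℂ} {u w : ℂ → ℝ} {l : ℂ → Set ℂ} {K : Set ℂ}

theorem flx_sq (a b : ℂ) (t : ℝ) : ‖a + (t : ℂ) * b‖ ^ 2 =
    ‖a‖ ^ 2 + 2 * t * inner ℝ a b + t ^ 2 * ‖b‖ ^ 2 := by
  rw [show (t : ℂ) * b = t • b from (Complex.real_smul).symm, norm_add_sq_real,
    real_inner_smul_right, norm_smul, mul_pow, Real.norm_eq_abs, sq_abs]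
  ring

theorem flx_esq (a b : ℂ) : ‖a + b‖ₑ ^ 2 ≤ 2 * ‖a‖ₑ ^ 2 + 2 * ‖b‖ₑ ^ 2 := by
  have h1 : ‖a + b‖ ^ 2 ≤ 2 * ‖a‖ ^ 2 + 2 * ‖b‖ ^ 2 := by
    have h2 := norm_add_le a b
    have h3 : ‖a + b‖ ^ 2 ≤ (‖a‖ + ‖b‖) ^ 2 := by gcongr
    nlinarith [sq_nonneg (‖a‖ - ‖b‖)]
  have h4 : ∀ z : ℂ, ‖z‖ₑ ^ 2 = ENNReal.ofReal (‖z‖ ^ 2) := by
    intro z
    rw [← ofReal_norm, ENNReal.ofReal_pow (norm_nonneg _)]
  rw [h4, h4, h4, show (2 : ℝ≥0∞) = ENNReal.ofReal 2 by norm_num,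
    ← ENNReal.ofReal_mul (by norm_num), ← ENNReal.ofReal_mul (by norm_num),
    ← ENNReal.ofReal_add (by positivity) (by positivity)]
  exact ENNReal.ofReal_le_ofReal h1

/-- the competitor `u + t ψ`, with the added set `S` -/
theorem flx_comp (h : TMin univ u l K) {S F : Set ℂ} (hS : IsCompact S)
    (hSf : (μH[1] : Measure ℂ) S < ⊤) (hF : IsCompact F) (hSF : S ⊆ F) {ψ : ℂ → ℝ}
    (hψ : ContDiffOn ℝ 1 ψ (K ∪ S)ᶜ) (hψ0 : ∀ x ∉ F, ψ x = 0)
    (hψi : ∫⁻ x in F \ (K ∪ S), ‖cgr ψ x‖ₑ ^ 2 < ⊤) (t : ℝ) :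
    0 ≤ ((μH[1] : Measure ℂ) S).toReal +
      2 * t * (∫ x in F \ (K ∪ S), inner ℝ (cgr u x) (cgr ψ x)) +
      t ^ 2 * ∫ x in F \ (K ∪ S), ‖cgr ψ x‖ ^ 2 := by
  have hKc : IsClosed K := h.toTConf.isClosed
  have hK'c : IsClosed (K ∪ S) := hKc.union hS.isClosed
  have hO : IsOpen (K ∪ S)ᶜ := hK'c.isOpen_compl
  have hu : ∀ x ∈ (K ∪ S)ᶜ, DifferentiableAt ℝ u x := fun x hx =>
    h.toTConf.diffAt (mem_univ x) fun hxK => hx (Or.inl hxK)
  have hψd : ∀ x ∈ (K ∪ S)ᶜ, DifferentiableAt ℝ ψ x := fun x hx =>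
    ((hψ.contDiffAt (hO.mem_nhds hx)).differentiableAt (by simp))
  have hG : MeasurableSet (F \ (K ∪ S)) := hF.isClosed.measurableSet.diff hK'c.measurableSet
  have hGsub : F \ (K ∪ S) ⊆ F \ K := fun x hx => ⟨hx.1, fun hxK => hx.2 (Or.inl hxK)⟩
  have hGsub' : F \ (K ∪ S) ⊆ (K ∪ S)ᶜ := fun x hx => hx.2
  -- the gradient of the competitor
  have hw : ∀ x ∈ (K ∪ S)ᶜ, cgr (fun y => u y + t * ψ y) x = cgr u x + (t : ℂ) * cgr ψ x := by
    intro x hx
    rw [cgr_add (hu x hx) ((hψd x hx).const_mul t), cgr_const_mul]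
  -- measurability and integrability
  have hgm : AEStronglyMeasurable (cgr u) (volume.restrict (F \ (K ∪ S))) :=
    (h.toTConf.aesm' (subset_univ F)).mono_set hGsub
  have hψc : ContinuousOn (cgr ψ) (K ∪ S)ᶜ := by
    have h1 : ContinuousOn (fderiv ℝ ψ) (K ∪ S)ᶜ := hψ.continuousOn_fderiv_of_isOpen hO le_rfl
    exact cgrL_continuous.comp_continuousOn h1
  have hψm : AEStronglyMeasurable (cgr ψ) (volume.restrict (F \ (K ∪ S))) :=
    (hψc.aestronglyMeasurable hO.measurableSet).mono_set hGsub'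
  have hg2 : IntegrableOn (fun x => ‖cgr u x‖ ^ 2) (F \ (K ∪ S)) :=
    (h.toTConf.integrable_sq hF (subset_univ F)).mono_set hGsub
  have hψ2 : IntegrableOn (fun x => ‖cgr ψ x‖ ^ 2) (F \ (K ∪ S)) := tm_integrable hψm hψi
  have hin : IntegrableOn (fun x => inner ℝ (cgr u x) (cgr ψ x)) (F \ (K ∪ S)) := by
    refine Integrable.mono (hg2.add hψ2) (hgm.inner hψm) (ae_of_all _ fun x => ?_)
    have h1 : |inner ℝ (cgr u x) (cgr ψ x)| ≤ ‖cgr u x‖ * ‖cgr ψ x‖ :=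
      abs_real_inner_le_norm _ _
    have h2 : ‖cgr u x‖ * ‖cgr ψ x‖ ≤ ‖cgr u x‖ ^ 2 + ‖cgr ψ x‖ ^ 2 := by
      nlinarith [sq_nonneg (‖cgr u x‖ - ‖cgr ψ x‖), sq_nonneg (‖cgr u x‖),
        sq_nonneg (‖cgr ψ x‖)]
    rw [Real.norm_eq_abs, Real.norm_eq_abs]
    exact (h1.trans h2).trans (le_abs_self _)
  -- the competitor
  have hconf : TConf univ (fun y => u y + t * ψ y) l (K ∪ S) := by
    refine ⟨isOpen_univ, subset_univ _, ?_, ?_, ?_, ?_⟩
    · rw [← compl_eq_univ_sdiff]; exact hO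
    · rw [← compl_eq_univ_sdiff]
      refine ContDiffOn.add (h.smooth.mono ?_) (contDiffOn_const.mul hψ)
      rw [← compl_eq_univ_sdiff]
      exact compl_subset_compl.2 subset_union_left
    · rintro x ⟨-, hx⟩
      exact h.lab x ⟨mem_univ x, fun hxK => hx (Or.inl hxK)⟩
    · intro C hC _
      have h1 : (μH[1] : Measure ℂ) ((K ∪ S) ∩ C) < ⊤ := by
        refine lt_of_le_of_lt (measure_mono (t := (K ∩ C) ∪ S) ?_) ?_
        · rintro x ⟨hx | hx, hxC⟩
          · exact Or.inl ⟨hx, hxC⟩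
          · exact Or.inr hx
        · exact (measure_union_le _ _).trans_lt
            (ENNReal.add_lt_top.2 ⟨h.toTConf.haus_lt hC (subset_univ C), hSf⟩)
      have h2 : ∫⁻ x in C \ (K ∪ S), ‖cgr (fun y => u y + t * ψ y) x‖ₑ ^ 2 < ⊤ := by
        have h3 : ∫⁻ x in C \ (K ∪ S), ‖cgr (fun y => u y + t * ψ y) x‖ₑ ^ 2 ≤
            ∫⁻ x in C \ (K ∪ S), (2 * ‖cgr u x‖ₑ ^ 2 + 2 * ‖(t : ℂ) * cgr ψ x‖ₑ ^ 2) := by
          refine setLIntegral_mono' (hC.isClosed.measurableSet.diff hK'c.measurableSet) ?_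
          intro x hx
          rw [hw x hx.2]
          exact flx_esq _ _
        refine h3.trans_lt ?_
        have hCsub : C \ (K ∪ S) ⊆ C \ K := fun x hx => ⟨hx.1, fun hxK => hx.2 (Or.inl hxK)⟩
        have hCm : AEStronglyMeasurable (cgr u) (volume.restrict (C \ (K ∪ S))) :=
          (h.toTConf.aesm' (subset_univ C)).mono_set hCsub
        rw [lintegral_add_left' ((hCm.enorm.pow_const 2).const_mul 2)]
        refine ENNReal.add_lt_top.2 ⟨?_, ?_⟩
        · rw [lintegral_const_mul' _ _ (by norm_num)]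
          exact ENNReal.mul_lt_top (by norm_num) ((lintegral_mono_set hCsub).trans_lt
            (h.toTConf.lint_lt hC (subset_univ C)))
        · rw [lintegral_const_mul' _ _ (by norm_num)]
          refine ENNReal.mul_lt_top (by norm_num) ?_
          -- the gradient of `ψ` vanishes off `F`
          have h4 : ∫⁻ x in C \ (K ∪ S), ‖(t : ℂ) * cgr ψ x‖ₑ ^ 2 ≤
              ∫⁻ x in F \ (K ∪ S), ‖(t : ℂ) * cgr ψ x‖ₑ ^ 2 := by
            have h5 : ∫⁻ x in C \ (K ∪ S), ‖(t : ℂ) * cgr ψ x‖ₑ ^ 2 ≤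
                ∫⁻ x in (C \ (K ∪ S)), (F \ (K ∪ S)).indicator
                  (fun x => ‖(t : ℂ) * cgr ψ x‖ₑ ^ 2) x := by
              refine setLIntegral_mono' (hC.isClosed.measurableSet.diff hK'c.measurableSet) ?_
              intro x hx
              by_cases hxF : x ∈ F
              · rw [indicator_of_mem (show x ∈ F \ (K ∪ S) from ⟨hxF, hx.2⟩)]
              · have h6 : cgr ψ x = 0 := by
                  have h7 : ψ =ᶠ[𝓝 x] fun _ => 0 := by
                    filter_upwards [hF.isClosed.isOpen_compl.mem_nhds hxF] with y hy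
                    exact hψ0 y hy
                  rw [cgr_congr h7, cgr_const]
                rw [h6]
                simp
            refine h5.trans ?_
            rw [← lintegral_indicator hG]
            exact setLIntegral_le_lintegral _ _
          refine h4.trans_lt ?_
          have h8 : ∀ x, ‖(t : ℂ) * cgr ψ x‖ₑ ^ 2 = ‖(t : ℂ)‖ₑ ^ 2 * ‖cgr ψ x‖ₑ ^ 2 := by
            intro x
            rw [enorm_mul, mul_pow]
          simp_rw [h8]
          have h9 : ‖(t : ℂ)‖ₑ ^ 2 ≠ ⊤ := ENNReal.pow_ne_top enorm_ne_top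
          rw [lintegral_const_mul' _ _ h9]
          exact ENNReal.mul_lt_top h9.lt_top hψi
      exact ENNReal.add_lt_top.2 ⟨h2, h1⟩
  have hmin := h.min (fun y => u y + t * ψ y) l (K ∪ S) F hconf hF (subset_univ F)
    (fun x hx => ⟨fun hx' => hx'.resolve_right fun hxS => hx.2 (hSF hxS), Or.inl⟩)
    (fun x hx _ => ⟨by rw [hψ0 x hx.2]; ring, rfl⟩)
  -- the estimate
  have hKF : (μH[1] : Measure ℂ) (K ∩ F) ≠ ⊤ := (h.toTConf.haus_lt hF (subset_univ F)).ne
  have hE1 : ∫⁻ x in F \ K, ‖cgr u x‖ₑ ^ 2 ≤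
      (∫⁻ x in F \ (K ∪ S), ‖cgr u x + (t : ℂ) * cgr ψ x‖ₑ ^ 2) + (μH[1] : Measure ℂ) S := by
    have h1 : (∫⁻ x in F \ K, ‖cgr u x‖ₑ ^ 2) + (μH[1] : Measure ℂ) (K ∩ F) ≤
        ((∫⁻ x in F \ (K ∪ S), ‖cgr u x + (t : ℂ) * cgr ψ x‖ₑ ^ 2) + (μH[1] : Measure ℂ) S) +
          (μH[1] : Measure ℂ) (K ∩ F) := by
      refine hmin.trans ?_
      unfold cen
      have h2 : ∫⁻ x in F \ (K ∪ S), ‖cgr (fun y => u y + t * ψ y) x‖ₑ ^ 2 =
          ∫⁻ x in F \ (K ∪ S), ‖cgr u x + (t : ℂ) * cgr ψ x‖ₑ ^ 2 :=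
        setLIntegral_congr_fun hG fun x hx => by
          change ‖cgr (fun y => u y + t * ψ y) x‖ₑ ^ 2 = _
          rw [hw x hx.2]
      have h3 : (μH[1] : Measure ℂ) ((K ∪ S) ∩ F) ≤
          (μH[1] : Measure ℂ) S + (μH[1] : Measure ℂ) (K ∩ F) := by
        refine (measure_mono (t := S ∪ (K ∩ F)) ?_).trans (measure_union_le _ _)
        rintro x ⟨hx | hx, hxF⟩
        · exact Or.inr ⟨hx, hxF⟩
        · exact Or.inl hx
      rw [h2, add_assoc]
      gcongr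
    exact (ENNReal.add_le_add_iff_right hKF).1 h1
  have hE2 : ∫⁻ x in F \ (K ∪ S), ‖cgr u x‖ₑ ^ 2 ≤ ∫⁻ x in F \ K, ‖cgr u x‖ₑ ^ 2 :=
    lintegral_mono_set hGsub
  have hsum : IntegrableOn (fun x => ‖cgr u x + (t : ℂ) * cgr ψ x‖ ^ 2) (F \ (K ∪ S)) := by
    have h1 : (fun x => ‖cgr u x + (t : ℂ) * cgr ψ x‖ ^ 2) = fun x => ‖cgr u x‖ ^ 2 +
        2 * t * inner ℝ (cgr u x) (cgr ψ x) + t ^ 2 * ‖cgr ψ x‖ ^ 2 := by
      funext x
      exact flx_sq _ _ _
    rw [h1]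
    exact (hg2.add (hin.const_mul _)).add (hψ2.const_mul _)
  have hval : ∫ x in F \ (K ∪ S), ‖cgr u x + (t : ℂ) * cgr ψ x‖ ^ 2 =
      (∫ x in F \ (K ∪ S), ‖cgr u x‖ ^ 2) +
        2 * t * (∫ x in F \ (K ∪ S), inner ℝ (cgr u x) (cgr ψ x)) +
        t ^ 2 * ∫ x in F \ (K ∪ S), ‖cgr ψ x‖ ^ 2 := by
    have i1 : IntegrableOn (fun x => ‖cgr u x‖ ^ 2 + 2 * t * inner ℝ (cgr u x) (cgr ψ x))
        (F \ (K ∪ S)) := hg2.add (hin.const_mul _)
    have i2 : IntegrableOn (fun x => 2 * t * inner ℝ (cgr u x) (cgr ψ x))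
        (F \ (K ∪ S)) := hin.const_mul _
    have i3 : IntegrableOn (fun x => t ^ 2 * ‖cgr ψ x‖ ^ 2) (F \ (K ∪ S)) := hψ2.const_mul _
    simp_rw [flx_sq]
    rw [integral_add i1 i3, integral_add hg2 i2, integral_const_mul, integral_const_mul]
  have hE3 := hE2.trans hE1
  rw [tm_lint_eq hg2, tm_lint_eq (g := fun x => cgr u x + (t : ℂ) * cgr ψ x) hsum, hval,
    ← ENNReal.ofReal_toReal hSf.ne,
    ← ENNReal.ofReal_add (by rw [← hval]; exact integral_nonneg fun x => by positivity)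
      ENNReal.toReal_nonneg] at hE3
  have h5 := (ENNReal.ofReal_le_ofReal_iff (add_nonneg (by
    rw [← hval]; exact integral_nonneg fun x => by positivity) ENNReal.toReal_nonneg)).1 hE3
  linarith

/-- the indicator of `V` times a function, near a point off `K ∪ S` -/
theorem flx_ind {S V : Set ℂ}
    (hV : ∀ x, x ∉ K → x ∉ S → ∀ᶠ y in 𝓝 x, (y ∈ V ↔ x ∈ V)) (f : ℂ → ℝ) {x : ℂ}
    (hx : x ∉ K ∪ S) : (x ∈ V → V.indicator f =ᶠ[𝓝 x] f) ∧
      (x ∉ V → V.indicator f =ᶠ[𝓝 x] fun _ => 0) := by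
  have h1 := hV x (fun hxK => hx (Or.inl hxK)) (fun hxS => hx (Or.inr hxS))
  constructor
  · intro hxV
    filter_upwards [h1] with y hy
    exact indicator_of_mem (hy.2 hxV) f
  · intro hxV
    filter_upwards [h1] with y hy
    exact indicator_of_notMem (fun hyV => hxV (hy.1 hyV)) f

theorem flx_cgr {S V : Set ℂ}
    (hV : ∀ x, x ∉ K → x ∉ S → ∀ᶠ y in 𝓝 x, (y ∈ V ↔ x ∈ V)) (f : ℂ → ℝ) {x : ℂ}
    (hx : x ∉ K ∪ S) : cgr (V.indicator f) x = V.indicator (cgr f) x := by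
  obtain ⟨h1, h2⟩ := flx_ind hV f hx
  by_cases hxV : x ∈ V
  · rw [indicator_of_mem hxV, cgr_congr (h1 hxV)]
  · rw [indicator_of_notMem hxV, cgr_congr (h2 hxV), cgr_const]

theorem flx_smooth {S V : Set ℂ}
    (hV : ∀ x, x ∉ K → x ∉ S → ∀ᶠ y in 𝓝 x, (y ∈ V ↔ x ∈ V)) {f : ℂ → ℝ}
    (hf : ContDiff ℝ 1 f) {x : ℂ} (hx : x ∉ K ∪ S) : ContDiffAt ℝ 1 (V.indicator f) x := by
  obtain ⟨h1, h2⟩ := flx_ind hV f hx
  by_cases hxV : x ∈ V
  · exact hf.contDiffAt.congr_of_eventuallyEq (h1 hxV)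
  · exact contDiffAt_const.congr_of_eventuallyEq (h2 hxV)

theorem flx_open {S V : Set ℂ} (hK : IsClosed K) (hS : IsClosed S)
    (hV : ∀ x, x ∉ K → x ∉ S → ∀ᶠ y in 𝓝 x, (y ∈ V ↔ x ∈ V)) : IsOpen (V \ (K ∪ S)) := by
  rw [isOpen_iff_mem_nhds]
  rintro x ⟨hxV, hx⟩
  filter_upwards [hV x (fun hxK => hx (Or.inl hxK)) (fun hxS => hx (Or.inr hxS)),
    (hK.union hS).isOpen_compl.mem_nhds hx] with y hy hy2
  exact ⟨hy.2 hxV, hy2⟩

/-- the cross term of the indicator of `V` times a function -/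
theorem flx_cross {S V F : Set ℂ} (hK : IsClosed K) (hS : IsClosed S)
    (hV : ∀ x, x ∉ K → x ∉ S → ∀ᶠ y in 𝓝 x, (y ∈ V ↔ x ∈ V)) {f : ℂ → ℝ}
    (hF : IsCompact F) (hfF : tsupport f ⊆ F) (u : ℂ → ℝ) :
    ∫ x in F \ (K ∪ S), inner ℝ (cgr u x) (cgr (V.indicator f) x) =
      ∫ x in V \ (K ∪ S), inner ℝ (cgr u x) (cgr f x) := by
  have hG : MeasurableSet (F \ (K ∪ S)) :=
    hF.isClosed.measurableSet.diff (hK.union hS).measurableSet
  have hVm : MeasurableSet (V \ (K ∪ S)) := (flx_open hK hS hV).measurableSet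
  rw [← integral_indicator hG, ← integral_indicator hVm]
  congr 1
  funext x
  by_cases hx : x ∈ K ∪ S
  · rw [indicator_of_notMem (fun h => h.2 hx), indicator_of_notMem (fun h => h.2 hx)]
  by_cases hxV : x ∈ V
  · rw [indicator_of_mem (show x ∈ V \ (K ∪ S) from ⟨hxV, hx⟩)]
    by_cases hxF : x ∈ F
    · rw [indicator_of_mem (show x ∈ F \ (K ∪ S) from ⟨hxF, hx⟩), flx_cgr hV f hx,
        indicator_of_mem hxV]
    · rw [indicator_of_notMem (fun h => hxF h.1)]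
      have h1 : f =ᶠ[𝓝 x] fun _ => 0 := notMem_tsupport_iff_eventuallyEq.1 fun h => hxF (hfF h)
      rw [cgr_congr h1, cgr_const, inner_zero_right]
  · rw [indicator_of_notMem (fun h : x ∈ V \ (K ∪ S) => hxV h.1)]
    by_cases hxF : x ∈ F
    · rw [indicator_of_mem (show x ∈ F \ (K ∪ S) from ⟨hxF, hx⟩), flx_cgr hV f hx,
        indicator_of_notMem hxV, inner_zero_right]
    · rw [indicator_of_notMem (fun h => hxF h.1)]

theorem flx_int {f : ℂ → ℝ} (hf : ContDiff ℝ 1 f) (hfc : HasCompactSupport f) :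
    Integrable fun x => ‖cgr f x‖ ^ 2 := by
  simp_rw [cgr_norm]
  refine Continuous.integrable_of_hasCompactSupport ?_ ?_
  · exact (hf.continuous_fderiv (by simp)).norm.pow 2
  · have h1 : HasCompactSupport (fderiv ℝ f) := hfc.fderiv (𝕜 := ℝ)
    exact h1.comp_left (g := fun L => ‖L‖ ^ 2) (by simp)

/-- the energy of the indicator of `V` times a function -/
theorem flx_energy {S V F : Set ℂ} (hK : IsClosed K) (hS : IsClosed S)
    (hV : ∀ x, x ∉ K → x ∉ S → ∀ᶠ y in 𝓝 x, (y ∈ V ↔ x ∈ V)) {f : ℂ → ℝ}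
    (hf : ContDiff ℝ 1 f) (hfc : HasCompactSupport f) (hF : IsCompact F) :
    ∫⁻ x in F \ (K ∪ S), ‖cgr (V.indicator f) x‖ₑ ^ 2 < ⊤ ∧
      ∫ x in F \ (K ∪ S), ‖cgr (V.indicator f) x‖ ^ 2 ≤ ∫ x, ‖fderiv ℝ f x‖ ^ 2 := by
  have hG : MeasurableSet (F \ (K ∪ S)) :=
    hF.isClosed.measurableSet.diff (hK.union hS).measurableSet
  have hle : ∀ x ∈ F \ (K ∪ S), ‖cgr (V.indicator f) x‖ ≤ ‖cgr f x‖ := by
    intro x hx
    rw [flx_cgr hV f hx.2]
    exact norm_indicator_le_norm_self _ _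
  have hi := flx_int hf hfc
  constructor
  · have h1 : ∫⁻ x in F \ (K ∪ S), ‖cgr (V.indicator f) x‖ₑ ^ 2 ≤
        ∫⁻ x in F \ (K ∪ S), ‖cgr f x‖ₑ ^ 2 := by
      refine setLIntegral_mono' hG fun x hx => ?_
      have h2 := hle x hx
      gcongr
      exact enorm_le_iff_norm_le.2 h2
    refine h1.trans_lt ?_
    rw [tm_lint_eq hi.integrableOn]
    exact ENNReal.ofReal_lt_top
  · have h1 : ∫ x in F \ (K ∪ S), ‖cgr (V.indicator f) x‖ ^ 2 ≤
        ∫ x in F \ (K ∪ S), ‖cgr f x‖ ^ 2 := by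
      rw [← integral_indicator hG, ← integral_indicator hG]
      refine integral_mono_of_nonneg (ae_of_all _ fun x => ?_) (hi.indicator hG)
        (ae_of_all _ fun x => ?_)
      · exact indicator_nonneg (fun x _ => by positivity) x
      · refine indicator_le_indicator' fun hx => ?_
        have := hle x hx
        gcongr
    refine h1.trans ?_
    have h3 : ∫ x in F \ (K ∪ S), ‖cgr f x‖ ^ 2 ≤ ∫ x, ‖cgr f x‖ ^ 2 :=
      setIntegral_le_integral hi (ae_of_all _ fun x => by positivity)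
    simpa only [cgr_norm] using h3

/-- integrability of the cross term -/
theorem flx_cross_int (h : TMin univ u l K) {S V : Set ℂ} (hS : IsClosed S)
    (hV : ∀ x, x ∉ K → x ∉ S → ∀ᶠ y in 𝓝 x, (y ∈ V ↔ x ∈ V)) {f : ℂ → ℝ}
    (hf : ContDiff ℝ 1 f) (hfc : HasCompactSupport f) :
    IntegrableOn (fun x => inner ℝ (cgr u x) (cgr f x)) (V \ (K ∪ S)) := by
  have hKc : IsClosed K := h.toTConf.isClosed
  have hVm : MeasurableSet (V \ (K ∪ S)) := (flx_open hKc hS hV).measurableSet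
  have hcont : Continuous (cgr f) :=
    cgrL_continuous.comp (hf.continuous_fderiv (by simp))
  -- it is enough to integrate over the support
  have h0 : IntegrableOn (fun x => inner ℝ (cgr u x) (cgr f x)) (tsupport f \ K) := by
    have hgm : AEStronglyMeasurable (cgr u) (volume.restrict (tsupport f \ K)) :=
      h.toTConf.aesm' (subset_univ _)
    have hg2 : IntegrableOn (fun x => ‖cgr u x‖ ^ 2) (tsupport f \ K) :=
      h.toTConf.integrable_sq hfc (subset_univ _)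
    have hf2 : IntegrableOn (fun x => ‖cgr f x‖ ^ 2) (tsupport f \ K) :=
      (flx_int hf hfc).integrableOn
    refine Integrable.mono (hg2.add hf2) (hgm.inner hcont.aestronglyMeasurable)
      (ae_of_all _ fun x => ?_)
    have h1 : |inner ℝ (cgr u x) (cgr f x)| ≤ ‖cgr u x‖ * ‖cgr f x‖ :=
      abs_real_inner_le_norm _ _
    have h2 : ‖cgr u x‖ * ‖cgr f x‖ ≤ ‖cgr u x‖ ^ 2 + ‖cgr f x‖ ^ 2 := by
      nlinarith [sq_nonneg (‖cgr u x‖ - ‖cgr f x‖), sq_nonneg (‖cgr u x‖),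
        sq_nonneg (‖cgr f x‖)]
    rw [Real.norm_eq_abs, Real.norm_eq_abs]
    exact (h1.trans h2).trans (le_abs_self _)
  have h1 : IntegrableOn (fun x => inner ℝ (cgr u x) (cgr f x))
      ((V \ (K ∪ S)) ∩ (tsupport f \ K)) := h0.mono_set inter_subset_right
  refine IntegrableOn.of_inter_support (s := V \ (K ∪ S)) hVm ?_
  refine h1.mono_set ?_
  rintro x ⟨hx1, hx2⟩
  refine ⟨hx1, ?_, fun hxK => hx1.2 (Or.inl hxK)⟩
  by_contra hxf
  apply hx2
  have h2 : f =ᶠ[𝓝 x] fun _ => 0 := notMem_tsupport_iff_eventuallyEq.1 hxf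
  change inner ℝ (cgr u x) (cgr f x) = 0
  rw [cgr_congr h2, cgr_const, inner_zero_right]

/-- the cross term of a function which vanishes near `S` is zero -/
theorem flx_zero (h : TMin univ u l K) {S V : Set ℂ} (hS : IsCompact S)
    (hSf : (μH[1] : Measure ℂ) S < ⊤)
    (hV : ∀ x, x ∉ K → x ∉ S → ∀ᶠ y in 𝓝 x, (y ∈ V ↔ x ∈ V))
    {f : ℂ → ℝ} (hf : ContDiff ℝ 1 f) (hfc : HasCompactSupport f)
    (hf0 : ∀ x ∈ S, f =ᶠ[𝓝 x] fun _ => 0) :
    ∫ x in V \ (K ∪ S), inner ℝ (cgr u x) (cgr f x) = 0 := by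
  have hKc : IsClosed K := h.toTConf.isClosed
  have hS0 : volume S = 0 := tm_volume_zero hSf
  have hψ : ContDiffOn ℝ 1 (V.indicator f) (K ∪ ∅)ᶜ := by
    intro x hx
    refine ContDiffAt.contDiffWithinAt ?_
    rw [union_empty] at hx
    by_cases hxS : x ∈ S
    · have h1 : V.indicator f =ᶠ[𝓝 x] fun _ => 0 := by
        filter_upwards [hf0 x hxS] with y hy
        by_cases hyV : y ∈ V
        · rw [indicator_of_mem hyV, hy]
        · rw [indicator_of_notMem hyV]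
      exact contDiffAt_const.congr_of_eventuallyEq h1
    · exact flx_smooth hV hf (fun h => h.elim hx hxS)
  have hae : (tsupport f \ (K ∪ ∅) : Set ℂ) =ᵐ[volume] (tsupport f \ (K ∪ S) : Set ℂ) := by
    have h1 : ∀ᵐ x ∂(volume : Measure ℂ), x ∉ S := measure_eq_zero_iff_ae_notMem.1 hS0
    filter_upwards [h1] with x hx
    apply propext
    constructor
    · rintro ⟨h2, h3⟩
      exact ⟨h2, fun h4 => h4.elim (fun h5 => h3 (Or.inl h5)) hx⟩
    · rintro ⟨h2, h3⟩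
      exact ⟨h2, fun h4 => h4.elim (fun h5 => h3 (Or.inl h5)) (fun h5 => h5.elim)⟩
  obtain ⟨e1, e2⟩ := flx_energy (F := tsupport f) hKc hS.isClosed hV hf hfc hfc
  have hmain := fun t : ℝ => flx_comp h (S := ∅) (F := tsupport f) isCompact_empty
    (by rw [measure_empty]; exact ENNReal.zero_lt_top) hfc (empty_subset _) hψ
    (fun x hx => by
      have h1 : f x = 0 := image_eq_zero_of_notMem_tsupport hx
      by_cases hxV : x ∈ V
      · rw [indicator_of_mem hxV, h1]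
      · rw [indicator_of_notMem hxV]) (by rw [setLIntegral_congr hae]; exact e1) t
  simp only [measure_empty, ENNReal.toReal_zero, zero_add, setIntegral_congr_set hae] at hmain
  rw [flx_cross hKc hS.isClosed hV hfc (subset_refl _) u] at hmain
  set c : ℝ := ∫ x in V \ (K ∪ S), inner ℝ (cgr u x) (cgr f x) with hc
  set E : ℝ := ∫ x in tsupport f \ (K ∪ S), ‖cgr (V.indicator f) x‖ ^ 2 with hE
  have hE0 : 0 ≤ E := integral_nonneg fun x => by positivity
  by_contra hne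
  have h1 := hmain (-c / (E + 1))
  have h2 : 2 * (-c / (E + 1)) * c + (-c / (E + 1)) ^ 2 * E = - (c ^ 2 * (E + 2) / (E + 1) ^ 2) := by
    field_simp
    ring
  rw [h2] at h1
  have h3 : 0 < c ^ 2 * (E + 2) / (E + 1) ^ 2 := by positivity
  linarith

/-- **The flux lemma.** -/
theorem TMin.flux (h : TMin univ u l K) {S V : Set ℂ} (hS : IsCompact S)
    (hSf : (μH[1] : Measure ℂ) S < ⊤)
    (hV : ∀ x, x ∉ K → x ∉ S → ∀ᶠ y in 𝓝 x, (y ∈ V ↔ x ∈ V))
    {χ : ℂ → ℝ} (hχ : ContDiff ℝ ∞ χ) (hχc : HasCompactSupport χ)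
    (hχ1 : ∀ᶠ x in 𝓝ˢ S, χ x = 1) :
    ∫ x in V \ (K ∪ S), inner ℝ (cgr u x) (cgr χ x) = 0 := by
  have hKc : IsClosed K := h.toTConf.isClosed
  set c : ℝ := ∫ x in V \ (K ∪ S), inner ℝ (cgr u x) (cgr χ x) with hc
  obtain ⟨R, hR⟩ := hS.isBounded.subset_ball (0 : ℂ)
  have hχ' : ContDiff ℝ 1 χ := hχ.of_le (by exact_mod_cast le_top)
  -- the inequality with a small energy
  have key : ∀ t ε : ℝ, 0 < ε → 0 ≤ ((μH[1] : Measure ℂ) S).toReal + 2 * t * c + t ^ 2 * ε := by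
    intro t ε hε
    obtain ⟨η, hη, hηc, -, hη1, hηE⟩ := tp_cutoff R hε
    have hη' : ContDiff ℝ 1 η := hη.of_le (by exact_mod_cast le_top)
    have hVη : ∀ x ∈ S, η =ᶠ[𝓝 x] fun _ => 1 := fun x hx => by
      filter_upwards [isOpen_ball.mem_nhds (hR hx)] with y hy
      exact hη1 y hy
    -- the cross terms of `χ` and `η` agree
    have h1 : ∫ x in V \ (K ∪ S), inner ℝ (cgr u x) (cgr (fun y => χ y - η y) x) = 0 := by
      refine flx_zero h hS hSf hV (hχ'.sub hη') (hχc.sub hηc) fun x hx => ?_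
      have h2 : ∀ᶠ y in 𝓝 x, χ y = 1 := (hχ1.filter_mono (nhds_le_nhdsSet hx))
      filter_upwards [h2, hVη x hx] with y hy1 hy2
      rw [hy1, hy2]
      ring
    have h2 : c = ∫ x in V \ (K ∪ S), inner ℝ (cgr u x) (cgr η x) := by
      have h3 : ∫ x in V \ (K ∪ S), inner ℝ (cgr u x) (cgr (fun y => χ y - η y) x) =
          c - ∫ x in V \ (K ∪ S), inner ℝ (cgr u x) (cgr η x) := by
        rw [hc, ← integral_sub (flx_cross_int h hS.isClosed hV hχ' hχc)
          (flx_cross_int h hS.isClosed hV hη' hηc)]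
        congr 1
        funext x
        rw [cgr_sub (hχ'.differentiable (by simp) x) (hη'.differentiable (by simp) x),
          inner_sub_right]
      rw [h3] at h1
      linarith
    -- the competitor
    have hF : IsCompact (tsupport η ∪ S) := hηc.isCompact.union hS
    obtain ⟨e1, e2⟩ := flx_energy (F := tsupport η ∪ S) hKc hS.isClosed hV hη' hηc hF
    have h4 := flx_comp h hS hSf hF subset_union_right (ψ := V.indicator η)
      (fun x hx => (flx_smooth hV hη' hx).contDiffWithinAt)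
      (fun x hx => by
        have h1 : η x = 0 := image_eq_zero_of_notMem_tsupport fun h => hx (Or.inl h)
        by_cases hxV : x ∈ V
        · rw [indicator_of_mem hxV, h1]
        · rw [indicator_of_notMem hxV]) e1 t
    rw [flx_cross hKc hS.isClosed hV hF subset_union_left u, ← h2] at h4
    have h5 : t ^ 2 * ∫ x in (tsupport η ∪ S) \ (K ∪ S), ‖cgr (V.indicator η) x‖ ^ 2 ≤
        t ^ 2 * ε := mul_le_mul_of_nonneg_left (e2.trans hηE) (sq_nonneg t)
    linarith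
  -- conclusion
  set H : ℝ := ((μH[1] : Measure ℂ) S).toReal with hH
  have hH0 : 0 ≤ H := ENNReal.toReal_nonneg
  by_contra hne
  have hc2 : 0 < c ^ 2 := by positivity
  set t : ℝ := - ((H + 1) / c ^ 2) * c with ht
  have h1 := key t (1 / (t ^ 2 + 1)) (by positivity)
  have h2 : t ^ 2 * (1 / (t ^ 2 + 1)) ≤ 1 := by
    rw [mul_one_div, div_le_one (by positivity)]
    linarith
  have h3 : 2 * t * c = - 2 * (H + 1) := by
    rw [ht]
    field_simp
  linarith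

end Pool.Agent.MP099f24
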