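import Mathlib
import Pool.Agent.Lib.MP_099f24_an.TM.Flx
import Pool.Agent.Lib.MP_099f24_an.TM.Dict

/-!
# Topological minimizers: the flux lemma for open regions
-/

set_option autoImplicit false

namespace Pool.Agent.MP099f24

open MeasureTheory Filter Topology Set Metric
open scoped ENNReal ContDiff

variable {Ω : Set ℂ} {u w : ℂ → ℝ} {l : ℂ → Set ℂ} {K : Set ℂ}

/-- the flux lemma for a union `V` of components of the complement of `K ∪ Σ` -/
theorem ts_flux (h : TMin univ u l K) {Sig V : Set ℂ} (hS : IsCompact Sig)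
    (hSf : (μH[1] : Measure ℂ) Sig < ⊤) (hV : IsOpen V) (hVd : Disjoint V (K ∪ Sig))
    (hV' : IsOpen ((K ∪ Sig)ᶜ \ V)) {phi : ℂ → ℝ} (hphi : ContDiff ℝ ∞ phi)
    (hc : HasCompactSupport phi) (h1 : ∀ᶠ x in 𝓝ˢ Sig, phi x = 1) :
    ∫ x in V, inner ℝ (cgr u x) (outer_grad phi x) = 0 := by
  have h2 := h.flux hS hSf (V := V) ?_ hphi hc h1
  · have h3 : V \ (K ∪ Sig) = V := by
      rw [sdiff_eq_self_iff_disjoint]
      exact hVd.symm
    rw [h3] at h2
    rw [← h2]
    refine integral_congr_ae (ae_of_all _ fun x => ?_)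
    simp only
    rw [cgr_eq_outer phi x]
  · intro x hxK hxS
    by_cases hxV : x ∈ V
    · filter_upwards [hV.mem_nhds hxV] with y hy
      exact ⟨fun _ => hxV, fun _ => hy⟩
    · filter_upwards [hV'.mem_nhds ⟨fun h3 => h3.elim hxK hxS, hxV⟩] with y hy
      exact ⟨fun h3 => absurd h3 hy.2, fun h3 => absurd h3 hxV⟩

end Pool.Agent.MP099f24
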