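import Mathlib
import Pool.Agent.Lib.MP_099f24_an.TM.Out
import Pool.Agent.Lib.MP_099f24_an.TM.Dict

/-!
# Topological minimizers: weak Neumann condition for smooth tests
-/

set_option autoImplicit false

namespace Pool.Agent.MP099f24

open MeasureTheory Filter Topology Set Metric
open scoped ENNReal ContDiff

variable {Ω : Set ℂ} {u w : ℂ → ℝ} {l : ℂ → Set ℂ} {K : Set ℂ}

/-- smooth compactly supported functions are admissible outer test functions -/
theorem ttest_smooth {φ : ℂ → ℝ} (hφ : ContDiff ℝ 1 φ)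
    (hc : HasCompactSupport φ) (hs : tsupport φ ⊆ Ω) : TTest Ω K (tsupport φ) φ := by
  refine ⟨hc, hs, hφ.contDiffOn, fun x hx => image_eq_zero_of_notMem_tsupport hx, ?_⟩
  have h1 : Continuous (fun x => ‖fderiv ℝ φ x‖ ^ 2) :=
    (hφ.continuous_fderiv (by simp)).norm.pow 2
  have h2 : IntegrableOn (fun x => ‖fderiv ℝ φ x‖ ^ 2) (tsupport φ \ K) :=
    (h1.continuousOn.integrableOn_compact hc).mono_set sdiff_subset
  have h3 : ∫⁻ x in tsupport φ \ K, ‖cgr φ x‖ₑ ^ 2 =
      ∫⁻ x in tsupport φ \ K, ‖‖fderiv ℝ φ x‖ ^ 2‖ₑ := by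
    refine lintegral_congr fun x => ?_
    rw [enorm_pow, enorm_norm, ← ofReal_norm, cgr_norm, ofReal_norm]
  rw [h3]
  exact h2.2

/-- weak Neumann condition -/
theorem TMin.neumann (h : TMin Ω u l K) {φ : ℂ → ℝ} (hφ : ContDiff ℝ 1 φ)
    (hc : HasCompactSupport φ) (hs : tsupport φ ⊆ Ω) :
    ∫ x in Ω, inner ℝ (cgr u x) (outer_grad φ x) = 0 := by
  have h1 := (h.outer (ttest_smooth hφ hc hs)).2
  have hK := h.toTConf.volume_eq_zero
  have h2 : ∫ x in tsupport φ \ K, inner ℝ (cgr u x) (cgr φ x) =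
      ∫ x in tsupport φ, inner ℝ (cgr u x) (cgr φ x) := by
    refine setIntegral_congr_set ?_
    exact sdiff_null_ae_eq_self hK
  rw [h2] at h1
  rw [← h1]
  symm
  have h3 : ∀ x, inner ℝ (cgr u x) (outer_grad φ x) = inner ℝ (cgr u x) (cgr φ x) := by
    intro x
    rw [cgr_eq_outer φ x]
  simp_rw [h3]
  refine (setIntegral_eq_of_subset_of_forall_sdiff_eq_zero h.isOpen.measurableSet hs ?_).symm
  intro x hx
  have h4 : cgr φ x = 0 := by
    have h5 : φ =ᶠ[𝓝 x] fun _ => 0 := by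
      filter_upwards [(isClosed_tsupport φ).isOpen_compl.mem_nhds hx.2] with y hy
      exact image_eq_zero_of_notMem_tsupport hy
    rw [cgr_congr h5, cgr_const]
  rw [h4, inner_zero_right]

end Pool.Agent.MP099f24
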