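import Mathlib

/-!
# Covering lemma: sums of diameters of disjoint balls bound the one-dimensional Hausdorff measure
-/

set_option autoImplicit false

namespace Pool.Agent.MP099f24

open MeasureTheory Filter Topology Set Metric
open scoped ENNReal ContDiff

theorem tm_cover_ediam (x : ℂ) (r : ℝ) : ediam (closedBall x r) ≤ ENNReal.ofReal (2 * r) := by
  refine Metric.ediam_le_of_forall_dist_le fun y hy z hz => ?_
  have h1 := mem_closedBall.1 hy
  have h2 := mem_closedBall.1 hz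
  have := dist_triangle_right y z x
  linarith

/-- coverings up to null sets by small balls bound the Hausdorff measure -/
theorem tm_cover_aux {E : Set ℂ} {B : ℝ≥0∞}
    (key : ∀ δ : ℝ, 0 < δ → ∃ (v : Set ℂ) (r : ℂ → ℝ), v.Countable ∧ (∀ b ∈ v, 2 * r b ≤ δ) ∧
      (μH[1] : Measure ℂ) (E \ ⋃ b ∈ v, closedBall b (r b)) = 0 ∧
      ∑' b : v, ENNReal.ofReal (2 * r b) ≤ B) :
    (μH[1] : Measure ℂ) E ≤ B := by
  have hpos : ∀ n : ℕ, (0 : ℝ) < 1 / ((n : ℝ) + 1) := fun n => by positivity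
  choose t r htc hr hnull hsum using fun n : ℕ => key (1 / ((n : ℝ) + 1)) (hpos n)
  have hcountable : ∀ n, Countable (t n) := fun n => (htc n).to_subtype
  have hlim : Tendsto (fun n : ℕ => 1 / ((n : ℝ) + 1)) atTop (𝓝 0) :=
    tendsto_one_div_add_atTop_nhds_zero_nat
  set N := ⋃ n, E \ ⋃ b ∈ t n, closedBall b (r n b) with hN
  have hN0 : (μH[1] : Measure ℂ) N = 0 := measure_iUnion_null hnull
  have h1 := Measure.hausdorffMeasure_le_liminf_tsum (ι := fun n => t n) 1 (E \ N) (l := atTop)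
    (fun n : ℕ => ENNReal.ofReal (1 / ((n : ℝ) + 1)))
    (by simpa using ENNReal.tendsto_ofReal hlim)
    (fun n b => closedBall (b : ℂ) (r n b))
    (Eventually.of_forall fun n b => (tm_cover_ediam _ _).trans
      (ENNReal.ofReal_le_ofReal (hr n b b.2)))
    (Eventually.of_forall fun n => by
      intro x hx
      by_contra hcon
      apply hx.2
      refine mem_iUnion.2 ⟨n, hx.1, fun h => hcon ?_⟩
      obtain ⟨b, hb, hxb⟩ := mem_iUnion₂.1 h
      exact mem_iUnion.2 ⟨⟨b, hb⟩, hxb⟩)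
  have h2 : (μH[1] : Measure ℂ) E ≤ (μH[1] : Measure ℂ) (E \ N) := by
    calc (μH[1] : Measure ℂ) E ≤ (μH[1] : Measure ℂ) ((E \ N) ∪ N) := by
          refine measure_mono fun x hx => ?_
          by_cases hxN : x ∈ N
          · exact Or.inr hxN
          · exact Or.inl ⟨hx, hxN⟩
      _ ≤ (μH[1] : Measure ℂ) (E \ N) + (μH[1] : Measure ℂ) N := measure_union_le _ _
      _ = _ := by rw [hN0, add_zero]
  refine h2.trans (h1.trans ?_)
  have h3 : liminf (fun _ : ℕ => B) atTop = B := liminf_const B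
  rw [← h3]
  refine liminf_le_liminf (Eventually.of_forall fun n => ?_)
  refine le_trans (ENNReal.tsum_le_tsum fun b => ?_) (hsum n)
  rw [ENNReal.rpow_one]
  exact tm_cover_ediam _ _

/-- from finite families to countable families -/
theorem tm_cover_sum {K A : Set ℂ} {M : ℝ≥0∞}
    (h : ∀ t : Finset (ℂ × ℝ), (∀ p ∈ t, p.1 ∈ K ∧ 0 < p.2 ∧ closedBall p.1 p.2 ⊆ A) →
      (∀ p ∈ t, ∀ q ∈ t, p ≠ q → Disjoint (closedBall p.1 p.2) (closedBall q.1 q.2)) →
      ∑ p ∈ t, ENNReal.ofReal (2 * p.2) ≤ M)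
    {v : Set ℂ} {r : ℂ → ℝ} (hv : ∀ b ∈ v, b ∈ K ∧ 0 < r b ∧ closedBall b (r b) ⊆ A)
    (hd : v.PairwiseDisjoint fun b => closedBall b (r b)) :
    ∑' b : v, ENNReal.ofReal (2 * r b) ≤ M := by
  classical
  rw [ENNReal.tsum_eq_iSup_sum]
  refine iSup_le fun s => ?_
  have h1 := h (s.image fun b : v => ((b : ℂ), r b)) ?_ ?_
  · rw [Finset.sum_image] at h1
    · exact h1
    · intro a _ b _ hab
      exact Subtype.ext (congrArg Prod.fst hab)
  · intro p hp
    obtain ⟨b, _, rfl⟩ := Finset.mem_image.1 hp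
    exact hv b b.2
  · intro p hp q hq hpq
    obtain ⟨a, _, rfl⟩ := Finset.mem_image.1 hp
    obtain ⟨b, _, rfl⟩ := Finset.mem_image.1 hq
    refine hd a.2 b.2 fun hab => hpq ?_
    have : a = b := Subtype.ext hab
    rw [this]

theorem tm_cover {K A : Set ℂ} (hA : IsOpen A) {M : ℝ≥0∞}
    (h : ∀ t : Finset (ℂ × ℝ), (∀ p ∈ t, p.1 ∈ K ∧ 0 < p.2 ∧ closedBall p.1 p.2 ⊆ A) →
      (∀ p ∈ t, ∀ q ∈ t, p ≠ q → Disjoint (closedBall p.1 p.2) (closedBall q.1 q.2)) →
      ∑ p ∈ t, ENNReal.ofReal (2 * p.2) ≤ M) :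
    (μH[1] : Measure ℂ) (K ∩ A) ≤ M := by
  rcases eq_or_ne M ⊤ with rfl | hM
  · exact le_top
  have hrad : ∀ δ : ℝ, 0 < δ → ∀ x ∈ K ∩ A, ∃ r : ℝ, r ∈ Ioo 0 δ ∧ closedBall x r ⊆ A := by
    intro δ hδ x hx
    obtain ⟨η, hη, hηA⟩ := Metric.isOpen_iff.1 hA x hx.2
    refine ⟨min (δ / 2) (η / 2), ⟨by positivity, ?_⟩, ?_⟩
    · have := min_le_left (δ / 2) (η / 2)
      linarith
    · refine (closedBall_subset_ball ?_).trans hηA
      have := min_le_right (δ / 2) (η / 2)
      linarith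
  -- rough bound
  have hrough : (μH[1] : Measure ℂ) (K ∩ A) ≤ 5 * M := by
    refine tm_cover_aux fun δ hδ => ?_
    have hr : ∀ x : ℂ, ∃ r : ℝ, x ∈ K ∩ A → r ∈ Ioo 0 (δ / 10) ∧ closedBall x r ⊆ A := by
      intro x
      by_cases hx : x ∈ K ∩ A
      · obtain ⟨r, hr⟩ := hrad (δ / 10) (by positivity) x hx
        exact ⟨r, fun _ => hr⟩
      · exact ⟨1, fun h => absurd h hx⟩
    choose r hr using hr
    obtain ⟨v, hvE, hdisj, hcov⟩ :=
      Vitali.exists_disjoint_subfamily_covering_enlargement_closedBall (K ∩ A) (fun x : ℂ => x) r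
        (δ / 10) (fun a ha => (hr a ha).1.2.le) 5 (by norm_num)
    have hcount : v.Countable := by
      refine hdisj.countable_of_nonempty_interior fun a ha => ?_
      have hra := (hr a (hvE ha)).1.1
      exact ⟨a, ball_subset_interior_closedBall (mem_ball_self hra)⟩
    refine ⟨v, fun b => 5 * r b, hcount, ?_, ?_, ?_⟩
    · intro b hb
      have := (hr b (hvE hb)).1.2
      linarith
    · have h1 : (K ∩ A) \ ⋃ b ∈ v, closedBall b (5 * r b) = ∅ := by
        rw [sdiff_eq_empty]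
        intro x hx
        obtain ⟨b, hb, hsub⟩ := hcov x hx
        exact mem_biUnion hb (hsub (mem_closedBall_self (hr x hx).1.1.le))
      rw [h1, measure_empty]
    · have h1 : ∀ b : v, ENNReal.ofReal (2 * (5 * r b)) = 5 * ENNReal.ofReal (2 * r b) := by
        intro b
        rw [show (5 : ℝ≥0∞) = ENNReal.ofReal 5 by simp, ← ENNReal.ofReal_mul (by norm_num)]
        congr 1
        ring
      rw [tsum_congr h1, ENNReal.tsum_mul_left]
      gcongr
      exact tm_cover_sum h (fun b hb => ⟨(hvE hb).1, (hr b (hvE hb)).1.1, (hr b (hvE hb)).2⟩) hdisj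
  -- the finite measure
  set m : Measure ℂ := (μH[1] : Measure ℂ).restrict (K ∩ A) with hm
  have hfin : IsFiniteMeasure m := by
    refine ⟨?_⟩
    rw [hm, Measure.restrict_apply_univ]
    exact hrough.trans_lt (ENNReal.mul_lt_top (by simp) (lt_top_iff_ne_top.2 hM))
  refine tm_cover_aux fun δ hδ => ?_
  obtain ⟨t, r, htc, htA, htr, htn, htd⟩ := Besicovitch.exists_disjoint_closedBall_covering_ae
      m (fun x => {r | closedBall x r ⊆ A}) (K ∩ A) (fun x hx δ' hδ' => by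
        obtain ⟨r, hr1, hr2⟩ := hrad δ' hδ' x hx
        exact ⟨r, hr2, hr1⟩) (fun _ => δ / 2) (fun _ _ => half_pos hδ)
  refine ⟨t, r, htc, ?_, ?_, ?_⟩
  · intro b hb
    have := (htr b hb).2.2
    linarith
  · refine le_antisymm ?_ bot_le
    rw [← htn, hm]
    have h1 := Measure.le_restrict_apply (μ := (μH[1] : Measure ℂ)) (K ∩ A)
      ((K ∩ A) \ ⋃ x ∈ t, closedBall x (r x))
    refine le_trans ?_ h1
    refine measure_mono fun x hx => ⟨hx, hx.1⟩
  · exact tm_cover_sum h (fun b hb => ⟨(htA hb).1, (htr b hb).2.1, (htr b hb).1⟩) htd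

end Pool.Agent.MP099f24
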