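import Pool.Agent.Lib.MP_099f24_an.TM.Usc

/-!
# Compactness: the limit is a global minimizer
-/

set_option autoImplicit false

namespace Pool.Agent.MP099f24

open MeasureTheory Filter Topology Set Metric
open scoped ENNReal ContDiff

variable {u w : ℂ → ℝ} {K : Set ℂ}

theorem cpt_ball_sub {R : ℕ → ℝ} (hR : Tendsto R atTop atTop) (a : ℂ) (r : ℝ) :
    ∀ᶠ n in atTop, closedBall a r ⊆ ball 0 (R n) := by
  have h1 : ∀ᶠ n in atTop, ‖a‖ + r < R n := hR.eventually_gt_atTop _
  filter_upwards [h1] with n hn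
  intro x hx
  rw [mem_ball, dist_zero_right]
  calc ‖x‖ = ‖a + (x - a)‖ := by congr 1; ring
    _ ≤ ‖a‖ + ‖x - a‖ := norm_add_le _ _
    _ ≤ ‖a‖ + r := by
      gcongr
      rw [← dist_eq_norm]
      exact hx
    _ < R n := hn

/-- there are finite slices arbitrarily close to a radius, from above -/
theorem cpt_exists_finite (hK : ∀ C, IsCompact C → (μH[1] : Measure ℂ) (K ∩ C) < ⊤) (a : ℂ)
    {r r' : ℝ} (hr0 : 0 ≤ r) (hr : r < r') :
    ∃ s ∈ Ioo r r', (K ∩ sphere a s).Finite := by
  by_contra hcon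
  push Not at hcon
  have h1 := tm_good (K := K) (a := a) (R := r') (fun s _ =>
    (measure_mono (inter_subset_inter_right _ ball_subset_closedBall)).trans_lt
      (hK _ (isCompact_closedBall a s)))
  rw [ae_iff, Measure.restrict_apply₀'] at h1
  · have h2 : Ioo r r' ⊆ {s | ¬ (K ∩ sphere a s).Finite} ∩ Ioo 0 r' := fun s hs =>
      ⟨hcon s hs, hr0.trans_lt hs.1, hs.2⟩
    have h3 := measure_mono_null h2 h1
    rw [Real.volume_Ioo, ENNReal.ofReal_eq_zero] at h3
    linarith
  · exact measurableSet_Ioo.nullMeasurableSet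

section

variable {R : ℕ → ℝ} {un : ℕ → ℂ → ℝ} {ln : ℕ → ℂ → Set ℂ} {Kn : ℕ → Set ℂ}
  {c : ℕ → Set ℂ → ℝ} {lam : ℕ → Set ℂ → Set ℂ}

theorem cpt_conf (hR : Tendsto R atTop atTop)
    (hup : ∀ n a r, 0 ≤ r → closedBall a r ⊆ ball 0 (R n) →
      cen (un n) (Kn n) (closedBall a r) ≤ ENNReal.ofReal (2 * Real.pi * r))
    (hp : TPre un ln Kn u K c lam)
    (hlsc : ∀ A, IsOpen A → cen u K A ≤ liminf (fun n => cen (un n) (Kn n) A) atTop) :
    TConf univ u (clab K) K where
  isOpen := isOpen_univ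
  sub := subset_univ _
  isOpen_off := by rw [← compl_eq_univ_sdiff]; exact hp.isClosed.isOpen_compl
  smooth := by rw [← compl_eq_univ_sdiff]; exact hp.smooth
  lab := fun x hx => clab_locConst hp.isClosed x hx.2
  fin := by
    intro C hC _
    obtain ⟨r, hr⟩ : ∃ r, C ⊆ ball 0 r := hC.isBounded.subset_ball 0
    obtain ⟨r', hr', hr'0⟩ : ∃ r', r ≤ r' ∧ 0 ≤ r' := ⟨max r 0, le_max_left _ _, le_max_right _ _⟩
    refine ((cen_mono (hr.trans (ball_subset_ball hr'))).trans
      ((hlsc _ isOpen_ball).trans ?_)).trans_lt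
      (ENNReal.ofReal_lt_top (r := 2 * Real.pi * r'))
    refine liminf_le_of_le (by isBoundedDefault) fun b hb => ?_
    obtain ⟨n, hn1, hn2⟩ := (hb.and (cpt_ball_sub hR 0 r')).exists
    exact hn1.trans ((cen_mono ball_subset_closedBall).trans (hup n 0 r' hr'0 hn2))

theorem cpt_usc (hR : Tendsto R atTop atTop)
    (h : ∀ n, TMin (ball 0 (R n)) (un n) (ln n) (Kn n)) (hp : TPre un ln Kn u K c lam)
    (hu : TConf univ u (clab K) K) (a : ℂ) (r : ℝ) :
    limsup (fun n => cen (un n) (Kn n) (closedBall a r)) atTop ≤ cen u K (closedBall a r) := by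
  rcases lt_or_ge r 0 with hr0 | hr0
  · simp only [closedBall_eq_empty.2 hr0, usc_cen_finite finite_empty]
    simp
  have h1 : ∀ k : ℕ, ∃ s ∈ Ioo r (r + 1 / ((k : ℝ) + 1)), (K ∩ sphere a s).Finite := fun k =>
    cpt_exists_finite (fun C hC => hu.haus_lt hC (subset_univ _)) a hr0 (by
      have : (0 : ℝ) < 1 / ((k : ℝ) + 1) := by positivity
      linarith)
  choose s hs hsf using h1
  have h2 : ∀ k, limsup (fun n => cen (un n) (Kn n) (closedBall a r)) atTop ≤
      cen u K (closedBall a (s k)) := by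
    intro k
    refine le_trans ?_ (tm_usc hR h hp hu isCompact_empty (hr0.trans_lt (hs k).1)
      (empty_subset _) (fun x _ => Iff.rfl) (fun x _ _ => ⟨rfl, rfl⟩) (hsf k))
    refine limsup_le_limsup (Eventually.of_forall fun n => cen_mono ?_)
    exact closedBall_subset_closedBall (hs k).1.le
  obtain ⟨μ, hμ⟩ : ∃ μ : Measure ℂ, μ = (volume.restrict Kᶜ).withDensity
      (fun x => ‖cgr u x‖ₑ ^ 2) + (μH[1] : Measure ℂ).restrict K := ⟨_, rfl⟩
  have hμc : ∀ t, cen u K (closedBall a t) = μ (closedBall a t) := by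
    intro t
    rw [hμ]
    exact usc_cen_eq u measurableSet_closedBall
  rw [hμc]
  simp only [hμc] at h2
  -- continuity from above
  have h3 : μ (closedBall a r) = ⨅ k : ℕ, μ (closedBall a (r + 1 / ((k : ℝ) + 1))) := by
    have h4 : closedBall a r = ⋂ k : ℕ, closedBall a (r + 1 / ((k : ℝ) + 1)) := by
      ext x
      simp only [mem_closedBall, mem_iInter]
      constructor
      · intro h k
        have : (0 : ℝ) < 1 / ((k : ℝ) + 1) := by positivity
        linarith
      · intro h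
        have h5 : Tendsto (fun k : ℕ => r + 1 / ((k : ℝ) + 1)) atTop (𝓝 r) := by
          have := tendsto_one_div_add_atTop_nhds_zero_nat (𝕜 := ℝ)
          simpa using this.const_add r
        exact ge_of_tendsto' h5 h
    conv_lhs => rw [h4]
    rw [Antitone.measure_iInter]
    · intro i j hij
      apply closedBall_subset_closedBall
      have : 1 / ((j : ℝ) + 1) ≤ 1 / ((i : ℝ) + 1) := by
        apply one_div_le_one_div_of_le (by positivity)
        have : (i : ℝ) ≤ j := by exact_mod_cast hij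
        linarith
      linarith
    · intro k
      exact measurableSet_closedBall.nullMeasurableSet
    · refine ⟨0, ?_⟩
      rw [← hμc]
      exact (hu.fin _ (isCompact_closedBall _ _) (subset_univ _)).ne
  rw [h3]
  refine le_iInf fun k => ?_
  exact (h2 k).trans (measure_mono (closedBall_subset_closedBall (hs k).2.le))

theorem cpt_min (hR : Tendsto R atTop atTop)
    (h : ∀ n, TMin (ball 0 (R n)) (un n) (ln n) (Kn n)) (hp : TPre un ln Kn u K c lam)
    (hu : TConf univ u (clab K) K)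
    (hlsc : ∀ A, IsOpen A → cen u K A ≤ liminf (fun n => cen (un n) (Kn n) A) atTop)
    {w : ℂ → ℝ} {l' : ℂ → Set ℂ} {K' F : Set ℂ} (hw : TConf univ w l' K') (hF : IsCompact F)
    (hKF : ∀ x ∉ F, (x ∈ K' ↔ x ∈ K))
    (hwF : ∀ x ∉ F, x ∉ K → w x = u x ∧ l' x = clab K x) :
    cen u K F ≤ cen w K' F := by
  have hKc : IsClosed K := hp.isClosed
  obtain ⟨r, hr⟩ : ∃ r, F ⊆ ball 0 r := hF.isBounded.subset_ball 0
  obtain ⟨r', hr', hr'0⟩ : ∃ r', r ≤ r' ∧ 0 ≤ r' := ⟨max r 0, le_max_left _ _, le_max_right _ _⟩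
  obtain ⟨s, ⟨hrs, -⟩, hfin⟩ := cpt_exists_finite (fun C hC => hu.haus_lt hC (subset_univ _)) 0
    hr'0 (lt_add_one r')
  have hFs : F ⊆ ball 0 s := hr.trans (ball_subset_ball (hr'.trans hrs.le))
  have h1 := tm_usc hR h hp hw hF (hr'0.trans_lt hrs) hFs hKF hwF hfin
  have h2 : cen u K (closedBall 0 s) ≤ cen w K' (closedBall 0 s) := by
    rw [usc_cen_closedBall hfin]
    refine (hlsc _ isOpen_ball).trans (le_trans ?_ h1)
    refine (liminf_le_liminf (Eventually.of_forall fun n =>
      cen_mono ball_subset_closedBall)).trans ?_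
    exact liminf_le_limsup
  have hFm := hF.measurableSet
  rw [usc_cen_diff hFm measurableSet_closedBall (hFs.trans ball_subset_closedBall),
    usc_cen_diff hFm measurableSet_closedBall (hFs.trans ball_subset_closedBall)] at h2
  have h3 : cen u K (closedBall 0 s \ F) = cen w K' (closedBall 0 s \ F) := by
    refine cen_congr (measurableSet_closedBall.diff hFm) hKc.measurableSet
      (fun x hx => (hKF x hx.2).symm) fun x hx hxK => ?_
    symm
    apply cgr_congr
    filter_upwards [hF.isClosed.isOpen_compl.mem_nhds hx.2,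
      hKc.isOpen_compl.mem_nhds hxK] with y hy1 hy2
    exact (hwF y hy1 hy2).1
  rw [← h3] at h2
  have h4 : cen u K (closedBall 0 s \ F) ≠ ⊤ :=
    ((cen_mono sdiff_subset).trans_lt (hu.fin _ (isCompact_closedBall 0 s) (subset_univ _))).ne
  exact (ENNReal.add_le_add_iff_right h4).1 h2

theorem cpt_dens (hR : Tendsto R atTop atTop)
    (h : ∀ n, TMin (ball 0 (R n)) (un n) (ln n) (Kn n)) (hp : TPre un ln Kn u K c lam)
    (hu : TConf univ u (clab K) K) {x : ℂ} (hx : x ∈ K) {r : ℝ} (hr : 0 < r) :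
    ENNReal.ofReal (2 * r) ≤ cen u K (ball x r) := by
  have key : ∀ t : ℝ, 0 < t → t < r → ENNReal.ofReal (2 * t) ≤ cen u K (ball x r) := by
    intro t ht htr
    have h1 : ∀ᶠ n in atTop, ENNReal.ofReal (2 * t) ≤
        cen (un n) (Kn n) (closedBall x ((t + r) / 2)) := by
      filter_upwards [hp.near x hx ((r - t) / 2) (by linarith),
        cpt_ball_sub hR x ((t + r) / 2)] with n hn1 hn2
      obtain ⟨y, hy, hyx⟩ := hn1
      have h2 : closedBall y t ⊆ closedBall x ((t + r) / 2) := by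
        apply closedBall_subset_closedBall'
        rw [mem_ball] at hyx
        linarith
      exact ((h n).dens y hy t ht (h2.trans hn2)).trans
        (cen_mono (ball_subset_closedBall.trans h2))
    calc ENNReal.ofReal (2 * t) ≤
          liminf (fun n => cen (un n) (Kn n) (closedBall x ((t + r) / 2))) atTop :=
          le_liminf_of_le (by isBoundedDefault) h1
      _ ≤ limsup (fun n => cen (un n) (Kn n) (closedBall x ((t + r) / 2))) atTop :=
          liminf_le_limsup
      _ ≤ cen u K (closedBall x ((t + r) / 2)) := cpt_usc hR h hp hu _ _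
      _ ≤ _ := cen_mono (closedBall_subset_ball (by linarith))
  have h2 : Tendsto (fun t : ℝ => ENNReal.ofReal (2 * t)) (𝓝[<] r)
      (𝓝 (ENNReal.ofReal (2 * r))) := by
    have h3 : Continuous fun t : ℝ => ENNReal.ofReal (2 * t) :=
      ENNReal.continuous_ofReal.comp (continuous_const.mul continuous_id)
    exact (h3.tendsto r).mono_left nhdsWithin_le_nhds
  refine le_of_tendsto h2 ?_
  filter_upwards [Ioo_mem_nhdsLT hr] with t ht
  exact key t ht.1 ht.2

/-- **Compactness, last step.** -/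
theorem cpt_of (hR : Tendsto R atTop atTop)
    (h : ∀ n, TMin (ball 0 (R n)) (un n) (ln n) (Kn n)) (hp : TPre un ln Kn u K c lam)
    (hup : ∀ n a r, 0 ≤ r → closedBall a r ⊆ ball 0 (R n) →
      cen (un n) (Kn n) (closedBall a r) ≤ ENNReal.ofReal (2 * Real.pi * r))
    (hlsc : ∀ A, IsOpen A → cen u K A ≤ liminf (fun n => cen (un n) (Kn n) A) atTop) :
    TGlob u K ∧ TConv un Kn u K := by
  have hu := cpt_conf hR hup hp hlsc
  refine ⟨⟨hu, ?_, ?_, ?_⟩, ⟨hp.near, hp.far, ?_, hlsc, ?_⟩⟩
  · rw [← compl_eq_univ_sdiff]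
    exact hp.hol
  · intro x hx r hr _
    exact cpt_dens hR h hp hu hx hr
  · intro w l' K' F hw hF _ hKF hwF
    exact cpt_min hR h hp hu hlsc hw hF (fun x hx => hKF x ⟨mem_univ _, hx⟩)
      (fun x hx hxK => hwF x ⟨mem_univ _, hx⟩ hxK)
  · intro C hC hCK ε hε
    filter_upwards [hp.val C hC hCK ε hε] with n hn x hx
    exact (hn x hx).2.1
  · exact cpt_usc hR h hp hu

end

end Pool.Agent.MP099f24
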