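import Mathlib
import Pool.Agent.Lib.MP_099f24_an.TM.Defs
import Pool.Agent.Lib.MP_099f24_an.TM.Upp
import Pool.Agent.Lib.MP_099f24_an.TM.ExtCore

/-!
# Extraction of convergent subsequences of topological minimizers
-/

set_option autoImplicit false

namespace Pool.Agent.MP099f24

open MeasureTheory Filter Topology Set Metric
open scoped ENNReal ContDiff

theorem tm_extract {R : ℕ → ℝ} (hR : Tendsto R atTop atTop) {un : ℕ → ℂ → ℝ}
    {ln : ℕ → ℂ → Set ℂ} {Kn : ℕ → Set ℂ}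
    (h : ∀ n, TMin (ball 0 (R n)) (un n) (ln n) (Kn n)) :
    ∃ φ : ℕ → ℕ, StrictMono φ ∧ ∃ (u : ℂ → ℝ) (K : Set ℂ) (c : ℕ → Set ℂ → ℝ)
      (lam : ℕ → Set ℂ → Set ℂ),
      TPre (fun n => un (φ n)) (fun n => ln (φ n)) (fun n => Kn (φ n)) u K c lam :=
  tm_extract_core hR h fun n _ _ hr hb => (h n).upper hr hb

end Pool.Agent.MP099f24
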