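import Pool.Agent.Lib.MP_099f24_an.TM.Bas

/-!
# Gluing a competitor of the limit into a term of the sequence
-/

set_option autoImplicit false

namespace Pool.Agent.MP099f24

open MeasureTheory Filter Topology Set Metric
open scoped ENNReal ContDiff

theorem usc_mix {b v w : ℂ → ℝ} {x : ℂ} (c : ℝ) (hb : DifferentiableAt ℝ b x)
    (hv : DifferentiableAt ℝ v x) (hw : DifferentiableAt ℝ w x) :
    cgr (fun y => (1 - b y) * v y + b y * (w y + c)) x =
      cgr w x + ((1 - b x : ℝ) : ℂ) * (cgr v x - cgr w x) - ((v x - w x - c : ℝ) : ℂ) * cgr b x := by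
  have h1 : HasFDerivAt (fun y => (1 - b y) * v y + b y * (w y + c))
      (((1 - b x) • fderiv ℝ v x + v x • (-fderiv ℝ b x)) +
        (b x • fderiv ℝ w x + (w x + c) • fderiv ℝ b x)) x := by
    have hb' := hb.hasFDerivAt
    exact ((hb'.const_sub 1).mul hv.hasFDerivAt).add (hb'.mul (hw.hasFDerivAt.add_const c))
  unfold cgr
  rw [h1.fderiv]
  simp only [add_apply, smul_apply,
    neg_apply, smul_eq_mul]
  push_cast
  ring

theorem usc_sphere_le (q : ℂ) {η : ℝ} (hη : 0 ≤ η) :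
    (μH[1] : Measure ℂ) (sphere q η) ≤ ENNReal.ofReal (2 * Real.pi * η) := by
  have h1 := image_circleMap_Ioc q η
  rw [abs_of_nonneg hη] at h1
  rw [← h1]
  refine ((lipschitzWith_circleMap q η).hausdorffMeasure_image_le zero_le_one _).trans ?_
  rw [hausdorffMeasure_real, Real.volume_Ioc, ENNReal.rpow_one, sub_zero]
  have h2 : ((Real.nnabs η : NNReal) : ℝ≥0∞) = ENNReal.ofReal η := by
    rw [ENNReal.ofReal]
    congr 1
    ext
    simp [hη]
  rw [h2, ← ENNReal.ofReal_mul hη]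
  apply ENNReal.ofReal_le_ofReal
  linarith

theorem usc_spheres_le {P : Set ℂ} (hP : P.Finite) {η : ℝ} (hη : 0 ≤ η) :
    (μH[1] : Measure ℂ) (⋃ q ∈ P, sphere q η) ≤
      (P.ncard : ℝ≥0∞) * ENNReal.ofReal (2 * Real.pi * η) := by
  have h1 : (⋃ q ∈ P, sphere q η) = ⋃ q ∈ hP.toFinset, sphere q η := by
    simp
  rw [h1]
  refine (measure_biUnion_finset_le _ _).trans ?_
  refine (Finset.sum_le_sum (fun q _ => usc_sphere_le q hη)).trans ?_
  rw [Finset.sum_const, nsmul_eq_mul, ncard_eq_toFinset_card P hP]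

/-- **Gluing.** A triple `(w, l', K')` of the plane is pasted, inside the disc `B(a, s)`, into the
triple `(v, lv, Kv)` of `Ω`, which is close to it (up to the constants `c` and the labels `Λ`) near
the circle `∂B(a, s)` except in small discs around finitely many points. -/
theorem usc_glue {Ω : Set ℂ} {v : ℂ → ℝ} {lv : ℂ → Set ℂ} {Kv : Set ℂ} (hv : TConf Ω v lv Kv)
    {w : ℂ → ℝ} {l' : ℂ → Set ℂ} {K' : Set ℂ} (hw : TConf univ w l' K')
    {P : Set ℂ} (hP : P.Finite) {a : ℂ} {s r r' η ε M B : ℝ} (hη : 0 < η)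
    {b : ℂ → ℝ} (hb : ContDiff ℝ 1 b) (hb01 : ∀ x, 0 ≤ b x ∧ b x ≤ 1)
    (hb1 : ∀ x ∈ ball a r, b x = 1) (hb0 : ∀ x, x ∉ closedBall a r' → b x = 0)
    (hr : r ≤ r') (hr' : r' < s) (hM : ∀ x, ‖cgr b x‖ ≤ M)
    (hsub : closedBall a s ∪ (⋃ q ∈ P, closedBall q η) ⊆ Ω)
    {c : Set ℂ → ℝ} {Λ : Set ℂ → Set ℂ}
    (hA : ∀ x ∈ closedBall a s, x ∉ ball a r → x ∉ (⋃ q ∈ P, ball q η) →
      x ∉ Kv ∧ x ∉ K' ∧ |v x - w x - c (l' x)| ≤ ε ∧ ‖cgr v x - cgr w x‖ ≤ ε ∧ ‖cgr w x‖ ≤ B ∧
        lv x = Λ (l' x)) :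
    ∃ (w'' : ℂ → ℝ) (l'' : ℂ → Set ℂ) (K'' : Set ℂ), TConf Ω w'' l'' K'' ∧
      (∀ x, x ∉ closedBall a s ∪ (⋃ q ∈ P, closedBall q η) →
        (x ∈ K'' ↔ x ∈ Kv) ∧ w'' x = v x ∧ l'' x = lv x) ∧
      cen w'' K'' (closedBall a s ∪ (⋃ q ∈ P, closedBall q η)) ≤
        cen w K' (closedBall a s) + (P.ncard : ℝ≥0∞) * ENNReal.ofReal (2 * Real.pi * η) +
          ENNReal.ofReal ((2 * B + ε * (1 + M)) * (ε * (1 + M))) * volume (closedBall a s) := by
  classical
  -- notation
  obtain ⟨U, hU⟩ : ∃ U, U = ⋃ q ∈ P, ball q η := ⟨_, rfl⟩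
  obtain ⟨S, hS⟩ : ∃ S, S = ⋃ q ∈ P, sphere q η := ⟨_, rfl⟩
  obtain ⟨D, hD⟩ : ∃ D, D = ⋃ q ∈ P, closedBall q η := ⟨_, rfl⟩
  rw [← hU] at hA
  rw [← hD] at hsub ⊢
  have hUo : IsOpen U := by rw [hU]; exact isOpen_biUnion fun q _ => isOpen_ball
  have hSc : IsClosed S := by rw [hS]; exact hP.isClosed_biUnion fun q _ => isClosed_sphere
  have hDc : IsClosed D := by rw [hD]; exact hP.isClosed_biUnion fun q _ => isClosed_closedBall
  have hUSD : U ∪ S = D := by
    rw [hU, hS, hD]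
    ext x
    simp only [mem_union, mem_iUnion, mem_ball, mem_sphere, mem_closedBall, exists_prop]
    constructor
    · rintro (⟨q, hq, h⟩ | ⟨q, hq, h⟩)
      · exact ⟨q, hq, h.le⟩
      · exact ⟨q, hq, h.le⟩
    · rintro ⟨q, hq, h⟩
      rcases h.lt_or_eq with h | h
      · exact Or.inl ⟨q, hq, h⟩
      · exact Or.inr ⟨q, hq, h⟩
  have hnotD : ∀ {x}, x ∉ U → x ∉ S → x ∉ D := by
    intro x h1 h2 h3
    rw [← hUSD] at h3
    rcases h3 with h | h
    · exact h1 h
    · exact h2 h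
  have hUD : U ⊆ D := by rw [← hUSD]; exact subset_union_left
  have hSD : S ⊆ D := by rw [← hUSD]; exact subset_union_right
  have hK'c : IsClosed K' := by
    have h1 := hw.isOpen_off
    have h2 : univ \ K' = K'ᶜ := by rw [compl_eq_univ_sdiff]
    rw [h2] at h1
    exact isOpen_compl_iff.1 h1
  obtain ⟨w'', hw''⟩ : ∃ w'' : ℂ → ℝ, w'' = fun x => if x ∈ U then 0 else if x ∈ ball a s then
    (1 - b x) * v x + b x * (w x + c (l' x)) else v x := ⟨_, rfl⟩
  obtain ⟨l'', hl''⟩ : ∃ l'' : ℂ → Set ℂ, l'' = fun x => if x ∈ U then ∅ else if x ∈ ball a s then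
    Λ (l' x) else lv x := ⟨_, rfl⟩
  obtain ⟨K'', hK''⟩ : ∃ K'' : Set ℂ, K'' = ((K' ∩ closedBall a s) \ U ∪ S) ∪
    (Kv \ (ball a s ∪ U)) := ⟨_, rfl⟩
  -- local descriptions
  have F1w : ∀ x ∈ U, w'' =ᶠ[𝓝 x] fun _ => (0 : ℝ) := by
    intro x hx
    filter_upwards [hUo.mem_nhds hx] with y hy
    rw [hw'']
    simp only [hy, if_true]
  have F1l : ∀ x ∈ U, l'' =ᶠ[𝓝 x] fun _ => (∅ : Set ℂ) := by
    intro x hx
    filter_upwards [hUo.mem_nhds hx] with y hy
    rw [hl'']
    simp only [hy, if_true]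
  have F2w : ∀ x, x ∉ D → x ∈ ball a s →
      w'' =ᶠ[𝓝 x] fun y => (1 - b y) * v y + b y * (w y + c (l' y)) := by
    intro x hx hxs
    filter_upwards [hDc.isOpen_compl.mem_nhds hx, isOpen_ball.mem_nhds hxs] with y hy hys
    have hyU : y ∉ U := fun h => hy (hUD h)
    rw [hw'']
    simp only [hyU, hys, if_false, if_true]
  have F2l : ∀ x, x ∉ D → x ∈ ball a s → l'' =ᶠ[𝓝 x] fun y => Λ (l' y) := by
    intro x hx hxs
    filter_upwards [hDc.isOpen_compl.mem_nhds hx, isOpen_ball.mem_nhds hxs] with y hy hys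
    have hyU : y ∉ U := fun h => hy (hUD h)
    rw [hl'']
    simp only [hyU, hys, if_false, if_true]
  have F3w : ∀ x, x ∉ D → x ∉ closedBall a r' → w'' =ᶠ[𝓝 x] v := by
    intro x hx hxr
    filter_upwards [hDc.isOpen_compl.mem_nhds hx,
      isClosed_closedBall.isOpen_compl.mem_nhds hxr] with y hy hyr
    have hyU : y ∉ U := fun h => hy (hUD h)
    rw [hw'']
    simp only [hyU, if_false]
    split_ifs
    · rw [hb0 y hyr]
      ring
    · rfl
  have F3l : ∀ x, x ∉ D → x ∉ closedBall a r' → l'' =ᶠ[𝓝 x] lv := by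
    intro x hx hxr
    filter_upwards [hDc.isOpen_compl.mem_nhds hx,
      isClosed_closedBall.isOpen_compl.mem_nhds hxr] with y hy hyr
    have hyU : y ∉ U := fun h => hy (hUD h)
    have hyr' : y ∉ ball a r := fun h => hyr (ball_subset_closedBall (ball_subset_ball hr h))
    rw [hl'']
    simp only [hyU, if_false]
    split_ifs with hys
    · exact (hA y (ball_subset_closedBall hys) hyr' hyU).2.2.2.2.2.symm
    · rfl
  have hlconst : ∀ x, x ∉ K' → ∀ᶠ y in 𝓝 x, l' y = l' x := fun x hx => hw.lab x ⟨mem_univ _, hx⟩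
  have F2w' : ∀ x, x ∉ D → x ∈ ball a s → x ∉ K' →
      w'' =ᶠ[𝓝 x] fun y => (1 - b y) * v y + b y * (w y + c (l' x)) := by
    intro x hx hxs hxK
    filter_upwards [F2w x hx hxs, hlconst x hxK] with y hy hy2
    rw [hy, hy2]
  have F4w : ∀ x, x ∉ D → x ∈ ball a r → x ∉ K' → w'' =ᶠ[𝓝 x] fun y => w y + c (l' x) := by
    intro x hx hxr hxK
    have hxs : x ∈ ball a s := ball_subset_ball (hr.trans hr'.le) hxr
    filter_upwards [F2w' x hx hxs hxK, isOpen_ball.mem_nhds hxr] with y hy hyr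
    rw [hy, hb1 y hyr]
    ring
  -- points off `K''`
  have hoffK : ∀ x, x ∉ K'' → x ∈ U ∨ (x ∉ D ∧ (x ∈ closedBall a s → x ∉ K') ∧
      (x ∉ ball a s → x ∉ Kv)) := by
    intro x hx
    rw [hK''] at hx
    simp only [mem_union, Set.mem_sdiff, mem_inter_iff, not_or, not_and, not_not] at hx
    obtain ⟨⟨h1, h2⟩, h3⟩ := hx
    by_cases hxU : x ∈ U
    · exact Or.inl hxU
    · refine Or.inr ⟨hnotD hxU h2, fun h hK => hxU (h1 ⟨hK, h⟩), fun h hK => ?_⟩
      exact hxU (h3 hK h)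
  have hΩU : U ⊆ Ω := hUD.trans (subset_union_right.trans hsub)
  have hΩS : S ⊆ Ω := hSD.trans (subset_union_right.trans hsub)
  have hΩs : closedBall a s ⊆ Ω := subset_union_left.trans hsub
  -- the case distinction of a point off `K''`
  have hcase : ∀ x ∈ Ω, x ∉ K'' → x ∈ U ∨ (x ∉ D ∧ x ∈ ball a r ∧ x ∉ K') ∨
      (x ∉ D ∧ x ∉ ball a r ∧ x ∈ ball a s ∧ x ∉ K' ∧ x ∉ Kv) ∨
      (x ∉ D ∧ x ∉ closedBall a r' ∧ x ∉ Kv) := by
    intro x hx hxK
    rcases hoffK x hxK with h | ⟨h1, h2, h3⟩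
    · exact Or.inl h
    · by_cases hxr : x ∈ ball a r
      · have hxs : x ∈ closedBall a s :=
          ball_subset_closedBall (ball_subset_ball (hr.trans hr'.le) hxr)
        exact Or.inr (Or.inl ⟨h1, hxr, h2 hxs⟩)
      · by_cases hxs : x ∈ ball a s
        · have h4 := hA x (ball_subset_closedBall hxs) hxr (fun h => h1 (hUD h))
          exact Or.inr (Or.inr (Or.inl ⟨h1, hxr, hxs, h4.2.1, h4.1⟩))
        · refine Or.inr (Or.inr (Or.inr ⟨h1, fun h => hxs ?_, h3 hxs⟩))
          exact mem_ball.2 ((mem_closedBall.1 h).trans_lt hr')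
  -- the set `Ω \ K''` is open
  have hopen : IsOpen (Ω \ K'') := by
    have h1 : Ω \ K'' = (Ω \ ((K' ∩ closedBall a s) \ U ∪ S)) ∩
        ((Ω \ Kv) ∪ (Ω ∩ (ball a s ∪ U))) := by
      rw [hK'']
      ext x
      simp only [mem_union, Set.mem_sdiff, mem_inter_iff]
      tauto
    rw [h1]
    refine IsOpen.inter (hv.isOpen.sdiff (IsClosed.union ?_ hSc)) ?_
    · exact (hK'c.inter isClosed_closedBall).sdiff hUo
    · exact hv.isOpen_off.union (hv.isOpen.inter (isOpen_ball.union hUo))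
  have hK''m : MeasurableSet K'' := by
    rw [hK'']
    refine MeasurableSet.union (MeasurableSet.union ?_ hSc.measurableSet) ?_
    · exact (hK'c.measurableSet.inter measurableSet_closedBall).diff hUo.measurableSet
    · exact hv.measurableSet.diff (measurableSet_ball.union hUo.measurableSet)
  have hvd : ∀ x ∈ Ω, x ∉ Kv → ContDiffAt ℝ 1 v x := fun x h1 h2 =>
    hv.smooth.contDiffAt (hv.isOpen_off.mem_nhds ⟨h1, h2⟩)
  have hwd : ∀ x, x ∉ K' → ContDiffAt ℝ 1 w x := fun x h =>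
    hw.smooth.contDiffAt (hw.isOpen_off.mem_nhds ⟨mem_univ x, h⟩)
  -- agreement off the glued part
  have hagree : ∀ x, x ∉ closedBall a s ∪ D → (x ∈ K'' ↔ x ∈ Kv) ∧ w'' x = v x ∧
      l'' x = lv x := by
    intro x hx
    have hxs : x ∉ closedBall a s := fun h => hx (Or.inl h)
    have hxD : x ∉ D := fun h => hx (Or.inr h)
    have hxr : x ∉ closedBall a r' := fun h => hxs (closedBall_subset_closedBall hr'.le h)
    have hxU : x ∉ U := fun h => hxD (hUD h)
    have hxS : x ∉ S := fun h => hxD (hSD h)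
    have hxb : x ∉ ball a s := fun h => hxs (ball_subset_closedBall h)
    refine ⟨?_, (F3w x hxD hxr).self_of_nhds, (F3l x hxD hxr).self_of_nhds⟩
    rw [hK'']
    simp only [mem_union, Set.mem_sdiff, mem_inter_iff]
    tauto
  -- the energy bound
  have hM0 : 0 ≤ M := (norm_nonneg _).trans (hM 0)
  have hgrad : ∀ x ∈ closedBall a s ∪ D, x ∉ K'' → x ∉ U →
      x ∈ closedBall a s ∧ x ∉ K' ∧ ‖cgr w'' x‖ₑ ^ 2 ≤ ‖cgr w x‖ₑ ^ 2 +
        ENNReal.ofReal ((2 * B + ε * (1 + M)) * (ε * (1 + M))) := by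
    intro x hx hxK hxU
    have hxΩ : x ∈ Ω := hsub hx
    have key : ∀ e : ℝ, 0 ≤ e → ‖cgr w x‖ ≤ B → ‖cgr w'' x‖ ≤ ‖cgr w x‖ + e →
        e ≤ ε * (1 + M) → ‖cgr w'' x‖ₑ ^ 2 ≤ ‖cgr w x‖ₑ ^ 2 +
          ENNReal.ofReal ((2 * B + ε * (1 + M)) * (ε * (1 + M))) := by
      intro e he hB hle hee
      have h1 : ‖cgr w'' x‖ ^ 2 ≤ ‖cgr w x‖ ^ 2 + (2 * B + ε * (1 + M)) * (ε * (1 + M)) := by
        have h2 : ‖cgr w'' x‖ ≤ ‖cgr w x‖ + ε * (1 + M) := hle.trans (by linarith)
        have h3 : 0 ≤ ε * (1 + M) := he.trans hee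
        have h4 := norm_nonneg (cgr w'' x)
        have h5 := norm_nonneg (cgr w x)
        nlinarith
      have h6 : 0 ≤ (2 * B + ε * (1 + M)) * (ε * (1 + M)) := by
        have h3 : 0 ≤ ε * (1 + M) := he.trans hee
        have h5 := norm_nonneg (cgr w x)
        exact mul_nonneg (by linarith) h3
      rw [← ofReal_norm, ← ofReal_norm, ← ENNReal.ofReal_pow (norm_nonneg _),
        ← ENNReal.ofReal_pow (norm_nonneg _), ← ENNReal.ofReal_add (by positivity) h6]
      exact ENNReal.ofReal_le_ofReal h1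
    rcases hcase x hxΩ hxK with h | ⟨h1, h2, h3⟩ | ⟨h1, h2, h3, h4, h5⟩ | ⟨h1, h2, h3⟩
    · exact absurd h hxU
    · have hxs : x ∈ closedBall a s :=
        ball_subset_closedBall (ball_subset_ball (hr.trans hr'.le) h2)
      refine ⟨hxs, h3, ?_⟩
      rw [cgr_congr (F4w x h1 h2 h3), cgr_add_const]
      exact le_self_add
    · obtain ⟨k1, k2, k3, k4, k5, k6⟩ := hA x (ball_subset_closedBall h3) h2 hxU
      refine ⟨ball_subset_closedBall h3, h4, ?_⟩
      have hε : 0 ≤ ε := (abs_nonneg _).trans k3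
      refine key (ε * (1 + M)) (by positivity) k5 ?_ le_rfl
      rw [cgr_congr (F2w' x h1 h3 h4), usc_mix _ (hb.contDiffAt.differentiableAt one_ne_zero)
        ((hvd x hxΩ h5).differentiableAt one_ne_zero) ((hwd x h4).differentiableAt one_ne_zero)]
      have e1 : ‖((1 - b x : ℝ) : ℂ) * (cgr v x - cgr w x)‖ ≤ ε := by
        rw [norm_mul, Complex.norm_real, Real.norm_eq_abs, abs_of_nonneg (by linarith [hb01 x])]
        calc (1 - b x) * ‖cgr v x - cgr w x‖ ≤ 1 * ε :=
              mul_le_mul (by linarith [hb01 x]) k4 (norm_nonneg _) zero_le_one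
          _ = ε := one_mul _
      have e2 : ‖((v x - w x - c (l' x) : ℝ) : ℂ) * cgr b x‖ ≤ ε * M := by
        rw [norm_mul, Complex.norm_real, Real.norm_eq_abs]
        exact mul_le_mul k3 (hM x) (norm_nonneg _) hε
      calc _ ≤ ‖cgr w x + ((1 - b x : ℝ) : ℂ) * (cgr v x - cgr w x)‖ +
            ‖((v x - w x - c (l' x) : ℝ) : ℂ) * cgr b x‖ := norm_sub_le _ _
        _ ≤ (‖cgr w x‖ + ‖((1 - b x : ℝ) : ℂ) * (cgr v x - cgr w x)‖) +
            ‖((v x - w x - c (l' x) : ℝ) : ℂ) * cgr b x‖ := by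
              gcongr
              exact norm_add_le _ _
        _ ≤ _ := by linarith
    · have hxs : x ∈ closedBall a s := by
        rcases hx with h | h
        · exact h
        · exact absurd h h1
      have h2' : x ∉ ball a r := fun h => h2 (ball_subset_closedBall (ball_subset_ball hr h))
      obtain ⟨k1, k2, k3, k4, k5, k6⟩ := hA x hxs h2' hxU
      refine ⟨hxs, k2, ?_⟩
      have hε : 0 ≤ ε := (abs_nonneg _).trans k3
      refine key ε hε k5 ?_ (by nlinarith)
      rw [cgr_congr (F3w x h1 h2)]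
      calc ‖cgr v x‖ = ‖cgr w x + (cgr v x - cgr w x)‖ := by congr 1; ring
        _ ≤ ‖cgr w x‖ + ‖cgr v x - cgr w x‖ := norm_add_le _ _
        _ ≤ _ := by linarith
  have henergy : cen w'' K'' (closedBall a s ∪ D) ≤
        cen w K' (closedBall a s) + (P.ncard : ℝ≥0∞) * ENNReal.ofReal (2 * Real.pi * η) +
          ENNReal.ofReal ((2 * B + ε * (1 + M)) * (ε * (1 + M))) * volume (closedBall a s) := by
    have hFm : MeasurableSet ((closedBall a s ∪ D) \ K'') :=
      (measurableSet_closedBall.union hDc.measurableSet).diff hK''m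
    have hGm : MeasurableSet (closedBall a s \ K') :=
      measurableSet_closedBall.diff hK'c.measurableSet
    have h1 : ∫⁻ x in (closedBall a s ∪ D) \ K'', ‖cgr w'' x‖ₑ ^ 2 ≤
        ∫⁻ x in closedBall a s \ K', (‖cgr w x‖ₑ ^ 2 +
          ENNReal.ofReal ((2 * B + ε * (1 + M)) * (ε * (1 + M)))) := by
      rw [← lintegral_indicator hFm, ← lintegral_indicator hGm]
      refine lintegral_mono fun x => ?_
      by_cases hx : x ∈ (closedBall a s ∪ D) \ K''
      · rw [indicator_of_mem hx]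
        by_cases hxU : x ∈ U
        · rw [cgr_congr (F1w x hxU), cgr_const]
          simp
        · obtain ⟨k1, k2, k3⟩ := hgrad x hx.1 hx.2 hxU
          have hm : x ∈ closedBall a s \ K' := ⟨k1, k2⟩
          rw [indicator_of_mem hm]
          exact k3
      · rw [indicator_of_notMem hx]
        exact zero_le
    have h2 : ∫⁻ x in closedBall a s \ K', (‖cgr w x‖ₑ ^ 2 +
          ENNReal.ofReal ((2 * B + ε * (1 + M)) * (ε * (1 + M)))) ≤
        (∫⁻ x in closedBall a s \ K', ‖cgr w x‖ₑ ^ 2) +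
          ENNReal.ofReal ((2 * B + ε * (1 + M)) * (ε * (1 + M))) * volume (closedBall a s) := by
      rw [lintegral_add_right _ measurable_const, lintegral_const, Measure.restrict_apply_univ]
      gcongr
      exact sdiff_subset
    have h3 : (μH[1] : Measure ℂ) (K'' ∩ (closedBall a s ∪ D)) ≤
        (μH[1] : Measure ℂ) (K' ∩ closedBall a s) +
          (P.ncard : ℝ≥0∞) * ENNReal.ofReal (2 * Real.pi * η) := by
      have hsubs : K'' ∩ (closedBall a s ∪ D) ⊆ (K' ∩ closedBall a s) ∪ S := by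
        rintro x ⟨hxK, hx⟩
        rw [hK''] at hxK
        rcases hxK with (h | h) | h
        · exact Or.inl h.1
        · exact Or.inr h
        · have h1 : x ∉ ball a s := fun h' => h.2 (Or.inl h')
          have h2 : x ∉ U := fun h' => h.2 (Or.inr h')
          rcases hx with hx | hx
          · have h3 : x ∉ ball a r := fun h' => h1 (ball_subset_ball (hr.trans hr'.le) h')
            exact absurd h.1 (hA x hx h3 h2).1
          · rw [← hUSD] at hx
            rcases hx with hx | hx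
            · exact absurd hx h2
            · exact Or.inr hx
      refine (measure_mono hsubs).trans ((measure_union_le _ _).trans ?_)
      gcongr
      rw [hS]
      exact usc_spheres_le hP hη.le
    unfold cen
    calc _ ≤ ((∫⁻ x in closedBall a s \ K', ‖cgr w x‖ₑ ^ 2) +
          ENNReal.ofReal ((2 * B + ε * (1 + M)) * (ε * (1 + M))) * volume (closedBall a s)) +
          ((μH[1] : Measure ℂ) (K' ∩ closedBall a s) +
          (P.ncard : ℝ≥0∞) * ENNReal.ofReal (2 * Real.pi * η)) :=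
          add_le_add (h1.trans h2) h3
      _ = _ := by ring
  have hFfin : cen w'' K'' (closedBall a s ∪ D) < ⊤ := by
    refine henergy.trans_lt ?_
    refine ENNReal.add_lt_top.2 ⟨ENNReal.add_lt_top.2 ⟨?_, ?_⟩, ?_⟩
    · exact hw.fin _ (isCompact_closedBall a s) (subset_univ _)
    · exact ENNReal.mul_lt_top (ENNReal.natCast_lt_top _) ENNReal.ofReal_lt_top
    · exact ENNReal.mul_lt_top ENNReal.ofReal_lt_top (isCompact_closedBall a s).measure_lt_top
  refine ⟨w'', l'', K'', ⟨hv.isOpen, ?_, hopen, ?_, ?_, ?_⟩, hagree, henergy⟩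
  · -- K'' ⊆ Ω
    rw [hK'']
    rintro x ((h | h) | h)
    · exact hΩs h.1.2
    · exact hΩS h
    · exact hv.sub h.1
  · -- smoothness
    intro x hx
    refine ContDiffAt.contDiffWithinAt ?_
    rcases hcase x hx.1 hx.2 with h | ⟨h1, h2, h3⟩ | ⟨h1, h2, h3, h4, h5⟩ | ⟨h1, h2, h3⟩
    · exact contDiffAt_const.congr_of_eventuallyEq (F1w x h)
    · exact ((hwd x h3).add contDiffAt_const).congr_of_eventuallyEq (F4w x h1 h2 h3)
    · refine ContDiffAt.congr_of_eventuallyEq ?_ (F2w' x h1 h3 h4)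
      exact ((contDiffAt_const.sub hb.contDiffAt).mul (hvd x hx.1 h5)).add
        (hb.contDiffAt.mul ((hwd x h4).add contDiffAt_const))
    · exact (hvd x hx.1 h3).congr_of_eventuallyEq (F3w x h1 h2)
  · -- labels
    intro x hx
    rcases hcase x hx.1 hx.2 with h | ⟨h1, h2, h3⟩ | ⟨h1, h2, h3, h4, h5⟩ | ⟨h1, h2, h3⟩
    · filter_upwards [F1l x h] with y hy
      rw [hy, (F1l x h).self_of_nhds]
    · have h6 := F2l x h1 (ball_subset_ball (hr.trans hr'.le) h2)
      filter_upwards [h6, hlconst x h3] with y hy hy2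
      rw [hy, h6.self_of_nhds, hy2]
    · have h6 := F2l x h1 h3
      filter_upwards [h6, hlconst x h4] with y hy hy2
      rw [hy, h6.self_of_nhds, hy2]
    · have h6 := F3l x h1 h2
      filter_upwards [h6, hv.lab x ⟨hx.1, h3⟩] with y hy hy2
      rw [hy, h6.self_of_nhds, hy2]
  · -- finiteness
    intro C hC hCΩ
    have h1 : C ⊆ (closedBall a s ∪ D) ∪ (C \ (closedBall a s ∪ D)) := by
      rw [union_sdiff_self]
      exact subset_union_right
    refine (cen_mono h1).trans_lt ((cen_union_le _ _).trans_lt ?_)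
    refine ENNReal.add_lt_top.2 ⟨hFfin, ?_⟩
    have h2 : cen w'' K'' (C \ (closedBall a s ∪ D)) = cen v Kv (C \ (closedBall a s ∪ D)) := by
      unfold cen
      have e1 : (C \ (closedBall a s ∪ D)) \ K'' = (C \ (closedBall a s ∪ D)) \ Kv := by
        ext x
        constructor
        · rintro ⟨h, h'⟩
          exact ⟨h, fun hh => h' ((hagree x h.2).1.2 hh)⟩
        · rintro ⟨h, h'⟩
          exact ⟨h, fun hh => h' ((hagree x h.2).1.1 hh)⟩
      have e2 : K'' ∩ (C \ (closedBall a s ∪ D)) = Kv ∩ (C \ (closedBall a s ∪ D)) := by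
        ext x
        constructor
        · rintro ⟨h, h'⟩
          exact ⟨(hagree x h'.2).1.1 h, h'⟩
        · rintro ⟨h, h'⟩
          exact ⟨(hagree x h'.2).1.2 h, h'⟩
      rw [e1, e2]
      congr 1
      refine setLIntegral_congr_fun ?_ ?_
      · exact (hC.measurableSet.diff (measurableSet_closedBall.union hDc.measurableSet)).diff
          hv.measurableSet
      · intro x hx
        have hxs : x ∉ closedBall a s := fun h => hx.1.2 (Or.inl h)
        have hxD : x ∉ D := fun h => hx.1.2 (Or.inr h)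
        have hxr : x ∉ closedBall a r' := fun h => hxs (closedBall_subset_closedBall hr'.le h)
        simp only
        rw [cgr_congr (F3w x hxD hxr)]
    rw [h2]
    exact (cen_mono sdiff_subset).trans_lt (hv.fin C hC hCΩ)

end Pool.Agent.MP099f24
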