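import Pool.Agent.Lib.MP_099f24_an.TM.Glue
import Pool.Agent.Lib.MP_099f24_an.TM.Pre

/-!
# Upper semicontinuity of the energy against competitors of the limit
-/

set_option autoImplicit false

namespace Pool.Agent.MP099f24

open MeasureTheory Filter Topology Set Metric
open scoped ENNReal ContDiff

variable {u w : ℂ → ℝ} {K : Set ℂ}

theorem usc_haus_finite {A : Set ℂ} (hA : A.Finite) : (μH[1] : Measure ℂ) A = 0 := by
  have := Measure.nullSingletonClass_hausdorff ℂ zero_lt_one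
  exact hA.measure_zero _

theorem usc_cen_null {A : Set ℂ} (hA : volume A = 0) (hK : (K ∩ A).Finite) :
    cen w K A = 0 := by
  unfold cen
  rw [usc_haus_finite hK, add_zero]
  exact setLIntegral_measure_zero _ _ (measure_mono_null sdiff_subset hA)

theorem usc_cen_finite {A : Set ℂ} (hA : A.Finite) : cen w K A = 0 :=
  usc_cen_null (hA.measure_zero _) (hA.subset inter_subset_right)

/-- the energy as a measure -/
theorem usc_cen_eq (w : ℂ → ℝ) {K A : Set ℂ} (hA : MeasurableSet A) :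
    cen w K A = ((volume.restrict Kᶜ).withDensity (fun x => ‖cgr w x‖ₑ ^ 2) +
      (μH[1] : Measure ℂ).restrict K) A := by
  rw [Measure.add_apply, withDensity_apply _ hA, Measure.restrict_restrict hA,
    Measure.restrict_apply hA, inter_comm A K]
  rfl

theorem usc_cen_sphere {a : ℂ} {s : ℝ} (h : (K ∩ sphere a s).Finite) :
    cen w K (sphere a s) = 0 :=
  usc_cen_null (Measure.addHaar_sphere _ _ _) h

theorem usc_cen_closedBall {a : ℂ} {s : ℝ}
    (h : (K ∩ sphere a s).Finite) : cen w K (closedBall a s) = cen w K (ball a s) := by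
  refine le_antisymm ?_ (cen_mono ball_subset_closedBall)
  rw [← ball_union_sphere]
  refine (cen_union_le _ _).trans ?_
  rw [usc_cen_sphere h, add_zero]

theorem usc_cen_diff {A B : Set ℂ} (hA : MeasurableSet A) (hB : MeasurableSet B)
    (hAB : A ⊆ B) : cen w K B = cen w K A + cen w K (B \ A) := by
  rw [usc_cen_eq w hA, usc_cen_eq w hB, usc_cen_eq w (hB.diff hA)]
  rw [← measure_union disjoint_sdiff_right (hB.diff hA), union_sdiff_cancel hAB]

theorem usc_eventually {un : ℕ → ℂ → ℝ} {ln : ℕ → ℂ → Set ℂ} {Kn : ℕ → Set ℂ} {R : ℕ → ℝ}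
    (hR : Tendsto R atTop atTop) (hmin : ∀ n, TMin (ball 0 (R n)) (un n) (ln n) (Kn n))
    {c : ℕ → Set ℂ → ℝ} {lam : ℕ → Set ℂ → Set ℂ} (hp : TPre un ln Kn u K c lam)
    {l' : ℂ → Set ℂ} {K' F : Set ℂ} (hw : TConf univ w l' K') (hF : IsCompact F)
    (hKF : ∀ x, x ∉ F → (x ∈ K' ↔ x ∈ K))
    (hwF : ∀ x, x ∉ F → x ∉ K → w x = u x ∧ l' x = clab K x)
    {a : ℂ} {s : ℝ} (hs0 : 0 < s) (hs : F ⊆ ball a s) (hfin : (K ∩ sphere a s).Finite)
    {η κ : ℝ} (hη : 0 < η) (hκ : 0 < κ) :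
    ∀ᶠ n in atTop, cen (un n) (Kn n) (closedBall a s) ≤ cen w K' (closedBall a s) +
      ((K ∩ sphere a s).ncard : ℝ≥0∞) * ENNReal.ofReal (2 * Real.pi * η) +
      ENNReal.ofReal κ * volume (closedBall a s) := by
  have hKc : IsClosed K := hp.isClosed
  obtain ⟨P, hP⟩ : ∃ P, P = K ∩ sphere a s := ⟨_, rfl⟩
  rw [← hP] at hfin ⊢
  obtain ⟨U, hU⟩ : ∃ U, U = ⋃ q ∈ P, ball q η := ⟨_, rfl⟩
  have hUo : IsOpen U := by rw [hU]; exact isOpen_biUnion fun q _ => isOpen_ball
  have hPU : P ⊆ U := by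
    intro q hq
    rw [hU]
    exact mem_biUnion hq (mem_ball_self hη)
  -- the radii
  obtain ⟨r0, hr0, hC1⟩ : ∃ r0 < s, (K ∩ closedBall a s) \ U ∪ F ⊆ ball a r0 := by
    refine exists_lt_subset_ball (((hKc.inter isClosed_closedBall).sdiff hUo).union hF.isClosed) ?_
    rintro x (⟨⟨hxK, hxs⟩, hxU⟩ | hx)
    · rcases (mem_closedBall.1 hxs).lt_or_eq with h | h
      · exact mem_ball.2 h
      · exact absurd (hPU (hP ▸ ⟨hxK, mem_sphere.2 h⟩)) hxU
    · exact hs hx
  obtain ⟨r, hr0r, hr_pos, hrs⟩ : ∃ r, r0 ≤ r ∧ 0 < r ∧ r < s :=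
    ⟨max r0 (s / 2), le_max_left _ _, lt_max_of_lt_right (by linarith),
      max_lt hr0 (by linarith)⟩
  have hr' : r < (r + s) / 2 := by linarith
  have hr's : (r + s) / 2 < s := by linarith
  let f : ContDiffBump a := ⟨r, (r + s) / 2, hr_pos, hr'⟩
  have hb : ContDiff ℝ 1 f := f.contDiff
  obtain ⟨M, hM⟩ : ∃ M, ∀ x, ‖cgr f x‖ ≤ M := by
    have h1 : HasCompactSupport (fderiv ℝ f) := f.hasCompactSupport.fderiv ℝ
    have h2 : Continuous (fderiv ℝ f) := hb.continuous_fderiv one_ne_zero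
    obtain ⟨C, hC⟩ := h1.exists_bound_of_continuous h2
    refine ⟨C, fun x => ?_⟩
    rw [cgr_norm]
    exact hC x
  have hM0 : 0 ≤ M := (norm_nonneg _).trans (hM 0)
  -- the thin region
  obtain ⟨A, hAdef⟩ : ∃ A, A = (closedBall a s \ ball a r) \ U := ⟨_, rfl⟩
  have hAc : IsCompact A := by
    rw [hAdef]
    exact ((isCompact_closedBall a s).diff isOpen_ball).diff hUo
  have hAK : Disjoint A K := by
    rw [disjoint_left]
    intro x hx hxK
    rw [hAdef] at hx
    exact hx.1.2 (ball_subset_ball hr0r (hC1 (Or.inl ⟨⟨hxK, hx.1.1⟩, hx.2⟩)))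
  have hAF : Disjoint A F := by
    rw [disjoint_left]
    intro x hx hxF
    rw [hAdef] at hx
    exact hx.1.2 (ball_subset_ball hr0r (hC1 (Or.inr hxF)))
  obtain ⟨B, hB⟩ : ∃ B, ∀ x ∈ A, ‖cgr u x‖ ≤ B := by
    have h1 : ContinuousOn (fderiv ℝ u) Kᶜ :=
      hp.smooth.continuousOn_fderiv_of_isOpen hKc.isOpen_compl le_rfl
    obtain ⟨C, hC⟩ := hAc.exists_bound_of_continuousOn (h1.mono (disjoint_left.1 hAK))
    refine ⟨C, fun x hx => ?_⟩
    rw [cgr_norm]
    exact hC x hx
  obtain ⟨B', hBB', hB'0⟩ : ∃ B', B ≤ B' ∧ 0 ≤ B' := ⟨max B 0, le_max_left _ _, le_max_right _ _⟩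
  obtain ⟨ε, hε, hεκ⟩ : ∃ ε : ℝ, 0 < ε ∧ (2 * B' + ε * (1 + M)) * (ε * (1 + M)) ≤ κ := by
    have hQ : 0 < (2 * B' + (1 + M)) * (1 + M) := by positivity
    refine ⟨min 1 (κ / ((2 * B' + (1 + M)) * (1 + M))), lt_min one_pos (by positivity), ?_⟩
    set e := min 1 (κ / ((2 * B' + (1 + M)) * (1 + M))) with he
    have h1 : e ≤ 1 := min_le_left _ _
    have h2 : e ≤ κ / ((2 * B' + (1 + M)) * (1 + M)) := min_le_right _ _
    have h0 : 0 < e := lt_min one_pos (by positivity)
    have h3 : e * ((2 * B' + (1 + M)) * (1 + M)) ≤ κ := by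
      rwa [le_div_iff₀ hQ] at h2
    refine le_trans ?_ h3
    have h4 : e * (1 + M) ≤ 1 * (1 + M) := by gcongr
    have h5 : 0 ≤ e * (1 + M) := by positivity
    nlinarith
  have hRn : ∀ᶠ n in atTop, ‖a‖ + s + η < R n := hR.eventually_gt_atTop _
  filter_upwards [hRn, hp.far A hAc hAK, hp.val A hAc hAK ε hε] with n hn1 hn2 hn3
  have hsub : closedBall a s ∪ (⋃ q ∈ P, closedBall q η) ⊆ ball 0 (R n) := by
    rintro x (hx | hx)
    · rw [mem_ball, dist_zero_right]
      calc ‖x‖ = ‖a + (x - a)‖ := by congr 1; ring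
        _ ≤ ‖a‖ + ‖x - a‖ := norm_add_le _ _
        _ ≤ ‖a‖ + s := by
          gcongr
          rw [← dist_eq_norm]
          exact hx
        _ < R n := by linarith
    · simp only [mem_iUnion, exists_prop] at hx
      obtain ⟨q, hq, hx⟩ := hx
      rw [hP] at hq
      rw [mem_ball, dist_zero_right]
      calc ‖x‖ = ‖a + (q - a) + (x - q)‖ := by congr 1; ring
        _ ≤ ‖a‖ + ‖q - a‖ + ‖x - q‖ := norm_add₃_le
        _ ≤ ‖a‖ + s + η := by
          gcongr
          · rw [← dist_eq_norm]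
            exact (mem_sphere.1 hq.2).le
          · rw [← dist_eq_norm]
            exact hx
        _ < R n := hn1
  obtain ⟨w'', l'', K'', hconf, hagree, hen⟩ := usc_glue (hmin n).toTConf hw hfin (a := a) (s := s)
    (r := r) (r' := (r + s) / 2) (ε := ε) (M := M) (B := B') hη (b := f) hb
    (fun x => ⟨f.nonneg, f.le_one⟩)
    (fun x hx => f.one_of_mem_closedBall (ball_subset_closedBall hx))
    (fun x hx => f.zero_of_le_dist (by
      rw [mem_closedBall, not_le] at hx
      exact hx.le)) hr'.le hr's hM hsub (c := c n) (Λ := lam n) (by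
      intro x hxs hxr hxU
      rw [← hU] at hxU
      have hxA : x ∈ A := by rw [hAdef]; exact ⟨⟨hxs, hxr⟩, hxU⟩
      have hxK : x ∉ K := disjoint_left.1 hAK hxA
      have hxF : x ∉ F := disjoint_left.1 hAF hxA
      have hxw := hwF x hxF hxK
      have hgw : cgr w x = cgr u x := by
        apply cgr_congr
        filter_upwards [hF.isClosed.isOpen_compl.mem_nhds hxF,
          hKc.isOpen_compl.mem_nhds hxK] with y hy1 hy2
        exact (hwF y hy1 hy2).1
      obtain ⟨k1, k2, k3⟩ := hn3 x hxA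
      refine ⟨disjoint_left.1 hn2 hxA, fun h => hxK ((hKF x hxF).1 h), ?_, ?_, ?_, ?_⟩
      · rw [hxw.1, hxw.2]
        exact k1
      · rw [hgw]
        exact k2
      · rw [hgw]
        exact (hB x hxA).trans hBB'
      · rw [hxw.2]
        exact k3)
  have hFc : IsCompact (closedBall a s ∪ (⋃ q ∈ P, closedBall q η)) :=
    (isCompact_closedBall a s).union (hfin.isCompact_biUnion fun q _ => isCompact_closedBall q η)
  have h1 := (hmin n).min w'' l'' K'' _ hconf hFc hsub (fun x hx => (hagree x hx.2).1)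
    (fun x hx _ => (hagree x hx.2).2)
  refine (cen_mono subset_union_left).trans (h1.trans (hen.trans ?_))
  gcongr

/-- **Upper semicontinuity against competitors of the limit.** -/
theorem tm_usc {R : ℕ → ℝ} (hR : Tendsto R atTop atTop) {un : ℕ → ℂ → ℝ}
    {ln : ℕ → ℂ → Set ℂ} {Kn : ℕ → Set ℂ} (h : ∀ n, TMin (ball 0 (R n)) (un n) (ln n) (Kn n))
    {c : ℕ → Set ℂ → ℝ} {lam : ℕ → Set ℂ → Set ℂ} (hp : TPre un ln Kn u K c lam)
    {w : ℂ → ℝ} {l' : ℂ → Set ℂ} {K' F : Set ℂ} (hw : TConf univ w l' K') (hF : IsCompact F)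
    {a : ℂ} {s : ℝ} (hs : 0 < s) (hFs : F ⊆ ball a s) (hK : ∀ x ∉ F, (x ∈ K' ↔ x ∈ K))
    (hwu : ∀ x ∉ F, x ∉ K → w x = u x ∧ l' x = clab K x) (hfin : (K ∩ sphere a s).Finite) :
    limsup (fun n => cen (un n) (Kn n) (closedBall a s)) atTop ≤ cen w K' (closedBall a s) := by
  have key : ∀ t : ℝ, 0 < t → limsup (fun n => cen (un n) (Kn n) (closedBall a s)) atTop ≤
      cen w K' (closedBall a s) +
        ((K ∩ sphere a s).ncard : ℝ≥0∞) * ENNReal.ofReal (2 * Real.pi * t) +
        ENNReal.ofReal t * volume (closedBall a s) := fun t ht =>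
    limsup_le_of_le (h := usc_eventually hR h hp hw hF hK hwu hs hFs hfin ht ht)
  have hlim : Tendsto (fun t : ℝ => cen w K' (closedBall a s) +
        ((K ∩ sphere a s).ncard : ℝ≥0∞) * ENNReal.ofReal (2 * Real.pi * t) +
        ENNReal.ofReal t * volume (closedBall a s)) (𝓝[>] 0) (𝓝 (cen w K' (closedBall a s))) := by
    have h1 : Tendsto (fun t : ℝ => ENNReal.ofReal (2 * Real.pi * t)) (𝓝[>] 0) (𝓝 0) := by
      have : Tendsto (fun t : ℝ => 2 * Real.pi * t) (𝓝[>] 0) (𝓝 0) := by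
        have h : Continuous fun t : ℝ => 2 * Real.pi * t := by fun_prop
        have h' := h.tendsto 0
        rw [mul_zero] at h'
        exact h'.mono_left nhdsWithin_le_nhds
      have h2 := ENNReal.tendsto_ofReal this
      simpa using h2
    have h3 : Tendsto (fun t : ℝ => ENNReal.ofReal t) (𝓝[>] 0) (𝓝 0) := by
      have h2 := ENNReal.tendsto_ofReal (tendsto_id.mono_left (nhdsWithin_le_nhds
        (s := Ioi (0 : ℝ)) (a := (0 : ℝ))))
      simpa using h2
    have h4 := ENNReal.Tendsto.const_mul h1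
      (Or.inr (ENNReal.natCast_ne_top (K ∩ sphere a s).ncard))
    have h5 := ENNReal.Tendsto.mul_const (b := volume (closedBall a s)) h3
      (Or.inr (isCompact_closedBall a s).measure_lt_top.ne)
    have h6 := (tendsto_const_nhds (x := cen w K' (closedBall a s))).add h4
    have h7 := h6.add h5
    simpa using h7
  refine ge_of_tendsto hlim ?_
  filter_upwards [self_mem_nhdsWithin] with t ht
  exact key t ht

end Pool.Agent.MP099f24
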